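import Pool.Agent.W165.OZ.Stm

/-!
# Many irrational odd zeta values: the asymptotic size (part AS)
-/

open Polynomial Pool.Agent.H337R2 Filter Topology

namespace Pool.Agent.W165.OZ

noncomputable section

lemma as_growth (K0 K1 K3 : ℝ) : ∃ n1 : ℕ, ∀ n ≥ n1, 1 ≤ n ∧
    K0 + K1 * Real.log n + K3 * (n : ℝ) ^ ((3 : ℝ) / 4) ≤ 6 * n := by
  have t1 : Tendsto (fun x : ℝ => K0 * x⁻¹) atTop (𝓝 0) := by
    simpa using tendsto_inv_atTop_zero.const_mul K0
  have t2 : Tendsto (fun x : ℝ => K1 * (Real.log x / x)) atTop (𝓝 0) := by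
    have := (Real.isLittleO_log_id_atTop.tendsto_div_nhds_zero).const_mul K1
    simpa using this
  have t3 : Tendsto (fun x : ℝ => K3 * x ^ (-(1 / 4 : ℝ))) atTop (𝓝 0) := by
    have := (tendsto_rpow_neg_atTop (by norm_num : (0 : ℝ) < 1 / 4)).const_mul K3
    simpa using this
  have t4 : Tendsto (fun x : ℝ => K0 * x⁻¹ + K1 * (Real.log x / x) + K3 * x ^ (-(1 / 4 : ℝ))) atTop
      (𝓝 0) := by
    simpa using (t1.add t2).add t3
  have t5 := (t4.comp tendsto_natCast_atTop_atTop).eventually (gt_mem_nhds (by norm_num : (0 : ℝ) < 6))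
  obtain ⟨n1, hn1⟩ := eventually_atTop.mp t5
  refine ⟨max 1 n1, fun n hn => ?_⟩
  have hn1' : 1 ≤ n := (le_max_left _ _).trans hn
  refine ⟨hn1', ?_⟩
  have hx : (0 : ℝ) < n := by exact_mod_cast hn1'
  have h6 := hn1 n ((le_max_right _ _).trans hn)
  simp only [Function.comp] at h6
  have e1 : (n : ℝ) ^ ((3 : ℝ) / 4) = n * (n : ℝ) ^ (-(1 / 4 : ℝ)) := by
    rw [← Real.rpow_one_add' hx.le (by norm_num)]
    norm_num
  have e2 : K0 + K1 * Real.log n + K3 * (n : ℝ) ^ ((3 : ℝ) / 4) =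
      n * (K0 * (n : ℝ)⁻¹ + K1 * (Real.log n / n) + K3 * (n : ℝ) ^ (-(1 / 4 : ℝ))) := by
    rw [e1]
    field_simp
  rw [e2, mul_comm (6 : ℝ)]
  exact mul_le_mul_of_nonneg_left h6.le hx.le

lemma as_sqrt_log {y : ℝ} (hy : 0 < y) : Real.sqrt y * Real.log y ≤ 4 * y ^ ((3 : ℝ) / 4) := by
  have h1 : Real.log y ≤ y ^ (1 / 4 : ℝ) / (1 / 4) := Real.log_le_rpow_div hy.le (by norm_num)
  rw [Real.sqrt_eq_rpow]
  calc y ^ (1 / 2 : ℝ) * Real.log y ≤ y ^ (1 / 2 : ℝ) * (y ^ (1 / 4 : ℝ) / (1 / 4)) :=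
        mul_le_mul_of_nonneg_left h1 (by positivity)
    _ = 4 * (y ^ (1 / 2 : ℝ) * y ^ (1 / 4 : ℝ)) := by ring
    _ = 4 * y ^ ((3 : ℝ) / 4) := by
      rw [← Real.rpow_add hy]
      norm_num

lemma MM_one_le (N i : ℕ) : 1 ≤ MM N i := le_max_left _ _

lemma sc_pos (n h B i : ℕ) : 0 < sc n h B i := by
  unfold sc
  have : 0 < Dl n B := by
    unfold Dl
    apply Finset.prod_pos
    intro p hp
    rw [Finset.mem_filter] at hp
    exact pow_pos hp.2.pos _
  positivity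

lemma PPn_pos (n h B : ℕ) : 0 < PPn n h B := by
  unfold PPn
  apply Finset.prod_pos
  intro p hp
  rw [Finset.mem_filter] at hp
  exact pow_pos hp.2.1.pos _

/-- the logarithm of the product -/
lemma as_log {N h B q n m r : ℕ} {C : ℝ} (hC : 0 < C) (hq : 1 ≤ q) (hm : 2 * m = h * n)
    (hrm : r ≤ m) :
    Real.log (Arc N n h C r * ((q : ℝ) ^ r * (∏ i ∈ Finset.range r, (sc n h B i : ℝ) ^ 2) *
      (PPn n h B : ℝ))) =
    Real.log (r.factorial : ℝ) + r * Real.log C + r * Real.log q +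
      ∑ i ∈ Finset.range r, (2 * Real.log (sc n h B i : ℝ) - 4 * ((m : ℝ) - 1 - i) *
        Real.log (MM N i)) + Real.log (PPn n h B) := by
  have hdiv : h * n / 2 = m := by omega
  have p1 : (0 : ℝ) < (r.factorial : ℝ) := by exact_mod_cast r.factorial_pos
  have p2 : 0 < C ^ r := pow_pos hC r
  have hM : ∀ i, 0 < MM N i := fun i => lt_of_lt_of_le one_pos (MM_one_le N i)
  have p3 : 0 < ∏ i ∈ Finset.range r, (MM N i ^ (4 * (h * n / 2 - 1 - i)))⁻¹ :=
    Finset.prod_pos fun i _ => inv_pos.mpr (pow_pos (hM i) _)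
  have hq' : (0 : ℝ) < q := by exact_mod_cast hq
  have p4 : (0 : ℝ) < (q : ℝ) ^ r := pow_pos hq' r
  have hs : ∀ i, (0 : ℝ) < (sc n h B i : ℝ) := fun i => by exact_mod_cast sc_pos n h B i
  have p5 : (0 : ℝ) < ∏ i ∈ Finset.range r, (sc n h B i : ℝ) ^ 2 :=
    Finset.prod_pos fun i _ => pow_pos (hs i) _
  have p6 : (0 : ℝ) < (PPn n h B : ℝ) := by exact_mod_cast PPn_pos n h B
  unfold Arc
  rw [Real.log_mul (mul_pos (mul_pos p1 p2) p3).ne' (mul_pos (mul_pos p4 p5) p6).ne',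
    Real.log_mul (mul_pos p1 p2).ne' p3.ne', Real.log_mul p1.ne' p2.ne', Real.log_pow,
    Real.log_mul (mul_pos p4 p5).ne' p6.ne', Real.log_mul p4.ne' p5.ne', Real.log_pow,
    Real.log_prod (fun i _ => (inv_pos.mpr (pow_pos (hM i) _)).ne'),
    Real.log_prod (fun i _ => (pow_pos (hs i) _).ne'), Finset.sum_sub_distrib]
  have e1 : ∑ i ∈ Finset.range r, Real.log (MM N i ^ (4 * (h * n / 2 - 1 - i)))⁻¹ =
      -∑ i ∈ Finset.range r, 4 * ((m : ℝ) - 1 - i) * Real.log (MM N i) := by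
    rw [← Finset.sum_neg_distrib]
    refine Finset.sum_congr rfl fun i hi => ?_
    have hi' := Finset.mem_range.mp hi
    rw [Real.log_inv, Real.log_pow, hdiv]
    have : ((4 * (m - 1 - i) : ℕ) : ℝ) = 4 * ((m : ℝ) - 1 - i) := by
      have h4 : m = (m - 1 - i) + 1 + i := by omega
      have h5 : (m : ℝ) = ((m - 1 - i : ℕ) : ℝ) + 1 + i := by exact_mod_cast h4
      push_cast
      rw [h5]
      ring
    rw [this]
  have e2 : ∑ i ∈ Finset.range r, Real.log ((sc n h B i : ℝ) ^ 2) =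
      ∑ i ∈ Finset.range r, 2 * Real.log (sc n h B i : ℝ) := by
    refine Finset.sum_congr rfl fun i _ => ?_
    rw [Real.log_pow]; norm_num
  rw [e1, e2]
  ring

lemma as_g5 {m h n : ℝ} (hm : 2 * m = h * n) (hh : 1 ≤ h) (hn : 0 ≤ n) :
    m * (8 * (h + 1) * n) ≤ 8 * (h * n) ^ 2 := by
  have h1 : m * (8 * (h + 1) * n) = 4 * ((h * n) * ((h + 1) * n)) := by
    have : m = h * n / 2 := by linarith
    rw [this]; ring
  have h2 : (h + 1) * n ≤ 2 * (h * n) := by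
    have : 1 * n ≤ h * n := mul_le_mul_of_nonneg_right hh hn
    linarith
  have h3 : (h * n) * ((h + 1) * n) ≤ (h * n) * (2 * (h * n)) :=
    mul_le_mul_of_nonneg_left h2 (mul_nonneg (by linarith) hn)
  rw [h1]
  calc 4 * ((h * n) * ((h + 1) * n)) ≤ 4 * ((h * n) * (2 * (h * n))) := by linarith
    _ = 8 * (h * n) ^ 2 := by ring

lemma as_g4 {m h n : ℝ} (hm : 2 * m = h * n) (hh : 1 ≤ h) (hn : 0 ≤ n) :
    m * (6 * n) ≤ 3 * (h * n) ^ 2 := by
  have h1 : m * (6 * n) = 3 * ((h * n) * n) := by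
    have : m = h * n / 2 := by linarith
    rw [this]; ring
  have h2 : n ≤ h * n := by
    have : 1 * n ≤ h * n := mul_le_mul_of_nonneg_right hh hn
    linarith
  have h3 : (h * n) * n ≤ (h * n) * (h * n) :=
    mul_le_mul_of_nonneg_left h2 (mul_nonneg (by linarith) hn)
  rw [h1]
  calc 3 * ((h * n) * n) ≤ 3 * ((h * n) * (h * n)) := by linarith
    _ = 3 * (h * n) ^ 2 := by ring

lemma as_g7 {h B n : ℝ} (hh : 1 ≤ h) (hB : 1 ≤ B) :
    h * Real.log 4 * (B * (B + 1)) * n ^ 2 * (1 + Real.log B) ≤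
      12 * ((B * (B + 1) / h) * (1 + Real.log B)) * (h * n) ^ 2 := by
  have h4 : h * Real.log 4 * (B * (B + 1)) * n ^ 2 * (1 + Real.log B) =
      Real.log 4 * (((B * (B + 1) / h) * (1 + Real.log B)) * (h * n) ^ 2) := by
    have : h ≠ 0 := by linarith
    field_simp
  rw [h4]
  have h5 : Real.log 4 ≤ 12 := by
    have := Real.log_le_sub_one_of_pos (by norm_num : (0 : ℝ) < 4)
    linarith
  have h6 : 0 ≤ ((B * (B + 1) / h) * (1 + Real.log B)) * (h * n) ^ 2 := by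
    have := Real.log_nonneg hB
    positivity
  calc Real.log 4 * (((B * (B + 1) / h) * (1 + Real.log B)) * (h * n) ^ 2) ≤
      12 * (((B * (B + 1) / h) * (1 + Real.log B)) * (h * n) ^ 2) :=
        mul_le_mul_of_nonneg_right h5 h6
    _ = _ := by ring

lemma as_growth_use {b h Lm Ln LC Lq lam s c t y : ℝ} (hh : 0 ≤ h)
    (g1 : Lm ≤ b + Ln) (g2 : s ≤ 4 * c * t)
    (hgr : (5 * b + LC + Lq + 4 * lam + (2 * h + 4)) + (5 + 4 + (2 * h + 4)) * Ln +
      ((2 * h + 4) * (4 * c)) * t ≤ y) :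
    5 * Lm + LC + Lq + 4 * Ln + 4 * lam + (2 * h + 4) * (s + Ln + 1) ≤ y := by
  have h4 : (2 * h + 4) * s ≤ (2 * h + 4) * (4 * c * t) :=
    mul_le_mul_of_nonneg_left g2 (by linarith)
  refine le_trans ?_ hgr
  linarith

lemma as_final {LF r LC aC Lq S m Lm E X Ln hn lam P Q G : ℝ} 
    (f1 : LF ≤ m * Lm) (f2 : r * LC ≤ m * aC) (f3 : r * Lq ≤ m * Lq)
    (f4 : S ≤ 4 * X + r * (4 * Lm + G + E)) (f7 : r * (4 * Lm + G + E) ≤ m * (4 * Lm + G + E))
    (f5 : X ≤ m * Ln + m ^ 2 - lam * (m ^ 2 / 16 - m)) (g6 : 2 * m = hn)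
    (g4 : m * (5 * Lm + aC + Lq + 4 * Ln + 4 * lam + E) ≤ 3 * hn ^ 2)
    (g5 : m * G ≤ 8 * hn ^ 2)
    (f6 : P ≤ Q * hn ^ 2) :
    LF + r * LC + r * Lq + S + P ≤ (12 + Q - (1 / 16) * lam) * hn ^ 2 := by
  subst g6
  have e : (12 + Q - (1 / 16) * lam) * (2 * m) ^ 2 - (LF + r * LC + r * Lq + S + P) =
      (m * Lm - LF) + (m * aC - r * LC) + (m * Lq - r * Lq) +
      (4 * X + r * (4 * Lm + G + E) - S) + (m * (4 * Lm + G + E) - r * (4 * Lm + G + E)) +
      4 * (m * Ln + m ^ 2 - lam * (m ^ 2 / 16 - m) - X) +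
      (3 * (2 * m) ^ 2 - m * (5 * Lm + aC + Lq + 4 * Ln + 4 * lam + E)) +
      (8 * (2 * m) ^ 2 - m * G) + (Q * (2 * m) ^ 2 - P) := by ring
  linarith

theorem t_as (h1 : S_PP) (h2 : S_LS) (h3 : S_SI) : S_AS := by
  refine ⟨12, by norm_num, ?_⟩
  intro N h B q C hN hh hB hq hC hNh
  set lam : ℝ := Real.log ((h : ℝ) / (2 * N)) with hlam
  have hN' : (1 : ℝ) ≤ N := by exact_mod_cast hN
  have hh' : (1 : ℝ) ≤ h := by exact_mod_cast hh
  have hB' : (1 : ℝ) ≤ B := by exact_mod_cast hB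
  have hq' : (1 : ℝ) ≤ q := by exact_mod_cast hq
  have hNh' : 2 * (N : ℝ) ≤ h := by exact_mod_cast hNh
  have hlam0 : 0 ≤ lam := Real.log_nonneg (by
    rw [le_div_iff₀ (by linarith)]; linarith)
  have hlq : 0 ≤ Real.log q := Real.log_nonneg hq'
  set K0 : ℝ := 5 * Real.log (h + 1) + |Real.log C| + Real.log q + 4 * lam + (2 * h + 4) with hK0
  set K1 : ℝ := 5 + 4 + (2 * h + 4) with hK1
  set K3 : ℝ := (2 * h + 4) * (4 * (B : ℝ) ^ ((3 : ℝ) / 4)) with hK3
  obtain ⟨n1, hn1⟩ := as_growth K0 K1 K3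
  refine ⟨max 2 n1, fun n hn hne r hr1 hr2 => ?_⟩
  have hn2 : 2 ≤ n := (le_max_left _ _).trans hn
  obtain ⟨-, hgr⟩ := hn1 n ((le_max_right _ _).trans hn)
  have hnR : (2 : ℝ) ≤ n := by exact_mod_cast hn2
  have hnpos : (0 : ℝ) < n := by linarith
  obtain ⟨m, hm⟩ : ∃ m, 2 * m = h * n := by
    obtain ⟨k, hk⟩ := hne
    exact ⟨h * k, by rw [hk]; ring⟩
  have hmR : 2 * (m : ℝ) = h * n := by exact_mod_cast hm
  have hrm : r ≤ m := by omega
  have hmr : m ≤ 8 * r := by omega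
  have hrmR : (r : ℝ) ≤ m := by exact_mod_cast hrm
  have hr0 : (0 : ℝ) ≤ r := by positivity
  have hm0 : (0 : ℝ) ≤ m := by positivity
  rw [as_log (N := N) (B := B) hC hq hm hrm]
  -- the factorial
  have hlm : 0 ≤ Real.log ((m : ℝ) + 1) := Real.log_nonneg (by linarith)
  have f1 : Real.log (r.factorial : ℝ) ≤ m * Real.log ((m : ℝ) + 1) := by
    have h4 : (r.factorial : ℝ) ≤ ((m : ℝ) + 1) ^ r := by
      have h5 : r.factorial ≤ r ^ r := Nat.factorial_le_pow r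
      have h6 : (r.factorial : ℝ) ≤ (r : ℝ) ^ r := by exact_mod_cast h5
      exact h6.trans (pow_le_pow_left₀ hr0 (by linarith) r)
    have h5 := Real.log_le_log (by exact_mod_cast r.factorial_pos) h4
    rw [Real.log_pow] at h5
    exact h5.trans (mul_le_mul_of_nonneg_right hrmR hlm)
  have f2 : (r : ℝ) * Real.log C ≤ m * |Real.log C| := by
    calc (r : ℝ) * Real.log C ≤ r * |Real.log C| :=
          mul_le_mul_of_nonneg_left (le_abs_self _) hr0
      _ ≤ m * |Real.log C| := mul_le_mul_of_nonneg_right hrmR (abs_nonneg _)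
  have f3 : (r : ℝ) * Real.log q ≤ m * Real.log q := mul_le_mul_of_nonneg_right hrmR hlq
  -- the sum
  set E : ℝ := (2 * h + 4) * (Real.sqrt ((B : ℝ) * n) * Real.log ((B : ℝ) * n) + Real.log n + 1)
    with hE
  have hlogn : 0 ≤ Real.log n := Real.log_nonneg (by linarith)
  have hBn : 1 ≤ (B : ℝ) * n := by nlinarith
  have hE0 : 0 ≤ E := by
    have := mul_nonneg (Real.sqrt_nonneg ((B : ℝ) * n)) (Real.log_nonneg hBn)
    rw [hE]; positivity
  have f4 : ∑ i ∈ Finset.range r, (2 * Real.log (sc n h B i : ℝ) - 4 * ((m : ℝ) - 1 - i) *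
        Real.log (MM N i)) ≤
      4 * (∑ i ∈ Finset.range r, ((m : ℝ) - i) * (Real.log n - Real.log (MM N i))) +
        r * (4 * Real.log ((m : ℝ) + 1) + 8 * (h + 1) * n + E) := by
    have h4 : (r : ℝ) * (4 * Real.log ((m : ℝ) + 1) + 8 * (h + 1) * n + E) =
        ∑ _i ∈ Finset.range r, (4 * Real.log ((m : ℝ) + 1) + 8 * (h + 1) * n + E) := by
      rw [Finset.sum_const, Finset.card_range, nsmul_eq_mul]
    rw [h4, Finset.mul_sum, ← Finset.sum_add_distrib]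
    refine Finset.sum_le_sum fun i hi => ?_
    have hi' := Finset.mem_range.mp hi
    have h5 := h3 n h B i hn2 hne hh hB (by omega)
    have h6 : Real.log (MM N i) ≤ Real.log ((m : ℝ) + 1) := by
      apply Real.log_le_log (lt_of_lt_of_le one_pos (MM_one_le N i))
      unfold MM
      apply max_le (by linarith)
      have h7 : (i : ℝ) ≤ m := by exact_mod_cast (by omega : i ≤ m)
      have h8 : (i : ℝ) / N ≤ i := div_le_self (by positivity) hN'
      linarith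
    have h7 : (2 * (h : ℝ) * n - 4 * i) = 4 * ((m : ℝ) - i) := by
      have : 2 * (h : ℝ) * n = 2 * (2 * m) := by rw [hmR]; ring
      rw [this]; ring
    rw [h7] at h5
    have h8 : 4 * ((m : ℝ) - 1 - i) * Real.log (MM N i) =
        4 * (((m : ℝ) - i) * Real.log (MM N i)) - 4 * Real.log (MM N i) := by ring
    rw [h8, hE]
    linarith
  have f5 := h2 N h n m r hN hNh (by omega) hm hrm hmr
  rw [← hlam] at f5
  have f6 := h1 n h B (by omega) hB
  have f7 : (r : ℝ) * (4 * Real.log ((m : ℝ) + 1) + 8 * (h + 1) * n + E) ≤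
      m * (4 * Real.log ((m : ℝ) + 1) + 8 * (h + 1) * n + E) := by
    apply mul_le_mul_of_nonneg_right hrmR
    have : 0 ≤ 8 * ((h : ℝ) + 1) * n := by positivity
    linarith
  -- the growth
  have g1 : Real.log ((m : ℝ) + 1) ≤ Real.log (h + 1) + Real.log n := by
    rw [← Real.log_mul (by positivity) hnpos.ne']
    apply Real.log_le_log (by linarith)
    nlinarith
  have g2 : Real.sqrt ((B : ℝ) * n) * Real.log ((B : ℝ) * n) ≤
      4 * (B : ℝ) ^ ((3 : ℝ) / 4) * (n : ℝ) ^ ((3 : ℝ) / 4) := by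
    have := as_sqrt_log (y := (B : ℝ) * n) (by linarith)
    rw [Real.mul_rpow (by linarith) hnpos.le] at this
    linarith
  have g3 : 5 * Real.log ((m : ℝ) + 1) + |Real.log C| + Real.log q + 4 * Real.log n + 4 * lam + E
      ≤ 6 * n := as_growth_use (by linarith) g1 g2 hgr
  have g4 : (m : ℝ) * (5 * Real.log ((m : ℝ) + 1) + |Real.log C| + Real.log q + 4 * Real.log n +
      4 * lam + E) ≤ 3 * ((h : ℝ) * n) ^ 2 :=
    (mul_le_mul_of_nonneg_left g3 hm0).trans (as_g4 hmR hh' hnpos.le)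
  have g5 : (m : ℝ) * (8 * (h + 1) * n) ≤ 8 * ((h : ℝ) * n) ^ 2 := as_g5 hmR hh' hnpos.le
  have g7 := as_g7 (h := (h : ℝ)) (B := (B : ℝ)) (n := (n : ℝ)) hh' hB'
  have key := as_final f1 f2 f3 f4 f7 f5 hmR g4 g5 (f6.trans g7)
  rw [show (12 : ℝ) * (1 + ((B : ℝ) * (B + 1) / h) * (1 + Real.log B)) - (1 / 16) * lam =
    12 + 12 * (((B : ℝ) * (B + 1) / h) * (1 + Real.log B)) - (1 / 16) * lam by ring]
  exact key

end

end Pool.Agent.W165.OZ
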