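import Pool.Agent.W165.OZ.Stm

/-!
# Many irrational odd zeta values: change of basis in the Hankel determinant
-/

open Polynomial

namespace Pool.Agent.W165.OZ

theorem t_bas : S_BAS := by
  intro R A _ _ _ L Q hm hd r
  have hQ : ∀ i : Fin r, Q i.1 = ∑ k : Fin r, C ((Q i.1).coeff k.1) * X ^ k.1 := by
    intro i
    have h := Polynomial.as_sum_range' (Q i.1) r (by rw [hd]; exact i.2)
    conv_lhs => rw [h]
    rw [Finset.sum_range (fun k => monomial k ((Q i.1).coeff k))]
    exact Finset.sum_congr rfl (fun k _ => (Polynomial.C_mul_X_pow_eq_monomial).symm)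
  have hmat : (Matrix.of fun i j : Fin r => L (Q i.1 * Q j.1))
      = (Matrix.of fun i k : Fin r => algebraMap R A ((Q i.1).coeff k.1))
        * (Matrix.of fun k l : Fin r => L (X ^ (k.1 + l.1)))
        * (Matrix.of fun i k : Fin r => algebraMap R A ((Q i.1).coeff k.1)).transpose := by
    ext i j
    rw [Matrix.mul_apply]
    simp only [Matrix.mul_apply, Matrix.of_apply, Matrix.transpose_apply]
    conv_lhs => rw [hQ i, hQ j]
    rw [Finset.sum_mul_sum, Finset.sum_comm, map_sum]
    refine Finset.sum_congr rfl (fun l _ => ?_)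
    rw [map_sum, Finset.sum_mul]
    refine Finset.sum_congr rfl (fun k _ => ?_)
    have e : C ((Q i.1).coeff k.1) * X ^ k.1 * (C ((Q j.1).coeff l.1) * X ^ l.1)
        = ((Q i.1).coeff k.1 * (Q j.1).coeff l.1) • (X ^ (k.1 + l.1) : R[X]) := by
      rw [Polynomial.smul_eq_C_mul, map_mul, pow_add]
      ring
    rw [e, map_smul, Algebra.smul_def, map_mul]
    ring
  have hdet : Matrix.det (Matrix.of fun i k : Fin r => algebraMap R A ((Q i.1).coeff k.1)) = 1 := by
    rw [Matrix.det_of_lowerTriangular]
    · apply Finset.prod_eq_one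
      intro i _
      have h := hm i.1
      rw [Polynomial.Monic, Polynomial.leadingCoeff, hd] at h
      rw [Matrix.of_apply, h, map_one]
    · intro i k hik
      have hik' : i < k := hik
      rw [Matrix.of_apply, Polynomial.coeff_eq_zero_of_natDegree_lt (by rw [hd]; exact hik'),
        map_zero]
  rw [hmat, Matrix.det_mul, Matrix.det_mul, Matrix.det_transpose, hdet, one_mul, mul_one]
  rfl

end Pool.Agent.W165.OZ
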