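import Pool.Agent.W165.OZ.Defs

/-!
# Many irrational odd zeta values: linearity and the adapted basis
-/

open Polynomial Pool.Agent.H337R2 Filter Topology

namespace Pool.Agent.W165.OZ

noncomputable section

lemma pfc_add (s : Finset ℕ) (μ : ℕ → ℕ) (P Q : ℚ[X]) (k j : ℕ) :
    pfc s μ (P + Q) k j = pfc s μ P k j + pfc s μ Q k j := by
  unfold pfc
  rw [map_add, add_mul, map_add]

lemma pfc_C_mul (s : Finset ℕ) (μ : ℕ → ℕ) (c : ℚ) (P : ℚ[X]) (k j : ℕ) :
    pfc s μ (C c * P) k j = c * pfc s μ P k j := by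
  unfold pfc
  rw [RingHom.map_mul, TS_C, mul_assoc, PowerSeries.coeff_C_mul]

lemma pa_add (s : Finset ℕ) (μ : ℕ → ℕ) (P Q : ℚ[X]) (k i : ℕ) :
    pa s μ (P + Q) k i = pa s μ P k i + pa s μ Q k i := by
  unfold pa
  split_ifs
  · exact pfc_add _ _ _ _ _ _
  · simp

lemma pa_C_mul (s : Finset ℕ) (μ : ℕ → ℕ) (c : ℚ) (P : ℚ[X]) (k i : ℕ) :
    pa s μ (C c * P) k i = c * pa s μ P k i := by
  unfold pa
  split_ifs
  · exact pfc_C_mul _ _ _ _ _ _
  · simp

lemma num_add (n : ℕ) (P Q : ℚ[X]) : num n (P + Q) = num n P + num n Q := by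
  unfold num
  rw [Polynomial.add_comp, mul_add]

lemma num_C_mul (n : ℕ) (c : ℚ) (Q : ℚ[X]) : num n (C c * Q) = C c * num n Q := by
  unfold num
  rw [Polynomial.mul_comp, Polynomial.C_comp]
  ring

lemma rhoP_add (n h : ℕ) (P Q : ℚ[X]) (i : ℕ) : rhoP n h (P + Q) i = rhoP n h P i + rhoP n h Q i := by
  unfold rhoP
  rw [← Finset.sum_add_distrib]
  exact Finset.sum_congr rfl fun k _ => pa_add _ _ _ _ _ _

lemma rhoP_C_mul (n h : ℕ) (c : ℚ) (P : ℚ[X]) (i : ℕ) : rhoP n h (C c * P) i = c * rhoP n h P i := by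
  unfold rhoP
  rw [Finset.mul_sum]
  exact Finset.sum_congr rfl fun k _ => pa_C_mul _ _ _ _ _ _

lemma betP_add (n h B : ℕ) (w : ℕ → ℤ) (P Q : ℚ[X]) (i : ℕ) :
    betP n h B w (P + Q) i = betP n h B w P i + betP n h B w Q i := by
  unfold betP
  rw [← Finset.sum_add_distrib]
  apply Finset.sum_congr rfl
  intro d _
  rw [← mul_add, ← Finset.sum_add_distrib]
  congr 1
  apply Finset.sum_congr rfl
  intro k _
  rw [pa_add]; ring

lemma betP_C_mul (n h B : ℕ) (w : ℕ → ℤ) (c : ℚ) (P : ℚ[X]) (i : ℕ) :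
    betP n h B w (C c * P) i = c * betP n h B w P i := by
  unfold betP
  rw [Finset.mul_sum]
  apply Finset.sum_congr rfl
  intro d _
  have : ∑ k ∈ sP n, pa (sP n) (mP h) (C c * P) k i * hs i (d * (k + 1))
      = c * ∑ k ∈ sP n, pa (sP n) (mP h) P k i * hs i (d * (k + 1)) := by
    rw [Finset.mul_sum]
    apply Finset.sum_congr rfl
    intro k _
    rw [pa_C_mul]; ring
  rw [this]; ring

/-- the linear form as a linear map of the polynomial `Q(y)` -/
def LaL {A : Type*} [CommRing A] [Algebra ℚ A] (n h B : ℕ) (w : ℕ → ℤ) (z : ℕ → A) : ℚ[X] →ₗ[ℚ] A where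
  toFun Q := La n h B w z (num n Q)
  map_add' P Q := by
    unfold La
    rw [num_add, ← Finset.sum_add_distrib]
    apply Finset.sum_congr rfl
    intro i _
    rw [rhoP_add, betP_add, add_mul, map_add, map_add]
    ring
  map_smul' c P := by
    rw [Polynomial.smul_eq_C_mul, num_C_mul, RingHom.id_apply]
    unfold La
    rw [Finset.smul_sum]
    apply Finset.sum_congr rfl
    intro i _
    rw [rhoP_C_mul, betP_C_mul, Algebra.smul_def, mul_assoc c, map_mul, map_mul (algebraMap ℚ A) c]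
    ring

lemma mo_eq {A : Type*} [CommRing A] [Algebra ℚ A] (n h B : ℕ) (w : ℕ → ℤ) (z : ℕ → A) (k : ℕ) :
    mo n h B w z k = LaL n h B w z (X ^ k) := rfl

/-! ### The adapted basis -/

/-- `∏_{n/2-j ≤ k < n/2} (y + k (n-1-k))` -/
def Gy (n j : ℕ) : ℚ[X] := ∏ k ∈ Finset.Ico (n / 2 - j) (n / 2), (X + C (((k * (n - 1 - k) : ℕ)) : ℚ))

/-- the adapted basis -/
def Qb (n i : ℕ) : ℚ[X] := Gy n (n / 2) ^ (i / (n / 2)) * Gy n (i % (n / 2))

lemma Gy_monic (n j : ℕ) : (Gy n j).Monic :=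
  Polynomial.monic_prod_of_monic _ _ fun _ _ => Polynomial.monic_X_add_C _

lemma Gy_natDegree (n j : ℕ) (hj : j ≤ n / 2) : (Gy n j).natDegree = j := by
  unfold Gy
  rw [Polynomial.natDegree_prod_of_monic _ _ fun _ _ => Polynomial.monic_X_add_C _]
  simp only [Polynomial.natDegree_X_add_C, Finset.sum_const, Nat.card_Ico, smul_eq_mul, mul_one]
  omega

lemma Qb_monic (n i : ℕ) : (Qb n i).Monic := ((Gy_monic n _).pow _).mul (Gy_monic n _)

lemma Qb_natDegree (n i : ℕ) (hn : 2 ≤ n) : (Qb n i).natDegree = i := by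
  unfold Qb
  have h0 : 0 < n / 2 := by omega
  rw [((Gy_monic n _).pow _).natDegree_mul (Gy_monic n _), (Gy_monic n _).natDegree_pow,
    Gy_natDegree n _ le_rfl, Gy_natDegree n _ (Nat.mod_lt i h0).le]
  exact Nat.div_add_mod' i (n / 2)

/-- one factor: `y + k(n-1-k) = (t+k)(t+n-1-k)` -/
lemma factor_comp (n k : ℕ) (hk : k + 1 ≤ n) :
    (X + C (((k * (n - 1 - k) : ℕ)) : ℚ)).comp (yp n) = (X + C (k : ℚ)) * (X + C (((n - 1 - k : ℕ)) : ℚ)) := by
  have h1 : (((n - 1 - k : ℕ)) : ℚ) = (n : ℚ) - 1 - k := by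
    rw [Nat.sub_sub, Nat.cast_sub (by omega)]
    push_cast; ring
  rw [Polynomial.add_comp, Polynomial.X_comp, Polynomial.C_comp]
  unfold yp
  rw [Nat.cast_mul, h1]
  simp only [map_sub, map_mul, map_one]
  ring

/-- `G_j(y(t)) = ∏_{n/2-j ≤ k < n/2+j} (t+k)` for even `n` -/
lemma Gy_comp (n j : ℕ) (hn : Even n) (hj : j ≤ n / 2) :
    (Gy n j).comp (yp n) = ∏ k ∈ Finset.Ico (n / 2 - j) (n / 2 + j), (X + C (k : ℚ)) := by
  obtain ⟨c, hc⟩ := hn
  have hc2 : n / 2 = c := by omega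
  unfold Gy
  rw [Polynomial.prod_comp, hc2]
  rw [hc2] at hj
  have h1 : ∏ k ∈ Finset.Ico (c - j) c, (X + C (((k * (n - 1 - k) : ℕ)) : ℚ)).comp (yp n)
      = ∏ k ∈ Finset.Ico (c - j) c, ((X + C (k : ℚ)) * (X + C (((n - 1 - k : ℕ)) : ℚ))) := by
    apply Finset.prod_congr rfl
    intro k hk
    rw [Finset.mem_Ico] at hk
    exact factor_comp n k (by omega)
  rw [h1, Finset.prod_mul_distrib, ← Finset.prod_Ico_consecutive (fun k : ℕ => (X + C (k : ℚ) : ℚ[X]))
    (show c - j ≤ c by omega) (show c ≤ c + j by omega)]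
  congr 1
  apply Finset.prod_bij (fun k _ => n - 1 - k)
  · intro k hk
    rw [Finset.mem_Ico] at *
    omega
  · intro a ha b hb hab
    rw [Finset.mem_Ico] at *
    omega
  · intro b hb
    rw [Finset.mem_Ico] at hb
    exact ⟨n - 1 - b, by rw [Finset.mem_Ico]; omega, by omega⟩
  · intro k _
    rfl

end

end Pool.Agent.W165.OZ
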