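import Pool.Agent.W165.OZ.Stm2

/-!
# Odd zeta values outside number fields: the absolute value of the partial fraction coefficients
-/

open Polynomial Pool.Agent.H337R2 Filter Topology

namespace Pool.Agent.W165.OZ

noncomputable section

namespace CB

/-- the weighted `ℓ¹` norm of the coefficients is `≤ A` -/
def AB (A : ℚ) (f : PowerSeries ℚ) : Prop :=
  ∀ J : ℕ, ∑ j ∈ Finset.range J, |PowerSeries.coeff j f| * (1 / 2) ^ j ≤ A

lemma AB.nonneg {A : ℚ} {f : PowerSeries ℚ} (h : AB A f) : 0 ≤ A := by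
  simpa using h 0

lemma AB.coeff_le {A : ℚ} {f : PowerSeries ℚ} (h : AB A f) (j : ℕ) : |PowerSeries.coeff j f| ≤ 2 ^ j * A := by
  have h1 := h (j + 1)
  rw [Finset.sum_range_succ] at h1
  have h2 : 0 ≤ ∑ i ∈ Finset.range j, |PowerSeries.coeff i f| * (1 / 2 : ℚ) ^ i :=
    Finset.sum_nonneg fun i _ => by positivity
  have h3 : |PowerSeries.coeff j f| * (1 / 2 : ℚ) ^ j ≤ A := by linarith
  have h4 : (2 : ℚ) ^ j * (1 / 2) ^ j = 1 := by
    rw [← mul_pow]; norm_num
  calc |PowerSeries.coeff j f| = 2 ^ j * (|PowerSeries.coeff j f| * (1 / 2 : ℚ) ^ j) := by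
        rw [mul_comm (|PowerSeries.coeff j f|), ← mul_assoc, h4, one_mul]
    _ ≤ 2 ^ j * A := mul_le_mul_of_nonneg_left h3 (by positivity)

lemma sum_antidiag_le (J : ℕ) (F : ℕ × ℕ → ℚ) (hF : ∀ x, 0 ≤ F x) :
    ∑ j ∈ Finset.range J, ∑ x ∈ Finset.HasAntidiagonal.antidiagonal j, F x ≤
      ∑ x ∈ Finset.range J ×ˢ Finset.range J, F x := by
  have h1 : ∑ j ∈ Finset.range J, ∑ x ∈ Finset.HasAntidiagonal.antidiagonal j, F x =
      ∑ x ∈ (Finset.range J ×ˢ Finset.range J).filter (fun x => x.1 + x.2 < J), F x := by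
    rw [← Finset.sum_fiberwise_of_maps_to (s := (Finset.range J ×ˢ Finset.range J).filter
      (fun x => x.1 + x.2 < J)) (t := Finset.range J) (g := fun x => x.1 + x.2)]
    · apply Finset.sum_congr rfl
      intro j hj
      apply Finset.sum_congr _ fun _ _ => rfl
      ext x
      simp only [Finset.HasAntidiagonal.mem_antidiagonal, Finset.mem_filter, Finset.mem_product, Finset.mem_range] at hj ⊢
      constructor
      · intro h; omega
      · intro h; omega
    · intro x hx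
      simp only [Finset.mem_filter, Finset.mem_range] at hx ⊢
      exact hx.2
  rw [h1]
  exact Finset.sum_le_sum_of_subset_of_nonneg (Finset.filter_subset _ _) fun x _ _ => hF x

lemma AB.mul {A B : ℚ} {f g : PowerSeries ℚ} (hf : AB A f) (hg : AB B g) : AB (A * B) (f * g) := by
  intro J
  calc ∑ j ∈ Finset.range J, |PowerSeries.coeff j (f * g)| * (1 / 2 : ℚ) ^ j
      ≤ ∑ j ∈ Finset.range J, ∑ x ∈ Finset.HasAntidiagonal.antidiagonal j,
          (|PowerSeries.coeff x.1 f| * (1 / 2 : ℚ) ^ x.1) * (|PowerSeries.coeff x.2 g| * (1 / 2 : ℚ) ^ x.2) := by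
        apply Finset.sum_le_sum
        intro j _
        rw [PowerSeries.coeff_mul]
        calc |∑ x ∈ Finset.HasAntidiagonal.antidiagonal j, PowerSeries.coeff x.1 f * PowerSeries.coeff x.2 g| * (1 / 2 : ℚ) ^ j
            ≤ (∑ x ∈ Finset.HasAntidiagonal.antidiagonal j, |PowerSeries.coeff x.1 f * PowerSeries.coeff x.2 g|) *
                (1 / 2 : ℚ) ^ j :=
              mul_le_mul_of_nonneg_right (Finset.abs_sum_le_sum_abs _ _) (by positivity)
          _ = _ := by
              rw [Finset.sum_mul]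
              apply Finset.sum_congr rfl
              intro x hx
              rw [← Finset.HasAntidiagonal.mem_antidiagonal.1 hx, abs_mul, pow_add]
              ring
    _ ≤ ∑ x ∈ Finset.range J ×ˢ Finset.range J,
          (|PowerSeries.coeff x.1 f| * (1 / 2 : ℚ) ^ x.1) * (|PowerSeries.coeff x.2 g| * (1 / 2 : ℚ) ^ x.2) :=
        sum_antidiag_le J _ fun x => by positivity
    _ = (∑ j ∈ Finset.range J, |PowerSeries.coeff j f| * (1 / 2 : ℚ) ^ j) *
          (∑ j ∈ Finset.range J, |PowerSeries.coeff j g| * (1 / 2 : ℚ) ^ j) := by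
        rw [Finset.sum_mul_sum, Finset.sum_product]
    _ ≤ A * B := mul_le_mul (hf J) (hg J) (Finset.sum_nonneg fun i _ => by positivity) hf.nonneg

lemma AB.one : AB 1 1 := by
  intro J
  rcases J with _ | J
  · simp
  · rw [Finset.sum_range_succ']
    simp [PowerSeries.coeff_one]

lemma AB.pow {A : ℚ} {f : PowerSeries ℚ} (hf : AB A f) (n : ℕ) : AB (A ^ n) (f ^ n) := by
  induction n with
  | zero => simpa using AB.one
  | succ n ih => rw [pow_succ, pow_succ]; exact ih.mul hf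

lemma AB.prod {ι : Type*} (s : Finset ι) (A : ι → ℚ) (f : ι → PowerSeries ℚ)
    (hf : ∀ i ∈ s, AB (A i) (f i)) : AB (∏ i ∈ s, A i) (∏ i ∈ s, f i) := by
  classical
  induction s using Finset.induction_on with
  | empty => simpa using AB.one
  | insert a s ha ih =>
    rw [Finset.prod_insert ha, Finset.prod_insert ha]
    exact (hf a (Finset.mem_insert_self _ _)).mul (ih fun i hi => hf i (Finset.mem_insert_of_mem hi))

lemma AB.mono {A B : ℚ} {f : PowerSeries ℚ} (h : AB A f) (hAB : A ≤ B) : AB B f := fun J => (h J).trans hAB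

/-- `u X + a` -/
lemma AB.lin (u a : ℚ) : AB (|u| / 2 + |a|) (PowerSeries.C u * PowerSeries.X + PowerSeries.C a) := by
  intro J
  rcases J with _ | _ | J
  · simp; positivity
  · simp
    positivity
  · rw [Finset.sum_range_succ', Finset.sum_range_succ']
    have h0 : ∑ k ∈ Finset.range J, |PowerSeries.coeff (k + 1 + 1)
        (PowerSeries.C u * PowerSeries.X + PowerSeries.C a)| * (1 / 2 : ℚ) ^ (k + 1 + 1) = 0 := by
      apply Finset.sum_eq_zero
      intro k _
      simp [PowerSeries.coeff_C, PowerSeries.coeff_X]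
    rw [h0]
    simp [PowerSeries.coeff_C]
    linarith

lemma AB.linX (a : ℚ) : AB (|a| + 1) (PowerSeries.X + PowerSeries.C a) := by
  have h := AB.lin 1 a
  rw [map_one, one_mul] at h
  exact h.mono (by norm_num; linarith)

lemma AB.iv {a : ℚ} (ha : 1 ≤ |a|) : AB (2 / |a|) (Pool.Agent.H337R2.iv a) := by
  intro J
  have h0 : 0 < |a| := by linarith
  calc ∑ j ∈ Finset.range J, |PowerSeries.coeff j (Pool.Agent.H337R2.iv a)| * (1 / 2 : ℚ) ^ j
      ≤ ∑ j ∈ Finset.range J, (1 / |a|) * (1 / 2 : ℚ) ^ j := by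
        apply Finset.sum_le_sum
        intro j _
        apply mul_le_mul_of_nonneg_right _ (by positivity)
        simp only [Pool.Agent.H337R2.iv, PowerSeries.coeff_mk]
        rw [abs_div, abs_pow, abs_neg, abs_one, one_pow, abs_pow]
        apply one_div_le_one_div_of_le h0
        calc |a| = |a| ^ 1 := (pow_one _).symm
          _ ≤ |a| ^ (j + 1) := pow_le_pow_right₀ ha (by omega)
    _ = (1 / |a|) * ∑ j ∈ Finset.range J, (1 / 2 : ℚ) ^ j := by rw [Finset.mul_sum]
    _ ≤ (1 / |a|) * 2 := by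
        apply mul_le_mul_of_nonneg_left _ (by positivity)
        rw [geom_sum_eq (by norm_num)]
        have : (0 : ℚ) ≤ (1 / 2) ^ J := by positivity
        have h2 : ((1 / 2 : ℚ) ^ J - 1) / (1 / 2 - 1) = 2 * (1 - (1 / 2) ^ J) := by ring
        rw [h2]
        linarith
    _ = 2 / |a| := by ring

/-! ### Products of integers -/

lemma up (a k L : ℕ) (hk : k ≤ a) :
    ∏ m ∈ Finset.Ico a (a + L), (|-(k : ℚ) + m| + 1) = (L.factorial : ℚ) * ((a - k + L).choose L : ℕ) := by
  rw [Finset.prod_Ico_eq_prod_range, Nat.add_sub_cancel_left]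
  have h1 : ∀ i ∈ Finset.range L, |-(k : ℚ) + ((a + i : ℕ) : ℚ)| + 1 = (((a - k) + 1 + i : ℕ) : ℚ) := by
    intro i _
    have hk' : (k : ℚ) ≤ a := by exact_mod_cast hk
    rw [abs_of_nonneg (by push_cast; have : (0 : ℚ) ≤ i := Nat.cast_nonneg i; linarith)]
    push_cast [Nat.cast_sub hk]
    ring
  rw [Finset.prod_congr rfl h1, ← Nat.cast_prod, ← Nat.ascFactorial_eq_prod_range,
    Nat.ascFactorial_eq_factorial_mul_choose]
  push_cast
  ring

lemma down (a k L : ℕ) (hk : a + L ≤ k + 1) :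
    ∏ m ∈ Finset.Ico a (a + L), (|-(k : ℚ) + m| + 1) = (L.factorial : ℚ) * ((k + 1 - a).choose L : ℕ) := by
  rw [Finset.prod_Ico_eq_prod_range, Nat.add_sub_cancel_left]
  have h1 : ∀ i ∈ Finset.range L, |-(k : ℚ) + ((a + i : ℕ) : ℚ)| + 1 = (((k + 1 - a) - i : ℕ) : ℚ) := by
    intro i hi
    rw [Finset.mem_range] at hi
    have h2 : a + i ≤ k := by omega
    have h3 : (k + 1 - a) - i = k - (a + i) + 1 := by omega
    have h4 : (((a + i : ℕ)) : ℚ) ≤ k := by exact_mod_cast h2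
    rw [h3, abs_of_nonpos (by linarith)]
    push_cast [Nat.cast_sub h2]
    ring
  rw [Finset.prod_congr rfl h1, ← Nat.cast_prod, ← Nat.descFactorial_eq_prod_range,
    Nat.descFactorial_eq_factorial_mul_choose]
  push_cast
  ring

lemma choose_le' (x y n : ℕ) (h : x ≤ n) : x.choose y ≤ 2 ^ n :=
  (Nat.choose_le_two_pow x y).trans (Nat.pow_le_pow_right (by norm_num) h)

lemma interval (a L n k : ℕ) (ha : a + L ≤ n) (hk : k < n) :
    ∏ m ∈ Finset.Ico a (a + L), (|-(k : ℚ) + m| + 1) ≤ (L.factorial : ℚ) * 2 ^ n := by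
  rcases le_or_gt k a with h1 | h1
  · rw [up a k L h1]
    apply mul_le_mul_of_nonneg_left _ (by positivity)
    exact_mod_cast choose_le' _ _ n (by omega)
  rcases le_or_gt (a + L) (k + 1) with h2 | h2
  · rw [down a k L h2]
    apply mul_le_mul_of_nonneg_left _ (by positivity)
    exact_mod_cast choose_le' _ _ n (by omega)
  · rw [← Finset.prod_Ico_consecutive _ h1.le (show k ≤ a + L by omega)]
    have e1 := down a k (k - a) (by omega)
    have e2 := up k k (a + L - k) le_rfl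
    rw [show a + (k - a) = k by omega] at e1
    rw [show k + (a + L - k) = a + L by omega] at e2
    rw [e1, e2]
    rw [Nat.sub_self, zero_add, Nat.choose_self]
    have h3 : (k - a).factorial * (a + L - k).factorial ≤ L.factorial := by
      have := Nat.factorial_mul_factorial_dvd_factorial_add (k - a) (a + L - k)
      rw [show k - a + (a + L - k) = L by omega] at this
      exact Nat.le_of_dvd (Nat.factorial_pos _) this
    have h4 : (k + 1 - a).choose (k - a) ≤ 2 ^ n := choose_le' _ _ n (by omega)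
    have h5 : (k - a).factorial * (k + 1 - a).choose (k - a) * ((a + L - k).factorial * 1) ≤
        L.factorial * 2 ^ n := by
      calc _ = ((k - a).factorial * (a + L - k).factorial) * (k + 1 - a).choose (k - a) := by ring
        _ ≤ _ := Nat.mul_le_mul h3 h4
    exact_mod_cast h5

lemma erase_prod (n k : ℕ) (hk : k < n) :
    ∏ m ∈ (Finset.range n).erase k, |-(k : ℚ) + m| = (k.factorial : ℚ) * ((n - 1 - k).factorial : ℕ) := by
  have h1 : (Finset.range n).erase k = Finset.range k ∪ Finset.Ico (k + 1) n := by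
    ext m
    simp only [Finset.mem_erase, Finset.mem_range, Finset.mem_union, Finset.mem_Ico]
    omega
  have h2 : Disjoint (Finset.range k) (Finset.Ico (k + 1) n) := by
    rw [Finset.disjoint_left]
    intro m hm hm'
    rw [Finset.mem_range] at hm
    rw [Finset.mem_Ico] at hm'
    omega
  rw [h1, Finset.prod_union h2]
  congr 1
  · have h3 : ∀ i ∈ Finset.range k, |-(k : ℚ) + i| = ((k - i : ℕ) : ℚ) := by
      intro i hi
      rw [Finset.mem_range] at hi
      have h4 : (i : ℚ) ≤ k := by exact_mod_cast hi.le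
      rw [abs_of_nonpos (by linarith), Nat.cast_sub hi.le]
      ring
    rw [Finset.prod_congr rfl h3, ← Nat.cast_prod, ← Nat.descFactorial_eq_prod_range,
      Nat.descFactorial_self]
  · rw [Finset.prod_Ico_eq_prod_range, show n - (k + 1) = n - 1 - k by omega]
    have h3 : ∀ i ∈ Finset.range (n - 1 - k), |-(k : ℚ) + ((k + 1 + i : ℕ) : ℚ)| = ((i + 1 : ℕ) : ℚ) := by
      intro i _
      rw [abs_of_nonneg (by push_cast; have : (0 : ℚ) ≤ i := Nat.cast_nonneg i; linarith)]
      push_cast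
      ring
    rw [Finset.prod_congr rfl h3, ← Nat.cast_prod, Finset.prod_range_add_one_eq_factorial]

/-! ### The power series -/

/-- the linear factor -/
def ll (n : ℕ) : ℚ[X] := C 2 * X + C ((n : ℚ) - 1)

/-- the partial products -/
def gg (n j : ℕ) : ℚ[X] := ∏ k ∈ Finset.Ico (n / 2 - j) (n / 2 + j), (X + C (k : ℚ))

/-- the power series after removing the factor `X ^ e` -/
def ff (n k j j' w : ℕ) : PowerSeries ℚ :=
  TS (-(k : ℚ)) (ll n) * TS (-(k : ℚ)) (gg n j) * TS (-(k : ℚ)) (gg n j') *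
    ∏ m ∈ (Finset.range n).erase k, Pool.Agent.H337R2.iv (-(k : ℚ) + m) ^ w

lemma Qb_comp (n i : ℕ) (hn : Even n) (hn2 : 2 ≤ n) :
    (Qb n i).comp (yp n) = (∏ k ∈ Finset.range n, (X + C (k : ℚ))) ^ (i / (n / 2)) * gg n (i % (n / 2)) := by
  unfold Qb gg
  have h0 : 0 < n / 2 := by omega
  obtain ⟨c, hc⟩ := hn
  rw [Polynomial.mul_comp, Polynomial.pow_comp, Gy_comp n _ ⟨c, hc⟩ le_rfl,
    Gy_comp n _ ⟨c, hc⟩ (Nat.mod_lt i h0).le, Nat.sub_self, show n / 2 + n / 2 = n by omega,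
    ← Finset.range_eq_Ico]

lemma TS_pi (n k : ℕ) (hk : k < n) : TS (-(k : ℚ)) (∏ m ∈ Finset.range n, (X + C (m : ℚ))) =
    PowerSeries.X * ∏ m ∈ (Finset.range n).erase k, (PowerSeries.X + PowerSeries.C (-(k : ℚ) + m)) := by
  rw [map_prod, ← Finset.mul_prod_erase _ _ (Finset.mem_range.2 hk)]
  congr 1
  · rw [TS_lin]; simp
  · exact Finset.prod_congr rfl fun m _ => TS_lin _ _

lemma series (n h i i' k w : ℕ) (hn : Even n) (hn2 : 2 ≤ n) (hk : k < n)
    (hw : 2 * h = (i / (n / 2) + i' / (n / 2)) + w) :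
    TS (-(k : ℚ)) (num n (Qb n i * Qb n i')) * VV ((sP n).erase k) (mP h) (-(k : ℚ)) =
      PowerSeries.X ^ (i / (n / 2) + i' / (n / 2)) * ff n k (i % (n / 2)) (i' % (n / 2)) w := by
  unfold num VV ff
  rw [Polynomial.mul_comp, Qb_comp n i hn hn2, Qb_comp n i' hn hn2]
  change TS (-(k : ℚ)) (ll n * _) * _ = _
  set e := i / (n / 2) with he
  set e' := i' / (n / 2) with he'
  have h1 : ∏ m ∈ (sP n).erase k, Pool.Agent.H337R2.iv (-(k : ℚ) + m) ^ mP h m =
      (∏ m ∈ (Finset.range n).erase k, Pool.Agent.H337R2.iv (-(k : ℚ) + m)) ^ (e + e') *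
        ∏ m ∈ (Finset.range n).erase k, Pool.Agent.H337R2.iv (-(k : ℚ) + m) ^ w := by
    rw [← Finset.prod_pow, ← Finset.prod_mul_distrib]
    apply Finset.prod_congr rfl
    intro m _
    rw [← pow_add, ← hw]
  have h2 : (∏ m ∈ (Finset.range n).erase k, (PowerSeries.X + PowerSeries.C (-(k : ℚ) + m))) *
      (∏ m ∈ (Finset.range n).erase k, Pool.Agent.H337R2.iv (-(k : ℚ) + m)) = 1 := by
    rw [← Finset.prod_mul_distrib]
    apply Finset.prod_eq_one
    intro m hm
    apply lin_mul_iv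
    intro h0
    have : m ≠ k := Finset.ne_of_mem_erase hm
    apply this
    have : (m : ℚ) = k := by linarith
    exact_mod_cast this
  rw [h1, map_mul, map_mul, map_mul, map_mul, map_pow, map_pow, TS_pi n k hk]
  set P := ∏ m ∈ (Finset.range n).erase k, (PowerSeries.X + PowerSeries.C (-(k : ℚ) + m))
  set I := ∏ m ∈ (Finset.range n).erase k, Pool.Agent.H337R2.iv (-(k : ℚ) + m)
  calc _ = PowerSeries.X ^ (e + e') * (TS (-(k : ℚ)) (ll n) * TS (-(k : ℚ)) (gg n (i % (n / 2))) *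
        TS (-(k : ℚ)) (gg n (i' % (n / 2))) *
          ∏ m ∈ (Finset.range n).erase k, Pool.Agent.H337R2.iv (-(k : ℚ) + m) ^ w) * (P * I) ^ (e + e') := by
        ring
    _ = _ := by rw [h2, one_pow, mul_one]

lemma AB_ll (n k : ℕ) (hk : k < n) : AB n (TS (-(k : ℚ)) (ll n)) := by
  have h1 : TS (-(k : ℚ)) (ll n) = PowerSeries.C 2 * PowerSeries.X + PowerSeries.C ((n : ℚ) - 1 - 2 * k) := by
    unfold ll
    rw [map_add, map_mul, TS_C, TS_C, TS_X, mul_add, ← map_mul, add_assoc, ← map_add]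
    congr 2
    ring
  rw [h1]
  refine (AB.lin _ _).mono ?_
  have h2 : (k : ℚ) + 1 ≤ n := by exact_mod_cast hk
  have h3 : (0 : ℚ) ≤ k := Nat.cast_nonneg k
  have h4 : |(n : ℚ) - 1 - 2 * k| ≤ n - 1 := abs_le.2 ⟨by linarith, by linarith⟩
  have h5 : |(2 : ℚ)| = 2 := abs_of_pos (by norm_num)
  rw [h5]
  linarith

lemma AB_gg (n j k : ℕ) (hj : j ≤ n / 2) (hk : k < n) :
    AB (((2 * j).factorial : ℚ) * 2 ^ n) (TS (-(k : ℚ)) (gg n j)) := by
  unfold gg
  rw [map_prod]
  have h1 := AB.prod (Finset.Ico (n / 2 - j) (n / 2 + j)) (fun m => |-(k : ℚ) + m| + 1)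
    (fun m => TS (-(k : ℚ)) (X + C (m : ℚ))) (fun m _ => by
      rw [TS_lin]
      exact AB.linX _)
  refine h1.mono ?_
  have h2 := interval (n / 2 - j) (2 * j) n k (by omega) hk
  rw [show n / 2 - j + 2 * j = n / 2 + j by omega] at h2
  exact h2

lemma AB_ff (n k j j' w : ℕ) (hk : k < n) (hj : j ≤ n / 2) (hj' : j' ≤ n / 2) :
    AB (n * (((2 * j).factorial : ℚ) * 2 ^ n) * (((2 * j').factorial : ℚ) * 2 ^ n) *
      (∏ m ∈ (Finset.range n).erase k, 2 / |-(k : ℚ) + m|) ^ w) (ff n k j j' w) := by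
  unfold ff
  refine (((AB_ll n k hk).mul (AB_gg n j k hj hk)).mul (AB_gg n j' k hj' hk)).mul ?_
  rw [← Finset.prod_pow]
  apply AB.prod
  intro m hm
  apply AB.pow
  apply AB.iv
  have h1 : m ≠ k := Finset.ne_of_mem_erase hm
  have h2 : (-(k : ℤ) + m) ≠ 0 := by
    intro h
    apply h1
    omega
  have h3 := Int.one_le_abs h2
  have h4 : ((1 : ℤ) : ℚ) ≤ ((|-(k : ℤ) + m| : ℤ) : ℚ) := by exact_mod_cast h3
  push_cast at h4
  exact h4

lemma fact_bound (n k : ℕ) (hk : k < n) :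
    (n.factorial : ℚ) * ∏ m ∈ (Finset.range n).erase k, 2 / |-(k : ℚ) + m| ≤ 8 ^ n := by
  rw [Finset.prod_div_distrib, erase_prod n k hk, Finset.prod_const, Finset.card_erase_of_mem
    (Finset.mem_range.2 hk), Finset.card_range]
  have h1 : (n.factorial : ℚ) = n * (((n - 1).choose k : ℕ) * (k.factorial * ((n - 1 - k).factorial : ℕ))) := by
    have h2 := Nat.choose_mul_factorial_mul_factorial (show k ≤ n - 1 by omega)
    have h3 : n.factorial = n * (n - 1).factorial := (Nat.mul_factorial_pred (by omega)).symm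
    rw [h3, ← h2]
    push_cast
    ring
  rw [h1]
  have h4 : (0 : ℚ) < k.factorial * ((n - 1 - k).factorial : ℕ) := by positivity
  have h5 : (((n - 1).choose k : ℕ) : ℚ) ≤ 2 ^ n := by
    exact_mod_cast choose_le' _ _ n (by omega)
  have h6 : (n : ℚ) ≤ 2 ^ n := by exact_mod_cast (Nat.lt_two_pow_self).le
  have h7 : (2 : ℚ) ^ (n - 1) ≤ 2 ^ n := pow_le_pow_right₀ (by norm_num) (by omega)
  calc (n : ℚ) * (((n - 1).choose k : ℕ) * (k.factorial * ((n - 1 - k).factorial : ℕ))) *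
        (2 ^ (n - 1) / (k.factorial * ((n - 1 - k).factorial : ℕ)))
      = (n : ℚ) * ((n - 1).choose k : ℕ) * 2 ^ (n - 1) := by field_simp
    _ ≤ 2 ^ n * 2 ^ n * 2 ^ n := by gcongr
    _ = 8 ^ n := by rw [← mul_pow, ← mul_pow]; norm_num

end CB

open CB in
theorem t_cb (h1 : S_DL) : S_CB := by
  refine ⟨60, by norm_num, ?_⟩
  intro n h B i i' k ι hn he hh hB hi hi' hk hι hι2
  have h0 : 0 < n / 2 := by omega
  set l := i / (n / 2) with hl
  set l' := i' / (n / 2) with hl'
  set j := i % (n / 2) with hj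
  set j' := i' % (n / 2) with hj'
  obtain ⟨c, hc⟩ := he
  have hc2 : n / 2 = c := by omega
  have hlh : l < h := by
    rw [hl, Nat.div_lt_iff_lt_mul h0, hc2]
    rw [hc] at hi
    nlinarith
  have hlh' : l' < h := by
    rw [hl', Nat.div_lt_iff_lt_mul h0, hc2]
    rw [hc] at hi'
    nlinarith
  obtain ⟨a, ha⟩ : ∃ a, h = l + a := ⟨h - l, by omega⟩
  obtain ⟨a', ha'⟩ : ∃ a', h = l' + a' := ⟨h - l', by omega⟩
  have hjn : j ≤ n / 2 := (Nat.mod_lt i h0).le
  have hjn' : j' ≤ n / 2 := (Nat.mod_lt i' h0).le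
  have hser := series n h i i' k (a + a') ⟨c, hc⟩ hn hk (by rw [← hl, ← hl']; omega)
  rw [← hl, ← hl', ← hj, ← hj'] at hser
  have hAB := AB_ff n k j j' (a + a') hk hjn hjn'
  clear_value l l' j j'
  -- the bound for the partial fraction coefficient
  have hpa : |pa (sP n) (mP h) (num n (Qb n i * Qb n i')) k ι| ≤
      2 ^ (2 * h) * (n * (((2 * j).factorial : ℚ) * 2 ^ n) * (((2 * j').factorial : ℚ) * 2 ^ n) *
      (∏ m ∈ (Finset.range n).erase k, 2 / |-(k : ℚ) + m|) ^ (a + a')) := by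
    have hnn := hAB.nonneg
    unfold pa
    rw [if_pos (by simpa using hι2)]
    unfold pfc
    rw [hser, PowerSeries.coeff_X_pow_mul']
    split_ifs with hle
    · refine (hAB.coeff_le _).trans ?_
      apply mul_le_mul_of_nonneg_right _ hnn
      apply pow_le_pow_right₀ (by norm_num)
      have hmP : mP h k = 2 * h := rfl
      omega
    · rw [abs_zero]
      positivity
  -- the scaling factors
  have hsc : sc n h B i * sc n h B i' = ((n.factorial : ℚ) ^ (a + a') * (Dl n B : ℚ) ^ (a + a' + 4)) /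
      (((2 * j).factorial : ℚ) * ((2 * j').factorial : ℚ)) := by
    unfold sc
    rw [← hl, ← hl', ← hj, ← hj', show h - l = a by omega, show h - l' = a' by omega]
    rw [div_mul_div_comm]
    congr 1
    ring
  have hDpos : (0 : ℚ) < (Dl n B : ℚ) := by
    have : 0 < Dl n B := by
      unfold Dl
      refine Finset.prod_pos fun p hp => ?_
      exact pow_pos (Finset.mem_filter.1 hp).2.pos _
    exact_mod_cast this
  have hPr : (0 : ℚ) ≤ ∏ m ∈ (Finset.range n).erase k, 2 / |-(k : ℚ) + m| :=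
    Finset.prod_nonneg fun m _ => by positivity
  have hmain : |sc n h B i * sc n h B i' * pa (sP n) (mP h) (num n (Qb n i * Qb n i')) k ι| ≤
      2 ^ (2 * h) * 2 ^ (3 * n) * 8 ^ (n * (a + a')) * (Dl n B : ℚ) ^ (a + a' + 4) := by
    rw [abs_mul, hsc]
    have hsc0 : (0 : ℚ) ≤ ((n.factorial : ℚ) ^ (a + a') * (Dl n B : ℚ) ^ (a + a' + 4)) /
      (((2 * j).factorial : ℚ) * ((2 * j').factorial : ℚ)) := by positivity
    rw [abs_of_nonneg hsc0]
    refine (mul_le_mul_of_nonneg_left hpa hsc0).trans ?_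
    have hf1 : (0 : ℚ) < ((2 * j).factorial : ℚ) := by positivity
    have hf2 : (0 : ℚ) < ((2 * j').factorial : ℚ) := by positivity
    have h6 : (n : ℚ) ≤ 2 ^ n := by exact_mod_cast (Nat.lt_two_pow_self).le
    have hfb := fact_bound n k hk
    have hfb0 : (0 : ℚ) ≤ (n.factorial : ℚ) * ∏ m ∈ (Finset.range n).erase k, 2 / |-(k : ℚ) + m| := by
      positivity
    calc _ = 2 ^ (2 * h) * ((n : ℚ) * 2 ^ n * 2 ^ n) *
          ((n.factorial : ℚ) * ∏ m ∈ (Finset.range n).erase k, 2 / |-(k : ℚ) + m|) ^ (a + a') *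
          (Dl n B : ℚ) ^ (a + a' + 4) := by
          rw [mul_pow (n.factorial : ℚ)]
          field_simp
      _ ≤ 2 ^ (2 * h) * ((2 : ℚ) ^ n * 2 ^ n * 2 ^ n) * (8 ^ n) ^ (a + a') *
          (Dl n B : ℚ) ^ (a + a' + 4) := by gcongr
      _ = _ := by
          have g1 : ((8 : ℚ) ^ n) ^ (a + a') = 8 ^ (n * (a + a')) := (pow_mul _ _ _).symm
          have g2 : (2 : ℚ) ^ (3 * n) = 2 ^ n * 2 ^ n * 2 ^ n := by
            rw [← pow_add, ← pow_add]
            congr 1
            ring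
          rw [g1, g2]
  -- logarithms
  have hmainR : |((sc n h B i * sc n h B i' * pa (sP n) (mP h) (num n (Qb n i * Qb n i')) k ι : ℚ) : ℝ)| ≤
      2 ^ (2 * h) * 2 ^ (3 * n) * 8 ^ (n * (a + a')) * (Dl n B : ℝ) ^ (a + a' + 4) := by
    have := hmain
    have h2 : ((|sc n h B i * sc n h B i' * pa (sP n) (mP h) (num n (Qb n i * Qb n i')) k ι| : ℚ) : ℝ) ≤
        ((2 ^ (2 * h) * 2 ^ (3 * n) * 8 ^ (n * (a + a')) * (Dl n B : ℚ) ^ (a + a' + 4) : ℚ) : ℝ) := by
      exact_mod_cast this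
    rw [Rat.cast_abs] at h2
    refine h2.trans (le_of_eq ?_)
    push_cast
    rfl
  have hDposR : (0 : ℝ) < (Dl n B : ℝ) := by exact_mod_cast hDpos
  refine hmainR.trans ?_
  have hpos : (0 : ℝ) < 2 ^ (2 * h) * 2 ^ (3 * n) * 8 ^ (n * (a + a')) * (Dl n B : ℝ) ^ (a + a' + 4) := by
    positivity
  rw [← Real.log_le_iff_le_exp hpos]
  rw [Real.log_mul (by positivity) (by positivity), Real.log_mul (by positivity) (by positivity),
    Real.log_mul (by positivity) (by positivity), Real.log_pow, Real.log_pow, Real.log_pow, Real.log_pow]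
  have hDL := h1 n B (by omega) hB
  set U : ℝ := Real.sqrt ((B : ℝ) * n) * Real.log ((B : ℝ) * n) with hU
  have hn' : (2 : ℝ) ≤ n := by exact_mod_cast hn
  have hB' : (1 : ℝ) ≤ B := by exact_mod_cast hB
  have hh' : (1 : ℝ) ≤ h := by exact_mod_cast hh
  have hBn : (1 : ℝ) ≤ (B : ℝ) * n := by nlinarith
  have hU2 : 0 ≤ U := mul_nonneg (Real.sqrt_nonneg _) (Real.log_nonneg hBn)
  have hl2 : Real.log 2 ≤ 0.7 := by
    have := Real.log_two_lt_d9
    linarith
  have hl20 : 0 ≤ Real.log 2 := Real.log_nonneg (by norm_num)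
  have hl8 : Real.log 8 = 3 * Real.log 2 := by
    rw [show (8 : ℝ) = 2 ^ 3 by norm_num, Real.log_pow]
    norm_num
  have hl4 : Real.log 4 = 2 * Real.log 2 := by
    rw [show (4 : ℝ) = 2 ^ 2 by norm_num, Real.log_pow]
    norm_num
  rw [hl4] at hDL
  rw [hl8]
  have haa : ((a + a' : ℕ) : ℝ) ≤ 2 * h := by
    have : a + a' ≤ 2 * h := by omega
    exact_mod_cast this
  have haa4 : ((a + a' + 4 : ℕ) : ℝ) ≤ 6 * h := by
    have : a + a' + 4 ≤ 6 * h := by omega
    exact_mod_cast this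
  have b1 : ((a + a' + 4 : ℕ) : ℝ) * Real.log (Dl n B) ≤ 6 * h * (n * 1.4 + U) := by
    have c1 : Real.log (Dl n B) ≤ n * 1.4 + U := by nlinarith
    calc ((a + a' + 4 : ℕ) : ℝ) * Real.log (Dl n B) ≤ ((a + a' + 4 : ℕ) : ℝ) * (n * 1.4 + U) :=
          mul_le_mul_of_nonneg_left c1 (Nat.cast_nonneg _)
      _ ≤ 6 * h * (n * 1.4 + U) := mul_le_mul_of_nonneg_right haa4 (by positivity)
  have b2 : ((n * (a + a') : ℕ) : ℝ) * (3 * Real.log 2) ≤ (n * (2 * h)) * (3 * 0.7) := by
    rw [Nat.cast_mul]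
    have : (0 : ℝ) ≤ ((a + a' : ℕ) : ℝ) := Nat.cast_nonneg _
    gcongr
  have b3 : ((3 * n : ℕ) : ℝ) * Real.log 2 ≤ (3 * n) * 0.7 := by
    push_cast
    gcongr
  have b4 : ((2 * h : ℕ) : ℝ) * Real.log 2 ≤ (2 * h) * 0.7 := by
    push_cast
    gcongr
  have hhn : (n : ℝ) ≤ h * n := by nlinarith
  have hhn2 : (h : ℝ) ≤ h * n := by nlinarith
  have hhU : 0 ≤ h * U := by positivity
  have e1 : 6 * (h : ℝ) * (n * 1.4 + U) = 8.4 * (h * n) + 6 * (h * U) := by ring
  have e2 : (n : ℝ) * (2 * h) * (3 * 0.7) = 4.2 * (h * n) := by ring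
  have e3 : 60 * (h : ℝ) * (n + U) = 60 * (h * n) + 60 * (h * U) := by ring
  rw [e1] at b1
  rw [e2] at b2
  rw [e3]
  generalize (h : ℝ) * n = x at *
  generalize (h : ℝ) * U = y at *
  linarith

end

end Pool.Agent.W165.OZ
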