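import Pool.Agent.W165.OZ.Stm

/-!
# OZ-CO: the core of the non-vanishing argument (helper975)
-/

set_option maxHeartbeats 400000

open Polynomial Pool.Agent.H337R2 Filter Topology

namespace Pool.Agent.W165.OZ

namespace CO

variable {N : ℕ} {δ c1 c2 : ℝ} {τ ω : ℕ → ℝ} {n h : ℕ} {μ : ℕ → ℝ}

lemma tau_gt (hN : Nodes N δ c1 c2 τ ω) (i : ℕ) : 1 < τ i := by
  have h1 := hN.lo i
  have h2 : (0 : ℝ) ≤ ((i / N : ℕ) : ℝ) := Nat.cast_nonneg _
  linarith

lemma tau_mono (hN : Nodes N δ c1 c2 τ ω) : StrictMono τ := by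
  refine strictMono_nat_of_lt_succ fun i => ?_
  have h1 := hN.gap i
  have h2 := hN.hδ
  linarith

lemma y_mono (hN : Nodes N δ c1 c2 τ ω) (hn : 1 ≤ n) : StrictMono fun i => yv n (τ i) := by
  intro i j hij
  have h1 := tau_mono hN hij
  have h2 := tau_gt hN i
  have h3 : (1 : ℝ) ≤ n := by exact_mod_cast hn
  show τ i * (τ i + ((n : ℝ) - 1)) < τ j * (τ j + ((n : ℝ) - 1))
  exact mul_lt_mul'' h1 (by linarith) (by linarith) (by linarith)

lemma y_ge (hN : Nodes N δ c1 c2 τ ω) (hn : 1 ≤ n) (i : ℕ) : 1 ≤ yv n (τ i) := by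
  have h2 := tau_gt hN i
  have h3 : (1 : ℝ) ≤ n := by exact_mod_cast hn
  show 1 ≤ τ i * (τ i + ((n : ℝ) - 1))
  nlinarith

lemma R_pos (hN : Nodes N δ c1 c2 τ ω) (hn : 1 ≤ n) (i : ℕ) : 0 < Rv n h (τ i) := by
  have h2 := tau_gt hN i
  have h3 : (1 : ℝ) ≤ n := by exact_mod_cast hn
  unfold Rv
  apply div_pos (by linarith)
  apply pow_pos
  refine Finset.prod_pos fun k _ => ?_
  have : (0 : ℝ) ≤ k := Nat.cast_nonneg _
  linarith

lemma hasSum_L (hM : Mom n h τ ω μ) (P : ℝ[X]) (hP : P.natDegree + 2 ≤ h * n) :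
    HasSum (fun i => ω i * (Rv n h (τ i) * P.eval (yv n (τ i)))) (Lf μ P) := by
  rw [Lf_apply μ P (P.natDegree + 1) (Nat.lt_succ_self _)]
  have h1 : HasSum (fun i => ∑ k ∈ Finset.range (P.natDegree + 1),
      P.coeff k * (ω i * (Rv n h (τ i) * yv n (τ i) ^ k)))
      (∑ k ∈ Finset.range (P.natDegree + 1), P.coeff k * μ k) := by
    refine hasSum_sum fun k hk => (hM k ?_).mul_left _
    have := Finset.mem_range.1 hk
    omega
  have h2 : (fun i => ω i * (Rv n h (τ i) * P.eval (yv n (τ i)))) = fun i =>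
      ∑ k ∈ Finset.range (P.natDegree + 1),
      P.coeff k * (ω i * (Rv n h (τ i) * yv n (τ i) ^ k)) := by
    funext i
    rw [eval_eq_sum_range, Finset.mul_sum, Finset.mul_sum]
    exact Finset.sum_congr rfl fun k _ => by ring
  rw [h2]
  exact h1

lemma L_zero {m : ℕ} (Q : ℝ[X]) (hQ : ∀ j < m, Lf μ (Q * X ^ j) = 0) (P : ℝ[X])
    (hP : P.natDegree < m) : Lf μ (Q * P) = 0 := by
  have h1 : Q * P = ∑ k ∈ Finset.range m, P.coeff k • (Q * X ^ k) := by
    conv_lhs => rw [P.as_sum_range' m hP]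
    rw [Finset.mul_sum]
    refine Finset.sum_congr rfl fun k _ => ?_
    rw [← C_mul_X_pow_eq_monomial, smul_eq_C_mul]
    ring
  rw [h1, map_sum]
  refine Finset.sum_eq_zero fun k hk => ?_
  rw [map_smul, hQ k (Finset.mem_range.1 hk), smul_zero]

lemma summ_abs (hN : Nodes N δ c1 c2 τ ω) (hn : 1 ≤ n) (hM : Mom n h τ ω μ) (e : ℕ)
    (he : e + 2 ≤ h * n) :
    Summable fun i => |ω i| * (Rv n h (τ i) * yv n (τ i) ^ e) := by
  have h1 := (hM e he).summable.abs
  refine h1.congr fun i => ?_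
  have h2 : 0 ≤ Rv n h (τ i) * yv n (τ i) ^ e :=
    mul_nonneg (R_pos hN hn i).le (pow_nonneg (by linarith [y_ge hN hn i]) _)
  rw [abs_mul, abs_of_nonneg h2]

lemma poly_bd (Q : ℝ[X]) (r : ℕ) (hQ : Q.natDegree < r) : ∃ C : ℝ, 0 ≤ C ∧ ∀ y : ℝ, 1 ≤ y →
    |Q.eval y| ≤ C * y ^ (r - 1) := by
  refine ⟨∑ k ∈ Finset.range (Q.natDegree + 1), |Q.coeff k|,
    Finset.sum_nonneg fun _ _ => abs_nonneg _, fun y hy => ?_⟩
  rw [eval_eq_sum_range, Finset.sum_mul]
  refine (Finset.abs_sum_le_sum_abs _ _).trans (Finset.sum_le_sum fun k hk => ?_)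
  rw [abs_mul, abs_of_nonneg (pow_nonneg (by linarith : (0 : ℝ) ≤ y) k)]
  refine mul_le_mul_of_nonneg_left (pow_le_pow_right₀ hy ?_) (abs_nonneg _)
  have := Finset.mem_range.1 hk
  omega

/-- products of differences -/
lemma prod_bd (y : ℕ → ℝ) (hy : StrictMono y) (hy1 : ∀ i, 1 ≤ y i) (m i j : ℕ) (hj : j < m)
    (hi : m ≤ i) : |∏ l ∈ (Finset.range m).erase j, (y i - y l)| ≤ y i ^ (m - 1) := by
  rw [Finset.abs_prod]
  have h1 : ∀ l ∈ (Finset.range m).erase j, |y i - y l| ≤ y i := by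
    intro l hl
    have h2 : l < m := Finset.mem_range.1 (Finset.mem_of_mem_erase hl)
    have h3 : y l < y i := hy (by omega)
    have h4 := hy1 l
    rw [abs_of_nonneg (by linarith)]
    linarith
  refine (Finset.prod_le_prod (fun l _ => abs_nonneg _) h1).trans ?_
  rw [Finset.prod_const, Finset.card_erase_of_mem (Finset.mem_range.2 hj), Finset.card_range]

lemma lagr (y : ℕ → ℝ) (hy : StrictMono y) (r0 : ℕ) (Q : ℝ[X]) (hQ : Q.natDegree < r0) (x : ℝ) :
    Q.eval x = ∑ j ∈ Finset.range r0, Q.eval (y j) *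
      ((∏ l ∈ (Finset.range r0).erase j, (x - y l)) /
        ∏ l ∈ (Finset.range r0).erase j, (y j - y l)) := by
  have h1 : Q = Lagrange.interpolate (Finset.range r0) y fun i => Q.eval (y i) := by
    refine Lagrange.eq_interpolate (hy.injective.injOn) ?_
    rw [Finset.card_range]
    exact lt_of_le_of_lt degree_le_natDegree (by exact_mod_cast hQ)
  conv_lhs => rw [h1]
  rw [Lagrange.interpolate_apply, eval_finset_sum]
  refine Finset.sum_congr rfl fun j _ => ?_
  rw [eval_mul, eval_C]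
  congr 1
  unfold Lagrange.basis
  rw [eval_prod, ← Finset.prod_div_distrib]
  refine Finset.prod_congr rfl fun l _ => ?_
  unfold Lagrange.basisDivisor
  rw [eval_mul, eval_C, eval_sub, eval_X, eval_C, div_eq_inv_mul]

end CO

open CO in
theorem t_co : S_CO := by
  intro N δ c1 c2 τ ω hN n h hn hh μ hM m r0 hr0 hrm hmn Q hQ0 hQd hQ
  obtain ⟨y, hydef⟩ : ∃ y : ℕ → ℝ, y = fun i => yv n (τ i) := ⟨_, rfl⟩
  obtain ⟨R, hRdef⟩ : ∃ R : ℕ → ℝ, R = fun i => Rv n h (τ i) := ⟨_, rfl⟩
  have hyi : ∀ i, yv n (τ i) = y i := fun i => by rw [hydef]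
  have hRi : ∀ i, Rv n h (τ i) = R i := fun i => by rw [hRdef]
  have hmono : StrictMono y := by
    rw [hydef]
    exact y_mono hN hn
  have hy1 : ∀ i, 1 ≤ y i := fun i => by
    rw [← hyi]
    exact y_ge hN hn i
  have hR0 : ∀ i, 0 < R i := fun i => by
    rw [← hRi]
    exact R_pos hN hn i
  simp only [hyi, hRi]
  obtain ⟨Y, hY⟩ : ∃ Y : ℝ, Y = ∑' i, |ω (i + m)| * (R (i + m) * y (i + m) ^ ((m - 1) + (r0 - 1))) :=
    ⟨_, rfl⟩
  rw [← hY]
  -- the sum `Xs`
  obtain ⟨b, hb⟩ : ∃ b : ℕ → ℝ, b = fun i =>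
    |ω (i + m)| * (R (i + m) * (|Q.eval (y (i + m))| * y (i + m) ^ (m - 1))) := ⟨_, rfl⟩
  have hYs : Summable fun i => |ω (i + m)| * (R (i + m) * y (i + m) ^ ((m - 1) + (r0 - 1))) := by
    have h1 := summ_abs hN hn hM ((m - 1) + (r0 - 1)) (by omega)
    simp only [hyi, hRi] at h1
    exact (summable_nat_add_iff m).2 h1
  have hbs : Summable b := by
    obtain ⟨C, hC0, hC⟩ := poly_bd Q r0 hQd
    refine Summable.of_nonneg_of_le (fun i => ?_) (fun i => ?_) (hYs.mul_left C)
    · rw [hb]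
      have := hR0 (i + m)
      have := hy1 (i + m)
      positivity
    · rw [hb]
      have h1 := hC (y (i + m)) (hy1 (i + m))
      have h2 := hy1 (i + m)
      have h3 : |Q.eval (y (i + m))| * y (i + m) ^ (m - 1) ≤
          C * y (i + m) ^ (r0 - 1) * y (i + m) ^ (m - 1) :=
        mul_le_mul_of_nonneg_right h1 (by positivity)
      have h4 : |ω (i + m)| * (R (i + m) * (|Q.eval (y (i + m))| * y (i + m) ^ (m - 1))) ≤
          |ω (i + m)| * (R (i + m) * (C * y (i + m) ^ (r0 - 1) * y (i + m) ^ (m - 1))) := by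
        have := (hR0 (i + m)).le
        gcongr
      refine h4.trans (le_of_eq ?_)
      rw [pow_add]
      ring
  obtain ⟨Xs, hXs⟩ : ∃ Xs : ℝ, Xs = ∑' i, b i := ⟨_, rfl⟩
  -- distances
  have hne : ∀ j l, j ≠ l → 0 < |y j - y l| := fun j l hjl =>
    abs_pos.2 (sub_ne_zero.2 fun h => hjl (hmono.injective h))
  have hPi : ∀ (M j : ℕ), 0 < ∏ l ∈ (Finset.range M).erase j, |y j - y l| := fun M j =>
    Finset.prod_pos fun l hl => hne j l (Finset.ne_of_mem_erase hl).symm
  -- the key estimate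
  have key : ∀ j < r0, c1 * R j * (∏ l ∈ (Finset.range m).erase j, |y j - y l|) *
      |Q.eval (y j)| ≤ Xs := by
    intro j hj
    have hjm : j < m := by omega
    set P : ℝ[X] := ∏ l ∈ (Finset.range m).erase j, (X - C (y l)) with hP
    have hPd : P.natDegree = m - 1 := by
      rw [hP, natDegree_finset_prod_X_sub_C_eq_card,
        Finset.card_erase_of_mem (Finset.mem_range.2 hjm), Finset.card_range]
    have hPe : ∀ x, P.eval x = ∏ l ∈ (Finset.range m).erase j, (x - y l) := by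
      intro x
      rw [hP, eval_prod]
      exact Finset.prod_congr rfl fun l _ => by simp
    have hL : Lf μ (Q * P) = 0 := L_zero Q hQ P (by omega)
    have hdeg : (Q * P).natDegree + 2 ≤ h * n := by
      have := natDegree_mul_le (p := Q) (q := P)
      omega
    have h1 := hasSum_L hM (Q * P) hdeg
    rw [hL] at h1
    simp only [hyi, hRi] at h1
    have h2 := (hasSum_nat_add_iff' m).2 h1
    have h3 : ∑ i ∈ Finset.range m, ω i * (R i * (Q * P).eval (y i)) =
        ω j * (R j * (Q * P).eval (y j)) := by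
      refine Finset.sum_eq_single_of_mem j (Finset.mem_range.2 hjm) fun i hi hij => ?_
      have h4 : P.eval (y i) = 0 := by
        rw [hPe]
        exact Finset.prod_eq_zero (Finset.mem_erase.2 ⟨hij, hi⟩) (sub_self _)
      rw [eval_mul, h4]
      ring
    rw [h3, zero_sub] at h2
    have h4 : ‖∑' i, ω (i + m) * (R (i + m) * (Q * P).eval (y (i + m)))‖ ≤ ∑' i, b i := by
      refine tsum_of_norm_bounded hbs.hasSum fun i => ?_
      rw [hb, Real.norm_eq_abs, abs_mul, abs_mul, abs_of_pos (hR0 (i + m)), eval_mul, abs_mul,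
        hPe]
      have h5 := prod_bd y hmono hy1 m (i + m) j hjm (by omega)
      have h6 := (hR0 (i + m)).le
      show |ω (i + m)| * (R (i + m) * (|Q.eval (y (i + m))| *
        |∏ l ∈ (Finset.range m).erase j, (y (i + m) - y l)|)) ≤
        |ω (i + m)| * (R (i + m) * (|Q.eval (y (i + m))| * y (i + m) ^ (m - 1)))
      gcongr
    rw [h2.tsum_eq, norm_neg, Real.norm_eq_abs, abs_mul, abs_mul, abs_of_pos (hR0 j), eval_mul,
      abs_mul, hPe, Finset.abs_prod, ← hXs] at h4
    refine le_trans (le_of_eq_of_le ?_ (mul_le_mul_of_nonneg_right (hN.wlo j) ?_)) h4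
    · ring
    · have := hR0 j
      have := hPi m j
      positivity
  have hc1 := hN.hc1
  have hb0 : ∀ i, 0 ≤ b i := fun i => by
    rw [hb]
    have := hR0 (i + m)
    have := hy1 (i + m)
    positivity
  have hXs0 : 0 < Xs := by
    by_contra hcon
    apply hQ0
    have h1 : ∀ j < r0, Q.eval (y j) = 0 := by
      intro j hj
      have h2 := key j hj
      have h3 : 0 < c1 * R j * (∏ l ∈ (Finset.range m).erase j, |y j - y l|) := by
        have := hR0 j
        have := hPi m j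
        positivity
      have h4 : |Q.eval (y j)| ≤ 0 := by
        by_contra h5
        push Not at h5
        have := mul_pos h3 h5
        linarith
      exact abs_nonpos_iff.1 h4
    refine Polynomial.funext fun x => ?_
    rw [lagr y hmono r0 Q hQd x, eval_zero]
    refine Finset.sum_eq_zero fun j hj => ?_
    rw [h1 j (Finset.mem_range.1 hj), zero_mul]
  -- interpolation
  have hint : ∀ i, |Q.eval (y (i + m))| ≤ (∑ j ∈ Finset.range r0, |Q.eval (y j)| /
      ∏ l ∈ (Finset.range r0).erase j, |y j - y l|) * y (i + m) ^ (r0 - 1) := by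
    intro i
    rw [lagr y hmono r0 Q hQd (y (i + m)), Finset.sum_mul]
    refine (Finset.abs_sum_le_sum_abs _ _).trans (Finset.sum_le_sum fun j hj => ?_)
    have h1 := prod_bd y hmono hy1 r0 (i + m) j (Finset.mem_range.1 hj) (by omega)
    rw [abs_mul, abs_div, Finset.abs_prod ((Finset.range r0).erase j) fun l => y j - y l]
    have h2 := hPi r0 j
    rw [div_mul_eq_mul_div, ← mul_div_assoc]
    gcongr
  have hXle : Xs ≤ (∑ j ∈ Finset.range r0, |Q.eval (y j)| /
      ∏ l ∈ (Finset.range r0).erase j, |y j - y l|) * Y := by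
    rw [hXs, hY, ← tsum_mul_left]
    refine Summable.tsum_le_tsum (fun i => ?_) hbs (hYs.mul_left _)
    rw [hb]
    have h1 := hint i
    have h2 := (hR0 (i + m)).le
    have h3 := hy1 (i + m)
    have h4 : |ω (i + m)| * (R (i + m) * (|Q.eval (y (i + m))| * y (i + m) ^ (m - 1))) ≤
        |ω (i + m)| * (R (i + m) * ((∑ j ∈ Finset.range r0, |Q.eval (y j)| /
      ∏ l ∈ (Finset.range r0).erase j, |y j - y l|) * y (i + m) ^ (r0 - 1) *
        y (i + m) ^ (m - 1))) := by
      gcongr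
    refine h4.trans (le_of_eq ?_)
    rw [pow_add]
    ring
  have hY0 : 0 ≤ Y := by
    rw [hY]
    refine tsum_nonneg fun i => ?_
    have := hR0 (i + m)
    have := hy1 (i + m)
    positivity
  have hfin : Xs ≤ Xs * ∑ j ∈ Finset.range r0, Y /
      (c1 * R j * (∏ l ∈ (Finset.range m).erase j, |y j - y l|) *
        (∏ l ∈ (Finset.range r0).erase j, |y j - y l|)) := by
    refine hXle.trans ?_
    rw [Finset.sum_mul, Finset.mul_sum]
    refine Finset.sum_le_sum fun j hj => ?_
    have h1 := key j (Finset.mem_range.1 hj)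
    have h2 := hPi r0 j
    have h3 : 0 < c1 * R j * (∏ l ∈ (Finset.range m).erase j, |y j - y l|) := by
      have := hR0 j
      have := hPi m j
      positivity
    have h4 : |Q.eval (y j)| ≤
        Xs / (c1 * R j * (∏ l ∈ (Finset.range m).erase j, |y j - y l|)) := by
      rw [le_div_iff₀ h3]
      linarith
    calc |Q.eval (y j)| / (∏ l ∈ (Finset.range r0).erase j, |y j - y l|) * Y
        ≤ Xs / (c1 * R j * (∏ l ∈ (Finset.range m).erase j, |y j - y l|)) /
          (∏ l ∈ (Finset.range r0).erase j, |y j - y l|) * Y := by gcongr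
      _ = Xs * (Y / (c1 * R j * (∏ l ∈ (Finset.range m).erase j, |y j - y l|) *
        (∏ l ∈ (Finset.range r0).erase j, |y j - y l|))) := by
          rw [div_div]
          ring
  exact le_of_mul_le_mul_left (by rw [mul_one]; exact hfin) hXs0

end Pool.Agent.W165.OZ
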