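import Pool.Agent.W165.OZ.Stm3
import Pool.Agent.W165.OZ.CO

/-!
# OZ-COA: the core of the non-vanishing argument, even version (helper67)
-/

set_option maxHeartbeats 400000

open Polynomial Pool.Agent.H337R2 Filter Topology

namespace Pool.Agent.W165.OZ

namespace COA

open CO

variable {N : ℕ} {δ c1 c2 : ℝ} {τ ω : ℕ → ℝ} {n h : ℕ} {μ : ℕ → ℝ}

lemma R_pos (hN : Nodes N δ c1 c2 τ ω) (hn : 1 ≤ n) (i : ℕ) : 0 < RvE n h (τ i) := by
  have h2 := tau_gt hN i
  have h3 : (1 : ℝ) ≤ n := by exact_mod_cast hn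
  unfold RvE
  apply div_pos one_pos
  apply pow_pos
  refine Finset.prod_pos fun k _ => ?_
  have : (0 : ℝ) ≤ k := Nat.cast_nonneg _
  linarith

lemma hasSum_L (hM : MomE n h τ ω μ) (P : ℝ[X]) (hP : P.natDegree + 2 ≤ h * n) :
    HasSum (fun i => ω i * (RvE n h (τ i) * P.eval (yv n (τ i)))) (Lf μ P) := by
  rw [Lf_apply μ P (P.natDegree + 1) (Nat.lt_succ_self _)]
  have h1 : HasSum (fun i => ∑ k ∈ Finset.range (P.natDegree + 1),
      P.coeff k * (ω i * (RvE n h (τ i) * yv n (τ i) ^ k)))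
      (∑ k ∈ Finset.range (P.natDegree + 1), P.coeff k * μ k) := by
    refine hasSum_sum fun k hk => (hM k ?_).mul_left _
    have := Finset.mem_range.1 hk
    omega
  have h2 : (fun i => ω i * (RvE n h (τ i) * P.eval (yv n (τ i)))) = fun i =>
      ∑ k ∈ Finset.range (P.natDegree + 1),
      P.coeff k * (ω i * (RvE n h (τ i) * yv n (τ i) ^ k)) := by
    funext i
    rw [eval_eq_sum_range, Finset.mul_sum, Finset.mul_sum]
    exact Finset.sum_congr rfl fun k _ => by ring
  rw [h2]
  exact h1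

lemma summ_abs (hN : Nodes N δ c1 c2 τ ω) (hn : 1 ≤ n) (hM : MomE n h τ ω μ) (e : ℕ)
    (he : e + 2 ≤ h * n) :
    Summable fun i => |ω i| * (RvE n h (τ i) * yv n (τ i) ^ e) := by
  have h1 := (hM e he).summable.abs
  refine h1.congr fun i => ?_
  have h2 : 0 ≤ RvE n h (τ i) * yv n (τ i) ^ e :=
    mul_nonneg (COA.R_pos hN hn i).le (pow_nonneg (by linarith [y_ge hN hn i]) _)
  rw [abs_mul, abs_of_nonneg h2]

end COA

open CO in
theorem t_coa : S_COa := by
  intro N δ c1 c2 τ ω hN n h hn hh μ hM m r0 hr0 hrm hmn Q hQ0 hQd hQ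
  obtain ⟨y, hydef⟩ : ∃ y : ℕ → ℝ, y = fun i => yv n (τ i) := ⟨_, rfl⟩
  obtain ⟨R, hRdef⟩ : ∃ R : ℕ → ℝ, R = fun i => RvE n h (τ i) := ⟨_, rfl⟩
  have hyi : ∀ i, yv n (τ i) = y i := fun i => by rw [hydef]
  have hRi : ∀ i, RvE n h (τ i) = R i := fun i => by rw [hRdef]
  have hmono : StrictMono y := by
    rw [hydef]
    exact y_mono hN hn
  have hy1 : ∀ i, 1 ≤ y i := fun i => by
    rw [← hyi]
    exact y_ge hN hn i
  have hR0 : ∀ i, 0 < R i := fun i => by
    rw [← hRi]
    exact COA.R_pos hN hn i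
  simp only [hyi, hRi]
  obtain ⟨Y, hY⟩ : ∃ Y : ℝ, Y = ∑' i, |ω (i + m)| * (R (i + m) * y (i + m) ^ ((m - 1) + (r0 - 1))) :=
    ⟨_, rfl⟩
  rw [← hY]
  -- the sum `Xs`
  obtain ⟨b, hb⟩ : ∃ b : ℕ → ℝ, b = fun i =>
    |ω (i + m)| * (R (i + m) * (|Q.eval (y (i + m))| * y (i + m) ^ (m - 1))) := ⟨_, rfl⟩
  have hYs : Summable fun i => |ω (i + m)| * (R (i + m) * y (i + m) ^ ((m - 1) + (r0 - 1))) := by
    have h1 := COA.summ_abs hN hn hM ((m - 1) + (r0 - 1)) (by omega)
    simp only [hyi, hRi] at h1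
    exact (summable_nat_add_iff m).2 h1
  have hbs : Summable b := by
    obtain ⟨C, hC0, hC⟩ := poly_bd Q r0 hQd
    refine Summable.of_nonneg_of_le (fun i => ?_) (fun i => ?_) (hYs.mul_left C)
    · rw [hb]
      have := hR0 (i + m)
      have := hy1 (i + m)
      positivity
    · rw [hb]
      have h1 := hC (y (i + m)) (hy1 (i + m))
      have h2 := hy1 (i + m)
      have h3 : |Q.eval (y (i + m))| * y (i + m) ^ (m - 1) ≤
          C * y (i + m) ^ (r0 - 1) * y (i + m) ^ (m - 1) :=
        mul_le_mul_of_nonneg_right h1 (by positivity)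
      have h4 : |ω (i + m)| * (R (i + m) * (|Q.eval (y (i + m))| * y (i + m) ^ (m - 1))) ≤
          |ω (i + m)| * (R (i + m) * (C * y (i + m) ^ (r0 - 1) * y (i + m) ^ (m - 1))) := by
        have := (hR0 (i + m)).le
        gcongr
      refine h4.trans (le_of_eq ?_)
      rw [pow_add]
      ring
  obtain ⟨Xs, hXs⟩ : ∃ Xs : ℝ, Xs = ∑' i, b i := ⟨_, rfl⟩
  -- distances
  have hne : ∀ j l, j ≠ l → 0 < |y j - y l| := fun j l hjl =>
    abs_pos.2 (sub_ne_zero.2 fun h => hjl (hmono.injective h))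
  have hPi : ∀ (M j : ℕ), 0 < ∏ l ∈ (Finset.range M).erase j, |y j - y l| := fun M j =>
    Finset.prod_pos fun l hl => hne j l (Finset.ne_of_mem_erase hl).symm
  -- the key estimate
  have key : ∀ j < r0, c1 * R j * (∏ l ∈ (Finset.range m).erase j, |y j - y l|) *
      |Q.eval (y j)| ≤ Xs := by
    intro j hj
    have hjm : j < m := by omega
    set P : ℝ[X] := ∏ l ∈ (Finset.range m).erase j, (X - C (y l)) with hP
    have hPd : P.natDegree = m - 1 := by
      rw [hP, natDegree_finset_prod_X_sub_C_eq_card,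
        Finset.card_erase_of_mem (Finset.mem_range.2 hjm), Finset.card_range]
    have hPe : ∀ x, P.eval x = ∏ l ∈ (Finset.range m).erase j, (x - y l) := by
      intro x
      rw [hP, eval_prod]
      exact Finset.prod_congr rfl fun l _ => by simp
    have hL : Lf μ (Q * P) = 0 := L_zero Q hQ P (by omega)
    have hdeg : (Q * P).natDegree + 2 ≤ h * n := by
      have := natDegree_mul_le (p := Q) (q := P)
      omega
    have h1 := COA.hasSum_L hM (Q * P) hdeg
    rw [hL] at h1
    simp only [hyi, hRi] at h1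
    have h2 := (hasSum_nat_add_iff' m).2 h1
    have h3 : ∑ i ∈ Finset.range m, ω i * (R i * (Q * P).eval (y i)) =
        ω j * (R j * (Q * P).eval (y j)) := by
      refine Finset.sum_eq_single_of_mem j (Finset.mem_range.2 hjm) fun i hi hij => ?_
      have h4 : P.eval (y i) = 0 := by
        rw [hPe]
        exact Finset.prod_eq_zero (Finset.mem_erase.2 ⟨hij, hi⟩) (sub_self _)
      rw [eval_mul, h4]
      ring
    rw [h3, zero_sub] at h2
    have h4 : ‖∑' i, ω (i + m) * (R (i + m) * (Q * P).eval (y (i + m)))‖ ≤ ∑' i, b i := by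
      refine tsum_of_norm_bounded hbs.hasSum fun i => ?_
      rw [hb, Real.norm_eq_abs, abs_mul, abs_mul, abs_of_pos (hR0 (i + m)), eval_mul, abs_mul,
        hPe]
      have h5 := prod_bd y hmono hy1 m (i + m) j hjm (by omega)
      have h6 := (hR0 (i + m)).le
      show |ω (i + m)| * (R (i + m) * (|Q.eval (y (i + m))| *
        |∏ l ∈ (Finset.range m).erase j, (y (i + m) - y l)|)) ≤
        |ω (i + m)| * (R (i + m) * (|Q.eval (y (i + m))| * y (i + m) ^ (m - 1)))
      gcongr
    rw [h2.tsum_eq, norm_neg, Real.norm_eq_abs, abs_mul, abs_mul, abs_of_pos (hR0 j), eval_mul,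
      abs_mul, hPe, Finset.abs_prod, ← hXs] at h4
    refine le_trans (le_of_eq_of_le ?_ (mul_le_mul_of_nonneg_right (hN.wlo j) ?_)) h4
    · ring
    · have := hR0 j
      have := hPi m j
      positivity
  have hc1 := hN.hc1
  have hb0 : ∀ i, 0 ≤ b i := fun i => by
    rw [hb]
    have := hR0 (i + m)
    have := hy1 (i + m)
    positivity
  have hXs0 : 0 < Xs := by
    by_contra hcon
    apply hQ0
    have h1 : ∀ j < r0, Q.eval (y j) = 0 := by
      intro j hj
      have h2 := key j hj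
      have h3 : 0 < c1 * R j * (∏ l ∈ (Finset.range m).erase j, |y j - y l|) := by
        have := hR0 j
        have := hPi m j
        positivity
      have h4 : |Q.eval (y j)| ≤ 0 := by
        by_contra h5
        push Not at h5
        have := mul_pos h3 h5
        linarith
      exact abs_nonpos_iff.1 h4
    refine Polynomial.funext fun x => ?_
    rw [lagr y hmono r0 Q hQd x, eval_zero]
    refine Finset.sum_eq_zero fun j hj => ?_
    rw [h1 j (Finset.mem_range.1 hj), zero_mul]
  -- interpolation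
  have hint : ∀ i, |Q.eval (y (i + m))| ≤ (∑ j ∈ Finset.range r0, |Q.eval (y j)| /
      ∏ l ∈ (Finset.range r0).erase j, |y j - y l|) * y (i + m) ^ (r0 - 1) := by
    intro i
    rw [lagr y hmono r0 Q hQd (y (i + m)), Finset.sum_mul]
    refine (Finset.abs_sum_le_sum_abs _ _).trans (Finset.sum_le_sum fun j hj => ?_)
    have h1 := prod_bd y hmono hy1 r0 (i + m) j (Finset.mem_range.1 hj) (by omega)
    rw [abs_mul, abs_div, Finset.abs_prod ((Finset.range r0).erase j) fun l => y j - y l]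
    have h2 := hPi r0 j
    rw [div_mul_eq_mul_div, ← mul_div_assoc]
    gcongr
  have hXle : Xs ≤ (∑ j ∈ Finset.range r0, |Q.eval (y j)| /
      ∏ l ∈ (Finset.range r0).erase j, |y j - y l|) * Y := by
    rw [hXs, hY, ← tsum_mul_left]
    refine Summable.tsum_le_tsum (fun i => ?_) hbs (hYs.mul_left _)
    rw [hb]
    have h1 := hint i
    have h2 := (hR0 (i + m)).le
    have h3 := hy1 (i + m)
    have h4 : |ω (i + m)| * (R (i + m) * (|Q.eval (y (i + m))| * y (i + m) ^ (m - 1))) ≤
        |ω (i + m)| * (R (i + m) * ((∑ j ∈ Finset.range r0, |Q.eval (y j)| /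
      ∏ l ∈ (Finset.range r0).erase j, |y j - y l|) * y (i + m) ^ (r0 - 1) *
        y (i + m) ^ (m - 1))) := by
      gcongr
    refine h4.trans (le_of_eq ?_)
    rw [pow_add]
    ring
  have hY0 : 0 ≤ Y := by
    rw [hY]
    refine tsum_nonneg fun i => ?_
    have := hR0 (i + m)
    have := hy1 (i + m)
    positivity
  have hfin : Xs ≤ Xs * ∑ j ∈ Finset.range r0, Y /
      (c1 * R j * (∏ l ∈ (Finset.range m).erase j, |y j - y l|) *
        (∏ l ∈ (Finset.range r0).erase j, |y j - y l|)) := by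
    refine hXle.trans ?_
    rw [Finset.sum_mul, Finset.mul_sum]
    refine Finset.sum_le_sum fun j hj => ?_
    have h1 := key j (Finset.mem_range.1 hj)
    have h2 := hPi r0 j
    have h3 : 0 < c1 * R j * (∏ l ∈ (Finset.range m).erase j, |y j - y l|) := by
      have := hR0 j
      have := hPi m j
      positivity
    have h4 : |Q.eval (y j)| ≤
        Xs / (c1 * R j * (∏ l ∈ (Finset.range m).erase j, |y j - y l|)) := by
      rw [le_div_iff₀ h3]
      linarith
    calc |Q.eval (y j)| / (∏ l ∈ (Finset.range r0).erase j, |y j - y l|) * Y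
        ≤ Xs / (c1 * R j * (∏ l ∈ (Finset.range m).erase j, |y j - y l|)) /
          (∏ l ∈ (Finset.range r0).erase j, |y j - y l|) * Y := by gcongr
      _ = Xs * (Y / (c1 * R j * (∏ l ∈ (Finset.range m).erase j, |y j - y l|) *
        (∏ l ∈ (Finset.range r0).erase j, |y j - y l|))) := by
          rw [div_div]
          ring
  exact le_of_mul_le_mul_left (by rw [mul_one]; exact hfin) hXs0

end Pool.Agent.W165.OZ
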