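import Pool.Agent.W165.OZ.Stm

/-!
# The size of `Dl`
-/

open Polynomial Pool.Agent.H337R2 Filter Topology

namespace Pool.Agent.W165.OZ

noncomputable section

theorem dl_term (m p : ℕ) (hm : 1 ≤ m) (hp : p.Prime) :
    Real.log ((p ^ Nat.log p m : ℕ) : ℝ) ≤
      Real.log p + (if p * p ≤ m then Real.log m else 0) := by
  have hp1 : (1 : ℝ) ≤ (p : ℝ) := by exact_mod_cast hp.one_lt.le
  have hlp : 0 ≤ Real.log (p : ℝ) := Real.log_nonneg hp1
  split_ifs with h
  · have h1 : p ^ Nat.log p m ≤ m := Nat.pow_log_le_self p (by omega)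
    have h2 : Real.log ((p ^ Nat.log p m : ℕ) : ℝ) ≤ Real.log m := by
      apply Real.log_le_log
      · exact_mod_cast Nat.pow_pos hp.pos
      · exact_mod_cast h1
    linarith
  · have h1 : Nat.log p m ≤ 1 := by
      by_contra hc
      have h2 : p ^ 2 ≤ m := le_trans (Nat.pow_le_pow_right hp.pos (by omega))
        (Nat.pow_log_le_self p (by omega))
      rw [pow_two] at h2
      exact h h2
    rw [Nat.cast_pow, Real.log_pow]
    have h3 : ((Nat.log p m : ℕ) : ℝ) ≤ 1 := by exact_mod_cast h1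
    nlinarith

theorem t_dl : S_DL := by
  intro n B hn hB
  have hm : 1 ≤ B * n := Nat.mul_pos hB hn
  have hm1 : (1 : ℝ) ≤ ((B * n : ℕ) : ℝ) := by exact_mod_cast hm
  have hlm : 0 ≤ Real.log ((B * n : ℕ) : ℝ) := Real.log_nonneg hm1
  have h1 : Real.log (Dl n B) = ∑ p ∈ (Finset.range (n + 1)).filter Nat.Prime,
      Real.log ((p ^ Nat.log p (B * n) : ℕ) : ℝ) := by
    unfold Dl
    rw [Nat.cast_prod, Real.log_prod]
    intro p hp
    rw [Finset.mem_filter] at hp
    have := Nat.pow_pos (n := Nat.log p (B * n)) hp.2.pos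
    exact_mod_cast this.ne'
  have h2 : Real.log (Dl n B) ≤ ∑ p ∈ (Finset.range (n + 1)).filter Nat.Prime,
      (Real.log p + (if p * p ≤ B * n then Real.log ((B * n : ℕ) : ℝ) else 0)) := by
    rw [h1]
    apply Finset.sum_le_sum
    intro p hp
    rw [Finset.mem_filter] at hp
    exact dl_term _ _ hm hp.2
  rw [Finset.sum_add_distrib] at h2
  have h3 : ∑ p ∈ (Finset.range (n + 1)).filter Nat.Prime, Real.log (p : ℝ) ≤
      n * Real.log 4 := by
    have h := Chebyshev.theta_le_log4_mul_x (x := (n : ℝ)) (Nat.cast_nonneg n)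
    rw [Chebyshev.theta_eq_sum_Icc, Nat.floor_natCast] at h
    have e : (Finset.range (n + 1)).filter Nat.Prime = (Finset.Icc 0 n).filter Nat.Prime := by
      congr 1
      ext x
      rw [Finset.mem_range, Finset.mem_Icc]
      omega
    rw [e]
    linarith
  have h4 : ∑ p ∈ (Finset.range (n + 1)).filter Nat.Prime,
      (if p * p ≤ B * n then Real.log ((B * n : ℕ) : ℝ) else 0) ≤
      Real.sqrt ((B : ℝ) * n) * Real.log ((B : ℝ) * n) := by
    rw [← Finset.sum_filter, Finset.sum_const, nsmul_eq_mul]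
    have hsub : ((Finset.range (n + 1)).filter Nat.Prime).filter (fun p => p * p ≤ B * n) ⊆
        Finset.Icc 1 (Nat.sqrt (B * n)) := by
      intro p hp
      rw [Finset.mem_filter, Finset.mem_filter] at hp
      rw [Finset.mem_Icc]
      exact ⟨hp.1.2.pos, Nat.le_sqrt.2 hp.2⟩
    have hc := Finset.card_le_card hsub
    rw [Nat.card_Icc, Nat.add_sub_cancel] at hc
    have hc' : ((((Finset.range (n + 1)).filter Nat.Prime).filter
        (fun p => p * p ≤ B * n)).card : ℝ) ≤ Real.sqrt ((B : ℝ) * n) := by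
      refine le_trans (Nat.cast_le.2 hc) ?_
      have := Real.nat_sqrt_le_real_sqrt (a := B * n)
      rw [Nat.cast_mul] at this
      exact this
    have e : Real.log ((B * n : ℕ) : ℝ) = Real.log ((B : ℝ) * n) := by rw [Nat.cast_mul]
    rw [e] at hlm ⊢
    exact mul_le_mul_of_nonneg_right hc' hlm
  linarith

end

end Pool.Agent.W165.OZ
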