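import Pool.Agent.W165.OZ.Stm

/-!
# Many irrational odd zeta values: the sum over `u > d`
-/

set_option autoImplicit false

open Polynomial Pool.Agent.H337R2 Filter Topology

namespace Pool.Agent.W165.OZ

/-- telescoping -/
lemma ds_step (m : ℕ) : HasSum (fun u : ℕ => 1 / ((u : ℝ) + ((m : ℝ) + 1)) -
    1 / ((u : ℝ) + ((m : ℝ) + 2))) (1 / ((m : ℝ) + 1)) := by
  have hm : (0 : ℝ) ≤ m := Nat.cast_nonneg m
  rw [hasSum_iff_tendsto_nat_of_nonneg]
  · have h1 : ∀ N : ℕ, ∑ u ∈ Finset.range N, (1 / ((u : ℝ) + ((m : ℝ) + 1)) -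
        1 / ((u : ℝ) + ((m : ℝ) + 2))) = 1 / ((m : ℝ) + 1) - 1 / ((N : ℝ) + ((m : ℝ) + 1)) := by
      intro N
      induction N with
      | zero => simp
      | succ N ih =>
        rw [Finset.sum_range_succ, ih]
        have h2 : ((N + 1 : ℕ) : ℝ) + ((m : ℝ) + 1) = (N : ℝ) + ((m : ℝ) + 2) := by
          push_cast
          ring
        rw [h2]
        ring
    simp only [h1]
    have h3 : Tendsto (fun N : ℕ => 1 / ((N : ℝ) + ((m : ℝ) + 1))) atTop (𝓝 0) := by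
      have h4 : Tendsto (fun N : ℕ => (N : ℝ) + ((m : ℝ) + 1)) atTop atTop :=
        tendsto_atTop_add_const_right _ _ tendsto_natCast_atTop_atTop
      have h5 := h4.inv_tendsto_atTop
      refine h5.congr fun N => ?_
      rw [Pi.inv_apply, one_div]
    simpa using h3.const_sub (1 / ((m : ℝ) + 1))
  · intro u
    rw [sub_nonneg]
    have hu : (0 : ℝ) ≤ u := Nat.cast_nonneg u
    exact one_div_le_one_div_of_le (by linarith) (by linarith)

lemma ds_tel (m : ℕ) : HasSum (fun u : ℕ => 1 / ((u : ℝ) + ((m : ℝ) + 1)) - 1 / ((u : ℝ) + 1))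
    (-((hs 1 m : ℚ) : ℝ)) := by
  induction m with
  | zero =>
    have h1 : (fun u : ℕ => 1 / ((u : ℝ) + (((0 : ℕ) : ℝ) + 1)) - 1 / ((u : ℝ) + 1)) =
        fun _ => 0 := by
      funext u
      simp
    rw [h1]
    simp [hs, hasSum_zero]
  | succ m ih =>
    have h2 := ih.sub (ds_step m)
    have e1 : -((hs 1 (m + 1) : ℚ) : ℝ) = -((hs 1 m : ℚ) : ℝ) - 1 / ((m : ℝ) + 1) := by
      unfold hs
      rw [Finset.sum_range_succ]
      push_cast
      ring
    rw [e1]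
    refine h2.congr_fun ?_
    intro u
    push_cast
    ring

theorem t_ds (h1 : S_PF) : S_DS := by
  intro n h d P hn hh hd hP
  have hd0 : (0 : ℝ) < d := by exact_mod_cast hd
  have hdq : (0 : ℚ) < d := by exact_mod_cast hd
  obtain ⟨A, hA⟩ : ∃ A : ℕ → ℕ → ℚ, A = fun k i => pa (sP n) (mP h) P k i := ⟨_, rfl⟩
  have hA' : ∀ k i, pa (sP n) (mP h) P k i = A k i := fun k i => by rw [hA]
  have hterm : ∀ u : ℕ, (((P.eval (((u : ℚ) + d + 1) / d) /
      (∏ k ∈ Finset.range n, (((u : ℚ) + d + 1) / d + (k : ℚ))) ^ (2 * h) : ℚ)) : ℝ) =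
      ∑ i ∈ Finset.Icc 1 (2 * h), ∑ k ∈ sP n, (A k i : ℝ) * (d : ℝ) ^ i *
        (1 / ((u : ℝ) + (((d * (k + 1) : ℕ) : ℝ) + 1)) ^ i) := by
    intro u
    rw [h1 n h P _ (by omega) (by intro k _; positivity)]
    push_cast
    rw [Finset.sum_comm]
    refine Finset.sum_congr rfl fun i _ => Finset.sum_congr rfl fun k _ => ?_
    have e : ((u : ℝ) + d + 1) / d + k = ((u : ℝ) + ((d : ℝ) * (k + 1) + 1)) / d := by
      field_simp
      ring
    rw [e, div_pow, hA']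
    have h2 : (0 : ℝ) < (u : ℝ) + ((d : ℝ) * (k + 1) + 1) := by positivity
    field_simp
  have hres : ∑ k ∈ sP n, A k 1 = 0 := by
    rw [hA]
    refine residue_sum (sP n) (mP h) P ?_
    rw [QQ_natDegree]
    simp only [mP, Finset.sum_const, Finset.card_range, smul_eq_mul]
    calc P.natDegree + 2 ≤ 2 * h * n := hP
      _ = n * (2 * h) := by ring
  have hresR : ∑ k ∈ sP n, (A k 1 : ℝ) = 0 := by exact_mod_cast congrArg (fun q : ℚ => (q : ℝ)) hres
  simp only [hterm]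
  refine hasSum_sum fun i hi => ?_
  rw [Finset.mem_Icc] at hi
  unfold rhoP
  simp only [hA']
  rcases Nat.lt_or_ge i 2 with h2 | h2
  · have hi1 : i = 1 := by omega
    subst hi1
    rw [if_neg (by norm_num), mul_zero, zero_sub]
    have h3 : HasSum (fun u : ℕ => ∑ k ∈ sP n, (A k 1 : ℝ) * (d : ℝ) ^ 1 *
        (1 / ((u : ℝ) + (((d * (k + 1) : ℕ) : ℝ) + 1)) - 1 / ((u : ℝ) + 1)))
        (∑ k ∈ sP n, (A k 1 : ℝ) * (d : ℝ) ^ 1 * (-((hs 1 (d * (k + 1)) : ℚ) : ℝ))) :=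
      hasSum_sum fun k _ => (ds_tel (d * (k + 1))).mul_left _
    have e1 : (∑ k ∈ sP n, (A k 1 : ℝ) * (d : ℝ) ^ 1 * (-((hs 1 (d * (k + 1)) : ℚ) : ℝ))) =
        -(((d : ℚ) ^ 1 * ∑ k ∈ sP n, A k 1 * hs 1 (d * (k + 1)) : ℚ) : ℝ) := by
      push_cast
      rw [Finset.mul_sum, ← Finset.sum_neg_distrib]
      refine Finset.sum_congr rfl fun k _ => ?_
      ring
    rw [← e1]
    refine h3.congr_fun ?_
    intro u
    simp only [mul_sub, Finset.sum_sub_distrib, pow_one]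
    have e2 : ∑ k ∈ sP n, (A k 1 : ℝ) * (d : ℝ) * (1 / ((u : ℝ) + 1)) = 0 := by
      simp only [mul_assoc]
      rw [← Finset.sum_mul, hresR, zero_mul]
    rw [e2, sub_zero]
  · rw [if_pos h2]
    have h3 : HasSum (fun u : ℕ => ∑ k ∈ sP n, (A k i : ℝ) * (d : ℝ) ^ i *
        (1 / ((u : ℝ) + (((d * (k + 1) : ℕ) : ℝ) + 1)) ^ i))
        (∑ k ∈ sP n, (A k i : ℝ) * (d : ℝ) ^ i * (zr i - ((hs i (d * (k + 1)) : ℚ) : ℝ))) :=
      hasSum_sum fun k _ => (hasSum_tail h2 (d * (k + 1))).mul_left _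
    have e1 : (∑ k ∈ sP n, (A k i : ℝ) * (d : ℝ) ^ i * (zr i - ((hs i (d * (k + 1)) : ℚ) : ℝ))) =
        (((∑ k ∈ sP n, A k i) * (d : ℚ) ^ i : ℚ) : ℝ) * zr i -
          (((d : ℚ) ^ i * ∑ k ∈ sP n, A k i * hs i (d * (k + 1)) : ℚ) : ℝ) := by
      push_cast
      rw [Finset.mul_sum, Finset.sum_mul, Finset.sum_mul, ← Finset.sum_sub_distrib]
      refine Finset.sum_congr rfl fun k _ => ?_
      ring
    rw [← e1]
    exact h3

end Pool.Agent.W165.OZ
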