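import Pool.Agent.W165.OZ.Stm3

/-!
# Values of periodic Dirichlet series at even integers: the sum over `u > d`
-/

set_option autoImplicit false

open Polynomial Pool.Agent.H337R2 Filter Topology

namespace Pool.Agent.W165.OZ.DSA

/-- periodicity -/
lemma per {f : ℕ} {a : ℕ → ℤ} (ha : ∀ u, a (u + f) = a u) {m : ℕ} (hm : f ∣ m) (u : ℕ) :
    a (u + m) = a u := by
  obtain ⟨c, rfl⟩ := hm
  induction c with
  | zero => simp
  | succ c ih =>
    rw [Nat.mul_succ, ← Nat.add_assoc, ha, ih]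

lemma bdd {f : ℕ} {a : ℕ → ℤ} (hf : 1 ≤ f) (ha : ∀ u, a (u + f) = a u) :
    ∃ M : ℝ, 0 ≤ M ∧ ∀ u, |(a u : ℝ)| ≤ M := by
  refine ⟨∑ v ∈ Finset.range f, |(a v : ℝ)|, Finset.sum_nonneg fun _ _ => abs_nonneg _, ?_⟩
  intro u
  have h1 : a u = a (u % f) := by
    conv_lhs => rw [← Nat.mod_add_div u f]
    exact per ha (dvd_mul_right f _) _
  rw [h1]
  exact Finset.single_le_sum (f := fun v => |(a v : ℝ)|) (fun _ _ => abs_nonneg _)
    (Finset.mem_range.2 (Nat.mod_lt _ hf))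

lemma summable_sq : Summable (fun u : ℕ => 1 / ((u : ℝ) + 1) ^ 2) := by
  have h := (summable_nat_add_iff 1).2 (Real.summable_one_div_nat_pow.2 (by norm_num : 1 < 2))
  refine h.congr fun u => ?_
  push_cast
  rfl

lemma summable_zra {a : ℕ → ℤ} {M : ℝ} (hM : ∀ u, |(a u : ℝ)| ≤ M) {i : ℕ}
    (hi : 2 ≤ i) : Summable (fun t : ℕ => (a (t + 1) : ℝ) / ((t : ℝ) + 1) ^ i) := by
  refine Summable.of_norm_bounded (summable_sq.mul_left M) fun t => ?_
  have h1 : (1 : ℝ) ≤ (t : ℝ) + 1 := by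
    have : (0 : ℝ) ≤ t := Nat.cast_nonneg t
    linarith
  have h2 : ((t : ℝ) + 1) ^ 2 ≤ ((t : ℝ) + 1) ^ i := pow_le_pow_right₀ h1 hi
  have h3 : (0 : ℝ) < ((t : ℝ) + 1) ^ 2 := by positivity
  rw [Real.norm_eq_abs, abs_div, abs_of_pos (by positivity : (0 : ℝ) < ((t : ℝ) + 1) ^ i),
    mul_one_div]
  calc |(a (t + 1) : ℝ)| / ((t : ℝ) + 1) ^ i ≤ |(a (t + 1) : ℝ)| / ((t : ℝ) + 1) ^ 2 :=
        div_le_div_of_nonneg_left (abs_nonneg _) h3 h2
    _ ≤ M / ((t : ℝ) + 1) ^ 2 := div_le_div_of_nonneg_right (hM _) h3.le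

lemma hasSum_tailA {a : ℕ → ℤ} {M : ℝ} (hM : ∀ u, |(a u : ℝ)| ≤ M) {i : ℕ}
    (hi : 2 ≤ i) (m : ℕ) :
    HasSum (fun u : ℕ => (a (u + m + 1) : ℝ) / ((u : ℝ) + ((m : ℝ) + 1)) ^ i)
      (zra a i - ((hsa a i m : ℚ) : ℝ)) := by
  have h1 := (summable_zra hM hi).hasSum
  have h2 := (hasSum_nat_add_iff' m).2 h1
  have e1 : ∑ i_1 ∈ Finset.range m, (a (i_1 + 1) : ℝ) / ((i_1 : ℝ) + 1) ^ i =
      ((hsa a i m : ℚ) : ℝ) := by
    unfold hsa
    push_cast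
    rfl
  rw [e1] at h2
  refine h2.congr_fun ?_
  intro u
  have e2 : ((u + m : ℕ) : ℝ) + 1 = (u : ℝ) + ((m : ℝ) + 1) := by
    push_cast
    ring
  rw [e2]

lemma tel_id (G : ℕ → ℝ) (m U : ℕ) : ∑ u ∈ Finset.range U, (G (u + m) - G u) =
    ∑ l ∈ Finset.range m, G (U + l) - ∑ l ∈ Finset.range m, G l := by
  have h1 := Finset.sum_range_add G U m
  have h2 := Finset.sum_range_add G m U
  rw [Nat.add_comm U m] at h1
  rw [Finset.sum_sub_distrib]
  have h3 : ∑ u ∈ Finset.range U, G (u + m) = ∑ u ∈ Finset.range U, G (m + u) :=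
    Finset.sum_congr rfl fun u _ => by rw [Nat.add_comm]
  rw [h3]
  linarith

lemma telA {f : ℕ} {a : ℕ → ℤ} {M : ℝ} (ha : ∀ u, a (u + f) = a u) (hM0 : 0 ≤ M)
    (hM : ∀ u, |(a u : ℝ)| ≤ M) {m : ℕ} (hm : f ∣ m) :
    HasSum (fun u : ℕ => (a (u + 1) : ℝ) * (1 / ((u : ℝ) + ((m : ℝ) + 1)) - 1 / ((u : ℝ) + 1)))
      (-((hsa a 1 m : ℚ) : ℝ)) := by
  set G : ℕ → ℝ := fun v => (a (v + 1) : ℝ) / ((v : ℝ) + 1) with hG
  have hterm : ∀ u : ℕ, (a (u + 1) : ℝ) * (1 / ((u : ℝ) + ((m : ℝ) + 1)) - 1 / ((u : ℝ) + 1)) =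
      G (u + m) - G u := by
    intro u
    simp only [hG]
    have h1 : a (u + m + 1) = a (u + 1) := by
      rw [Nat.add_right_comm]
      exact per ha hm _
    rw [h1]
    push_cast
    rw [← add_assoc]
    ring
  have hm0 : (0 : ℝ) ≤ m := Nat.cast_nonneg m
  have hsum : Summable (fun u : ℕ =>
      (a (u + 1) : ℝ) * (1 / ((u : ℝ) + ((m : ℝ) + 1)) - 1 / ((u : ℝ) + 1))) := by
    refine Summable.of_norm_bounded (summable_sq.mul_left (M * m)) fun u => ?_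
    have hu : (0 : ℝ) ≤ u := Nat.cast_nonneg u
    rw [norm_mul, Real.norm_eq_abs, Real.norm_eq_abs]
    have h1 : |1 / ((u : ℝ) + ((m : ℝ) + 1)) - 1 / ((u : ℝ) + 1)| ≤
        m * (1 / ((u : ℝ) + 1) ^ 2) := by
      have h2 : 1 / ((u : ℝ) + ((m : ℝ) + 1)) - 1 / ((u : ℝ) + 1) =
          -(m / (((u : ℝ) + ((m : ℝ) + 1)) * ((u : ℝ) + 1))) := by
        field_simp
        ring
      rw [h2, abs_neg, abs_of_nonneg (by positivity), mul_one_div]
      refine div_le_div_of_nonneg_left hm0 (by positivity) ?_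
      rw [sq]
      exact mul_le_mul_of_nonneg_right (by linarith) (by linarith)
    calc |(a (u + 1) : ℝ)| * |1 / ((u : ℝ) + ((m : ℝ) + 1)) - 1 / ((u : ℝ) + 1)| ≤
        M * (m * (1 / ((u : ℝ) + 1) ^ 2)) :=
          mul_le_mul (hM _) h1 (abs_nonneg _) hM0
      _ = M * m * (1 / ((u : ℝ) + 1) ^ 2) := by ring
  have hG0 : Tendsto G atTop (𝓝 0) := by
    have h1 : Tendsto (fun v : ℕ => M * (1 / ((v : ℝ) + 1))) atTop (𝓝 0) := by
      have h2 := tendsto_one_div_add_atTop_nhds_zero_nat (𝕜 := ℝ)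
      simpa using h2.const_mul M
    refine squeeze_zero_norm (fun v => ?_) h1
    simp only [hG]
    have hv : (0 : ℝ) < (v : ℝ) + 1 := by positivity
    rw [Real.norm_eq_abs, abs_div, abs_of_pos hv, mul_one_div]
    exact div_le_div_of_nonneg_right (hM _) hv.le
  have hlim : Tendsto (fun U : ℕ => ∑ u ∈ Finset.range U,
      ((a (u + 1) : ℝ) * (1 / ((u : ℝ) + ((m : ℝ) + 1)) - 1 / ((u : ℝ) + 1)))) atTop
      (𝓝 (-((hsa a 1 m : ℚ) : ℝ))) := by
    have h1 : ∀ U : ℕ, ∑ u ∈ Finset.range U,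
        ((a (u + 1) : ℝ) * (1 / ((u : ℝ) + ((m : ℝ) + 1)) - 1 / ((u : ℝ) + 1))) =
        ∑ l ∈ Finset.range m, G (U + l) - ∑ l ∈ Finset.range m, G l := by
      intro U
      rw [← tel_id]
      exact Finset.sum_congr rfl fun u _ => hterm u
    simp only [h1]
    have h2 : ((hsa a 1 m : ℚ) : ℝ) = ∑ l ∈ Finset.range m, G l := by
      unfold hsa
      push_cast
      refine Finset.sum_congr rfl fun l _ => ?_
      simp only [hG, pow_one]
    rw [h2, ← zero_sub]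
    refine Tendsto.sub_const ?_ _
    have h3 : Tendsto (fun U : ℕ => ∑ l ∈ Finset.range m, G (U + l)) atTop
        (𝓝 (∑ l ∈ Finset.range m, (0 : ℝ))) :=
      tendsto_finsetSum _ fun l _ => hG0.comp (tendsto_add_atTop_nat l)
    simpa using h3
  exact (hsum.hasSum_iff_tendsto_nat).2 hlim

end Pool.Agent.W165.OZ.DSA

namespace Pool.Agent.W165.OZ

open DSA

theorem t_dsa (h1 : S_PF) : S_DSa := by
  intro n h d f a P hn hh hd hf hfd ha hP
  obtain ⟨M, hM0, hM⟩ := bdd hf ha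
  have hd0 : (0 : ℝ) < d := by exact_mod_cast hd
  have hdq : (0 : ℚ) < d := by exact_mod_cast hd
  have hfm : ∀ k : ℕ, f ∣ d * (k + 1) := fun k => dvd_mul_of_dvd_left hfd _
  obtain ⟨A, hA⟩ : ∃ A : ℕ → ℕ → ℚ, A = fun k i => pa (sP n) (mP h) P k i := ⟨_, rfl⟩
  have hA' : ∀ k i, pa (sP n) (mP h) P k i = A k i := fun k i => by rw [hA]
  have had : ∀ u : ℕ, a (u + d + 1) = a (u + 1) := by
    intro u
    rw [Nat.add_right_comm]
    exact per ha hfd _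
  have ham : ∀ u k : ℕ, a (u + d * (k + 1) + 1) = a (u + 1) := by
    intro u k
    rw [Nat.add_right_comm]
    exact per ha (hfm k) _
  have hterm : ∀ u : ℕ, (((a (u + d + 1) : ℚ) * (P.eval (((u : ℚ) + d + 1) / d) /
      (∏ k ∈ Finset.range n, (((u : ℚ) + d + 1) / d + (k : ℚ))) ^ (2 * h)) : ℚ) : ℝ) =
      ∑ i ∈ Finset.Icc 1 (2 * h), ∑ k ∈ sP n, (A k i : ℝ) * (d : ℝ) ^ i *
        ((a (u + 1) : ℝ) * (1 / ((u : ℝ) + (((d * (k + 1) : ℕ) : ℝ) + 1)) ^ i)) := by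
    intro u
    rw [h1 n h P _ (by omega) (by intro k _; positivity), had u]
    push_cast
    rw [Finset.sum_comm, Finset.mul_sum]
    refine Finset.sum_congr rfl fun i _ => ?_
    rw [Finset.mul_sum]
    refine Finset.sum_congr rfl fun k _ => ?_
    have e : ((u : ℝ) + d + 1) / d + k = ((u : ℝ) + ((d : ℝ) * (k + 1) + 1)) / d := by
      field_simp
      ring
    rw [e, div_pow, hA']
    have h2 : (0 : ℝ) < (u : ℝ) + ((d : ℝ) * (k + 1) + 1) := by positivity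
    field_simp
  have hres : ∑ k ∈ sP n, A k 1 = 0 := by
    rw [hA]
    refine residue_sum (sP n) (mP h) P ?_
    rw [QQ_natDegree]
    simp only [mP, Finset.sum_const, Finset.card_range, smul_eq_mul]
    calc P.natDegree + 2 ≤ 2 * h * n := hP
      _ = n * (2 * h) := by ring
  have hresR : ∑ k ∈ sP n, (A k 1 : ℝ) = 0 := by exact_mod_cast congrArg (fun q : ℚ => (q : ℝ)) hres
  simp only [hterm]
  refine hasSum_sum fun i hi => ?_
  rw [Finset.mem_Icc] at hi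
  unfold rhoP
  simp only [hA']
  rcases Nat.lt_or_ge i 2 with h2 | h2
  · have hi1 : i = 1 := by omega
    subst hi1
    rw [if_neg (by norm_num), mul_zero, zero_sub]
    have h3 : HasSum (fun u : ℕ => ∑ k ∈ sP n, (A k 1 : ℝ) * (d : ℝ) ^ 1 *
        ((a (u + 1) : ℝ) * (1 / ((u : ℝ) + (((d * (k + 1) : ℕ) : ℝ) + 1)) - 1 / ((u : ℝ) + 1))))
        (∑ k ∈ sP n, (A k 1 : ℝ) * (d : ℝ) ^ 1 * (-((hsa a 1 (d * (k + 1)) : ℚ) : ℝ))) :=
      hasSum_sum fun k _ => (telA ha hM0 hM (hfm k)).mul_left _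
    have e1 : (∑ k ∈ sP n, (A k 1 : ℝ) * (d : ℝ) ^ 1 * (-((hsa a 1 (d * (k + 1)) : ℚ) : ℝ))) =
        -(((d : ℚ) ^ 1 * ∑ k ∈ sP n, A k 1 * hsa a 1 (d * (k + 1)) : ℚ) : ℝ) := by
      push_cast
      rw [Finset.mul_sum, ← Finset.sum_neg_distrib]
      refine Finset.sum_congr rfl fun k _ => ?_
      ring
    rw [← e1]
    refine h3.congr_fun ?_
    intro u
    simp only [mul_sub, Finset.sum_sub_distrib, pow_one]
    have e2 : ∑ k ∈ sP n, (A k 1 : ℝ) * (d : ℝ) * ((a (u + 1) : ℝ) * (1 / ((u : ℝ) + 1))) = 0 := by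
      simp only [mul_assoc]
      rw [← Finset.sum_mul, hresR, zero_mul]
    rw [e2, sub_zero]
  · rw [if_pos h2]
    have h3 : HasSum (fun u : ℕ => ∑ k ∈ sP n, (A k i : ℝ) * (d : ℝ) ^ i *
        ((a (u + 1) : ℝ) * (1 / ((u : ℝ) + (((d * (k + 1) : ℕ) : ℝ) + 1)) ^ i)))
        (∑ k ∈ sP n, (A k i : ℝ) * (d : ℝ) ^ i *
          (zra a i - ((hsa a i (d * (k + 1)) : ℚ) : ℝ))) := by
      refine hasSum_sum fun k _ => HasSum.mul_left _ ?_
      refine (hasSum_tailA hM h2 (d * (k + 1))).congr_fun ?_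
      intro u
      rw [ham u k, mul_one_div]
    have e1 : (∑ k ∈ sP n, (A k i : ℝ) * (d : ℝ) ^ i *
          (zra a i - ((hsa a i (d * (k + 1)) : ℚ) : ℝ))) =
        (((∑ k ∈ sP n, A k i) * (d : ℚ) ^ i : ℚ) : ℝ) * zra a i -
          (((d : ℚ) ^ i * ∑ k ∈ sP n, A k i * hsa a i (d * (k + 1)) : ℚ) : ℝ) := by
      push_cast
      rw [Finset.mul_sum, Finset.sum_mul, Finset.sum_mul, ← Finset.sum_sub_distrib]
      refine Finset.sum_congr rfl fun k _ => ?_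
      ring
    rw [← e1]
    exact h3

end Pool.Agent.W165.OZ
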