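import Pool.Agent.H337R2.PAdic

/-!
# Many irrational odd zeta values: definitions

`R(t) = (2t+n-1) / (t(t+1)...(t+n-1))^(2h)`, `y(t) = t(t+n-1)`, and the functional
`Q ↦ ∑_{d ≤ B} w_d ∑_{u > d} R(u/d) Q(y(u/d))`.
-/

open Polynomial Pool.Agent.H337R2 Filter Topology

namespace Pool.Agent.W165.OZ

noncomputable section

/-! ### Hankel determinants -/

/-- Hankel determinant of size `r` of the sequence `μ` -/
def DH {A : Type*} [CommRing A] (μ : ℕ → A) (r : ℕ) : A :=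
  Matrix.det (Matrix.of fun i j : Fin r => μ (i.1 + j.1))

/-- the functional `X^k ↦ μ k` -/
def Lf {A : Type*} [CommRing A] (μ : ℕ → A) : A[X] →ₗ[A] A where
  toFun Q := Q.sum fun k a => a * μ k
  map_add' P Q := by
    rw [Polynomial.sum_add_index]
    · intro i; simp
    · intro i a b; ring
  map_smul' c P := by
    rw [Polynomial.sum_smul_index _ _ _ (by intro i; simp), RingHom.id_apply, Polynomial.sum_def,
      Polynomial.sum_def, smul_eq_mul, Finset.mul_sum]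
    exact Finset.sum_congr rfl fun i _ => by ring

lemma Lf_apply {A : Type*} [CommRing A] (μ : ℕ → A) (Q : A[X]) (N : ℕ) (hN : Q.natDegree < N) :
    Lf μ Q = ∑ k ∈ Finset.range N, Q.coeff k * μ k := by
  change (Q.sum fun k a => a * μ k) = _
  exact Polynomial.sum_over_range' Q (fun n => by simp) N hN

lemma Lf_X_pow {A : Type*} [CommRing A] (μ : ℕ → A) (k : ℕ) : Lf μ (X ^ k) = μ k := by
  change ((X ^ k : A[X]).sum fun k a => a * μ k) = _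
  rw [← Polynomial.monomial_one_right_eq_X_pow, Polynomial.sum_monomial_index]
  · simp
  · simp

/-! ### The rational functions -/

/-- the poles are at `0, -1, …, -(n-1)` -/
abbrev sP (n : ℕ) : Finset ℕ := Finset.range n

/-- they have order `2h` -/
abbrev mP (h : ℕ) : ℕ → ℕ := fun _ => 2 * h

/-- `y(t) = t (t + n - 1)` -/
def yp (n : ℕ) : ℚ[X] := X * (X + C ((n : ℚ) - 1))

/-- the numerator `(2t + n - 1) Q(y(t))` -/
def num (n : ℕ) (Q : ℚ[X]) : ℚ[X] := (C 2 * X + C ((n : ℚ) - 1)) * Q.comp (yp n)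

/-- the coefficient of `ζ(i)` (before the weights) -/
def rhoP (n h : ℕ) (P : ℚ[X]) (i : ℕ) : ℚ := ∑ k ∈ sP n, pa (sP n) (mP h) P k i

/-- the weight `∑_d w_d d^i` -/
def WW (B : ℕ) (w : ℕ → ℤ) (i : ℕ) : ℤ := ∑ d ∈ Finset.Icc 1 B, w d * (d : ℤ) ^ i

/-- the rational part belonging to the poles of order `i` -/
def betP (n h B : ℕ) (w : ℕ → ℤ) (P : ℚ[X]) (i : ℕ) : ℚ :=
  ∑ d ∈ Finset.Icc 1 B, (w d : ℚ) * (d : ℚ) ^ i *
    ∑ k ∈ sP n, pa (sP n) (mP h) P k i * hs i (d * (k + 1))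

/-- the linear form, with `z i` in the place of `ζ(i)` -/
def La {A : Type*} [CommRing A] [Algebra ℚ A] (n h B : ℕ) (w : ℕ → ℤ) (z : ℕ → A) (P : ℚ[X]) : A :=
  ∑ i ∈ Finset.Icc 1 (2 * h),
    (algebraMap ℚ A (rhoP n h P i * WW B w i) * z i - algebraMap ℚ A (betP n h B w P i))

/-- the moments -/
def mo {A : Type*} [CommRing A] [Algebra ℚ A] (n h B : ℕ) (w : ℕ → ℤ) (z : ℕ → A) (k : ℕ) : A :=
  La n h B w z (num n (X ^ k))

/-! ### The real side -/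

/-- `y(t)` for real `t` -/
def yv (n : ℕ) (t : ℝ) : ℝ := t * (t + ((n : ℝ) - 1))

/-- `R(t)` for real `t` -/
def Rv (n h : ℕ) (t : ℝ) : ℝ := (2 * t + ((n : ℝ) - 1)) / (∏ k ∈ Finset.range n, (t + (k : ℝ))) ^ (2 * h)

/-- the zeta values, `0` where they are not needed -/
def zz (i : ℕ) : ℝ := if Odd i ∧ 3 ≤ i then zr i else 0

/-- a system of nodes `τ i` with weights `ω i`: `N` nodes in every interval `(v, v+1]`, `v ≥ 1` -/
structure Nodes (N : ℕ) (δ c1 c2 : ℝ) (τ ω : ℕ → ℝ) : Prop where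
  hN : 1 ≤ N
  hδ : 0 < δ
  hδ1 : δ ≤ 1
  hc1 : 0 < c1
  lo : ∀ i, 1 + ((i / N : ℕ) : ℝ) < τ i
  hi : ∀ i, τ i ≤ 2 + ((i / N : ℕ) : ℝ)
  gap : ∀ i, τ i + δ ≤ τ (i + 1)
  wlo : ∀ i, c1 ≤ |ω i|
  whi : ∀ i, |ω i| ≤ c2

/-- `μ k = ∑_i ω_i R(τ_i) y(τ_i)^k` for all `k ≤ h n - 2` -/
def Mom (n h : ℕ) (τ ω : ℕ → ℝ) (μ : ℕ → ℝ) : Prop :=
  ∀ k, k + 2 ≤ h * n → HasSum (fun i => ω i * (Rv n h (τ i) * yv n (τ i) ^ k)) (μ k)

/-! ### Normalising constants -/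

/-- `∏_{p ≤ n} p^{⌊log_p (B n)⌋}` -/
def Dl (n B : ℕ) : ℕ := ∏ p ∈ (Finset.range (n + 1)).filter Nat.Prime, p ^ Nat.log p (B * n)

/-- the scaling factor of row `i` -/
def sc (n h B i : ℕ) : ℚ :=
  ((n.factorial : ℚ) ^ (h - i / (n / 2)) * (Dl n B : ℚ) ^ (h - i / (n / 2) + 2)) /
    ((2 * (i % (n / 2))).factorial : ℚ)

/-- the number of singular triples for the prime `p` -/
def Sp (n B p : ℕ) : ℕ := ∑ d ∈ Finset.Icc 1 B, ∑ k ∈ Finset.range n, d * (k + 1) / p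

/-- the contribution of the primes `> n` -/
def PPn (n h B : ℕ) : ℕ :=
  ∏ p ∈ (Finset.range (B * n + 1)).filter (fun p => Nat.Prime p ∧ n < p), p ^ (2 * h * Sp n B p)

/-- `max 1 (i/N)` -/
def MM (N i : ℕ) : ℝ := max 1 ((i : ℝ) / N)

/-- the archimedean bound -/
def Arc (N n h : ℕ) (C : ℝ) (r : ℕ) : ℝ :=
  (r.factorial : ℝ) * C ^ r * ∏ i ∈ Finset.range r, (MM N i ^ (4 * (h * n / 2 - 1 - i)))⁻¹

/-- `p`-integral rational numbers -/
def pint (p : ℕ) (x : ℚ) : Prop := padicNorm p x ≤ 1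

end

end Pool.Agent.W165.OZ
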