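import Pool.Agent.W165.OZ.Stm

/-!
# Task OZ-EV: the even orders vanish
-/

open Polynomial Pool.Agent.H337R2 Filter Topology

namespace Pool.Agent.W165.OZ

theorem ev_comp (n : ℕ) (hn : 1 ≤ n) (Q : ℚ[X]) :
    (num n Q).comp (-X - C (((n - 1 : ℕ) : ℚ))) = - num n Q := by
  have hc : (((n - 1 : ℕ) : ℚ)) = (n : ℚ) - 1 := by
    rw [Nat.cast_sub hn]; norm_num
  rw [hc]
  have h1 : (yp n).comp (-X - C ((n : ℚ) - 1)) = yp n := by
    unfold yp
    simp only [Polynomial.mul_comp, Polynomial.add_comp, Polynomial.X_comp, Polynomial.C_comp]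
    ring
  unfold num
  rw [Polynomial.mul_comp, Polynomial.comp_assoc, h1]
  simp only [Polynomial.mul_comp, Polynomial.add_comp, Polynomial.X_comp, Polynomial.C_comp]
  have h2 : (C (2 : ℚ) : ℚ[X]) = 2 := map_ofNat C 2
  rw [h2]
  ring

theorem t_ev : S_EV := by
  intro n h Q i hn hi hi1
  unfold rhoP
  refine even_vanish (sP n) (mP h) (num n Q) (n - 1) ?_ ?_ (ev_comp n hn Q) ?_ hi hi1
  · intro k hk
    rw [Finset.mem_range] at hk ⊢
    omega
  · intro k _
    rfl
  · rw [Finset.sum_const, smul_eq_mul]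
    exact (even_two_mul h).mul_left _

end Pool.Agent.W165.OZ
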