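import Pool.Agent.W165.OZ.Stm

/-!
# FI: the choice of the parameters
-/

set_option autoImplicit false

open Filter

namespace Pool.Agent.W165.OZ

theorem t_fi : S_FI := by
  intro C1 hC1
  set c : ℝ := 1 / (4 + 2048 * C1) with hc
  have hden : 0 < 4 + 2048 * C1 := by positivity
  have hc0 : 0 < c := by positivity
  have hc4 : c ≤ 1 / 4 := by
    rw [hc]
    apply one_div_le_one_div_of_le (by norm_num)
    nlinarith
  have hcC : 2048 * C1 * c ^ 2 ≤ 1 := by
    rw [hc, div_pow, one_pow, mul_one_div, div_le_one (by positivity)]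
    nlinarith
  refine ⟨c, hc0, ?_⟩
  -- the limits
  have t1 : Tendsto (fun s : ℕ => Real.log (s : ℝ)) atTop atTop :=
    Real.tendsto_log_atTop.comp tendsto_natCast_atTop_atTop
  have t2 : Tendsto (fun s : ℕ => Real.log (Real.log (s : ℝ))) atTop atTop :=
    Real.tendsto_log_atTop.comp t1
  have hlo : ∀ δ : ℝ, 0 < δ → ∀ᶠ x : ℝ in atTop, Real.log x ≤ δ * x := by
    intro δ hδ
    have h1 := Real.isLittleO_log_id_atTop.bound hδ
    filter_upwards [h1, eventually_ge_atTop 1] with x hx hx1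
    simp only [id] at hx
    rw [Real.norm_eq_abs, Real.norm_eq_abs, abs_of_nonneg (Real.log_nonneg hx1),
      abs_of_nonneg (by linarith)] at hx
    exact hx
  have e1 : ∀ᶠ s : ℕ in atTop, Real.log (Real.log (s : ℝ)) ≤ 1 / 16 * Real.log s :=
    t1.eventually (hlo (1 / 16) (by norm_num))
  have e2 : ∀ᶠ s : ℕ in atTop, Real.log (s : ℝ) ≤ c ^ 2 / 4 * s :=
    tendsto_natCast_atTop_atTop.eventually (hlo (c ^ 2 / 4) (by positivity))
  have e3 : ∀ᶠ s : ℕ in atTop, max 1 (64 * C1 + 1) ≤ Real.log (Real.log (s : ℝ)) :=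
    t2.eventually_ge_atTop _
  have e4 : ∀ᶠ s : ℕ in atTop, 1 ≤ Real.log (s : ℝ) := t1.eventually_ge_atTop _
  obtain ⟨s0, hs0⟩ := eventually_atTop.1 (e1.and (e2.and (e3.and (e4.and (eventually_ge_atTop 2)))))
  refine ⟨s0, fun s hs => ?_⟩
  obtain ⟨h1, h2, h3, h4, h5⟩ := hs0 s hs
  set L1 : ℝ := Real.log (s : ℝ) with hL1
  set L2 : ℝ := Real.log L1 with hL2
  have hsR : (2 : ℝ) ≤ s := by exact_mod_cast h5
  have hL2a : 1 ≤ L2 := (le_max_left _ _).trans h3
  have hL2b : 64 * C1 + 1 ≤ L2 := (le_max_right _ _).trans h3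
  have hL1pos : 0 < L1 := by linarith
  have hL2pos : 0 < L2 := by linarith
  have hspos : (0 : ℝ) < s := by linarith
  set X : ℝ := c * Real.sqrt (s * L2 / L1) with hX
  have hq : 0 < s * L2 / L1 := by positivity
  have hXpos : 0 < X := mul_pos hc0 (Real.sqrt_pos.2 hq)
  have hX2 : X ^ 2 = c ^ 2 * (s * L2 / L1) := by
    rw [hX, mul_pow, Real.sq_sqrt hq.le]
  -- X ≥ 2
  have hXge : 2 ≤ X := by
    have h6 : (2 : ℝ) ^ 2 ≤ X ^ 2 := by
      rw [hX2]
      have h7 : 4 / c ^ 2 ≤ s * L2 / L1 := by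
        rw [div_le_div_iff₀ (by positivity) hL1pos]
        have h8 : 4 * L1 ≤ c ^ 2 * s := by linarith
        have h9 : c ^ 2 * s ≤ s * L2 * c ^ 2 := by
          have : 0 ≤ c ^ 2 * s := by positivity
          nlinarith
        linarith
      have h8 : c ^ 2 * (4 / c ^ 2) = 4 := by field_simp
      have h9 := mul_le_mul_of_nonneg_left h7 (by positivity : 0 ≤ c ^ 2)
      rw [h8] at h9
      linarith
    exact (pow_le_pow_iff_left₀ (by norm_num) hXpos.le (by norm_num)).1 h6
  set B : ℕ := ⌈X⌉₊ with hB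
  have hB1 : X ≤ B := Nat.le_ceil X
  have hB2 : (B : ℝ) < X + 1 := Nat.ceil_lt_add_one hXpos.le
  have hBpos : (0 : ℝ) < B := by linarith
  have hB3 : (B : ℝ) * (B + 1) ≤ 4 * c ^ 2 * (s * L2 / L1) := by
    have h6 : (B : ℝ) ≤ 2 * X := by linarith
    have h7 : (B : ℝ) + 1 ≤ 2 * X := by linarith
    have h8 : (B : ℝ) * (B + 1) ≤ (2 * X) * (2 * X) := mul_le_mul h6 h7 (by positivity) (by positivity)
    have h9 : (2 * X) * (2 * X) = 4 * c ^ 2 * (s * L2 / L1) := by
      have : (2 * X) * (2 * X) = 4 * X ^ 2 := by ring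
      rw [this, hX2]
      ring
    linarith
  set h : ℕ := s / 2 with hh
  have hh1 : 2 * h ≤ s := by omega
  have hh2 : (s : ℝ) / 4 ≤ h := by
    have h6 : s ≤ 4 * h := by omega
    have h7 : (s : ℝ) ≤ 4 * h := by exact_mod_cast h6
    linarith
  have hhpos : (0 : ℝ) < h := by linarith
  have hB4 : (B : ℝ) * (B + 1) / h ≤ 16 * c ^ 2 * (L2 / L1) := by
    rw [div_le_iff₀ hhpos]
    have h6 : 16 * c ^ 2 * (L2 / L1) * (s / 4) ≤ 16 * c ^ 2 * (L2 / L1) * h :=
      mul_le_mul_of_nonneg_left hh2 (by positivity)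
    have h7 : 16 * c ^ 2 * (L2 / L1) * (s / 4) = 4 * c ^ 2 * (s * L2 / L1) := by ring
    linarith
  have hr : L2 / L1 ≤ 1 / 16 := by
    rw [div_le_iff₀ hL1pos]
    linarith
  have hc2 : c ^ 2 ≤ 1 / 16 := by nlinarith
  have hBBpos : (0 : ℝ) < B * (B + 1) := by positivity
  refine ⟨h, B, hh1, ?_, ?_, ?_, ?_⟩
  · exact_mod_cast hBpos
  · have h6 : 16 * ((B : ℝ) * (B + 1)) ≤ h := by
      have h7 : 16 * ((B : ℝ) * (B + 1)) ≤ 64 * c ^ 2 * (s * (L2 / L1)) := by
        have : 64 * c ^ 2 * (s * (L2 / L1)) = 16 * (4 * c ^ 2 * (s * L2 / L1)) := by ring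
        linarith
      have h8 : 64 * c ^ 2 * (s * (L2 / L1)) ≤ 4 * (s * (1 / 16)) := by
        have h9 : s * (L2 / L1) ≤ s * (1 / 16) := mul_le_mul_of_nonneg_left hr hspos.le
        have h10 : 64 * c ^ 2 ≤ 4 := by linarith
        exact mul_le_mul h10 h9 (by positivity) (by norm_num)
      linarith
    exact_mod_cast h6
  · exact hB1
  · -- the main inequality
    have hBs : (B : ℝ) ≤ s := by
      have h6 : X ^ 2 ≤ (s / 2) ^ 2 := by
        rw [hX2]
        have h7 : c ^ 2 * (s * L2 / L1) ≤ 1 / 16 * (s * (1 / 16)) := by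
          have h8 : s * L2 / L1 ≤ s * (1 / 16) := by
            have : s * L2 / L1 = s * (L2 / L1) := by ring
            rw [this]
            exact mul_le_mul_of_nonneg_left hr hspos.le
          exact mul_le_mul hc2 h8 hq.le (by norm_num)
        nlinarith
      have h7 : X ≤ s / 2 := (pow_le_pow_iff_left₀ hXpos.le (by positivity) (by norm_num)).1 h6
      linarith
    have hlogB : 1 + Real.log B ≤ 2 * L1 := by
      have := Real.log_le_log hBpos hBs
      linarith
    have hlhs : ((B : ℝ) * (B + 1) / h) * (1 + Real.log B) ≤ 32 * c ^ 2 * L2 := by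
      have h6 : 0 ≤ 1 + Real.log B := by
        have : (1 : ℝ) ≤ B := by linarith
        have := Real.log_nonneg this
        linarith
      calc ((B : ℝ) * (B + 1) / h) * (1 + Real.log B) ≤ (16 * c ^ 2 * (L2 / L1)) * (2 * L1) :=
            mul_le_mul hB4 hlogB h6 (by positivity)
        _ = 32 * c ^ 2 * L2 := by field_simp; ring
    have hl : C1 * (1 + ((B : ℝ) * (B + 1) / h) * (1 + Real.log B)) ≤ C1 + L2 / 64 := by
      have h6 := mul_le_mul_of_nonneg_left hlhs hC1.le
      have h7 : C1 * (32 * c ^ 2 * L2) ≤ L2 / 64 := by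
        have : C1 * (32 * c ^ 2 * L2) = (2048 * C1 * c ^ 2) * (L2 / 64) := by ring
        rw [this]
        have h8 : 0 ≤ L2 / 64 := by positivity
        nlinarith
      linarith
    have hrhs : L2 / 2 ≤ Real.log ((h : ℝ) / ((B : ℝ) * (B + 1))) := by
      have h6 : L1 / L2 ≤ (h : ℝ) / ((B : ℝ) * (B + 1)) := by
        rw [div_le_div_iff₀ hL2pos hBBpos]
        have h7 : (B : ℝ) * (B + 1) ≤ 16 * c ^ 2 * (L2 / L1) * h := (div_le_iff₀ hhpos).1 hB4
        have h8 : L1 * ((B : ℝ) * (B + 1)) ≤ L1 * (16 * c ^ 2 * (L2 / L1) * h) :=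
          mul_le_mul_of_nonneg_left h7 hL1pos.le
        have h9 : L1 * (16 * c ^ 2 * (L2 / L1) * h) = 16 * c ^ 2 * (h * L2) := by field_simp
        have h10 : 16 * c ^ 2 * (h * L2) ≤ h * L2 := by
          have : 0 ≤ (h : ℝ) * L2 := by positivity
          nlinarith
        linarith
      have h7 : Real.log (L1 / L2) ≤ Real.log ((h : ℝ) / ((B : ℝ) * (B + 1))) :=
        Real.log_le_log (by positivity) h6
      rw [Real.log_div hL1pos.ne' hL2pos.ne'] at h7
      have h8 : Real.log L2 ≤ L2 / 2 := by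
        have h9 := Real.log_le_sub_one_of_pos (show (0 : ℝ) < L2 / 2 by positivity)
        rw [Real.log_div hL2pos.ne' (by norm_num)] at h9
        have h10 : Real.log 2 ≤ 1 := by
          have := Real.log_two_lt_d9
          linarith
        linarith
      have h9 : Real.log L1 = L2 := rfl
      linarith
    linarith

end Pool.Agent.W165.OZ
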