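import Pool.Agent.W165.OZ.Stm

/-!
# Many irrational odd zeta values: the harmonic sums (part HB)
-/

open Polynomial Pool.Agent.H337R2 Filter Topology

namespace Pool.Agent.W165.OZ

lemma hb_pow (p : ℕ) [Fact p.Prime] (x : ℚ) (i : ℕ) : padicNorm p (x ^ i) = padicNorm p x ^ i :=
  IsAbsoluteValue.abv_pow (padicNorm p) x i

lemma hb_inv (p : ℕ) [hp : Fact p.Prime] (u M : ℕ) (hu : 1 ≤ u) (hM : u ≤ M) :
    padicNorm p (1 / (u : ℚ)) ≤ (p : ℚ) ^ (Nat.log p M) := by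
  have hu0 : (u : ℚ) ≠ 0 := by exact_mod_cast (by omega : u ≠ 0)
  have hp0 : (0 : ℚ) < p := by exact_mod_cast hp.out.pos
  have hp1 : (1 : ℚ) ≤ p := by exact_mod_cast hp.out.one_lt.le
  rw [padicNorm.div, padicNorm.one, padicNorm.eq_zpow_of_nonzero hu0, padicValRat.of_nat, zpow_neg,
    one_div, inv_inv, zpow_natCast]
  exact pow_le_pow_right₀ hp1 ((padicValNat_le_nat_log u).trans (Nat.log_mono_right hM))

theorem t_hb : S_HB := by
  intro p _ n B d k ι hd hdB hkn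
  have hnn : (0 : ℚ) ≤ (p : ℚ) ^ (ι * Nat.log p (B * n)) := by positivity
  have h1 : padicNorm p ((d : ℚ) ^ ι) ≤ 1 := by
    rw [hb_pow]
    exact pow_le_one₀ (padicNorm.nonneg _) (padicNorm.of_nat d)
  have h2 : padicNorm p (hs ι (d * (k + 1))) ≤ (p : ℚ) ^ (ι * Nat.log p (B * n)) := by
    unfold hs
    refine padicNorm.sum_le' (fun l hl => ?_) hnn
    have hl' : l + 1 ≤ B * n := by
      have h3 := Finset.mem_range.1 hl
      have h4 : d * (k + 1) ≤ B * n := Nat.mul_le_mul hdB hkn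
      omega
    have h5 : 1 / ((l : ℚ) + 1) ^ ι = (1 / ((l + 1 : ℕ) : ℚ)) ^ ι := by
      rw [one_div_pow]
      push_cast
      rfl
    rw [h5, hb_pow, mul_comm ι, pow_mul]
    exact pow_le_pow_left₀ (padicNorm.nonneg _) (hb_inv p (l + 1) (B * n) (by omega) hl') ι
  rw [padicNorm.mul]
  calc padicNorm p ((d : ℚ) ^ ι) * padicNorm p (hs ι (d * (k + 1)))
      ≤ 1 * (p : ℚ) ^ (ι * Nat.log p (B * n)) :=
        mul_le_mul h1 h2 (padicNorm.nonneg _) zero_le_one
    _ = _ := one_mul _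

end Pool.Agent.W165.OZ
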