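import Pool.Agent.W165.OZ.Stm

/-!
# Many irrational odd zeta values: the singular part of the harmonic sums (helper721)
-/

open Polynomial Pool.Agent.H337R2 Filter Topology

namespace Pool.Agent.W165.OZ

theorem t_hj : S_HJ := by
  intro p hp n B d k ι _ _ _ _ _
  set M : ℕ := d * (k + 1) with hM
  have hp0 : 0 < p := hp.out.pos
  have h1 : hs ι M = ∑ u ∈ Finset.Icc 1 M, 1 / (u : ℚ) ^ ι := by
    unfold hs
    have e1 : Finset.Icc 1 M = Finset.Ico (0 + 1) (M + 1) := by
      ext u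
      simp only [Finset.mem_Icc, Finset.mem_Ico]
      omega
    rw [e1, ← Finset.sum_Ico_add' (fun u : ℕ => 1 / (u : ℚ) ^ ι) 0 M 1, Finset.range_eq_Ico]
    apply Finset.sum_congr rfl
    intro l _
    push_cast
    rfl
  have h2 : ∑ v ∈ Finset.Icc 1 (M / p), 1 / ((p * v : ℕ) : ℚ) ^ ι =
      ∑ u ∈ (Finset.Icc 1 M).filter (fun u => p ∣ u), 1 / (u : ℚ) ^ ι := by
    refine Finset.sum_nbij' (fun v => p * v) (fun u => u / p) ?_ ?_ ?_ ?_ ?_
    · intro v hv
      rw [Finset.mem_Icc] at hv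
      rw [Finset.mem_filter, Finset.mem_Icc]
      refine ⟨⟨Nat.mul_pos hp0 hv.1, ?_⟩, dvd_mul_right _ _⟩
      have := Nat.mul_le_mul_left p hv.2
      exact this.trans (Nat.mul_div_le M p)
    · intro u hu
      rw [Finset.mem_filter, Finset.mem_Icc] at hu
      rw [Finset.mem_Icc]
      exact ⟨Nat.div_pos (Nat.le_of_dvd hu.1.1 hu.2) hp0, Nat.div_le_div_right hu.1.2⟩
    · intro v _
      exact Nat.mul_div_cancel_left v hp0
    · intro u hu
      rw [Finset.mem_filter] at hu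
      exact Nat.mul_div_cancel' hu.2
    · intro v _
      rfl
  rw [h1, h2, ← Finset.sum_filter_add_sum_filter_not (Finset.Icc 1 M) (fun u => p ∣ u),
    add_sub_cancel_left]
  apply padicNorm.sum_le' _ (by positivity)
  intro u hu
  rw [Finset.mem_filter] at hu
  have h3 : padicNorm p (u : ℚ) = 1 := (padicNorm.nat_eq_one_iff u).2 hu.2
  have h4 : padicNorm p ((u : ℚ) ^ ι) = 1 := by
    have h5 : ((u : ℚ) ^ ι) = ((u ^ ι : ℕ) : ℚ) := by push_cast; rfl
    rw [h5, padicNorm.nat_eq_one_iff]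
    intro h6
    exact hu.2 (hp.out.dvd_of_dvd_pow h6)
  rw [padicNorm.div, padicNorm.one, h4]
  norm_num

end Pool.Agent.W165.OZ
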