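import Pool.Agent.W165.OZ.Base

/-!
# Many irrational odd zeta values: the statements of the parts
-/

open Polynomial Pool.Agent.H337R2 Filter Topology

namespace Pool.Agent.W165.OZ

noncomputable section

/-! ### Algebra -/

/-- HK: if the Hankel determinants of sizes `r0, …, m` vanish, some `Q ≠ 0` of degree `< r0` is orthogonal
to all polynomials of degree `< m` -/
def S_HK : Prop := ∀ (μ : ℕ → ℝ) (r0 m : ℕ), 1 ≤ r0 → r0 ≤ m →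
  (∀ r, r0 ≤ r → r ≤ m → DH μ r = 0) →
  ∃ Q : ℝ[X], Q ≠ 0 ∧ Q.natDegree < r0 ∧ ∀ j < m, Lf μ (Q * X ^ j) = 0

/-- BAS: change of basis -/
def S_BAS : Prop := ∀ (R A : Type) [CommRing R] [CommRing A] [Algebra R A] (L : R[X] →ₗ[R] A) (Q : ℕ → R[X]),
  (∀ i, (Q i).Monic) → (∀ i, (Q i).natDegree = i) → ∀ r : ℕ,
  Matrix.det (Matrix.of fun i j : Fin r => L (Q i.1 * Q j.1)) = DH (fun k => L (X ^ k)) r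

/-- LA: rank one parts -/
def S_LA : Prop := ∀ (A : Type) [CommRing A] (S : Subring A) (c : A) (r : ℕ) (ι : Type) [Fintype ι] [DecidableEq ι]
  (G : Matrix (Fin r) (Fin r) A) (lam : ι → A) (v : ι → Fin r → A), c ∈ S →
  (∀ i j, G i j ∈ S) → (∀ s, c * lam s ∈ S) → (∀ s i, v s i ∈ S) →
  c ^ Fintype.card ι * Matrix.det (G + Matrix.of fun i j => ∑ s, lam s * v s i * v s j) ∈ S

/-- WE: the weights -/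
def S_WE : Prop := ∀ (B : ℕ) (I : Finset ℕ), I.card < B →
  ∃ w : ℕ → ℤ, (∃ d ∈ Finset.Icc 1 B, w d ≠ 0) ∧ ∀ i ∈ I, WW B w i = 0

/-! ### The real side -/

/-- NO: the nodes -/
def S_NO : Prop := ∀ (B : ℕ) (w : ℕ → ℤ), (∃ d ∈ Finset.Icc 1 B, w d ≠ 0) →
  ∃ (N : ℕ) (δ c1 c2 : ℝ) (τ ω : ℕ → ℝ), Nodes N δ c1 c2 τ ω ∧ 2 * N ≤ B * (B + 1) ∧
    ∀ F : ℝ → ℝ, (∀ d ∈ Finset.Icc 1 B, Summable (fun u : ℕ => F (((u : ℝ) + d + 1) / d))) →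
      HasSum (fun i => ω i * F (τ i)) (∑ d ∈ Finset.Icc 1 B, (w d : ℝ) * ∑' u : ℕ, F (((u : ℝ) + d + 1) / d))

/-- PF: partial fractions at a rational point -/
def S_PF : Prop := ∀ (n h : ℕ) (P : ℚ[X]) (t : ℚ), P.natDegree < 2 * h * n → (∀ k < n, t + (k : ℚ) ≠ 0) →
  P.eval t / (∏ k ∈ Finset.range n, (t + (k : ℚ))) ^ (2 * h) =
    ∑ k ∈ sP n, ∑ i ∈ Finset.Icc 1 (2 * h), pa (sP n) (mP h) P k i / (t + (k : ℚ)) ^ i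

/-- DS: the sum over `u > d` -/
def S_DS : Prop := ∀ (n h d : ℕ) (P : ℚ[X]), 1 ≤ n → 1 ≤ h → 1 ≤ d → P.natDegree + 2 ≤ 2 * h * n →
  HasSum (fun u : ℕ => (((P.eval (((u : ℚ) + d + 1) / d) /
      (∏ k ∈ Finset.range n, (((u : ℚ) + d + 1) / d + (k : ℚ))) ^ (2 * h) : ℚ)) : ℝ))
    (∑ i ∈ Finset.Icc 1 (2 * h), (((rhoP n h P i * (d : ℚ) ^ i : ℚ) : ℝ) * (if 2 ≤ i then zr i else 0) -
      (((d : ℚ) ^ i * ∑ k ∈ sP n, pa (sP n) (mP h) P k i * hs i (d * (k + 1)) : ℚ) : ℝ)))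

/-- EV: the even orders vanish -/
def S_EV : Prop := ∀ (n h : ℕ) (Q : ℚ[X]) (i : ℕ), 1 ≤ n → Even i → 1 ≤ i → rhoP n h (num n Q) i = 0

/-- RM: the real moments -/
def S_RM : Prop := ∀ (n h B : ℕ) (w : ℕ → ℤ), 2 ≤ n → Even n → 1 ≤ h → ∀ k, k + 2 ≤ h * n →
  (∀ d ∈ Finset.Icc 1 B, Summable (fun u : ℕ =>
    Rv n h (((u : ℝ) + d + 1) / d) * yv n (((u : ℝ) + d + 1) / d) ^ k)) ∧
  mo n h B w zz k = ∑ d ∈ Finset.Icc 1 B, (w d : ℝ) * ∑' u : ℕ,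
    Rv n h (((u : ℝ) + d + 1) / d) * yv n (((u : ℝ) + d + 1) / d) ^ k

/-- PI: lower bound for the products of differences -/
def S_PI : Prop := ∀ (N : ℕ) (δ c1 c2 : ℝ) (τ ω : ℕ → ℝ), Nodes N δ c1 c2 τ ω → ∀ n : ℕ, 1 ≤ n →
  ∀ M j : ℕ, j < M →
    δ ^ (6 * N) * (((M - 1).factorial : ℝ) ^ 2 / (6 * (N : ℝ) ^ 2) ^ (M - 1)) ≤
      ∏ l ∈ (Finset.range M).erase j, |yv n (τ j) - yv n (τ l)|

/-- TB: the tail bound -/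
def S_TB : Prop := ∀ (N : ℕ) (δ c1 c2 : ℝ) (τ ω : ℕ → ℝ), Nodes N δ c1 c2 τ ω → ∀ n h M k : ℕ, 1 ≤ n → 1 ≤ h →
  k + 2 ≤ h * n →
  Summable (fun i => |ω (i + M)| * (Rv n h (τ (i + M)) * yv n (τ (i + M)) ^ k)) ∧
  ∑' i, |ω (i + M)| * (Rv n h (τ (i + M)) * yv n (τ (i + M)) ^ k) ≤
    4 * (N : ℝ) ^ 2 * c2 * (MM N M ^ (2 * (h * n - 2 - k)))⁻¹

/-- RL: lower bound for `R` -/
def S_RL : Prop := ∀ (N : ℕ) (δ c1 c2 : ℝ) (τ ω : ℕ → ℝ), Nodes N δ c1 c2 τ ω → ∀ n h j : ℕ, 1 ≤ n →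
  ((2 + (j : ℝ) / N + n) ^ (2 * h * n))⁻¹ ≤ Rv n h (τ j)

/-- CO: the core of the non-vanishing argument -/
def S_CO : Prop := ∀ (N : ℕ) (δ c1 c2 : ℝ) (τ ω : ℕ → ℝ), Nodes N δ c1 c2 τ ω → ∀ n h : ℕ, 1 ≤ n → 1 ≤ h →
  ∀ μ : ℕ → ℝ, Mom n h τ ω μ → ∀ m r0 : ℕ, 1 ≤ r0 → r0 ≤ m → 2 * m ≤ h * n →
  ∀ Q : ℝ[X], Q ≠ 0 → Q.natDegree < r0 → (∀ j < m, Lf μ (Q * X ^ j) = 0) →
  1 ≤ ∑ j ∈ Finset.range r0,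
    (∑' i, |ω (i + m)| * (Rv n h (τ (i + m)) * yv n (τ (i + m)) ^ ((m - 1) + (r0 - 1)))) /
      (c1 * Rv n h (τ j) * (∏ l ∈ (Finset.range m).erase j, |yv n (τ j) - yv n (τ l)|) *
        (∏ l ∈ (Finset.range r0).erase j, |yv n (τ j) - yv n (τ l)|))

/-- NU: the numerical inequality of the non-vanishing argument -/
def S_NU : Prop := ∀ (N : ℕ) (δ c1 c2 : ℝ), 1 ≤ N → 0 < δ → δ ≤ 1 → 0 < c1 → 0 < c2 → ∀ h : ℕ, 32 * N ≤ h →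
  ∃ n0 : ℕ, ∀ n ≥ n0, ∀ m r0 : ℕ, 2 * m = h * n → r0 = (m + 7) / 8 →
    (r0 : ℝ) * ((4 * (N : ℝ) ^ 2 * c2 * (MM N m ^ (2 * (m - r0)))⁻¹) * (2 + (r0 : ℝ) / N + n) ^ (2 * h * n) /
      (c1 * (δ ^ (6 * N) * (((m - 1).factorial : ℝ) ^ 2 / (6 * (N : ℝ) ^ 2) ^ (m - 1))) *
        (δ ^ (6 * N) * (((r0 - 1).factorial : ℝ) ^ 2 / (6 * (N : ℝ) ^ 2) ^ (r0 - 1))))) < 1

/-- NV: the non-vanishing theorem -/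
def S_NV : Prop := ∀ (N : ℕ) (δ c1 c2 : ℝ) (τ ω : ℕ → ℝ), Nodes N δ c1 c2 τ ω → ∀ h : ℕ, 32 * N ≤ h →
  ∃ n0 : ℕ, ∀ n ≥ n0, Even n → ∀ μ : ℕ → ℝ, Mom n h τ ω μ →
    ∃ r : ℕ, h * n ≤ 16 * r ∧ 2 * r ≤ h * n ∧ DH μ r ≠ 0

/-- AR: the archimedean bound -/
def S_AR : Prop := ∀ (N : ℕ) (δ c1 c2 : ℝ) (τ ω : ℕ → ℝ), Nodes N δ c1 c2 τ ω → ∀ n h : ℕ, 1 ≤ n → 1 ≤ h → Even n →
  ∀ μ : ℕ → ℝ, Mom n h τ ω μ → ∀ r : ℕ, 2 * r ≤ h * n → |DH μ r| ≤ Arc N n h (4 * (N : ℝ) ^ 2 * c2) r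

/-! ### The `p`-adic side -/

/-- PA: the partial fraction coefficients in the adapted basis, `p ≤ n` -/
def S_PA : Prop := ∀ (p : ℕ) [Fact p.Prime] (n h B : ℕ), 2 ≤ n → Even n → 1 ≤ h → 1 ≤ B → p ≤ n →
  ∀ i i' k ι : ℕ, 2 * i < h * n → 2 * i' < h * n → k < n → 1 ≤ ι → ι ≤ 2 * h →
    padicNorm p (sc n h B i * sc n h B i' * pa (sP n) (mP h) (num n (Qb n i * Qb n i')) k ι) *
      (p : ℚ) ^ (ι * Nat.log p (B * n)) ≤ 1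

/-- HB: the harmonic sums -/
def S_HB : Prop := ∀ (p : ℕ) [Fact p.Prime] (n B d k ι : ℕ), 1 ≤ d → d ≤ B → k < n →
  padicNorm p ((d : ℚ) ^ ι * hs ι (d * (k + 1))) ≤ (p : ℚ) ^ (ι * Nat.log p (B * n))

/-- SE: integrality at the primes `p ≤ n` -/
def S_SE : Prop := ∀ (A : Type) [CommRing A] [Algebra ℚ A] (p : ℕ) [Fact p.Prime] (S : Subring A),
  (∀ x : ℚ, padicNorm p x ≤ 1 → algebraMap ℚ A x ∈ S) →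
  ∀ (n h B : ℕ) (w : ℕ → ℤ) (z : ℕ → A) (q : ℕ), (∀ i, (q : A) * z i ∈ S) →
  2 ≤ n → Even n → 1 ≤ h → 1 ≤ B → p ≤ n → ∀ r : ℕ, 2 * r ≤ h * n →
  algebraMap ℚ A ((q : ℚ) ^ r * ∏ i ∈ Finset.range r, sc n h B i ^ 2) * DH (mo n h B w z) r ∈ S

/-- PJ: integrality of the partial fraction coefficients, `p ≥ n` -/
def S_PJ : Prop := ∀ (p : ℕ) [Fact p.Prime] (n h : ℕ), n ≤ p → ∀ P : ℚ[X], (∀ j, padicNorm p (P.coeff j) ≤ 1) →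
  ∀ k i : ℕ, k < n → padicNorm p (pa (sP n) (mP h) P k i) ≤ 1

/-- HJ: the singular part of the harmonic sums, `p > n` -/
def S_HJ : Prop := ∀ (p : ℕ) [Fact p.Prime] (n B d k ι : ℕ), n < p → B ≤ n → 1 ≤ d → d ≤ B → k < n →
  padicNorm p (hs ι (d * (k + 1)) - ∑ v ∈ Finset.Icc 1 (d * (k + 1) / p), 1 / ((p * v : ℕ) : ℚ) ^ ι) ≤ 1

/-- PO: the polar part at a singular node, `p > n` -/
def S_PO : Prop := ∀ (p : ℕ) [Fact p.Prime] (n h B : ℕ), n < p → B ≤ n → ∀ P : ℚ[X],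
  (∀ j, padicNorm p (P.coeff j) ≤ 1) → P.natDegree < 2 * h * n →
  ∀ d k v : ℕ, 1 ≤ d → d ≤ B → k < n → 1 ≤ v → p * v ≤ d * (k + 1) →
    padicNorm p ((∑ i ∈ Finset.Icc 1 (2 * h), pa (sP n) (mP h) P k i * ((d : ℚ) / ((p * v : ℕ) : ℚ)) ^ i) -
      P.eval (((p * v : ℕ) : ℚ) / d - k) /
        (∏ k' ∈ Finset.range n, (((p * v : ℕ) : ℚ) / d - k + (k' : ℚ))) ^ (2 * h)) ≤ 1 ∧
    padicNorm p (((p : ℚ) ^ (2 * h)) /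
        (∏ k' ∈ Finset.range n, (((p * v : ℕ) : ℚ) / d - k + (k' : ℚ))) ^ (2 * h)) ≤ 1 ∧
    padicNorm p ((yp n).eval (((p * v : ℕ) : ℚ) / d - k)) ≤ 1 ∧
    padicNorm p (2 * (((p * v : ℕ) : ℚ) / d - k) + ((n : ℚ) - 1)) ≤ 1

/-- SF: integrality at the primes `p > n` -/
def S_SF : Prop := ∀ (A : Type) [CommRing A] [Algebra ℚ A] (p : ℕ) [Fact p.Prime] (S : Subring A),
  (∀ x : ℚ, padicNorm p x ≤ 1 → algebraMap ℚ A x ∈ S) →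
  ∀ (n h B : ℕ) (w : ℕ → ℤ) (z : ℕ → A) (q : ℕ), (∀ i, (q : A) * z i ∈ S) →
  2 ≤ n → 1 ≤ h → 1 ≤ B → B ≤ n → n < p → ∀ r : ℕ, 2 * r ≤ h * n →
  algebraMap ℚ A ((q : ℚ) ^ r * (p : ℚ) ^ (2 * h * Sp n B p)) * DH (mo n h B w z) r ∈ S

/-- PR: the lower bound for a non-vanishing determinant -/
def S_PR : Prop := ∀ (n h B : ℕ) (w : ℕ → ℤ) (z : ℕ → ℚ) (q : ℕ), 1 ≤ q → (∀ i, ∃ a : ℤ, (q : ℚ) * z i = a) →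
  2 ≤ n → Even n → 1 ≤ h → 1 ≤ B → B ≤ n → ∀ r : ℕ, 2 * r ≤ h * n → DH (mo n h B w z) r ≠ 0 →
  1 ≤ |DH (mo n h B w z) r| * ((q : ℚ) ^ r * (∏ i ∈ Finset.range r, sc n h B i ^ 2) * (PPn n h B : ℚ))

/-! ### Asymptotics -/

/-- DL: the size of `Dl` -/
def S_DL : Prop := ∀ n B : ℕ, 1 ≤ n → 1 ≤ B →
  Real.log (Dl n B) ≤ n * Real.log 4 + Real.sqrt ((B : ℝ) * n) * Real.log ((B : ℝ) * n)

/-- PP: the size of `PPn` -/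
def S_PP : Prop := ∀ n h B : ℕ, 1 ≤ n → 1 ≤ B →
  Real.log (PPn n h B) ≤ h * Real.log 4 * ((B : ℝ) * (B + 1)) * (n : ℝ) ^ 2 * (1 + Real.log B)

/-- LS: the logarithmic sum -/
def S_LS : Prop := ∀ N h n m r : ℕ, 1 ≤ N → 2 * N ≤ h → 1 ≤ n → 2 * m = h * n → r ≤ m → m ≤ 8 * r →
  ∑ i ∈ Finset.range r, ((m : ℝ) - i) * (Real.log n - Real.log (MM N i)) ≤
    m * Real.log n + (m : ℝ) ^ 2 - Real.log ((h : ℝ) / (2 * N)) * ((m : ℝ) ^ 2 / 16 - m)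

/-- SI: the size of one row -/
def S_SI : Prop := ∀ n h B i : ℕ, 2 ≤ n → Even n → 1 ≤ h → 1 ≤ B → 2 * i < h * n →
  2 * Real.log (sc n h B i : ℝ) ≤ (2 * h * n - 4 * i) * Real.log n + 8 * (h + 1) * n +
    (2 * h + 4) * (Real.sqrt ((B : ℝ) * n) * Real.log ((B : ℝ) * n) + Real.log n + 1)

/-- AS: the asymptotic size -/
def S_AS : Prop := ∃ C1 : ℝ, 0 < C1 ∧ ∀ (N h B q : ℕ) (C : ℝ), 1 ≤ N → 1 ≤ h → 1 ≤ B → 1 ≤ q → 0 < C → 2 * N ≤ h →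
  ∃ n0 : ℕ, ∀ n ≥ n0, Even n → ∀ r : ℕ, h * n ≤ 16 * r → 2 * r ≤ h * n →
    Real.log (Arc N n h C r * ((q : ℝ) ^ r * (∏ i ∈ Finset.range r, (sc n h B i : ℝ) ^ 2) * (PPn n h B : ℝ))) ≤
      (C1 * (1 + ((B : ℝ) * (B + 1) / h) * (1 + Real.log B)) -
        (1 / 16) * Real.log ((h : ℝ) / (2 * N))) * ((h : ℝ) * n) ^ 2

/-- FI: the choice of the parameters -/
def S_FI : Prop := ∀ C1 : ℝ, 0 < C1 → ∃ c : ℝ, 0 < c ∧ ∃ s0 : ℕ, ∀ s ≥ s0, ∃ h B : ℕ,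
  2 * h ≤ s ∧ 1 ≤ B ∧ 16 * (B * (B + 1)) ≤ h ∧
  c * Real.sqrt (s * Real.log (Real.log s) / Real.log s) ≤ B ∧
  C1 * (1 + ((B : ℝ) * (B + 1) / h) * (1 + Real.log B)) < (1 / 16) * Real.log ((h : ℝ) / ((B : ℝ) * (B + 1)))

/-- the main inequality -/
def S_MA : Prop := ∃ C1 : ℝ, 0 < C1 ∧ ∀ h B : ℕ, 1 ≤ B → 16 * (B * (B + 1)) ≤ h →
  C1 * (1 + ((B : ℝ) * (B + 1) / h) * (1 + Real.log B)) < (1 / 16) * Real.log ((h : ℝ) / ((B : ℝ) * (B + 1))) →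
  ∃ I : Finset ℕ, B ≤ I.card ∧ ∀ i ∈ I, 3 ≤ i ∧ i ≤ 2 * h ∧ Odd i ∧ Irrational (zr i)

end

end Pool.Agent.W165.OZ
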