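import Mathlib
import Pool.Agent.W165.OZ.Stm

set_option autoImplicit false

namespace Pool.Agent.W165.OZ

lemma det_mem_subring {A : Type} [CommRing A] (S : Subring A) {n : Type} [Fintype n]
    [DecidableEq n] (M : Matrix n n A) (h : ∀ i j, M i j ∈ S) : M.det ∈ S := by
  rw [Matrix.det_apply]
  refine S.sum_mem fun σ _ => ?_
  have h1 : ∏ i, M (σ i) i ∈ S := S.prod_mem fun i _ => h _ _
  rcases Int.units_eq_one_or (Equiv.Perm.sign σ) with h2 | h2
  · rw [h2, one_smul]; exact h1
  · rw [h2, Units.neg_smul, one_smul]; exact S.neg_mem h1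

theorem t_la : S_LA := by
  intro A _ S c r ι _ _ G lam v hc hG hl hv
  set V : Matrix (Fin r) ι A := Matrix.of fun i s => v s i with hV
  set L : Matrix ι (Fin r) A := Matrix.of fun s i => lam s * v s i with hL
  have h1 : (Matrix.fromBlocks G V (c • (-L)) (c • (1 : Matrix ι ι A))) =
      Matrix.fromBlocks (1 : Matrix (Fin r) (Fin r) A) 0 0 (c • (1 : Matrix ι ι A)) *
        Matrix.fromBlocks G V (-L) 1 := by
    rw [Matrix.fromBlocks_multiply]
    simp
  have h2 : (Matrix.fromBlocks G V (c • (-L)) (c • (1 : Matrix ι ι A))).det =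
      c ^ Fintype.card ι * Matrix.det (G + Matrix.of fun i j => ∑ s, lam s * v s i * v s j) := by
    rw [h1, Matrix.det_mul, Matrix.det_fromBlocks_zero₂₁, Matrix.det_one, one_mul,
      Matrix.det_smul, Matrix.det_one, mul_one, Matrix.det_fromBlocks_one₂₂]
    congr 2
    rw [Matrix.mul_neg, sub_neg_eq_add]
    congr 1
    ext i j
    rw [Matrix.mul_apply, Matrix.of_apply]
    refine Finset.sum_congr rfl fun s _ => ?_
    rw [hV, hL, Matrix.of_apply, Matrix.of_apply]
    ring
  rw [← h2]
  apply det_mem_subring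
  rintro (i | s) (j | t)
  · rw [Matrix.fromBlocks_apply₁₁]; exact hG i j
  · rw [Matrix.fromBlocks_apply₁₂]; exact hv t i
  · rw [Matrix.fromBlocks_apply₂₁, Matrix.smul_apply, Matrix.neg_apply, hL, Matrix.of_apply,
      smul_eq_mul, mul_neg, ← mul_assoc]
    exact S.neg_mem (S.mul_mem (hl s) (hv s j))
  · rw [Matrix.fromBlocks_apply₂₂, Matrix.smul_apply, smul_eq_mul]
    by_cases hst : s = t
    · subst hst
      rw [Matrix.one_apply_eq, mul_one]; exact hc
    · rw [Matrix.one_apply_ne hst, mul_zero]; exact S.zero_mem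

end Pool.Agent.W165.OZ
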