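import Pool.Agent.W165.OZ.Stm

/-!
# Many irrational odd zeta values: the logarithmic sum (helper721)
-/

open Polynomial Pool.Agent.H337R2 Filter Topology

namespace Pool.Agent.W165.OZ

lemma ls_sumlog (m : ℕ) : ∑ i ∈ Finset.range m, Real.log ((i : ℝ) + 1) = Real.log (m.factorial : ℝ) := by
  induction m with
  | zero => simp
  | succ m ih =>
    rw [Finset.sum_range_succ, ih, Nat.factorial_succ]
    push_cast
    rw [Real.log_mul (by positivity) (by positivity), add_comm]

lemma ls_fact (m : ℕ) (hm : 1 ≤ m) :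
    (m : ℝ) * Real.log m - m ≤ Real.log (m.factorial : ℝ) := by
  have h1 := Real.pow_div_factorial_le_exp (x := (m : ℝ)) (by positivity) m
  have hm' : (0 : ℝ) < m := by exact_mod_cast hm
  have hf : (0 : ℝ) < (m.factorial : ℝ) := by exact_mod_cast Nat.factorial_pos m
  have h2 := Real.log_le_log (by positivity) h1
  rw [Real.log_exp, Real.log_div (by positivity) (by positivity), Real.log_pow] at h2
  linarith

theorem t_ls : S_LS := by
  intro N h n m r hN hh hn hm hrm hmr
  have hm1 : 1 ≤ m := by
    by_contra hc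
    have h0 : m = 0 := by omega
    rw [h0] at hm
    have : 0 < h * n := Nat.mul_pos (by omega) (by omega)
    omega
  obtain ⟨r', rfl⟩ : ∃ r', r = r' + 1 := ⟨r - 1, by omega⟩
  have hmR : (1 : ℝ) ≤ m := by exact_mod_cast hm1
  have hNR : (1 : ℝ) ≤ N := by exact_mod_cast hN
  have hhR : 2 * (N : ℝ) ≤ h := by exact_mod_cast hh
  have hnR : (1 : ℝ) ≤ n := by exact_mod_cast hn
  have hmm : 2 * (m : ℝ) = h * n := by exact_mod_cast hm
  have hh0 : (0 : ℝ) < h := by linarith
  set lam : ℝ := Real.log ((h : ℝ) / (2 * N)) with hlam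
  have hlam0 : 0 ≤ lam := by
    apply Real.log_nonneg
    rw [le_div_iff₀ (by positivity)]
    linarith
  rw [Finset.sum_range_succ']
  have t0 : ((m : ℝ) - ((0 : ℕ) : ℝ)) * (Real.log n - Real.log (MM N 0)) = m * Real.log n := by
    have : MM N 0 = 1 := by unfold MM; simp
    rw [this]
    simp
  rw [t0]
  have t1 : ∀ i ∈ Finset.range r', ((m : ℝ) - ((i + 1 : ℕ) : ℝ)) *
      (Real.log n - Real.log (MM N (i + 1))) ≤
      (m : ℝ) * (Real.log m - Real.log ((i : ℝ) + 1)) - ((m : ℝ) - ((i : ℝ) + 1)) * lam := by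
    intro i hi
    have hi' : i + 1 ≤ m := by have := Finset.mem_range.1 hi; omega
    have hiR : (i : ℝ) + 1 ≤ m := by exact_mod_cast hi'
    have e1 : Real.log (((i : ℝ) + 1) / N) ≤ Real.log (MM N (i + 1)) := by
      apply Real.log_le_log (by positivity)
      unfold MM
      push_cast
      exact le_max_right _ _
    have e2 : Real.log n = Real.log m - Real.log (((h : ℝ) / (2 * N)) ) - Real.log N := by
      have : (n : ℝ) = m / ((h : ℝ) / (2 * N)) / N := by
        field_simp
        linarith
      rw [this, Real.log_div (by positivity) (by positivity),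
        Real.log_div (by positivity) (by positivity)]
    rw [Real.log_div (by positivity) (by positivity)] at e1
    have e3 : Real.log n - Real.log (MM N (i + 1)) ≤ Real.log m - Real.log ((i : ℝ) + 1) - lam := by
      rw [e2]; linarith
    have e4 : 0 ≤ Real.log m - Real.log ((i : ℝ) + 1) := by
      have := Real.log_le_log (by positivity) hiR
      linarith
    push_cast
    have e5 : ((m : ℝ) - ((i : ℝ) + 1)) * (Real.log n - Real.log (MM N (i + 1))) ≤
        ((m : ℝ) - ((i : ℝ) + 1)) * (Real.log m - Real.log ((i : ℝ) + 1) - lam) :=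
      mul_le_mul_of_nonneg_left e3 (by linarith)
    have e6 : ((m : ℝ) - ((i : ℝ) + 1)) * (Real.log m - Real.log ((i : ℝ) + 1)) ≤
        (m : ℝ) * (Real.log m - Real.log ((i : ℝ) + 1)) :=
      mul_le_mul_of_nonneg_right (by linarith [(by positivity : (0 : ℝ) ≤ (i : ℝ))]) e4
    nlinarith
  have t2 := Finset.sum_le_sum t1
  rw [Finset.sum_sub_distrib, ← Finset.mul_sum, ← Finset.sum_mul] at t2
  have t3 : ∑ i ∈ Finset.range r', (Real.log m - Real.log ((i : ℝ) + 1)) ≤ m := by
    have e1 : ∑ i ∈ Finset.range r', (Real.log m - Real.log ((i : ℝ) + 1)) ≤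
        ∑ i ∈ Finset.range m, (Real.log m - Real.log ((i : ℝ) + 1)) := by
      apply Finset.sum_le_sum_of_subset_of_nonneg
      · intro i hi
        rw [Finset.mem_range] at hi ⊢
        omega
      · intro i hi _
        rw [Finset.mem_range] at hi
        have hiR : (i : ℝ) + 1 ≤ m := by exact_mod_cast hi
        have := Real.log_le_log (by positivity) hiR
        linarith
    have e2 : ∑ i ∈ Finset.range m, (Real.log m - Real.log ((i : ℝ) + 1)) =
        m * Real.log m - Real.log (m.factorial : ℝ) := by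
      rw [Finset.sum_sub_distrib, Finset.sum_const, Finset.card_range, nsmul_eq_mul, ls_sumlog]
    rw [e2] at e1
    have := ls_fact m hm1
    linarith
  have t4 : ∀ q : ℕ, ∑ i ∈ Finset.range q, ((m : ℝ) - ((i : ℝ) + 1)) =
      q * m - q * (q + 1) / 2 := by
    intro q
    induction q with
    | zero => simp
    | succ q ih =>
      rw [Finset.sum_range_succ, ih]
      push_cast
      ring
  rw [t4] at t2
  have hr1 : (r' : ℝ) + 1 ≤ m := by exact_mod_cast hrm
  have hr2 : (m : ℝ) ≤ 8 * ((r' : ℝ) + 1) := by exact_mod_cast hmr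
  have hr0 : (0 : ℝ) ≤ r' := by positivity
  have t5 : (m : ℝ) ^ 2 / 16 - m ≤ r' * m - r' * (r' + 1) / 2 := by nlinarith
  have t6 : lam * ((m : ℝ) ^ 2 / 16 - m) ≤ lam * (r' * m - r' * (r' + 1) / 2) :=
    mul_le_mul_of_nonneg_left t5 hlam0
  have t7 : (m : ℝ) * ∑ i ∈ Finset.range r', (Real.log m - Real.log ((i : ℝ) + 1)) ≤ m * m :=
    mul_le_mul_of_nonneg_left t3 (by linarith)
  nlinarith

end Pool.Agent.W165.OZ
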