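import Pool.Agent.W165.OZ.Stm

/-!
# Many irrational odd zeta values: the non-vanishing theorem
-/

open Polynomial Pool.Agent.H337R2 Filter Topology

namespace Pool.Agent.W165.OZ

/-- NV: the non-vanishing theorem -/
theorem t_nv (h1 : S_HK) (h2 : S_CO) (h3 : S_TB) (h4 : S_RL) (h5 : S_PI) (h6 : S_NU) : S_NV := by
  intro N δ c1 c2 τ ω hN h hh
  have hc1 : 0 < c1 := hN.hc1
  have hc2 : 0 < c2 := lt_of_lt_of_le hc1 ((hN.wlo 0).trans (hN.whi 0))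
  have hN1 : 1 ≤ N := hN.hN
  have hN0 : (0 : ℝ) < N := by exact_mod_cast hN1
  obtain ⟨n0, hn0⟩ := h6 N δ c1 c2 hN1 hN.hδ hN.hδ1 hc1 hc2 h hh
  refine ⟨max n0 2, fun n hn hev μ hμ => ?_⟩
  have hnn0 : n0 ≤ n := (le_max_left _ _).trans hn
  have hn2 : 2 ≤ n := (le_max_right _ _).trans hn
  obtain ⟨m, hm⟩ : ∃ m, 2 * m = h * n := by
    obtain ⟨a, ha⟩ := hev
    exact ⟨h * a, by rw [ha]; ring⟩
  have hhn : 2 ≤ h * n := by nlinarith
  obtain ⟨r0, hr0⟩ : ∃ r0, r0 = (m + 7) / 8 := ⟨_, rfl⟩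
  have hm1 : 1 ≤ m := by omega
  have hr1 : 1 ≤ r0 := by omega
  have hrm : r0 ≤ m := by omega
  have hr8 : m ≤ 8 * r0 := by omega
  by_contra hcon
  push Not at hcon
  have hzero : ∀ r, r0 ≤ r → r ≤ m → DH μ r = 0 := fun r hr hr' =>
    hcon r (by omega) (by omega)
  obtain ⟨Q, hQ0, hQd, hQo⟩ := h1 μ r0 m hr1 hrm hzero
  have hco := h2 N δ c1 c2 τ ω hN n h (by omega) (by omega) μ hμ m r0 hr1 hrm (by omega) Q hQ0
    hQd hQo
  have hnum := hn0 n hnn0 m r0 hm hr0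
  have hk : (m - 1) + (r0 - 1) + 2 ≤ h * n := by omega
  have htb := (h3 N δ c1 c2 τ ω hN n h m ((m - 1) + (r0 - 1)) (by omega) (by omega) hk).2
  have hexp : h * n - 2 - ((m - 1) + (r0 - 1)) = m - r0 := by omega
  rw [hexp] at htb
  obtain ⟨A, hA⟩ : ∃ A : ℝ, A = δ ^ (6 * N) * (((m - 1).factorial : ℝ) ^ 2 /
    (6 * (N : ℝ) ^ 2) ^ (m - 1)) := ⟨_, rfl⟩
  obtain ⟨B, hB⟩ : ∃ B : ℝ, B = δ ^ (6 * N) * (((r0 - 1).factorial : ℝ) ^ 2 /
    (6 * (N : ℝ) ^ 2) ^ (r0 - 1)) := ⟨_, rfl⟩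
  have hδ := hN.hδ
  have hA0 : 0 < A := by rw [hA]; positivity
  have hB0 : 0 < B := by rw [hB]; positivity
  rw [← hA, ← hB] at hnum
  obtain ⟨X, hX⟩ : ∃ X : ℝ, X = 4 * (N : ℝ) ^ 2 * c2 * (MM N m ^ (2 * (m - r0)))⁻¹ := ⟨_, rfl⟩
  have hMM : 0 < MM N m := by
    unfold MM
    exact lt_of_lt_of_le one_pos (le_max_left _ _)
  have hX0 : 0 ≤ X := by rw [hX]; positivity
  rw [← hX] at hnum htb
  obtain ⟨Y, hY⟩ : ∃ Y : ℝ, Y = (2 + (r0 : ℝ) / N + n) ^ (2 * h * n) := ⟨_, rfl⟩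
  have hY0 : 0 < Y := by rw [hY]; positivity
  rw [← hY] at hnum
  have hterm : ∀ j ∈ Finset.range r0,
      (∑' i, |ω (i + m)| * (Rv n h (τ (i + m)) * yv n (τ (i + m)) ^ ((m - 1) + (r0 - 1)))) /
      (c1 * Rv n h (τ j) * (∏ l ∈ (Finset.range m).erase j, |yv n (τ j) - yv n (τ l)|) *
        (∏ l ∈ (Finset.range r0).erase j, |yv n (τ j) - yv n (τ l)|)) ≤
      X * Y / (c1 * A * B) := by
    intro j hj
    rw [Finset.mem_range] at hj
    have e1 := h5 N δ c1 c2 τ ω hN n (by omega) m j (by omega)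
    have e2 := h5 N δ c1 c2 τ ω hN n (by omega) r0 j hj
    rw [← hA] at e1
    rw [← hB] at e2
    have e3 := h4 N δ c1 c2 τ ω hN n h j (by omega)
    have e4 : (2 + (j : ℝ) / N + n) ^ (2 * h * n) ≤ Y := by
      rw [hY]
      refine pow_le_pow_left₀ (by positivity) ?_ _
      have : (j : ℝ) / N ≤ (r0 : ℝ) / N := by
        refine div_le_div_of_nonneg_right ?_ hN0.le
        exact_mod_cast hj.le
      linarith
    have e5 : Y⁻¹ ≤ Rv n h (τ j) := by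
      refine le_trans ?_ e3
      exact inv_anti₀ (by positivity) e4
    have hYi : 0 < Y⁻¹ := inv_pos.2 hY0
    have e6 : c1 * Y⁻¹ * A * B ≤
        c1 * Rv n h (τ j) * (∏ l ∈ (Finset.range m).erase j, |yv n (τ j) - yv n (τ l)|) *
        (∏ l ∈ (Finset.range r0).erase j, |yv n (τ j) - yv n (τ l)|) := by
      have f1 : c1 * Y⁻¹ ≤ c1 * Rv n h (τ j) := mul_le_mul_of_nonneg_left e5 hc1.le
      have f0 : 0 ≤ c1 * Rv n h (τ j) := le_trans (by positivity) f1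
      have f2 : c1 * Y⁻¹ * A ≤ c1 * Rv n h (τ j) *
          (∏ l ∈ (Finset.range m).erase j, |yv n (τ j) - yv n (τ l)|) :=
        mul_le_mul f1 e1 hA0.le f0
      exact mul_le_mul f2 e2 hB0.le (le_trans (by positivity) f2)
    have e7 : X * Y / (c1 * A * B) = X / (c1 * Y⁻¹ * A * B) := by
      field_simp
    rw [e7]
    exact div_le_div₀ hX0 htb (by positivity) e6
  have hsum := Finset.sum_le_sum hterm
  rw [Finset.sum_const, Finset.card_range, nsmul_eq_mul] at hsum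
  linarith

end Pool.Agent.W165.OZ
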