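import Pool.Agent.W165.OZ.Stm

/-!
# Many irrational odd zeta values, part PA: the partial fraction coefficients, `p ≤ n`
-/

open Polynomial Pool.Agent.H337R2

namespace Pool.Agent.W165.OZ

noncomputable section

namespace PAx

variable {p : ℕ} [hp : Fact p.Prime]

lemma pn_pow (x : ℚ) (m : ℕ) : padicNorm p (x ^ m) = padicNorm p x ^ m := by
  induction m with
  | zero => simp
  | succ m ih => rw [pow_succ, pow_succ, padicNorm.mul, ih]

lemma pn_prod {ι : Type*} (s : Finset ι) (f : ι → ℚ) :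
    padicNorm p (∏ i ∈ s, f i) = ∏ i ∈ s, padicNorm p (f i) := by
  classical
  induction s using Finset.induction_on with
  | empty => simp
  | insert a s ha ih => rw [Finset.prod_insert ha, Finset.prod_insert ha, padicNorm.mul, ih]

lemma pn_pos {x : ℚ} (hx : x ≠ 0) : 0 < padicNorm p x :=
  lt_of_le_of_ne (padicNorm.nonneg _) (Ne.symm (padicNorm.nonzero hx))

omit hp in
lemma pn_val {x : ℕ} (hx : x ≠ 0) : (padicNorm p (x : ℚ))⁻¹ = (p : ℚ) ^ padicValNat p x := by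
  rw [padicNorm.eq_zpow_of_nonzero (by exact_mod_cast hx), padicValRat.of_nat, ← zpow_neg, neg_neg,
    zpow_natCast]

lemma one_le_p : (1 : ℚ) ≤ p := by exact_mod_cast hp.1.one_le

lemma pn_nat_inv_le {x N : ℕ} (hx : x ≠ 0) (hN : x ≤ N) :
    (padicNorm p (x : ℚ))⁻¹ ≤ (p : ℚ) ^ Nat.log p N := by
  rw [pn_val hx]
  exact pow_le_pow_right₀ one_le_p ((padicValNat_le_nat_log x).trans (Nat.log_mono_right hN))

lemma pn_choose_inv_le {x y N : ℕ} (hx : y ≤ x) (hN : x ≤ N) :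
    (padicNorm p (x.choose y : ℚ))⁻¹ ≤ (p : ℚ) ^ Nat.log p N := by
  have h0 : x.choose y ≠ 0 := (Nat.choose_pos hx).ne'
  rw [pn_val h0]
  refine pow_le_pow_right₀ one_le_p ?_
  rw [← Nat.factorization_def _ hp.1]
  exact Nat.factorization_choose_le_log.trans (Nat.log_mono_right hN)

lemma pn_dvd {x y : ℕ} (h : x ∣ y) : padicNorm p (y : ℚ) ≤ padicNorm p (x : ℚ) := by
  obtain ⟨c, rfl⟩ := h
  rw [Nat.cast_mul, padicNorm.mul]
  exact mul_le_of_le_one_right (padicNorm.nonneg _) (padicNorm.of_nat c)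

lemma pn_dvd_int {x y : ℤ} (h : x ∣ y) : padicNorm p (y : ℚ) ≤ padicNorm p (x : ℚ) := by
  obtain ⟨c, rfl⟩ := h
  rw [Int.cast_mul, padicNorm.mul]
  exact mul_le_of_le_one_right (padicNorm.nonneg _) (padicNorm.of_int c)

lemma inv_le {N k k' : ℕ} (hk : k < N) (hk' : k' < N) (hne : k' ≠ k) :
    (padicNorm p (-(k : ℚ) + k'))⁻¹ ≤ (p : ℚ) ^ Nat.log p N := by
  rcases lt_or_gt_of_ne hne with h | h
  · have h1 : -(k : ℚ) + k' = -((k - k' : ℕ) : ℚ) := by
      rw [Nat.cast_sub h.le]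
      ring
    rw [h1, padicNorm.neg]
    exact pn_nat_inv_le (by omega) (by omega)
  · have h1 : -(k : ℚ) + k' = ((k' - k : ℕ) : ℚ) := by
      rw [Nat.cast_sub h.le]
      ring
    rw [h1]
    exact pn_nat_inv_le (by omega) (by omega)

lemma ne0 {k k' : ℕ} (hne : k' ≠ k) : -(k : ℚ) + k' ≠ 0 := by
  intro h
  apply hne
  have : (k' : ℚ) = k := by linarith
  exact_mod_cast this

/-- the linear factors -/
def Lk (k k' : ℕ) : PowerSeries ℚ := PowerSeries.X + PowerSeries.C (-(k : ℚ) + k')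

/-- their bounds -/
def Ak (p : ℕ) (ρ : ℚ) (k k' : ℕ) : ℚ := if k' = k then ρ⁻¹ else padicNorm p (-(k : ℚ) + k')

lemma rho_pos (N : ℕ) : (0 : ℚ) < (p : ℚ) ^ Nat.log p N :=
  pow_pos (lt_of_lt_of_le one_pos one_le_p) _

lemma rho_ge (N : ℕ) : (1 : ℚ) ≤ (p : ℚ) ^ Nat.log p N := one_le_pow₀ one_le_p

lemma Ak_nonneg (N k k' : ℕ) : 0 ≤ Ak p ((p : ℚ) ^ Nat.log p N) k k' := by
  unfold Ak
  split_ifs
  · exact (inv_pos.2 (rho_pos N)).le
  · exact padicNorm.nonneg _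

lemma PB_Lk {N k k' : ℕ} (hk : k < N) (hk' : k' < N) :
    PB p ((p : ℚ) ^ Nat.log p N) (Ak p ((p : ℚ) ^ Nat.log p N) k k') (Lk k k') := by
  have hρ := rho_pos (p := p) N
  unfold Lk
  refine PB.linX hρ.le (Ak_nonneg N k k') ?_ ?_
  · unfold Ak
    split_ifs with h
    · rw [h, neg_add_cancel, padicNorm.zero]
      exact (inv_pos.2 hρ).le
    · exact le_rfl
  · unfold Ak
    split_ifs with h
    · rw [inv_mul_cancel₀ hρ.ne']
    · have h1 := inv_le (p := p) hk hk' h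
      have h2 : 0 < padicNorm p (-(k : ℚ) + k') := pn_pos (ne0 h)
      calc (1 : ℚ) = padicNorm p (-(k : ℚ) + k') * (padicNorm p (-(k : ℚ) + k'))⁻¹ :=
            (mul_inv_cancel₀ h2.ne').symm
        _ ≤ _ := mul_le_mul_of_nonneg_left h1 h2.le

/-- the product of the norms of the differences -/
lemma prod_erase {u k v : ℕ} (h1 : u ≤ k) (h2 : k < v) :
    ∏ k' ∈ (Finset.Ico u v).erase k, padicNorm p (-(k : ℚ) + k') =
      padicNorm p (((k - u).factorial * (v - 1 - k).factorial : ℕ) : ℚ) := by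
  have e1 : (Finset.Ico u v).erase k = Finset.Ico u k ∪ Finset.Ico (k + 1) v := by
    ext x
    simp only [Finset.mem_erase, Finset.mem_Ico, Finset.mem_union]
    omega
  have e2 : Disjoint (Finset.Ico u k) (Finset.Ico (k + 1) v) := by
    rw [Finset.disjoint_left]
    intro x hx hx'
    rw [Finset.mem_Ico] at hx hx'
    omega
  rw [e1, Finset.prod_union e2, Nat.cast_mul, padicNorm.mul]
  congr 1
  · rw [← Finset.prod_range_add_one_eq_factorial, Nat.cast_prod, pn_prod]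
    refine Finset.prod_nbij' (fun x => k - 1 - x) (fun x => k - 1 - x) ?_ ?_ ?_ ?_ ?_
    · intro x hx
      simp only [Finset.mem_Ico, Finset.mem_range] at *
      omega
    · intro x hx
      simp only [Finset.mem_Ico, Finset.mem_range] at *
      omega
    · intro x hx
      simp only [Finset.mem_Ico] at *
      omega
    · intro x hx
      simp only [Finset.mem_range] at *
      omega
    · intro x hx
      simp only [Finset.mem_Ico] at *
      have h3 : -(k : ℚ) + x = -((k - 1 - x + 1 : ℕ) : ℚ) := by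
        have h4 : k - 1 - x + 1 = k - x := by omega
        rw [h4, Nat.cast_sub hx.2.le]
        ring
      rw [h3, padicNorm.neg]
  · rw [← Finset.prod_range_add_one_eq_factorial, Nat.cast_prod, pn_prod]
    refine Finset.prod_nbij' (fun x => x - (k + 1)) (fun x => x + (k + 1)) ?_ ?_ ?_ ?_ ?_
    · intro x hx
      simp only [Finset.mem_Ico, Finset.mem_range] at *
      omega
    · intro x hx
      simp only [Finset.mem_Ico, Finset.mem_range] at *
      omega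
    · intro x hx
      simp only [Finset.mem_Ico] at *
      omega
    · intro x hx
      simp only [Finset.mem_range] at *
      omega
    · intro x hx
      simp only [Finset.mem_Ico] at *
      have h3 : -(k : ℚ) + x = ((x - (k + 1) + 1 : ℕ) : ℚ) := by
        have h4 : x - (k + 1) + 1 = x - k := by omega
        rw [h4, Nat.cast_sub (by omega)]
        ring
      rw [h3]

/-- the bound for `g_j` -/
lemma prod_Ak {N u k L : ℕ} (hN : u + L ≤ N) :
    ∏ k' ∈ Finset.Ico u (u + L), Ak p ((p : ℚ) ^ Nat.log p N) k k' ≤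
      (p : ℚ) ^ Nat.log p N * padicNorm p (L.factorial : ℚ) := by
  have hρ := rho_pos (p := p) N
  have hρ1 := rho_ge (p := p) N
  by_cases hm : k ∈ Finset.Ico u (u + L)
  · rw [← Finset.mul_prod_erase _ _ hm]
    have h1 : Ak p ((p : ℚ) ^ Nat.log p N) k k = ((p : ℚ) ^ Nat.log p N)⁻¹ := if_pos rfl
    have h2 : ∏ k' ∈ (Finset.Ico u (u + L)).erase k, Ak p ((p : ℚ) ^ Nat.log p N) k k' =
        ∏ k' ∈ (Finset.Ico u (u + L)).erase k, padicNorm p (-(k : ℚ) + k') :=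
      Finset.prod_congr rfl fun x hx => if_neg (Finset.ne_of_mem_erase hx)
    rw [Finset.mem_Ico] at hm
    rw [h1, h2, prod_erase hm.1 hm.2]
    obtain ⟨a, ha⟩ : ∃ a, k - u = a := ⟨_, rfl⟩
    obtain ⟨b, hb⟩ : ∃ b, u + L - 1 - k = b := ⟨_, rfl⟩
    have hL : L = a + b + 1 := by omega
    rw [ha, hb, hL]
    have h3 : ((a + b + 1).factorial : ℚ) = ((a + b + 1 : ℕ) : ℚ) * ((a + b).choose b : ℚ) *
        ((a.factorial * b.factorial : ℕ) : ℚ) := by
      rw [Nat.factorial_succ, ← Nat.add_choose_mul_factorial_mul_factorial a b]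
      push_cast
      ring
    rw [h3, padicNorm.mul, padicNorm.mul]
    have h4 : (padicNorm p ((a + b + 1 : ℕ) : ℚ))⁻¹ ≤ (p : ℚ) ^ Nat.log p N :=
      pn_nat_inv_le (by omega) (by omega)
    have h5 : (padicNorm p ((a + b).choose b : ℚ))⁻¹ ≤ (p : ℚ) ^ Nat.log p N :=
      pn_choose_inv_le (by omega) (by omega)
    have h6 : 0 < padicNorm p ((a + b + 1 : ℕ) : ℚ) := pn_pos (by positivity)
    have h7 : 0 < padicNorm p ((a + b).choose b : ℚ) := by
      apply pn_pos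
      have := Nat.choose_pos (show b ≤ a + b by omega)
      positivity
    have h8 : 1 ≤ (p : ℚ) ^ Nat.log p N * padicNorm p ((a + b + 1 : ℕ) : ℚ) := by
      rwa [inv_le_iff_one_le_mul₀ h6] at h4
    have h9 : 1 ≤ (p : ℚ) ^ Nat.log p N * padicNorm p ((a + b).choose b : ℚ) := by
      rwa [inv_le_iff_one_le_mul₀ h7] at h5
    generalize padicNorm p ((a + b + 1 : ℕ) : ℚ) = X at *
    generalize padicNorm p ((a + b).choose b : ℚ) = Y at *
    have hZ : 0 ≤ padicNorm p ((a.factorial * b.factorial : ℕ) : ℚ) := padicNorm.nonneg _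
    generalize padicNorm p ((a.factorial * b.factorial : ℕ) : ℚ) = Z at *
    generalize (p : ℚ) ^ Nat.log p N = ρ at *
    rw [inv_mul_le_iff₀ hρ]
    calc Z = 1 * 1 * Z := by ring
      _ ≤ (ρ * X) * (ρ * Y) * Z := by gcongr
      _ = ρ * (ρ * (X * Y * Z)) := by ring
  · have h2 : ∏ k' ∈ Finset.Ico u (u + L), Ak p ((p : ℚ) ^ Nat.log p N) k k' =
        padicNorm p (∏ k' ∈ Finset.Ico u (u + L), (-(k : ℚ) + k')) := by
      rw [pn_prod]
      refine Finset.prod_congr rfl fun x hx => if_neg fun h : x = k => hm ?_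
      rwa [h] at hx
    rw [h2]
    have h3 : (∏ k' ∈ Finset.Ico u (u + L), (-(k : ℚ) + k')) =
        ((∏ i ∈ Finset.range L, (((u : ℤ) - k) + i) : ℤ) : ℚ) := by
      rw [Finset.prod_Ico_eq_prod_range, Nat.add_sub_cancel_left]
      push_cast
      exact Finset.prod_congr rfl fun x _ => by ring
    rw [h3]
    have h4 := pn_dvd_int (p := p) (Nat.factorial_coe_dvd_prod L ((u : ℤ) - k))
    refine h4.trans ?_
    have h5 : padicNorm p (((L.factorial : ℤ)) : ℚ) = padicNorm p (L.factorial : ℚ) := by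
      rw [Int.cast_natCast]
    rw [h5]
    exact le_mul_of_one_le_left (padicNorm.nonneg _) hρ1

lemma PB_g {N u k L : ℕ} (hN : u + L ≤ N) (hk : k < N) :
    PB p ((p : ℚ) ^ Nat.log p N) ((p : ℚ) ^ Nat.log p N * padicNorm p (L.factorial : ℚ))
      (∏ k' ∈ Finset.Ico u (u + L), Lk k k') := by
  have hρ := rho_pos (p := p) N
  refine PB.mono hρ.le (PB.prod _ _ _ hρ.le (fun _ _ => Ak_nonneg N k _) fun x hx => ?_)
    (prod_Ak hN)
  rw [Finset.mem_Ico] at hx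
  exact PB_Lk hk (by omega)

lemma fact_le {n k : ℕ} (hk : k < n) : (padicNorm p ((k.factorial * (n - 1 - k).factorial : ℕ) : ℚ))⁻¹ ≤
    (padicNorm p (n.factorial : ℚ))⁻¹ := by
  have h1 : 0 < padicNorm p (n.factorial : ℚ) :=
    pn_pos (by exact_mod_cast (Nat.factorial_pos n).ne')
  refine inv_anti₀ h1 (pn_dvd ?_)
  refine (Nat.factorial_mul_factorial_dvd_factorial_add k (n - 1 - k)).trans ?_
  exact Nat.factorial_dvd_factorial (by omega)

lemma inv_prod {n k : ℕ} (hk : k < n) :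
    ∏ k' ∈ (Finset.range n).erase k, (padicNorm p (-(k : ℚ) + k'))⁻¹ ≤
      (padicNorm p (n.factorial : ℚ))⁻¹ := by
  rw [Finset.prod_inv_distrib]
  have h1 := prod_erase (p := p) (Nat.zero_le k) hk
  rw [Nat.sub_zero, ← Finset.range_eq_Ico] at h1
  rw [h1]
  exact fact_le hk

/-- the bound for the product of the inverses -/
lemma PB_iv {N n k E : ℕ} (hN : n ≤ N) (hk : k < n) :
    PB p ((p : ℚ) ^ Nat.log p N) ((padicNorm p (n.factorial : ℚ))⁻¹ ^ E)
      (∏ k' ∈ (Finset.range n).erase k, iv (-(k : ℚ) + k') ^ E) := by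
  have hρ := rho_pos (p := p) N
  have h0 : ∀ x ∈ (Finset.range n).erase k, 0 ≤ ((padicNorm p (-(k : ℚ) + x))⁻¹) ^ E :=
    fun x _ => pow_nonneg (inv_nonneg.2 (padicNorm.nonneg _)) _
  have h1 : ∀ x ∈ (Finset.range n).erase k, PB p ((p : ℚ) ^ Nat.log p N)
      (((padicNorm p (-(k : ℚ) + x))⁻¹) ^ E) (iv (-(k : ℚ) + x) ^ E) := by
    intro x hx
    rw [Finset.mem_erase, Finset.mem_range] at hx
    exact PB.pow hρ.le (inv_nonneg.2 (padicNorm.nonneg _))
      (PB.iv (ne0 hx.1) le_rfl (inv_le (by omega) (by omega) hx.1)) _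
  have h2 := PB.prod ((Finset.range n).erase k) _ _ hρ.le h0 h1
  refine PB.mono hρ.le h2 ?_
  rw [Finset.prod_pow]
  exact pow_le_pow_left₀ (Finset.prod_nonneg fun x _ => inv_nonneg.2 (padicNorm.nonneg _))
    (inv_prod hk) _

/-- the power series -/
def fser (n k a b : ℕ) (E : ℕ) : PowerSeries ℚ :=
  TS (-(k : ℚ)) (C 2 * X + C ((n : ℚ) - 1)) *
    (∏ k' ∈ Finset.Ico (n / 2 - a) (n / 2 - a + 2 * a), Lk k k') *
    (∏ k' ∈ Finset.Ico (n / 2 - b) (n / 2 - b + 2 * b), Lk k k') *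
    ∏ k' ∈ (Finset.range n).erase k, iv (-(k : ℚ) + k') ^ E

lemma TS_prod (k : ℕ) (s : Finset ℕ) :
    TS (-(k : ℚ)) (∏ k' ∈ s, (X + C (k' : ℚ))) = ∏ k' ∈ s, Lk k k' := by
  rw [map_prod]
  exact Finset.prod_congr rfl fun x _ => TS_lin _ _

lemma cancel {n h k e : ℕ} (hk : k < n) (he : e ≤ 2 * h) :
    (∏ k' ∈ Finset.range n, Lk k k') ^ e * VV ((sP n).erase k) (mP h) (-(k : ℚ)) =
      PowerSeries.X ^ e * ∏ k' ∈ (Finset.range n).erase k, iv (-(k : ℚ) + k') ^ (2 * h - e) := by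
  rw [← Finset.mul_prod_erase _ _ (Finset.mem_range.2 hk)]
  have h1 : Lk k k = PowerSeries.X := by
    unfold Lk
    rw [neg_add_cancel, map_zero, add_zero]
  rw [h1, mul_pow, mul_assoc]
  congr 1
  unfold VV
  rw [← Finset.prod_pow, ← Finset.prod_mul_distrib]
  refine Finset.prod_congr rfl fun x hx => ?_
  have h2 := lin_mul_iv (ne0 (Finset.ne_of_mem_erase hx))
  have h3 : mP h x = e + (2 * h - e) := by
    show 2 * h = _
    omega
  rw [h3, pow_add, ← mul_assoc, ← mul_pow]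
  unfold Lk
  rw [h2, one_pow, one_mul]

lemma pa_eq {n h i i' k ι : ℕ} (hn : 2 ≤ n) (hev : Even n) (hk : k < n)
    (he : i / (n / 2) + i' / (n / 2) ≤ 2 * h) (hι : ι ≤ 2 * h) :
    pa (sP n) (mP h) (num n (Qb n i * Qb n i')) k ι =
      if i / (n / 2) + i' / (n / 2) ≤ 2 * h - ι then
        PowerSeries.coeff (2 * h - ι - (i / (n / 2) + i' / (n / 2)))
          (fser n k (i % (n / 2)) (i' % (n / 2)) (2 * h - (i / (n / 2) + i' / (n / 2)))) else 0 := by
  have hm : 0 < n / 2 := by omega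
  have hj : i % (n / 2) < n / 2 := Nat.mod_lt _ hm
  have hj' : i' % (n / 2) < n / 2 := Nat.mod_lt _ hm
  have h1 : pa (sP n) (mP h) (num n (Qb n i * Qb n i')) k ι =
      PowerSeries.coeff (2 * h - ι) (TS (-(k : ℚ)) (num n (Qb n i * Qb n i')) *
        VV ((sP n).erase k) (mP h) (-(k : ℚ))) := by
    unfold pa
    rw [if_pos hι]
    rfl
  rw [h1, ← PowerSeries.coeff_X_pow_mul']
  congr 1
  have g0 : n / 2 - n / 2 = 0 := Nat.sub_self _
  have g1 : n / 2 + n / 2 = n := by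
    obtain ⟨c, hc⟩ := hev
    omega
  have g2 : n / 2 + i % (n / 2) = n / 2 - i % (n / 2) + 2 * (i % (n / 2)) := by omega
  have g3 : n / 2 + i' % (n / 2) = n / 2 - i' % (n / 2) + 2 * (i' % (n / 2)) := by omega
  have h2 : TS (-(k : ℚ)) (num n (Qb n i * Qb n i')) =
      TS (-(k : ℚ)) (C 2 * X + C ((n : ℚ) - 1)) *
      ((∏ k' ∈ Finset.range n, Lk k k') ^ (i / (n / 2)) *
        (∏ k' ∈ Finset.Ico (n / 2 - i % (n / 2)) (n / 2 - i % (n / 2) + 2 * (i % (n / 2))), Lk k k') *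
      ((∏ k' ∈ Finset.range n, Lk k k') ^ (i' / (n / 2)) *
        (∏ k' ∈ Finset.Ico (n / 2 - i' % (n / 2)) (n / 2 - i' % (n / 2) + 2 * (i' % (n / 2))),
          Lk k k'))) := by
    unfold num Qb
    rw [map_mul, Polynomial.mul_comp, Polynomial.mul_comp, Polynomial.mul_comp, Polynomial.pow_comp,
      Polynomial.pow_comp, Gy_comp n _ hev le_rfl, Gy_comp n _ hev hj.le, Gy_comp n _ hev hj'.le,
      map_mul, map_mul, map_mul, map_pow, map_pow, TS_prod, TS_prod, TS_prod, g0, g1, g2, g3,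
      ← Finset.range_eq_Ico]
  rw [h2]
  have h3 := cancel (n := n) (h := h) (k := k) hk he
  rw [pow_add] at h3
  unfold fser
  linear_combination (TS (-(k : ℚ)) (C 2 * X + C ((n : ℚ) - 1)) *
    (∏ k' ∈ Finset.Ico (n / 2 - i % (n / 2)) (n / 2 - i % (n / 2) + 2 * (i % (n / 2))), Lk k k') *
    (∏ k' ∈ Finset.Ico (n / 2 - i' % (n / 2)) (n / 2 - i' % (n / 2) + 2 * (i' % (n / 2))),
      Lk k k')) * h3

lemma PB_T1 {N : ℕ} (n k : ℕ) :
    PB p ((p : ℚ) ^ Nat.log p N) 1 (TS (-(k : ℚ)) (C 2 * X + C ((n : ℚ) - 1))) := by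
  have h1 : TS (-(k : ℚ)) (C 2 * X + C ((n : ℚ) - 1)) =
      PowerSeries.C 2 * PowerSeries.X + PowerSeries.C (2 * -(k : ℚ) + ((n : ℚ) - 1)) := by
    rw [map_add, map_mul, TS_C, TS_C, TS_X, map_add, map_mul]
    ring
  rw [h1]
  refine PB.lin (rho_pos N).le zero_le_one ?_ ?_
  · have h2 : 2 * -(k : ℚ) + ((n : ℚ) - 1) = ((2 * -(k : ℤ) + ((n : ℤ) - 1) : ℤ) : ℚ) := by
      push_cast
      ring
    rw [h2]
    exact padicNorm.of_int _
  · rw [one_mul]
    have h2 : padicNorm p (2 : ℚ) ≤ 1 := by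
      have := padicNorm.of_nat (p := p) 2
      exact_mod_cast this
    exact h2.trans (rho_ge N)

lemma PB_fser {N n k a b E : ℕ} (hN : n ≤ N) (hk : k < n) (ha : a ≤ n / 2) (hb : b ≤ n / 2) :
    PB p ((p : ℚ) ^ Nat.log p N)
      (1 * ((p : ℚ) ^ Nat.log p N * padicNorm p ((2 * a).factorial : ℚ)) *
        ((p : ℚ) ^ Nat.log p N * padicNorm p ((2 * b).factorial : ℚ)) *
        (padicNorm p (n.factorial : ℚ))⁻¹ ^ E) (fser n k a b E) := by
  have hρ := rho_pos (p := p) N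
  have h1 : 0 ≤ (p : ℚ) ^ Nat.log p N * padicNorm p ((2 * a).factorial : ℚ) :=
    mul_nonneg hρ.le (padicNorm.nonneg _)
  have h2 : 0 ≤ (p : ℚ) ^ Nat.log p N * padicNorm p ((2 * b).factorial : ℚ) :=
    mul_nonneg hρ.le (padicNorm.nonneg _)
  have h3 : 0 ≤ (padicNorm p (n.factorial : ℚ))⁻¹ ^ E :=
    pow_nonneg (inv_nonneg.2 (padicNorm.nonneg _)) _
  have h12 : 0 ≤ 1 * ((p : ℚ) ^ Nat.log p N * padicNorm p ((2 * a).factorial : ℚ)) := by
    rw [one_mul]
    exact h1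
  exact PB.mul hρ.le (mul_nonneg h12 h2) h3 (PB.mul hρ.le h12 h2 (PB.mul hρ.le zero_le_one h1
    (PB_T1 n k) (PB_g (by omega) (by omega))) (PB_g (by omega) (by omega))) (PB_iv hN hk)

lemma pn_Dl {n B : ℕ} (hpn : p ≤ n) :
    padicNorm p (Dl n B : ℚ) = ((p : ℚ) ^ Nat.log p (B * n))⁻¹ := by
  unfold Dl
  rw [Nat.cast_prod, pn_prod, Finset.prod_eq_single p]
  · rw [Nat.cast_pow, pn_pow, padicNorm.padicNorm_p hp.1.one_lt, inv_pow]
  · intro q hq hne
    rw [Finset.mem_filter] at hq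
    have : Fact q.Prime := ⟨hq.2⟩
    rw [Nat.cast_pow, pn_pow, padicNorm.padicNorm_of_prime_of_ne hne.symm, one_pow]
  · intro h
    exact absurd (Finset.mem_filter.2 ⟨Finset.mem_range.2 (by omega), hp.1⟩) h

lemma pn_sc {n h B i : ℕ} (hpn : p ≤ n) :
    padicNorm p (sc n h B i) = padicNorm p (n.factorial : ℚ) ^ (h - i / (n / 2)) *
      ((p : ℚ) ^ Nat.log p (B * n))⁻¹ ^ (h - i / (n / 2) + 2) *
      (padicNorm p ((2 * (i % (n / 2))).factorial : ℚ))⁻¹ := by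
  unfold sc
  rw [padicNorm.div, padicNorm.mul, pn_pow, pn_pow, pn_Dl hpn]
  rfl

/-- the final count of the powers -/
lemma final {x y y' ρ c : ℚ} {E1 E2 E ι : ℕ} (hx : 0 < x) (hy : 0 < y) (hy' : 0 < y') (hρ : 1 ≤ ρ)
    (hE : E = E1 + E2) (hι : ι ≤ E) (hc : c ≤ 1 * (ρ * y) * (ρ * y') * x⁻¹ ^ E * ρ ^ (E - ι)) :
    (x ^ E1 * ρ⁻¹ ^ (E1 + 2) * y⁻¹) * (x ^ E2 * ρ⁻¹ ^ (E2 + 2) * y'⁻¹) * c * ρ ^ ι ≤ 1 := by
  have hρ0 : 0 < ρ := lt_of_lt_of_le one_pos hρ
  obtain ⟨F, rfl⟩ : ∃ F, E = F + ι := ⟨E - ι, by omega⟩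
  rw [Nat.add_sub_cancel] at hc
  calc (x ^ E1 * ρ⁻¹ ^ (E1 + 2) * y⁻¹) * (x ^ E2 * ρ⁻¹ ^ (E2 + 2) * y'⁻¹) * c * ρ ^ ι
      ≤ (x ^ E1 * ρ⁻¹ ^ (E1 + 2) * y⁻¹) * (x ^ E2 * ρ⁻¹ ^ (E2 + 2) * y'⁻¹) *
        (1 * (ρ * y) * (ρ * y') * x⁻¹ ^ (F + ι) * ρ ^ F) * ρ ^ ι := by gcongr
    _ = (x ^ (E1 + E2) * x⁻¹ ^ (F + ι)) * (y⁻¹ * y) * (y'⁻¹ * y') *
        (ρ⁻¹ ^ (E1 + E2) * ρ ^ (F + ι)) * (ρ⁻¹ ^ 4 * ρ ^ 2) := by ring
    _ = ρ⁻¹ ^ 4 * ρ ^ 2 := by
        rw [← hE, ← mul_pow, ← mul_pow, mul_inv_cancel₀ hx.ne', inv_mul_cancel₀ hy.ne',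
          inv_mul_cancel₀ hy'.ne', inv_mul_cancel₀ hρ0.ne', one_pow]
        ring
    _ = ρ⁻¹ ^ 2 := by
        rw [show (4 : ℕ) = 2 + 2 from rfl, pow_add, mul_assoc, ← mul_pow, inv_mul_cancel₀ hρ0.ne',
          one_pow, mul_one]
    _ ≤ 1 := pow_le_one₀ (inv_nonneg.2 hρ0.le) (inv_le_one_of_one_le₀ hρ)

end PAx

open PAx in
theorem t_pa : S_PA := by
  intro p _ n h B hn hev hh hB hpn i i' k ι hi hi' hk hι1 hι2
  have hm : 0 < n / 2 := by omega
  have hnm : n = 2 * (n / 2) := by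
    obtain ⟨c, hc⟩ := hev
    omega
  have ha : i / (n / 2) < h := by
    rw [Nat.div_lt_iff_lt_mul hm]
    have h1 : h * n = 2 * (h * (n / 2)) := by
      conv_lhs => rw [hnm]
      ring
    omega
  have ha' : i' / (n / 2) < h := by
    rw [Nat.div_lt_iff_lt_mul hm]
    have h1 : h * n = 2 * (h * (n / 2)) := by
      conv_lhs => rw [hnm]
      ring
    omega
  have hN : n ≤ B * n := Nat.le_mul_of_pos_left n hB
  rw [pa_eq hn hev hk (by omega) hι2]
  split_ifs with hc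
  · rw [padicNorm.mul, padicNorm.mul, pn_sc hpn, pn_sc hpn, pow_mul']
    have hb := PB_fser (p := p) (N := B * n) (n := n) (k := k) (a := i % (n / 2))
      (b := i' % (n / 2)) (E := 2 * h - (i / (n / 2) + i' / (n / 2))) hN hk
      (Nat.mod_lt _ hm).le (Nat.mod_lt _ hm).le (2 * h - ι - (i / (n / 2) + i' / (n / 2)))
    refine final (E := 2 * h - (i / (n / 2) + i' / (n / 2)))
      (pn_pos (by exact_mod_cast (Nat.factorial_pos _).ne'))
      (pn_pos (by exact_mod_cast (Nat.factorial_pos _).ne'))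
      (pn_pos (by exact_mod_cast (Nat.factorial_pos _).ne')) (rho_ge _) (by omega) (by omega) ?_
    have h2 : 2 * h - (i / (n / 2) + i' / (n / 2)) - ι = 2 * h - ι - (i / (n / 2) + i' / (n / 2)) := by
      omega
    rw [h2]
    exact hb
  · rw [mul_zero, padicNorm.zero, zero_mul]
    exact zero_le_one

end

end Pool.Agent.W165.OZ
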