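import Pool.Agent.W165.OZ.Stm

/-!
# Project OZ, part PF: partial fractions at a rational point
-/

open Polynomial Pool.Agent.H337R2 Filter Topology

namespace Pool.Agent.W165.OZ

noncomputable section

theorem pf_reindex (s : Finset ℕ) (μ : ℕ → ℕ) (P : ℚ[X]) (k : ℕ) (x : ℚ) :
    ∑ j ∈ Finset.range (μ k), pfc s μ P k j / x ^ (μ k - j) =
      ∑ i ∈ Finset.Icc 1 (μ k), pa s μ P k i / x ^ i := by
  have h2 : Finset.Icc 1 (μ k) = Finset.Ico 1 (μ k + 1) := by
    ext
    simp
  rw [h2, Finset.sum_Ico_eq_sum_range, ← Finset.sum_range_reflect]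
  apply Finset.sum_congr (by simp)
  intro j hj
  rw [Finset.mem_range] at hj
  have h3 : 1 + j ≤ μ k := by omega
  simp only [pa, h3, if_true]
  congr 2 <;> omega

theorem t_pf : S_PF := by
  intro n h P t hdeg ht
  have hne : ∀ k ∈ sP n, t + (k : ℚ) ≠ 0 := fun k hk => ht k (Finset.mem_range.1 hk)
  have hQdeg : (QQ (sP n) (mP h)).natDegree = 2 * h * n := by
    rw [QQ_natDegree, Finset.sum_const, Finset.card_range, smul_eq_mul]
    ring
  have hdeg' : P.degree < (QQ (sP n) (mP h)).degree := by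
    rw [Polynomial.degree_eq_natDegree (QQ_monic _ _).ne_zero, hQdeg]
    exact lt_of_le_of_lt Polynomial.degree_le_natDegree (by exact_mod_cast hdeg)
  have hid := congrArg (Polynomial.eval t) (pf_identity (sP n) (mP h) P hdeg')
  have hQ : (∏ k ∈ Finset.range n, (t + (k : ℚ))) ^ (2 * h) = (QQ (sP n) (mP h)).eval t := by
    unfold QQ
    rw [Polynomial.eval_prod, ← Finset.prod_pow]
    refine Finset.prod_congr rfl fun k _ => ?_
    rw [Polynomial.eval_pow, Polynomial.eval_add, Polynomial.eval_X, Polynomial.eval_C]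
  rw [Polynomial.eval_finsetSum] at hid
  rw [hQ, hid, Finset.sum_div]
  refine Finset.sum_congr rfl fun k hk => ?_
  have hk0 := hne k hk
  have hQk : (QQ (sP n) (mP h)).eval t = (t + (k : ℚ)) ^ (2 * h) *
      (QQ ((sP n).erase k) (mP h)).eval t := by
    rw [QQ_erase (sP n) (mP h) hk, Polynomial.eval_mul, Polynomial.eval_pow, Polynomial.eval_add,
      Polynomial.eval_X, Polynomial.eval_C]
  have hQk0 : (QQ ((sP n).erase k) (mP h)).eval t ≠ 0 := by
    unfold QQ
    rw [Polynomial.eval_prod]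
    refine Finset.prod_ne_zero_iff.2 fun m hm => ?_
    rw [Polynomial.eval_pow, Polynomial.eval_add, Polynomial.eval_X, Polynomial.eval_C]
    exact pow_ne_zero _ (hne m (Finset.mem_of_mem_erase hm))
  have hr := pf_reindex (sP n) (mP h) P k (t + k)
  rw [← hr, Polynomial.eval_finsetSum, Finset.sum_div]
  refine Finset.sum_congr rfl fun j hj => ?_
  rw [Finset.mem_range] at hj
  rw [hQk, Polynomial.eval_mul, Polynomial.eval_mul, Polynomial.eval_pow, Polynomial.eval_add,
    Polynomial.eval_X, Polynomial.eval_C, Polynomial.eval_C]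
  have hj' : j ≤ 2 * h := le_of_lt hj
  have hsplit : (t + (k : ℚ)) ^ (2 * h) = (t + (k : ℚ)) ^ j * (t + (k : ℚ)) ^ (2 * h - j) := by
    rw [← pow_add]
    congr 1
    omega
  have hp1 : (t + (k : ℚ)) ^ j ≠ 0 := pow_ne_zero _ hk0
  have hp2 : (t + (k : ℚ)) ^ (2 * h - j) ≠ 0 := pow_ne_zero _ hk0
  change _ = pfc (sP n) (mP h) P k j / (t + (k : ℚ)) ^ (2 * h - j)
  rw [hsplit]
  field_simp

end

end Pool.Agent.W165.OZ
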