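import Pool.Agent.W165.OZ.Stm

/-!
# Many irrational odd zeta values, task PI: lower bound for the products of differences
-/

open Polynomial Pool.Agent.H337R2 Filter Topology

namespace Pool.Agent.W165.OZ

namespace PI

variable {N : ℕ} {δ c1 c2 : ℝ} {τ ω : ℕ → ℝ}

lemma gap_iter (H : Nodes N δ c1 c2 τ ω) (l k : ℕ) : δ * k ≤ τ (l + k) - τ l := by
  induction k with
  | zero => simp
  | succ k ih =>
    have h := H.gap (l + k)
    push_cast
    rw [← add_assoc]
    linarith

/-- the distance of two nodes -/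
lemma diff_lower (H : Nodes N δ c1 c2 τ ω) {a b : ℕ} (h : a < b) :
    (if b - a < 3 * N then δ else 1) * (((b - a : ℕ) : ℝ) / (3 * N)) ≤ τ b - τ a := by
  have hN : (1 : ℝ) ≤ N := by exact_mod_cast H.hN
  have hN0 : (0 : ℝ) < N := by linarith
  have hδ := H.hδ
  obtain ⟨k, rfl⟩ : ∃ k, b = a + k := ⟨b - a, by omega⟩
  have e : a + k - a = k := by omega
  rw [e]
  split_ifs with h1
  · refine le_trans ?_ (gap_iter H a k)
    apply mul_le_mul_of_nonneg_left _ hδ.le
    apply div_le_self (Nat.cast_nonneg _)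
    linarith
  · have h2 : (3 : ℝ) * N ≤ k := by
      have : 3 * N ≤ k := by omega
      exact_mod_cast this
    have h3 := H.lo (a + k)
    have h4 := H.hi a
    have h5 : ((a + k : ℕ) : ℝ) < N * ((((a + k) / N : ℕ) : ℝ) + 1) := by
      have h6 : a + k < N * ((a + k) / N + 1) := Nat.lt_mul_div_succ _ H.hN
      exact_mod_cast h6
    have h7 : (N : ℝ) * ((a / N : ℕ) : ℝ) ≤ a := by
      have h8 : N * (a / N) ≤ a := Nat.mul_div_le a N
      exact_mod_cast h8
    have h9 : (k : ℝ) - 2 * N ≤ N * (τ (a + k) - τ a) := by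
      have h10 : τ (a + k) - τ a ≥ (((a + k) / N : ℕ) : ℝ) - ((a / N : ℕ) : ℝ) - 1 := by linarith
      have h11 := mul_le_mul_of_nonneg_left h10.le hN0.le
      push_cast at h5
      nlinarith
    rw [one_mul, div_le_iff₀ (by positivity)]
    nlinarith

/-- the distance of two indices -/
def Di (j l : ℕ) : ℕ := (j - l) + (l - j)

lemma diff_lower' (H : Nodes N δ c1 c2 τ ω) {j l : ℕ} (h : l ≠ j) :
    (if Di j l < 3 * N then δ else 1) * ((Di j l : ℝ) / (3 * N)) ≤ |τ j - τ l| := by
  rcases lt_or_gt_of_ne h with h1 | h1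
  · have e : Di j l = j - l := by unfold Di; omega
    rw [e]
    exact (diff_lower H h1).trans (le_abs_self _)
  · have e : Di j l = l - j := by unfold Di; omega
    rw [e, abs_sub_comm]
    exact (diff_lower H h1).trans (le_abs_self _)

lemma prod_Di {M j : ℕ} (h : j < M) :
    ∏ l ∈ (Finset.range M).erase j, Di j l = j.factorial * (M - 1 - j).factorial := by
  have e : (Finset.range M).erase j = Finset.range j ∪ Finset.Ico (j + 1) M := by
    ext l
    simp only [Finset.mem_erase, Finset.mem_range, Finset.mem_union, Finset.mem_Ico]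
    omega
  have hd : Disjoint (Finset.range j) (Finset.Ico (j + 1) M) := by
    rw [Finset.disjoint_left]
    intro l h1 h2
    rw [Finset.mem_range] at h1
    rw [Finset.mem_Ico] at h2
    omega
  rw [e, Finset.prod_union hd]
  congr 1
  · rw [← Finset.prod_range_add_one_eq_factorial, ← Finset.prod_range_reflect]
    apply Finset.prod_congr rfl
    intro l hl
    rw [Finset.mem_range] at hl
    unfold Di
    omega
  · rw [Finset.prod_Ico_eq_prod_range, ← Finset.prod_range_add_one_eq_factorial]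
    have e2 : M - (j + 1) = M - 1 - j := by omega
    rw [e2]
    apply Finset.prod_congr rfl
    intro l _
    unfold Di
    omega

lemma prod_Di_ge {M j : ℕ} (h : j < M) :
    (M - 1).factorial ≤ 2 ^ (M - 1) * ∏ l ∈ (Finset.range M).erase j, Di j l := by
  rw [prod_Di h, ← Nat.choose_mul_factorial_mul_factorial (show j ≤ M - 1 by omega), mul_assoc]
  exact Nat.mul_le_mul_right _ (Nat.choose_le_two_pow _ _)

lemma prod_succ_ge {M j : ℕ} (h : j < M) :
    (M - 1).factorial ≤ ∏ l ∈ (Finset.range M).erase j, (l + 1) := by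
  have h1 := Finset.mul_prod_erase (Finset.range M) (fun l => l + 1) (Finset.mem_range.2 h)
  rw [Finset.prod_range_add_one_eq_factorial] at h1
  have h2 : M.factorial = M * (M - 1).factorial := (Nat.mul_factorial_pred (by omega)).symm
  have h3 : (j + 1) * (M - 1).factorial ≤ (j + 1) * ∏ l ∈ (Finset.range M).erase j, (l + 1) := by
    rw [h1, h2]
    exact Nat.mul_le_mul_right _ h
  exact Nat.le_of_mul_le_mul_left h3 (Nat.succ_pos j)

lemma prod_g (H : Nodes N δ c1 c2 τ ω) (M j : ℕ) :
    δ ^ (6 * N) ≤ ∏ l ∈ (Finset.range M).erase j, (if Di j l < 3 * N then δ else 1) := by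
  rw [Finset.prod_ite, Finset.prod_const, Finset.prod_const_one, mul_one]
  apply pow_le_pow_of_le_one H.hδ.le H.hδ1
  have hsub : ((Finset.range M).erase j).filter (fun l => Di j l < 3 * N) ⊆
      Finset.Ico (j + 1 - 3 * N) (j + 3 * N) := by
    intro l hl
    obtain ⟨-, h2⟩ := Finset.mem_filter.1 hl
    unfold Di at h2
    rw [Finset.mem_Ico]
    omega
  refine (Finset.card_le_card hsub).trans ?_
  rw [Nat.card_Ico]
  have := H.hN
  omega

end PI

theorem t_pi : S_PI := by
  intro N δ c1 c2 τ ω H n hn M j hj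
  have hN : (1 : ℝ) ≤ N := by exact_mod_cast H.hN
  have hN0 : (0 : ℝ) < N := by linarith
  have hδ := H.hδ
  have hn1 : (1 : ℝ) ≤ n := by exact_mod_cast hn
  have hcard : ((Finset.range M).erase j).card = M - 1 := by
    rw [Finset.card_erase_of_mem (Finset.mem_range.2 hj), Finset.card_range]
  have hτ : ∀ l : ℕ, ((l : ℝ) + 1) / N ≤ τ l := by
    intro l
    rw [div_le_iff₀ hN0]
    have h1 := H.lo l
    have h2 : ((l : ℝ) + 1) ≤ N * (((l / N : ℕ) : ℝ) + 1) := by
      have h6 : l + 1 ≤ N * (l / N + 1) := Nat.lt_mul_div_succ _ H.hN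
      exact_mod_cast h6
    nlinarith
  have hτ0 : ∀ l : ℕ, 0 ≤ τ l := fun l => le_trans (by positivity) (hτ l)
  -- the factorwise bound
  have hfac : ∀ l ∈ (Finset.range M).erase j,
      (if PI.Di j l < 3 * N then δ else 1) * (PI.Di j l : ℝ) * ((l + 1 : ℕ) : ℝ) *
        (1 / (3 * (N : ℝ) ^ 2)) ≤ |yv n (τ j) - yv n (τ l)| := by
    intro l hl
    have hlj := (Finset.mem_erase.1 hl).1
    have e : yv n (τ j) - yv n (τ l) = (τ j - τ l) * (τ j + τ l + ((n : ℝ) - 1)) := by
      unfold yv; ring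
    have h1 := PI.diff_lower' H hlj
    have h2 : ((l : ℝ) + 1) / N ≤ τ j + τ l + ((n : ℝ) - 1) := by
      have := hτ l
      have := hτ0 j
      linarith
    have h3 : 0 ≤ τ j + τ l + ((n : ℝ) - 1) := le_trans (by positivity) h2
    have hg : 0 ≤ (if PI.Di j l < 3 * N then δ else 1) := by
      split_ifs
      · exact hδ.le
      · exact zero_le_one
    rw [e, abs_mul, abs_of_nonneg h3]
    calc (if PI.Di j l < 3 * N then δ else 1) * (PI.Di j l : ℝ) * ((l + 1 : ℕ) : ℝ) *
        (1 / (3 * (N : ℝ) ^ 2))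
        = ((if PI.Di j l < 3 * N then δ else 1) * ((PI.Di j l : ℝ) / (3 * N))) *
            (((l : ℝ) + 1) / N) := by
          push_cast
          field_simp
      _ ≤ |τ j - τ l| * (τ j + τ l + ((n : ℝ) - 1)) :=
          mul_le_mul h1 h2 (by positivity) (abs_nonneg _)
  refine le_trans ?_ (Finset.prod_le_prod (fun l _ => ?_) hfac)
  · rw [Finset.prod_mul_distrib, Finset.prod_mul_distrib, Finset.prod_mul_distrib,
      Finset.prod_const, hcard, ← Nat.cast_prod, ← Nat.cast_prod]
    have h1 := PI.prod_g H M j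
    have h2 : ((M - 1).factorial : ℝ) / 2 ^ (M - 1) ≤
        ((∏ l ∈ (Finset.range M).erase j, PI.Di j l : ℕ) : ℝ) := by
      rw [div_le_iff₀ (by positivity)]
      have := PI.prod_Di_ge hj
      have h3 : ((M - 1).factorial : ℝ) ≤
        2 ^ (M - 1) * ((∏ l ∈ (Finset.range M).erase j, PI.Di j l : ℕ) : ℝ) := by
        exact_mod_cast this
      linarith
    have h3 : ((M - 1).factorial : ℝ) ≤
        ((∏ l ∈ (Finset.range M).erase j, (l + 1) : ℕ) : ℝ) := by
      exact_mod_cast PI.prod_succ_ge hj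
    have h4 : δ ^ (6 * N) * (((M - 1).factorial : ℝ) / 2 ^ (M - 1)) ≤
        (∏ l ∈ (Finset.range M).erase j, (if PI.Di j l < 3 * N then δ else 1)) *
        ((∏ l ∈ (Finset.range M).erase j, PI.Di j l : ℕ) : ℝ) :=
      mul_le_mul h1 h2 (by positivity) (le_trans (by positivity) h1)
    have h5 : δ ^ (6 * N) * (((M - 1).factorial : ℝ) / 2 ^ (M - 1)) * ((M - 1).factorial : ℝ) ≤
        (∏ l ∈ (Finset.range M).erase j, (if PI.Di j l < 3 * N then δ else 1)) *
        ((∏ l ∈ (Finset.range M).erase j, PI.Di j l : ℕ) : ℝ) *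
        ((∏ l ∈ (Finset.range M).erase j, (l + 1) : ℕ) : ℝ) :=
      mul_le_mul h4 h3 (by positivity) (le_trans (by positivity) h4)
    refine le_trans (le_of_eq ?_) (mul_le_mul_of_nonneg_right h5 (by positivity))
    have e6 : (6 * (N : ℝ) ^ 2) = 2 * (3 * (N : ℝ) ^ 2) := by ring
    rw [e6, mul_pow, one_div, inv_pow]
    field_simp
  · have hg : 0 ≤ (if PI.Di j l < 3 * N then δ else 1) := by
      split_ifs
      · exact hδ.le
      · exact zero_le_one
    positivity

end Pool.Agent.W165.OZ
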