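import Pool.Agent.W165.OZ.Stm

/-!
# Part PJ: integrality of the partial fraction coefficients at the primes `p ≥ n`
-/

open Polynomial Pool.Agent.H337R2

namespace Pool.Agent.W165.OZ

lemma PBsum {p : ℕ} [Fact p.Prime] {ι : Type*} {ρ A : ℚ} (s : Finset ι) (f : ι → PowerSeries ℚ)
    (hρ : 0 ≤ ρ) (hA : 0 ≤ A) (hf : ∀ i ∈ s, PB p ρ A (f i)) : PB p ρ A (∑ i ∈ s, f i) := by
  intro j
  rw [map_sum]
  exact padicNorm.sum_le' (fun i hi => hf i hi j) (by positivity)

lemma PB_TS {p : ℕ} [Fact p.Prime] (P : ℚ[X]) (hP : ∀ j, padicNorm p (P.coeff j) ≤ 1) (c : ℚ)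
    (hc : padicNorm p c ≤ 1) : PB p 1 1 (TS c P) := by
  rw [P.as_sum_range_C_mul_X_pow, map_sum]
  apply PBsum _ _ zero_le_one zero_le_one
  intro i _
  rw [map_mul, map_pow, TS_X, TS_C]
  have h1 : PB p 1 1 (PowerSeries.C (P.coeff i)) := PB.C zero_le_one zero_le_one (hP i)
  have h2 : PB p 1 1 ((PowerSeries.X + PowerSeries.C c : PowerSeries ℚ)) :=
    PB.linX zero_le_one zero_le_one hc (by norm_num)
  have h3 := PB.mul zero_le_one zero_le_one (by positivity) h1 (PB.pow zero_le_one zero_le_one h2 i)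
  simpa using h3

theorem t_pj : S_PJ := by
  intro p _ n h hnp P hP k i hk
  unfold pa
  split_ifs with hi
  swap
  · simp
  have hpk : padicNorm p (-(k : ℚ)) ≤ 1 := by
    rw [padicNorm.neg]
    exact padicNorm.of_nat k
  have h1 := pfc_bound (p := p) (sP n) (mP h) P k 1 1 (fun _ => 1) zero_le_one zero_le_one
    (PB_TS P hP _ hpk) ?_ (fun _ _ => zero_le_one) (mP h k - i)
  · simpa using h1
  intro m hm _
  have hm1 : m ≠ k := Finset.ne_of_mem_erase hm
  have hm2 : m < n := Finset.mem_range.1 (Finset.mem_of_mem_erase hm)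
  have h2 : padicNorm p ((m : ℚ) - k) = 1 := by
    have e : ((m : ℚ) - k) = (((m : ℤ) - (k : ℤ) : ℤ) : ℚ) := by push_cast; ring
    rw [e, padicNorm.int_eq_one_iff]
    intro hd
    have h3 := Int.eq_zero_of_abs_lt_dvd hd (by rw [abs_lt]; constructor <;> omega)
    omega
  rw [h2]
  norm_num

end Pool.Agent.W165.OZ
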