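import Pool.Agent.W165.OZ.Stm

/-!
# Many irrational odd zeta values: the polar part at a singular node
-/

open Polynomial Pool.Agent.H337R2 Filter Topology

namespace Pool.Agent.W165.OZ

lemma po_nat_unit (p : ℕ) [hp : Fact p.Prime] (a : ℕ) (h1 : 1 ≤ a) (h2 : a < p) :
    padicNorm p (a : ℚ) = 1 := by
  rw [padicNorm.nat_eq_one_iff]
  exact Nat.not_dvd_of_pos_of_lt h1 h2

lemma po_int_unit (p : ℕ) [hp : Fact p.Prime] (n k k' : ℕ) (hn : n < p) (hk : k < n) (hk' : k' < n)
    (hne : k' ≠ k) : padicNorm p ((k' : ℚ) - (k : ℚ)) = 1 := by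
  rcases lt_or_gt_of_ne hne with h | h
  · have h1 : (k' : ℚ) - (k : ℚ) = -(((k - k' : ℕ)) : ℚ) := by
      rw [Nat.cast_sub h.le]; ring
    rw [h1, padicNorm.neg]
    exact po_nat_unit p _ (by omega) (by omega)
  · have h1 : (k' : ℚ) - (k : ℚ) = (((k' - k : ℕ)) : ℚ) := by
      rw [Nat.cast_sub h.le]
    rw [h1]
    exact po_nat_unit p _ (by omega) (by omega)

lemma po_pow (p : ℕ) [hp : Fact p.Prime] (x : ℚ) (m : ℕ) : padicNorm p (x ^ m) = padicNorm p x ^ m := by
  induction m with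
  | zero => simp
  | succ m ih => rw [pow_succ, pow_succ, padicNorm.mul, ih]

lemma po_prod (p : ℕ) [hp : Fact p.Prime] (s : Finset ℕ) (f : ℕ → ℚ) :
    padicNorm p (∏ k ∈ s, f k) = ∏ k ∈ s, padicNorm p (f k) := by
  induction s using Finset.induction_on with
  | empty => simp
  | insert a s ha ih => rw [Finset.prod_insert ha, Finset.prod_insert ha, padicNorm.mul, ih]

lemma po_add_le (p : ℕ) [hp : Fact p.Prime] {x y : ℚ} (hx : padicNorm p x ≤ 1) (hy : padicNorm p y ≤ 1) :
    padicNorm p (x + y) ≤ 1 := padicNorm.nonarchimedean.trans (max_le hx hy)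

lemma po_sub_le (p : ℕ) [hp : Fact p.Prime] {x y : ℚ} (hx : padicNorm p x ≤ 1) (hy : padicNorm p y ≤ 1) :
    padicNorm p (x - y) ≤ 1 := padicNorm.sub.trans (max_le hx hy)

lemma po_mul_le (p : ℕ) [hp : Fact p.Prime] {x y : ℚ} (hx : padicNorm p x ≤ 1) (hy : padicNorm p y ≤ 1) :
    padicNorm p (x * y) ≤ 1 := by
  rw [padicNorm.mul]
  exact mul_le_one₀ hx (padicNorm.nonneg _) hy

theorem t_po (h1 : S_PF) (h2 : S_PJ) : S_PO := by
  intro p hp n h B hnp hBn P hP hdeg d k v hd hdB hk hv hpv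
  have hp1 : 1 < p := hp.out.one_lt
  have hp0 : (0 : ℚ) < p := by exact_mod_cast hp.out.pos
  have hvp : v < p := by
    have h3 : p * v ≤ n * n := hpv.trans (Nat.mul_le_mul (hdB.trans hBn) hk)
    by_contra hcon
    push Not at hcon
    have h4 : p * p ≤ p * v := Nat.mul_le_mul_left p hcon
    have h5 : n * n < p * p := Nat.mul_lt_mul'' hnp hnp
    omega
  have hvn : padicNorm p (v : ℚ) = 1 := po_nat_unit p v hv hvp
  have hdn : padicNorm p (d : ℚ) = 1 := po_nat_unit p d hd (by omega)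
  have hd0 : (d : ℚ) ≠ 0 := by
    have : (0 : ℚ) < d := by exact_mod_cast hd
    exact this.ne'
  have hv0 : (v : ℚ) ≠ 0 := by
    have : (0 : ℚ) < v := by exact_mod_cast hv
    exact this.ne'
  have hain : (d : ℚ) / ((p * v : ℕ) : ℚ) = (((p * v : ℕ) : ℚ) / d)⁻¹ := by rw [inv_div]
  rw [hain]
  set a : ℚ := ((p * v : ℕ) : ℚ) / d with ha
  have han : padicNorm p a = (p : ℚ)⁻¹ := by
    rw [ha, padicNorm.div, Nat.cast_mul, padicNorm.mul, hvn, hdn, padicNorm.padicNorm_p_of_prime]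
    simp
  have ha1 : padicNorm p a < 1 := by
    rw [han]
    exact inv_lt_one_of_one_lt₀ (by exact_mod_cast hp1)
  have ha0 : a ≠ 0 := by
    rw [ha, Nat.cast_mul]
    exact div_ne_zero (mul_ne_zero hp0.ne' hv0) hd0
  -- the norms of `t + k'`
  have hother : ∀ k' < n, k' ≠ k → padicNorm p (a - k + (k' : ℚ)) = 1 := by
    intro k' hk' hne
    have h3 := po_int_unit p n k k' hnp hk hk' hne
    have h4 : a - (k : ℚ) + (k' : ℚ) = a + ((k' : ℚ) - (k : ℚ)) := by ring
    rw [h4, padicNorm.add_eq_max_of_ne (by rw [h3]; exact ha1.ne), h3]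
    exact max_eq_right ha1.le
  have hnz : ∀ k' < n, a - k + (k' : ℚ) ≠ 0 := by
    intro k' hk'
    by_cases hkk : k' = k
    · subst hkk
      simpa using ha0
    · intro h0
      have := hother k' hk' hkk
      rw [h0, padicNorm.zero] at this
      exact zero_ne_one this
  have ht1 : padicNorm p (a - k) ≤ 1 := po_sub_le p ha1.le (padicNorm.of_nat k)
  have hkmem : k ∈ sP n := Finset.mem_range.mpr hk
  refine ⟨?_, ?_, ?_, ?_⟩
  · rw [h1 n h P (a - k) hdeg hnz, ← Finset.add_sum_erase _ _ hkmem]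
    have h3 : ∑ i ∈ Finset.Icc 1 (2 * h), pa (sP n) (mP h) P k i / (a - (k : ℚ) + (k : ℚ)) ^ i
        = ∑ i ∈ Finset.Icc 1 (2 * h), pa (sP n) (mP h) P k i * a⁻¹ ^ i := by
      apply Finset.sum_congr rfl
      intro i _
      rw [sub_add_cancel, div_eq_mul_inv, inv_pow]
    rw [h3, sub_add_cancel_left, padicNorm.neg]
    apply padicNorm.sum_le' _ zero_le_one
    intro k' hk'
    apply padicNorm.sum_le' _ zero_le_one
    intro i _
    rw [Finset.mem_erase, Finset.mem_range] at hk'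
    rw [padicNorm.div, po_pow, hother k' hk'.2 hk'.1, one_pow, div_one]
    exact h2 p n h hnp.le P hP k' i hk'.2
  · rw [padicNorm.div, po_pow, po_pow, po_prod, ← Finset.mul_prod_erase _ _ hkmem]
    have h3 : ∏ k' ∈ (sP n).erase k, padicNorm p (a - (k : ℚ) + (k' : ℚ)) = 1 := by
      apply Finset.prod_eq_one
      intro k' hk'
      rw [Finset.mem_erase, Finset.mem_range] at hk'
      exact hother k' hk'.2 hk'.1
    rw [h3, sub_add_cancel, han, padicNorm.padicNorm_p_of_prime, mul_one, div_self]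
    exact pow_ne_zero _ (inv_ne_zero hp0.ne')
  · unfold yp
    rw [eval_mul, eval_X, eval_add, eval_X, eval_C]
    apply po_mul_le p ht1
    apply po_add_le p ht1
    exact po_sub_le p (padicNorm.of_nat n) padicNorm.one.le
  · apply po_add_le p
    · apply po_mul_le p _ ht1
      exact_mod_cast padicNorm.of_nat (p := p) 2
    · exact po_sub_le p (padicNorm.of_nat n) padicNorm.one.le

end Pool.Agent.W165.OZ
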