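import Pool.Agent.W165.OZ.Stm

/-!
# OZ-PP: the size of `PPn`
-/

set_option autoImplicit false

open Finset

namespace Pool.Agent.W165.OZ

theorem pp_theta (y : ℕ) :
    ∑ p ∈ (range (y + 1)).filter Nat.Prime, Real.log p ≤ y * Real.log 4 := by
  have h1 : ((primorial y : ℕ) : ℝ) ≤ 4 ^ y := by exact_mod_cast primorial_le_four_pow y
  have h2 : Real.log (primorial y : ℝ) =
      ∑ p ∈ (range (y + 1)).filter Nat.Prime, Real.log p := by
    unfold primorial
    rw [Nat.cast_prod, Real.log_prod]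
    intro p hp
    rw [mem_filter] at hp
    exact_mod_cast hp.2.ne_zero
  rw [← h2, ← Real.log_pow]
  exact Real.log_le_log (by exact_mod_cast primorial_pos y) h1

theorem pp_harm (B : ℕ) : ∑ v ∈ Icc 1 B, (1 : ℝ) / v ≤ 1 + Real.log B := by
  have h1 := harmonic_le_one_add_log B
  have h2 : ((harmonic B : ℚ) : ℝ) = ∑ v ∈ Icc 1 B, (1 : ℝ) / v := by
    rw [harmonic_eq_sum_Icc]
    push_cast
    exact sum_congr rfl fun v _ => (one_div _).symm
  rw [← h2]
  exact h1

theorem pp_inner (n B x : ℕ) (hx : x ≤ B * n) :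
    ∑ p ∈ (range (B * n + 1)).filter (fun p => Nat.Prime p ∧ n < p),
      ((x / p : ℕ) : ℝ) * Real.log p ≤ x * Real.log 4 * (1 + Real.log B) := by
  have hlog4 : 0 ≤ Real.log 4 := Real.log_nonneg (by norm_num)
  have h1 : ∀ p ∈ (range (B * n + 1)).filter (fun p => Nat.Prime p ∧ n < p),
      ((x / p : ℕ) : ℝ) * Real.log p =
        ∑ v ∈ Icc 1 B, if v * p ≤ x then Real.log p else 0 := by
    intro p hp
    rw [mem_filter] at hp
    obtain ⟨-, hpp, hnp⟩ := hp
    have hp0 : 0 < p := hpp.pos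
    have hxp : x / p ≤ B := by
      apply Nat.div_le_of_le_mul
      calc x ≤ B * n := hx
        _ ≤ B * p := Nat.mul_le_mul_left B hnp.le
        _ = p * B := Nat.mul_comm _ _
    rw [← sum_filter, sum_const, nsmul_eq_mul]
    congr 1
    have h2 : (Icc 1 B).filter (fun v => v * p ≤ x) = Icc 1 (x / p) := by
      ext v
      rw [mem_filter, mem_Icc, mem_Icc, Nat.le_div_iff_mul_le hp0]
      constructor
      · rintro ⟨⟨a, _⟩, b⟩
        exact ⟨a, b⟩
      · rintro ⟨a, b⟩
        exact ⟨⟨a, ((Nat.le_div_iff_mul_le hp0).2 b).trans hxp⟩, b⟩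
    rw [h2, Nat.card_Icc]
    simp
  rw [sum_congr rfl h1, sum_comm]
  have h3 : ∀ v ∈ Icc 1 B,
      ∑ p ∈ (range (B * n + 1)).filter (fun p => Nat.Prime p ∧ n < p),
        (if v * p ≤ x then Real.log p else 0) ≤ x * Real.log 4 * ((1 : ℝ) / v) := by
    intro v hv
    rw [mem_Icc] at hv
    have hv0 : 0 < v := hv.1
    rw [← sum_filter]
    have h4 : ((range (B * n + 1)).filter (fun p => Nat.Prime p ∧ n < p)).filter
        (fun p => v * p ≤ x) ⊆ (range (x / v + 1)).filter Nat.Prime := by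
      intro p hp
      rw [mem_filter, mem_filter] at hp
      rw [mem_filter, mem_range]
      refine ⟨?_, hp.1.2.1⟩
      rw [Nat.lt_succ_iff, Nat.le_div_iff_mul_le hv0, Nat.mul_comm]
      exact hp.2
    refine (sum_le_sum_of_subset_of_nonneg h4 fun p _ _ => Real.log_natCast_nonneg p).trans ?_
    refine (pp_theta (x / v)).trans ?_
    have h5 : ((x / v : ℕ) : ℝ) ≤ (x : ℝ) / v := Nat.cast_div_le
    calc ((x / v : ℕ) : ℝ) * Real.log 4 ≤ (x : ℝ) / v * Real.log 4 :=
          mul_le_mul_of_nonneg_right h5 hlog4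
      _ = x * Real.log 4 * ((1 : ℝ) / v) := by ring
  refine (sum_le_sum h3).trans ?_
  rw [← mul_sum]
  exact mul_le_mul_of_nonneg_left (pp_harm B) (by positivity)

/-- PP: the size of `PPn` -/
theorem t_pp : S_PP := by
  intro n h B hn hB
  have hlog4 : 0 ≤ Real.log 4 := Real.log_nonneg (by norm_num)
  have hlogB : 0 ≤ Real.log B := Real.log_natCast_nonneg B
  have h1 : Real.log (PPn n h B : ℝ) =
      ∑ d ∈ Icc 1 B, ∑ k ∈ range n, (2 * (h : ℝ)) *
        ∑ p ∈ (range (B * n + 1)).filter (fun p => Nat.Prime p ∧ n < p),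
          ((d * (k + 1) / p : ℕ) : ℝ) * Real.log p := by
    unfold PPn
    rw [Nat.cast_prod, Real.log_prod]
    · have h2 : ∀ p ∈ (range (B * n + 1)).filter (fun p => Nat.Prime p ∧ n < p),
          Real.log ((p ^ (2 * h * Sp n B p) : ℕ) : ℝ) =
          ∑ d ∈ Icc 1 B, ∑ k ∈ range n, (2 * (h : ℝ)) *
            (((d * (k + 1) / p : ℕ) : ℝ) * Real.log p) := by
        intro p _
        rw [Nat.cast_pow, Real.log_pow]
        unfold Sp
        rw [Nat.cast_mul, Nat.cast_sum, mul_sum, sum_mul]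
        refine sum_congr rfl fun d _ => ?_
        rw [Nat.cast_sum, mul_sum, sum_mul]
        refine sum_congr rfl fun k _ => ?_
        push_cast
        ring
      rw [sum_congr rfl h2, sum_comm]
      refine sum_congr rfl fun d _ => ?_
      rw [sum_comm]
      refine sum_congr rfl fun k _ => ?_
      rw [mul_sum]
    · intro p hp
      rw [mem_filter] at hp
      have := hp.2.1.pos
      positivity
  rw [h1]
  have h3 : ∀ d ∈ Icc 1 B, ∑ k ∈ range n, (2 * (h : ℝ)) *
        ∑ p ∈ (range (B * n + 1)).filter (fun p => Nat.Prime p ∧ n < p),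
          ((d * (k + 1) / p : ℕ) : ℝ) * Real.log p ≤
      ∑ k ∈ range n, (2 * (h : ℝ)) * (((d * (k + 1) : ℕ) : ℝ) * Real.log 4 *
        (1 + Real.log B)) := by
    intro d hd
    rw [mem_Icc] at hd
    refine sum_le_sum fun k hk => ?_
    rw [mem_range] at hk
    refine mul_le_mul_of_nonneg_left (pp_inner n B (d * (k + 1)) ?_) (by positivity)
    exact Nat.mul_le_mul hd.2 hk
  refine (sum_le_sum h3).trans ?_
  have h4 : ∑ d ∈ Icc 1 B, ∑ k ∈ range n, (2 * (h : ℝ)) * (((d * (k + 1) : ℕ) : ℝ) *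
      Real.log 4 * (1 + Real.log B)) =
      2 * h * Real.log 4 * (1 + Real.log B) *
        ((∑ d ∈ Icc 1 B, (d : ℝ)) * ∑ k ∈ range n, ((k : ℝ) + 1)) := by
    rw [sum_mul_sum, mul_sum]
    refine sum_congr rfl fun d _ => ?_
    rw [mul_sum]
    refine sum_congr rfl fun k _ => ?_
    push_cast
    ring
  rw [h4]
  have h5 : ∀ m : ℕ, ∑ k ∈ range m, ((k : ℝ) + 1) = m * (m + 1) / 2 := by
    intro m
    induction m with
    | zero => simp
    | succ m ih =>
      rw [sum_range_succ, ih]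
      push_cast
      ring
  have h6 : ∀ m : ℕ, ∑ d ∈ Icc 1 m, (d : ℝ) = m * (m + 1) / 2 := by
    intro m
    induction m with
    | zero => simp
    | succ m ih =>
      rw [sum_Icc_succ_top (by omega), ih]
      push_cast
      ring
  rw [h5, h6]
  have h7 : (n : ℝ) * (n + 1) / 2 ≤ (n : ℝ) ^ 2 := by
    have : (1 : ℝ) ≤ n := by exact_mod_cast hn
    nlinarith
  calc 2 * h * Real.log 4 * (1 + Real.log B) * ((B : ℝ) * (B + 1) / 2 * ((n : ℝ) * (n + 1) / 2))
      ≤ 2 * h * Real.log 4 * (1 + Real.log B) * ((B : ℝ) * (B + 1) / 2 * (n : ℝ) ^ 2) :=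
        mul_le_mul_of_nonneg_left (mul_le_mul_of_nonneg_left h7 (by positivity)) (by positivity)
    _ = h * Real.log 4 * ((B : ℝ) * (B + 1)) * (n : ℝ) ^ 2 * (1 + Real.log B) := by ring

end Pool.Agent.W165.OZ
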