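import Pool.Agent.W165.OZ.Stm

/-!
# Project OZ, part PR: the lower bound for a non-vanishing determinant
-/

open Polynomial Pool.Agent.H337R2 Filter Topology

namespace Pool.Agent.W165.OZ

namespace PRaux

/-- the subring of `p`-integral rational numbers -/
def Sring (p : ℕ) [Fact p.Prime] : Subring ℚ where
  carrier := {x | padicNorm p x ≤ 1}
  mul_mem' := by
    intro a b ha hb
    rw [Set.mem_ofPred_eq] at *
    rw [padicNorm.mul]
    exact mul_le_one₀ ha (padicNorm.nonneg _) hb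
  one_mem' := by
    rw [Set.mem_ofPred_eq, padicNorm.one]
  add_mem' := by
    intro a b ha hb
    rw [Set.mem_ofPred_eq] at *
    exact (padicNorm.nonarchimedean).trans (max_le ha hb)
  zero_mem' := by
    rw [Set.mem_ofPred_eq, padicNorm.zero]
    norm_num
  neg_mem' := by
    intro a ha
    rw [Set.mem_ofPred_eq] at *
    rwa [padicNorm.neg]

lemma mem_Sring (p : ℕ) [Fact p.Prime] (x : ℚ) : x ∈ Sring p ↔ padicNorm p x ≤ 1 := Iff.rfl

lemma int_of_padicNorm {x : ℚ} (h : ∀ p : ℕ, [Fact p.Prime] → padicNorm p x ≤ 1) : x.den = 1 := by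
  by_contra hd
  obtain ⟨p, hp, hpd⟩ := Nat.exists_prime_and_dvd hd
  have : Fact p.Prime := ⟨hp⟩
  have h1 := h p
  have h2 : padicNorm p (x.den : ℚ) < 1 := (padicNorm.nat_lt_one_iff x.den).2 hpd
  have h3 : padicNorm p (x.num : ℚ) = 1 := by
    rw [padicNorm.int_eq_one_iff]
    intro hpn
    have h4 : p ∣ x.num.natAbs := Int.natCast_dvd.1 hpn
    have h5 : p ∣ Nat.gcd x.num.natAbs x.den := Nat.dvd_gcd h4 hpd
    rw [x.reduced] at h5
    exact hp.one_lt.ne' (Nat.dvd_one.1 h5)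
  have h4 : x * (x.den : ℚ) = x.num := Rat.mul_den_eq_num x
  have h5 : padicNorm p x * padicNorm p (x.den : ℚ) = 1 := by
    rw [← padicNorm.mul, h4, h3]
  have h6 : 0 ≤ padicNorm p (x.den : ℚ) := padicNorm.nonneg _
  nlinarith [padicNorm.nonneg (p := p) x]

lemma one_le_abs {x : ℚ} (h : ∀ p : ℕ, [Fact p.Prime] → padicNorm p x ≤ 1) (hx : x ≠ 0) :
    1 ≤ |x| := by
  have h1 := int_of_padicNorm h
  have h2 : x = (x.num : ℚ) := by
    have := Rat.mul_den_eq_num x
    rw [h1] at this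
    simpa using this
  have h3 : x.num ≠ 0 := fun h0 => hx (Rat.num_eq_zero.1 h0)
  rw [h2]
  have h4 : 1 ≤ |x.num| := Int.one_le_abs h3
  exact_mod_cast h4

lemma Dl_pos (n B : ℕ) : 0 < Dl n B := by
  unfold Dl
  refine Finset.prod_pos fun p hp => ?_
  exact pow_pos (Finset.mem_filter.1 hp).2.pos _

lemma PPn_pos (n h B : ℕ) : 0 < PPn n h B := by
  unfold PPn
  refine Finset.prod_pos fun p hp => ?_
  exact pow_pos (Finset.mem_filter.1 hp).2.1.pos _

lemma sc_pos (n h B i : ℕ) : 0 < sc n h B i := by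
  unfold sc
  have h1 : (0 : ℚ) < (Dl n B : ℚ) := by exact_mod_cast Dl_pos n B
  positivity

lemma padicNorm_sc (p : ℕ) [Fact p.Prime] (n h B i : ℕ) (hn : 2 ≤ n) (hp : n < p) :
    padicNorm p (sc n h B i) ≤ 1 := by
  unfold sc
  have h0 : i % (n / 2) < n / 2 := Nat.mod_lt _ (by omega)
  have h1 : padicNorm p (((2 * (i % (n / 2))).factorial : ℕ) : ℚ) = 1 := by
    rw [padicNorm.nat_eq_one_iff, Nat.Prime.dvd_factorial (Fact.out : p.Prime)]
    omega
  rw [padicNorm.div, h1, div_one]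
  have h2 : ((n.factorial : ℚ) ^ (h - i / (n / 2)) * (Dl n B : ℚ) ^ (h - i / (n / 2) + 2)) =
      (((n.factorial) ^ (h - i / (n / 2)) * (Dl n B) ^ (h - i / (n / 2) + 2) : ℕ) : ℚ) := by
    push_cast; rfl
  rw [h2]
  exact padicNorm.of_nat _

lemma dvd_PPn (p : ℕ) [Fact p.Prime] (n h B : ℕ) (hp : n < p) :
    p ^ (2 * h * Sp n B p) ∣ PPn n h B := by
  by_cases hB : p < B * n + 1
  · unfold PPn
    exact Finset.dvd_prod_of_mem (fun p => p ^ (2 * h * Sp n B p))
      (Finset.mem_filter.2 ⟨Finset.mem_range.2 hB, (Fact.out : p.Prime), hp⟩)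
  · have h0 : Sp n B p = 0 := by
      unfold Sp
      refine Finset.sum_eq_zero fun d hd => Finset.sum_eq_zero fun k hk => ?_
      refine Nat.div_eq_of_lt ?_
      have h1 := (Finset.mem_Icc.1 hd).2
      have h2 := Finset.mem_range.1 hk
      calc d * (k + 1) ≤ B * n := Nat.mul_le_mul h1 h2
        _ < p := by omega
    rw [h0, Nat.mul_zero, pow_zero]
    exact one_dvd _

end PRaux

open PRaux

theorem t_pr (h1 : S_SE) (h2 : S_SF) : S_PR := by
  intro n h B w z q hq hz hn hev hh hB hBn r hr hne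
  have hx : ∀ p : ℕ, [Fact p.Prime] → padicNorm p (DH (mo n h B w z) r *
      ((q : ℚ) ^ r * (∏ i ∈ Finset.range r, sc n h B i ^ 2) * (PPn n h B : ℚ))) ≤ 1 := by
    intro p hp
    have hS : ∀ x : ℚ, padicNorm p x ≤ 1 → algebraMap ℚ ℚ x ∈ Sring p := fun x hx => hx
    have hqz : ∀ i, (q : ℚ) * z i ∈ Sring p := by
      intro i
      obtain ⟨a, ha⟩ := hz i
      rw [ha, mem_Sring]
      exact padicNorm.of_int a
    rw [← mem_Sring]
    by_cases hpn : p ≤ n
    · have h3 := h1 ℚ p (Sring p) hS n h B w z q hqz hn hev hh hB hpn r hr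
      have h4 : ((PPn n h B : ℕ) : ℚ) ∈ Sring p := by
        rw [mem_Sring]
        exact padicNorm.of_nat _
      have h5 := (Sring p).mul_mem h3 h4
      have h6 : algebraMap ℚ ℚ ((q : ℚ) ^ r * ∏ i ∈ Finset.range r, sc n h B i ^ 2) *
          DH (mo n h B w z) r * ((PPn n h B : ℕ) : ℚ) =
          DH (mo n h B w z) r *
            ((q : ℚ) ^ r * (∏ i ∈ Finset.range r, sc n h B i ^ 2) * (PPn n h B : ℚ)) := by
        rw [Algebra.algebraMap_self, RingHom.id_apply]
        ring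
      rwa [h6] at h5
    · have hpn' : n < p := by omega
      have h3 := h2 ℚ p (Sring p) hS n h B w z q hqz hn hh hB hBn hpn' r hr
      obtain ⟨m, hm⟩ := dvd_PPn p n h B hpn'
      have h4 : (m : ℚ) ∈ Sring p := by
        rw [mem_Sring]
        exact padicNorm.of_nat _
      have h5 : (∏ i ∈ Finset.range r, sc n h B i ^ 2) ∈ Sring p := by
        refine Subring.prod_mem _ fun i _ => Subring.pow_mem _ ?_ _
        rw [mem_Sring]
        exact padicNorm_sc p n h B i hn hpn'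
      have h6 := (Sring p).mul_mem ((Sring p).mul_mem h3 h5) h4
      have h7 : algebraMap ℚ ℚ ((q : ℚ) ^ r * (p : ℚ) ^ (2 * h * Sp n B p)) *
          DH (mo n h B w z) r * (∏ i ∈ Finset.range r, sc n h B i ^ 2) * (m : ℚ) =
          DH (mo n h B w z) r *
            ((q : ℚ) ^ r * (∏ i ∈ Finset.range r, sc n h B i ^ 2) * (PPn n h B : ℚ)) := by
        rw [Algebra.algebraMap_self, RingHom.id_apply, hm]
        push_cast
        ring
      rwa [h7] at h6
  have hq0 : (q : ℚ) ≠ 0 := by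
    have : 0 < q := hq
    exact_mod_cast this.ne'
  have hpos : 0 < (q : ℚ) ^ r * (∏ i ∈ Finset.range r, sc n h B i ^ 2) * (PPn n h B : ℚ) := by
    have a1 : (0 : ℚ) < (q : ℚ) := by exact_mod_cast hq
    have a2 : (0 : ℚ) < ∏ i ∈ Finset.range r, sc n h B i ^ 2 :=
      Finset.prod_pos fun i _ => pow_pos (sc_pos n h B i) 2
    have a3 : (0 : ℚ) < (PPn n h B : ℚ) := by exact_mod_cast PPn_pos n h B
    positivity
  have h8 := one_le_abs hx (mul_ne_zero hne hpos.ne')
  rwa [abs_mul, abs_of_pos hpos] at h8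

end Pool.Agent.W165.OZ
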