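import Pool.Agent.W165.OZ.Stm

/-!
# OZ-RL: lower bound for the rational function at the nodes
-/

set_option autoImplicit false

namespace Pool.Agent.W165.OZ

theorem t_rl : S_RL := by
  intro N δ c1 c2 τ ω hN n h j hn
  have h1 : (1 : ℝ) < τ j := by
    have := hN.lo j
    have h0 : (0 : ℝ) ≤ ((j / N : ℕ) : ℝ) := Nat.cast_nonneg _
    linarith
  have h2 : τ j ≤ 2 + (j : ℝ) / N := by
    have := hN.hi j
    have h0 : ((j / N : ℕ) : ℝ) ≤ (j : ℝ) / N := Nat.cast_div_le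
    linarith
  have hn1 : (1 : ℝ) ≤ (n : ℝ) := by exact_mod_cast hn
  have hP : 0 < ∏ k ∈ Finset.range n, (τ j + (k : ℝ)) := by
    apply Finset.prod_pos
    intro k _
    have : (0 : ℝ) ≤ (k : ℝ) := Nat.cast_nonneg _
    linarith
  have hP2 : ∏ k ∈ Finset.range n, (τ j + (k : ℝ)) ≤ (2 + (j : ℝ) / N + n) ^ n := by
    calc ∏ k ∈ Finset.range n, (τ j + (k : ℝ))
        ≤ ∏ _k ∈ Finset.range n, (2 + (j : ℝ) / N + n) := by
          apply Finset.prod_le_prod
          · intro k _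
            have : (0 : ℝ) ≤ (k : ℝ) := Nat.cast_nonneg _
            linarith
          · intro k hk
            have : (k : ℝ) ≤ (n : ℝ) := by
              exact_mod_cast (Finset.mem_range.mp hk).le
            linarith
      _ = (2 + (j : ℝ) / N + n) ^ n := by simp
  have hP3 : (∏ k ∈ Finset.range n, (τ j + (k : ℝ))) ^ (2 * h) ≤
      (2 + (j : ℝ) / N + n) ^ (2 * h * n) := by
    calc _ ≤ ((2 + (j : ℝ) / N + n) ^ n) ^ (2 * h) := pow_le_pow_left₀ hP.le hP2 _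
      _ = _ := by rw [← pow_mul, mul_comm]
  have hP4 : 0 < (∏ k ∈ Finset.range n, (τ j + (k : ℝ))) ^ (2 * h) := pow_pos hP _
  unfold Rv
  calc ((2 + (j : ℝ) / N + n) ^ (2 * h * n))⁻¹
      ≤ ((∏ k ∈ Finset.range n, (τ j + (k : ℝ))) ^ (2 * h))⁻¹ := inv_anti₀ hP4 hP3
    _ = 1 / (∏ k ∈ Finset.range n, (τ j + (k : ℝ))) ^ (2 * h) := (one_div _).symm
    _ ≤ (2 * τ j + ((n : ℝ) - 1)) / (∏ k ∈ Finset.range n, (τ j + (k : ℝ))) ^ (2 * h) := by
        apply div_le_div_of_nonneg_right _ hP4.le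
        linarith

end Pool.Agent.W165.OZ
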