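import Pool.Agent.W165.OZ.Stm

/-!
# Many irrational odd zeta values: the real moments (part RM)
-/

open Polynomial Pool.Agent.H337R2 Filter Topology

namespace Pool.Agent.W165.OZ

noncomputable section

lemma rm_natDegree (n k : ℕ) : (num n (X ^ k)).natDegree ≤ 1 + 2 * k := by
  unfold num
  refine natDegree_mul_le.trans ?_
  have h1 : (C (2 : ℚ) * X + C ((n : ℚ) - 1)).natDegree ≤ 1 := natDegree_linear_le
  have h2 : ((X ^ k : ℚ[X]).comp (yp n)).natDegree ≤ 2 * k := by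
    rw [Polynomial.X_pow_comp]
    refine natDegree_pow_le.trans ?_
    have h3 : (yp n).natDegree ≤ 2 := by
      unfold yp
      refine natDegree_mul_le.trans ?_
      have h4 : (X : ℚ[X]).natDegree ≤ 1 := natDegree_X_le
      have h5 : ((X : ℚ[X]) + C ((n : ℚ) - 1)).natDegree ≤ 1 := (natDegree_X_add_C _).le
      omega
    calc k * (yp n).natDegree ≤ k * 2 := Nat.mul_le_mul_left _ h3
      _ = 2 * k := by ring
  omega

lemma rm_term (n h k : ℕ) (d u : ℕ) :
    ((((num n (X ^ k)).eval (((u : ℚ) + d + 1) / d) /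
      (∏ j ∈ Finset.range n, (((u : ℚ) + d + 1) / d + (j : ℚ))) ^ (2 * h) : ℚ)) : ℝ) =
    Rv n h (((u : ℝ) + d + 1) / d) * yv n (((u : ℝ) + d + 1) / d) ^ k := by
  unfold num Rv yv yp
  simp only [eval_mul, eval_add, eval_C, eval_X, eval_comp, eval_pow]
  push_cast
  ring

theorem t_rm (h1 : S_DS) (h2 : S_EV) : S_RM := by
  intro n h B w hn _ hh k hk
  have hdeg : (num n (X ^ k)).natDegree + 2 ≤ 2 * h * n := by
    have := rm_natDegree n k
    have h3 : 2 * h * n = 2 * (h * n) := by ring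
    omega
  set P := num n (X ^ k) with hP
  have hS : ∀ d ∈ Finset.Icc 1 B, HasSum (fun u : ℕ =>
      Rv n h (((u : ℝ) + d + 1) / d) * yv n (((u : ℝ) + d + 1) / d) ^ k)
      (∑ i ∈ Finset.Icc 1 (2 * h), (((rhoP n h P i * (d : ℚ) ^ i : ℚ) : ℝ) *
        (if 2 ≤ i then zr i else 0) -
      (((d : ℚ) ^ i * ∑ k ∈ sP n, pa (sP n) (mP h) P k i * hs i (d * (k + 1)) : ℚ) : ℝ))) := by
    intro d hd
    have h3 := h1 n h d P (by omega) hh (Finset.mem_Icc.1 hd).1 hdeg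
    refine h3.congr_fun ?_ |> fun h => h
    intro u
    exact (rm_term n h k d u).symm
  refine ⟨fun d hd => (hS d hd).summable, ?_⟩
  have h4 : ∑ d ∈ Finset.Icc 1 B, (w d : ℝ) * ∑' u : ℕ,
      Rv n h (((u : ℝ) + d + 1) / d) * yv n (((u : ℝ) + d + 1) / d) ^ k =
      ∑ d ∈ Finset.Icc 1 B, (w d : ℝ) * ∑ i ∈ Finset.Icc 1 (2 * h),
        (((rhoP n h P i * (d : ℚ) ^ i : ℚ) : ℝ) * (if 2 ≤ i then zr i else 0) -
      (((d : ℚ) ^ i * ∑ k ∈ sP n, pa (sP n) (mP h) P k i * hs i (d * (k + 1)) : ℚ) : ℝ)) := by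
    apply Finset.sum_congr rfl
    intro d hd
    rw [(hS d hd).tsum_eq]
  rw [h4]
  unfold mo La
  rw [← hP]
  simp_rw [Finset.mul_sum]
  rw [Finset.sum_comm]
  apply Finset.sum_congr rfl
  intro i hi
  obtain ⟨hi1, hi2⟩ := Finset.mem_Icc.1 hi
  have h5 : ((rhoP n h P i : ℚ) : ℝ) * zz i = ((rhoP n h P i : ℚ) : ℝ) * (if 2 ≤ i then zr i else 0) := by
    rcases Nat.even_or_odd i with he | ho
    · rw [hP, h2 n h (X ^ k) i (by omega) he hi1]
      simp
    · unfold zz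
      by_cases h6 : 3 ≤ i
      · rw [if_pos ⟨ho, h6⟩, if_pos (by omega)]
      · have : i = 1 := by
          obtain ⟨j, hj⟩ := ho
          omega
        subst this
        simp
  simp only [eq_ratCast]
  have h6 : ((rhoP n h P i * (WW B w i : ℚ) : ℚ) : ℝ) * zz i =
      ∑ d ∈ Finset.Icc 1 B, (w d : ℝ) * (((rhoP n h P i * (d : ℚ) ^ i : ℚ) : ℝ) *
        (if 2 ≤ i then zr i else 0)) := by
    unfold WW
    push_cast
    rw [mul_assoc, mul_comm (∑ d ∈ Finset.Icc 1 B, (w d : ℝ) * (d : ℝ) ^ i) (zz i), ← mul_assoc, h5,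
      Finset.mul_sum]
    apply Finset.sum_congr rfl
    intro d _
    ring
  have h7 : ((betP n h B w P i : ℚ) : ℝ) = ∑ d ∈ Finset.Icc 1 B, (w d : ℝ) *
      (((d : ℚ) ^ i * ∑ k ∈ sP n, pa (sP n) (mP h) P k i * hs i (d * (k + 1)) : ℚ) : ℝ) := by
    unfold betP
    push_cast
    apply Finset.sum_congr rfl
    intro d _
    ring
  rw [h6, h7, ← Finset.sum_sub_distrib]
  apply Finset.sum_congr rfl
  intro d _
  rw [← Finset.mul_sum, mul_sub]

end

end Pool.Agent.W165.OZ
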