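import Pool.Agent.W165.OZ.Stm

/-!
# Integrality at the primes `p > n`
-/

open Polynomial Pool.Agent.H337R2 Filter Topology

namespace Pool.Agent.W165.OZ

noncomputable section

namespace SFaux

/-- the subring of `p`-integral rational numbers -/
def Rp (p : ℕ) [hp : Fact p.Prime] : Subring ℚ where
  carrier := {x | padicNorm p x ≤ 1}
  mul_mem' := by
    intro a b ha hb
    simp only [Set.mem_ofPred_eq] at *
    rw [padicNorm.mul]
    exact mul_le_one₀ ha (padicNorm.nonneg _) hb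
  one_mem' := by simp
  add_mem' := by
    intro a b ha hb
    simp only [Set.mem_ofPred_eq] at *
    exact padicNorm.nonarchimedean.trans (max_le ha hb)
  zero_mem' := by simp
  neg_mem' := by
    intro a ha
    simp only [Set.mem_ofPred_eq] at *
    rwa [padicNorm.neg]

lemma mem_Rp {p : ℕ} [Fact p.Prime] {x : ℚ} : x ∈ Rp p ↔ padicNorm p x ≤ 1 := Iff.rfl

lemma int_mem {p : ℕ} [Fact p.Prime] (m : ℤ) : (m : ℚ) ∈ Rp p := padicNorm.of_int m

lemma nat_mem {p : ℕ} [Fact p.Prime] (m : ℕ) : (m : ℚ) ∈ Rp p := padicNorm.of_nat m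

/-- integrality of the coefficients of the numerator -/
lemma num_coeff {p : ℕ} [Fact p.Prime] (n k j : ℕ) :
    padicNorm p ((num n (X ^ k)).coeff j) ≤ 1 := by
  have h : num n (X ^ k) = Polynomial.map (Int.castRingHom ℚ)
      ((C 2 * X + C ((n : ℤ) - 1)) * (X * (X + C ((n : ℤ) - 1))) ^ k) := by
    unfold num yp
    simp only [Polynomial.X_pow_comp, Polynomial.map_mul, Polynomial.map_add, Polynomial.map_pow,
      Polynomial.map_X, Polynomial.map_C]
    simp
  rw [h, Polynomial.coeff_map]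
  exact padicNorm.of_int _

lemma num_eval (n k : ℕ) (t : ℚ) :
    (num n (X ^ k)).eval t = (2 * t + ((n : ℚ) - 1)) * ((yp n).eval t) ^ k := by
  unfold num
  simp

lemma num_natDegree (n k : ℕ) : (num n (X ^ k)).natDegree ≤ 1 + 2 * k := by
  unfold num
  rw [Polynomial.X_pow_comp]
  refine Polynomial.natDegree_mul_le.trans ?_
  refine add_le_add ?_ ?_
  · compute_degree
  · refine Polynomial.natDegree_pow_le.trans ?_
    have : (yp n).natDegree ≤ 2 := by
      unfold yp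
      compute_degree
    nlinarith

/-- the set of singular triples -/
def TT (n B p : ℕ) : Finset (Σ _ : ℕ, Σ _ : ℕ, ℕ) :=
  (Finset.Icc 1 B).sigma fun d => (Finset.range n).sigma fun k => Finset.Icc 1 (d * (k + 1) / p)

lemma TT_card (n B p : ℕ) : (TT n B p).card = Sp n B p := by
  unfold TT Sp
  simp [Finset.card_sigma]

lemma mem_TT {n B p : ℕ} {s : Σ _ : ℕ, Σ _ : ℕ, ℕ} (hs : s ∈ TT n B p) :
    1 ≤ s.1 ∧ s.1 ≤ B ∧ s.2.1 < n ∧ 1 ≤ s.2.2 ∧ s.2.2 ≤ s.1 * (s.2.1 + 1) / p := by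
  unfold TT at hs
  simp only [Finset.mem_sigma, Finset.mem_Icc, Finset.mem_range] at hs
  exact ⟨hs.1.1, hs.1.2, hs.2.1, hs.2.2.1, hs.2.2.2⟩

/-- the node of a triple -/
def tt (p : ℕ) (s : Σ _ : ℕ, Σ _ : ℕ, ℕ) : ℚ := ((p * s.2.2 : ℕ) : ℚ) / s.1 - s.2.1

/-- the denominator -/
def dd (n h : ℕ) (t : ℚ) : ℚ := (∏ k' ∈ Finset.range n, (t + (k' : ℚ))) ^ (2 * h)

/-- the rational part is `p`-integral up to the singular part -/
lemma key (h2 : S_PJ) (h3 : S_HJ) (h4 : S_PO) (p : ℕ) [Fact p.Prime] (n h B : ℕ) (w : ℕ → ℤ)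
    (hn : n < p) (hB : B ≤ n) (P : ℚ[X]) (hP : ∀ j, padicNorm p (P.coeff j) ≤ 1)
    (hdeg : P.natDegree < 2 * h * n) :
    (∑ i ∈ Finset.Icc 1 (2 * h), betP n h B w P i)
      - ∑ s ∈ TT n B p, (w s.1 : ℚ) * (P.eval (tt p s) / dd n h (tt p s)) ∈ Rp p := by
  have hp0 : 0 < p := lt_of_le_of_lt (Nat.zero_le _) hn
  have e1 : (∑ i ∈ Finset.Icc 1 (2 * h), betP n h B w P i)
      = ∑ d ∈ Finset.Icc 1 B, ∑ k ∈ Finset.range n, (w d : ℚ) *
        ∑ i ∈ Finset.Icc 1 (2 * h), (d : ℚ) ^ i * pa (sP n) (mP h) P k i * hs i (d * (k + 1)) := by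
    unfold betP
    rw [Finset.sum_comm]
    apply Finset.sum_congr rfl
    intro d _
    simp only [Finset.mul_sum]
    rw [Finset.sum_comm]
    apply Finset.sum_congr rfl
    intro k _
    apply Finset.sum_congr rfl
    intro i _
    ring
  have e2 : ∑ s ∈ TT n B p, (w s.1 : ℚ) * (P.eval (tt p s) / dd n h (tt p s))
      = ∑ d ∈ Finset.Icc 1 B, ∑ k ∈ Finset.range n, ∑ v ∈ Finset.Icc 1 (d * (k + 1) / p),
        (w d : ℚ) * (P.eval (((p * v : ℕ) : ℚ) / d - k) / dd n h (((p * v : ℕ) : ℚ) / d - k)) := by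
    unfold TT
    rw [Finset.sum_sigma]
    apply Finset.sum_congr rfl
    intro d _
    rw [Finset.sum_sigma]
    rfl
  rw [e1, e2, ← Finset.sum_sub_distrib]
  apply Subring.sum_mem
  intro d hd
  rw [Finset.mem_Icc] at hd
  rw [← Finset.sum_sub_distrib]
  apply Subring.sum_mem
  intro k hk
  rw [Finset.mem_range] at hk
  have e3 : (w d : ℚ) *
        ∑ i ∈ Finset.Icc 1 (2 * h), (d : ℚ) ^ i * pa (sP n) (mP h) P k i * hs i (d * (k + 1))
      - ∑ v ∈ Finset.Icc 1 (d * (k + 1) / p),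
        (w d : ℚ) * (P.eval (((p * v : ℕ) : ℚ) / d - k) / dd n h (((p * v : ℕ) : ℚ) / d - k))
      = (w d : ℚ) * ((∑ i ∈ Finset.Icc 1 (2 * h), (d : ℚ) ^ i * pa (sP n) (mP h) P k i *
          (hs i (d * (k + 1)) - ∑ v ∈ Finset.Icc 1 (d * (k + 1) / p), 1 / ((p * v : ℕ) : ℚ) ^ i))
        + ∑ v ∈ Finset.Icc 1 (d * (k + 1) / p),
          ((∑ i ∈ Finset.Icc 1 (2 * h), pa (sP n) (mP h) P k i * ((d : ℚ) / ((p * v : ℕ) : ℚ)) ^ i) -
            P.eval (((p * v : ℕ) : ℚ) / d - k) / dd n h (((p * v : ℕ) : ℚ) / d - k))) := by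
    rw [Finset.sum_sub_distrib, ← Finset.mul_sum]
    have e4 : ∑ v ∈ Finset.Icc 1 (d * (k + 1) / p),
        ∑ i ∈ Finset.Icc 1 (2 * h), pa (sP n) (mP h) P k i * ((d : ℚ) / ((p * v : ℕ) : ℚ)) ^ i
        = ∑ i ∈ Finset.Icc 1 (2 * h), (d : ℚ) ^ i * pa (sP n) (mP h) P k i *
          ∑ v ∈ Finset.Icc 1 (d * (k + 1) / p), 1 / ((p * v : ℕ) : ℚ) ^ i := by
      rw [Finset.sum_comm]
      apply Finset.sum_congr rfl
      intro i _
      rw [Finset.mul_sum]
      apply Finset.sum_congr rfl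
      intro v _
      rw [div_pow]
      ring
    rw [e4]
    simp only [mul_sub, Finset.sum_sub_distrib]
    ring
  rw [e3]
  apply Subring.mul_mem _ (int_mem _)
  apply Subring.add_mem
  · apply Subring.sum_mem
    intro i _
    apply Subring.mul_mem
    · apply Subring.mul_mem
      · exact Subring.pow_mem _ (nat_mem d) _
      · exact h2 p n h hn.le P hP k i hk
    · exact h3 p n B d k i hn hB hd.1 hd.2 hk
  · apply Subring.sum_mem
    intro v hv
    rw [Finset.mem_Icc] at hv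
    exact (h4 p n h B hn hB P hP hdeg d k v hd.1 hd.2 hk hv.1
      (by rw [mul_comm]; exact (Nat.le_div_iff_mul_le hp0).mp hv.2)).1

end SFaux

open SFaux in
theorem t_sf (h1 : S_LA) (h2 : S_PJ) (h3 : S_HJ) (h4 : S_PO) : S_SF := by
  intro A _ _ p _ S hS n h B w z q hz hn hh hB hBn hnp r hr
  have hp0 : 0 < p := lt_of_le_of_lt (Nat.zero_le _) hnp
  have hSR : ∀ x ∈ Rp p, algebraMap ℚ A x ∈ S := fun x hx => hS x hx
  -- the facts on the nodes
  have hnode : ∀ s ∈ TT n B p, (((p : ℚ) ^ (2 * h)) / dd n h (tt p s)) ∈ Rp p ∧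
      (yp n).eval (tt p s) ∈ Rp p ∧ 2 * tt p s + ((n : ℚ) - 1) ∈ Rp p := by
    intro s hs
    obtain ⟨a1, a2, a3, a4, a5⟩ := mem_TT hs
    have := h4 p n h B hnp hBn 0 (by simp) (by
      rw [Polynomial.natDegree_zero]; positivity) s.1 s.2.1 s.2.2 a1 a2 a3 a4
      (by rw [mul_comm]; exact (Nat.le_div_iff_mul_le hp0).mp a5)
    exact ⟨this.2.1, this.2.2.1, this.2.2.2⟩
  let lam : TT n B p → A := fun s =>
    algebraMap ℚ A (-((q : ℚ) * (w s.1.1) * ((2 * tt p s.1 + ((n : ℚ) - 1)) / dd n h (tt p s.1))))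
  let v : TT n B p → Fin r → A := fun s i => algebraMap ℚ A (((yp n).eval (tt p s.1)) ^ (i : ℕ))
  let G : Matrix (Fin r) (Fin r) A := Matrix.of fun i j =>
    (q : A) * mo n h B w z (i.1 + j.1) - ∑ s, lam s * v s i * v s j
  have hLA := h1 A S (algebraMap ℚ A ((p : ℚ) ^ (2 * h))) r (TT n B p) G lam v
    (hSR _ (Subring.pow_mem _ (nat_mem p) _)) ?_ ?_ ?_
  · have e1 : G + Matrix.of (fun i j => ∑ s, lam s * v s i * v s j)
        = (q : A) • Matrix.of (fun i j : Fin r => mo n h B w z (i.1 + j.1)) := by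
      ext i j
      simp [G]
    rw [e1, Matrix.det_smul, Fintype.card_fin, Fintype.card_coe, TT_card] at hLA
    have e2 : algebraMap ℚ A ((q : ℚ) ^ r * (p : ℚ) ^ (2 * h * Sp n B p)) * DH (mo n h B w z) r
        = algebraMap ℚ A ((p : ℚ) ^ (2 * h)) ^ Sp n B p * ((q : A) ^ r *
          Matrix.det (Matrix.of fun i j : Fin r => mo n h B w z (i.1 + j.1))) := by
      unfold DH
      rw [map_mul, map_pow, map_natCast, pow_mul, map_pow]
      ring
    rw [e2]
    exact hLA
  · intro i j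
    set k := i.1 + j.1 with hk
    have hdeg : (num n (X ^ k)).natDegree < 2 * h * n := by
      have := num_natDegree n k
      have := i.2
      have := j.2
      nlinarith
    have hP : ∀ j, padicNorm p ((num n (X ^ k)).coeff j) ≤ 1 := fun j => num_coeff n k j
    have hkey := key h2 h3 h4 p n h B w hnp hBn (num n (X ^ k)) hP hdeg
    have e1 : G i j = (∑ ι ∈ Finset.Icc 1 (2 * h),
        algebraMap ℚ A (rhoP n h (num n (X ^ k)) ι * WW B w ι) * ((q : A) * z ι))
        - algebraMap ℚ A ((q : ℚ) * ((∑ ι ∈ Finset.Icc 1 (2 * h), betP n h B w (num n (X ^ k)) ι)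
          - ∑ s ∈ TT n B p, (w s.1 : ℚ) * ((num n (X ^ k)).eval (tt p s) / dd n h (tt p s)))) := by
      have e2 : ∑ s, lam s * v s i * v s j = - algebraMap ℚ A ((q : ℚ) *
          ∑ s ∈ TT n B p, (w s.1 : ℚ) * ((num n (X ^ k)).eval (tt p s) / dd n h (tt p s))) := by
        rw [Finset.mul_sum, map_sum, ← Finset.sum_neg_distrib]
        refine Eq.trans ?_ (Finset.sum_coe_sort (TT n B p) (fun x => -(algebraMap ℚ A)
          ((q : ℚ) * ((w x.1 : ℚ) * ((num n (X ^ k)).eval (tt p x) / dd n h (tt p x))))))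
        apply Finset.sum_congr rfl
        intro s _
        simp only [lam, v]
        rw [← map_mul, ← map_mul, ← map_neg, num_eval]
        congr 1
        rw [hk, pow_add]
        ring
      have e3 : (q : A) * mo n h B w z k = (∑ ι ∈ Finset.Icc 1 (2 * h),
          algebraMap ℚ A (rhoP n h (num n (X ^ k)) ι * WW B w ι) * ((q : A) * z ι))
          - algebraMap ℚ A ((q : ℚ) * ∑ ι ∈ Finset.Icc 1 (2 * h), betP n h B w (num n (X ^ k)) ι) := by
        unfold mo La
        rw [Finset.sum_sub_distrib, mul_sub, Finset.mul_sum, map_mul (algebraMap ℚ A) (q : ℚ),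
          map_sum, map_natCast]
        congr 1
        apply Finset.sum_congr rfl
        intro ι _
        ring
      simp only [G, Matrix.of_apply]
      rw [e2, e3, mul_sub, map_sub]
      ring
    rw [e1]
    apply Subring.sub_mem
    · apply Subring.sum_mem
      intro ι _
      apply Subring.mul_mem _ _ (hz ι)
      apply hSR
      apply Subring.mul_mem
      · unfold rhoP
        apply Subring.sum_mem
        intro k' hk'
        exact h2 p n h hnp.le _ hP k' ι (Finset.mem_range.mp hk')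
      · exact int_mem _
    · apply hSR
      exact Subring.mul_mem _ (nat_mem q) hkey
  · intro s
    obtain ⟨a1, a2, a3⟩ := hnode s.1 s.2
    simp only [lam]
    rw [← map_mul]
    apply hSR
    have e : (p : ℚ) ^ (2 * h) * -((q : ℚ) * (w s.1.1) * ((2 * tt p s.1 + ((n : ℚ) - 1)) / dd n h (tt p s.1)))
        = -((q : ℚ) * (w s.1.1) * (2 * tt p s.1 + ((n : ℚ) - 1)) *
          (((p : ℚ) ^ (2 * h)) / dd n h (tt p s.1))) := by ring
    rw [e]
    exact Subring.neg_mem _ (Subring.mul_mem _ (Subring.mul_mem _ (Subring.mul_mem _ (nat_mem q)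
      (int_mem _)) a3) a1)
  · intro s i
    obtain ⟨a1, a2, a3⟩ := hnode s.1 s.2
    simp only [v]
    exact hSR _ (Subring.pow_mem _ a2 _)

end

end Pool.Agent.W165.OZ
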