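import Pool.Agent.W165.OZ.Stm

/-!
# Many irrational odd zeta values: the size of one row
-/

open Polynomial Pool.Agent.H337R2 Filter Topology

namespace Pool.Agent.W165.OZ

lemma si_fact_le (n : ℕ) (hn : 1 ≤ n) :
    Real.log (n.factorial : ℝ) ≤ n * Real.log n - n + Real.log n + 1 := by
  induction n, hn using Nat.le_induction with
  | base => simp
  | succ n hn ih =>
    have hn' : (0 : ℝ) < n := by exact_mod_cast hn
    rw [Nat.factorial_succ]
    push_cast
    rw [Real.log_mul (by positivity) (by positivity)]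
    have h1 : Real.log ((n : ℝ) / (n + 1)) ≤ (n : ℝ) / (n + 1) - 1 :=
      Real.log_le_sub_one_of_pos (by positivity)
    rw [Real.log_div (by positivity) (by positivity)] at h1
    have h2 : (n : ℝ) / (n + 1) - 1 = -(1 / (n + 1)) := by
      field_simp
      ring
    rw [h2] at h1
    have h3 : ((n : ℝ) + 1) * (Real.log n - Real.log (n + 1)) ≤ -1 := by
      have := mul_le_mul_of_nonneg_left h1 (by positivity : (0 : ℝ) ≤ (n : ℝ) + 1)
      refine this.trans (le_of_eq ?_)
      field_simp
    linarith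

lemma si_fact_ge (k : ℕ) : (k : ℝ) * Real.log k - k ≤ Real.log (k.factorial : ℝ) := by
  rcases Nat.eq_zero_or_pos k with h | h
  · subst h
    simp
  · have hk : (0 : ℝ) < k := by exact_mod_cast h
    have h1 := Real.pow_div_factorial_le_exp (k : ℝ) hk.le k
    have h2 := Real.log_le_log (by positivity) h1
    rw [Real.log_exp, Real.log_div (by positivity) (by positivity), Real.log_pow] at h2
    linarith

lemma si_Dl_pos (n B : ℕ) : 0 < Dl n B := by
  unfold Dl
  refine Finset.prod_pos fun p hp => ?_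
  exact pow_pos (Finset.mem_filter.1 hp).2.pos _

lemma si_aux (n x : ℝ) (hn : 0 < n) (hx : 0 ≤ x) : x * (Real.log n - Real.log x + 1) ≤ n := by
  rcases hx.eq_or_lt with h | h
  · rw [← h, zero_mul]
    exact hn.le
  · rw [← Real.log_div hn.ne' h.ne']
    have h1 := Real.log_le_sub_one_of_pos (div_pos hn h)
    calc x * (Real.log (n / x) + 1) ≤ x * (n / x) :=
          mul_le_mul_of_nonneg_left (by linarith) h.le
      _ = n := by field_simp

theorem t_si (h1 : S_DL) : S_SI := by
  intro n h B i hn he hh hB hi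
  obtain ⟨m, hm⟩ := he
  have hm1 : 1 ≤ m := by omega
  have hnm : n / 2 = m := by omega
  have hDL := h1 n B (by omega) hB
  have hn' : (2 : ℝ) ≤ n := by exact_mod_cast hn
  have hB' : (1 : ℝ) ≤ B := by exact_mod_cast hB
  set l := i / m with hl
  set j := i % m with hj
  have hij : i = m * l + j := (Nat.div_add_mod i m).symm
  have hlh : l < h := by
    rw [hl, Nat.div_lt_iff_lt_mul hm1]
    rw [hm] at hi
    nlinarith
  have hDpos : (0 : ℝ) < (Dl n B : ℝ) := by exact_mod_cast si_Dl_pos n B
  have hfpos : (0 : ℝ) < (n.factorial : ℝ) := by positivity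
  have hgpos : (0 : ℝ) < ((2 * j).factorial : ℝ) := by positivity
  -- the logarithm of the scaling factor
  have e1 : Real.log (sc n h B i : ℝ) = ((h - l : ℕ) : ℝ) * Real.log (n.factorial : ℝ) +
      ((h - l + 2 : ℕ) : ℝ) * Real.log (Dl n B : ℝ) - Real.log ((2 * j).factorial : ℝ) := by
    unfold sc
    rw [hnm, ← hl, ← hj]
    push_cast
    rw [Real.log_div (by positivity) (by positivity), Real.log_mul (by positivity) (by positivity),
      Real.log_pow, Real.log_pow]
    push_cast
    ring
  rw [e1]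
  have ecast : ((h - l : ℕ) : ℝ) = (h : ℝ) - l := by
    rw [Nat.cast_sub hlh.le]
  have ecast2 : ((h - l + 2 : ℕ) : ℝ) = (h : ℝ) - l + 2 := by
    push_cast
    rw [ecast]
  rw [ecast, ecast2]
  have hlh' : (l : ℝ) < h := by exact_mod_cast hlh
  have hl0 : (0 : ℝ) ≤ l := Nat.cast_nonneg l
  have hnm' : (n : ℝ) = 2 * m := by
    rw [hm]
    push_cast
    ring
  have hi' : (i : ℝ) = m * l + j := by
    rw [hij]
    push_cast
    ring
  -- the bounds
  have b1 := mul_le_mul_of_nonneg_left (si_fact_le n (by omega))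
    (by linarith : (0 : ℝ) ≤ 2 * ((h : ℝ) - l))
  have b2 := si_fact_ge (2 * j)
  push_cast at b2
  have b3 := si_aux n (2 * j) (by linarith) (by positivity)
  set U : ℝ := n * Real.log 4 + Real.sqrt ((B : ℝ) * n) * Real.log ((B : ℝ) * n) with hU
  have hBn : (1 : ℝ) ≤ (B : ℝ) * n := by nlinarith
  have hlog4 : Real.log 4 ≤ 1.39 := by
    have : Real.log 4 = 2 * Real.log 2 := by
      rw [show (4 : ℝ) = 2 ^ 2 by norm_num, Real.log_pow]
      norm_num
    rw [this]
    have := Real.log_two_lt_d9
    linarith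
  have hlog40 : 0 ≤ Real.log 4 := Real.log_nonneg (by norm_num)
  have hU2 : 0 ≤ Real.sqrt ((B : ℝ) * n) * Real.log ((B : ℝ) * n) :=
    mul_nonneg (Real.sqrt_nonneg _) (Real.log_nonneg hBn)
  have hU0 : 0 ≤ U := by
    have : 0 ≤ (n : ℝ) * Real.log 4 := by positivity
    linarith
  have b4 := mul_le_mul_of_nonneg_left hDL (by linarith : (0 : ℝ) ≤ 2 * ((h : ℝ) - l + 2))
  have b5 : 2 * ((h : ℝ) - l + 2) * U ≤ (2 * h + 4) * U := by
    refine mul_le_mul_of_nonneg_right ?_ hU0
    linarith
  have b6 : (2 * (h : ℝ) + 4) * U ≤ (2 * h + 4) * (1.39 * n) + (2 * h + 4) *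
      (Real.sqrt ((B : ℝ) * n) * Real.log ((B : ℝ) * n)) := by
    rw [← mul_add]
    refine mul_le_mul_of_nonneg_left ?_ (by positivity)
    rw [hU]
    have : (n : ℝ) * Real.log 4 ≤ n * 1.39 := mul_le_mul_of_nonneg_left hlog4 (by linarith)
    linarith
  have hlogn : 0 ≤ Real.log n := Real.log_nonneg (by linarith)
  have b7 : 2 * ((h : ℝ) - l) * (-n + Real.log n + 1) ≤ (2 * h + 4) * (Real.log n + 1) := by
    have c1 : 2 * ((h : ℝ) - l) * (-n + Real.log n + 1) ≤
        2 * ((h : ℝ) - l) * (Real.log n + 1) :=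
      mul_le_mul_of_nonneg_left (by linarith) (by linarith)
    have c2 : 2 * ((h : ℝ) - l) * (Real.log n + 1) ≤ (2 * h + 4) * (Real.log n + 1) :=
      mul_le_mul_of_nonneg_right (by linarith) (by linarith)
    exact c1.trans c2
  have e2 : 2 * ((h : ℝ) - l) * (n * Real.log n - n + Real.log n + 1) =
      (2 * h * n - 4 * i) * Real.log n + 4 * j * Real.log n +
        2 * ((h : ℝ) - l) * (-n + Real.log n + 1) := by
    rw [hi']
    have : (m : ℝ) = n / 2 := by linarith
    rw [this]
    ring
  have hhn : (0 : ℝ) ≤ h * n := by positivity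
  nlinarith

end Pool.Agent.W165.OZ
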