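import Pool.Agent.W165.OZ.Stm

set_option autoImplicit false

/-!
# Many irrational odd zeta values: the tail bound
-/

open Filter Topology

namespace Pool.Agent.W165.OZ

namespace TB

theorem prod_ge (n : ℕ) (t : ℝ) (ht : 0 < t) :
    yv n t ^ n ≤ (∏ k ∈ Finset.range n, (t + (k : ℝ))) ^ 2 := by
  rcases Nat.eq_zero_or_pos n with rfl | hn
  · simp
  have hn1 : (1 : ℝ) ≤ (n : ℝ) := by exact_mod_cast hn
  have hy : 0 ≤ yv n t := by
    unfold yv
    have : 0 ≤ t + ((n : ℝ) - 1) := by linarith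
    positivity
  have h1 : (∏ k ∈ Finset.range n, (t + (k : ℝ))) ^ 2 =
      ∏ k ∈ Finset.range n, ((t + (k : ℝ)) * (t + ((n - 1 - k : ℕ) : ℝ))) := by
    rw [Finset.prod_mul_distrib, Finset.prod_range_reflect (fun k : ℕ => t + (k : ℝ)) n, sq]
  have h2 : yv n t ^ n = ∏ _k ∈ Finset.range n, yv n t := by
    rw [Finset.prod_const, Finset.card_range]
  rw [h1, h2]
  refine Finset.prod_le_prod (fun _ _ => hy) fun k hk => ?_
  rw [Finset.mem_range] at hk
  have h3 : ((n - 1 - k : ℕ) : ℝ) = (n : ℝ) - 1 - k := by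
    rw [Nat.sub_sub, Nat.cast_sub (by omega)]
    push_cast; ring
  have h4 : (k : ℝ) + 1 ≤ n := by exact_mod_cast hk
  have h5 : (0 : ℝ) ≤ k := Nat.cast_nonneg k
  rw [h3]
  unfold yv
  nlinarith [mul_nonneg h5 (sub_nonneg.2 h4)]

theorem R_bound (n h k : ℕ) (hn : 1 ≤ n) (hk : k + 2 ≤ h * n) (t m : ℝ) (hm : 1 ≤ m) (hmt : m ≤ t) :
    0 ≤ Rv n h t * yv n t ^ k ∧
    Rv n h t * yv n t ^ k ≤ 2 / t ^ 2 * (m ^ (2 * (h * n - 2 - k)))⁻¹ := by
  have ht1 : 1 ≤ t := hm.trans hmt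
  have ht : 0 < t := by linarith
  have hn1 : (1 : ℝ) ≤ (n : ℝ) := by exact_mod_cast hn
  have hq : t ≤ t + ((n : ℝ) - 1) := by linarith
  have hy2 : t ^ 2 ≤ yv n t := by
    unfold yv
    nlinarith
  have hy : 0 < yv n t := lt_of_lt_of_le (by positivity) hy2
  set P := ∏ k ∈ Finset.range n, (t + (k : ℝ)) with hP
  have hP0 : 0 < P := Finset.prod_pos fun i _ => by positivity
  have hPy : yv n t ^ (h * n) ≤ P ^ (2 * h) := by
    rw [mul_comm h n, pow_mul, pow_mul]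
    exact pow_le_pow_left₀ (by positivity) (prod_ge n t ht) h
  have hnum : 0 ≤ 2 * t + ((n : ℝ) - 1) := by linarith
  refine ⟨?_, ?_⟩
  · unfold Rv
    rw [← hP]
    positivity
  · unfold Rv
    rw [← hP]
    have e1 : h * n = (h * n - 2 - k) + k + 2 := by omega
    set e := h * n - 2 - k with he
    have hme : 0 < m ^ (2 * e) := by positivity
    have h1 : (2 * t + ((n : ℝ) - 1)) / P ^ (2 * h) * yv n t ^ k ≤
        (2 * t + ((n : ℝ) - 1)) / yv n t ^ (h * n) * yv n t ^ k := by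
      apply mul_le_mul_of_nonneg_right _ (by positivity)
      exact div_le_div_of_nonneg_left hnum (by positivity) hPy
    have h2 : (2 * t + ((n : ℝ) - 1)) / yv n t ^ (h * n) * yv n t ^ k =
        (2 * t + ((n : ℝ) - 1)) / yv n t ^ 2 * (yv n t ^ e)⁻¹ := by
      rw [e1, pow_add, pow_add]
      field_simp
    have h3 : (2 * t + ((n : ℝ) - 1)) / yv n t ^ 2 ≤ 2 / t ^ 2 := by
      rw [div_le_div_iff₀ (by positivity) (by positivity)]
      have h4 : 2 * t + ((n : ℝ) - 1) ≤ 2 * (t + ((n : ℝ) - 1)) := by linarith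
      have h5 : yv n t ^ 2 = t ^ 2 * (t + ((n : ℝ) - 1)) ^ 2 := by unfold yv; ring
      rw [h5]
      have h6 : (1 : ℝ) ≤ t + ((n : ℝ) - 1) := by linarith
      have h7 : t + ((n : ℝ) - 1) ≤ (t + ((n : ℝ) - 1)) ^ 2 := by nlinarith
      calc (2 * t + ((n : ℝ) - 1)) * t ^ 2 ≤ (2 * (t + ((n : ℝ) - 1)) ^ 2) * t ^ 2 :=
            mul_le_mul_of_nonneg_right (by linarith) (by positivity)
        _ = _ := by ring
    have h8 : (yv n t ^ e)⁻¹ ≤ (m ^ (2 * e))⁻¹ := by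
      apply inv_anti₀ hme
      rw [pow_mul]
      refine pow_le_pow_left₀ (by positivity) ?_ e
      exact (pow_le_pow_left₀ (by linarith) hmt 2).trans hy2
    rw [h2] at h1
    exact h1.trans (mul_le_mul h3 h8 (by positivity) (by positivity))

end TB

theorem t_tb : S_TB := by
  intro N δ c1 c2 τ ω hN n h M k hn hh hk
  have hN0 : 0 < N := hN.hN
  have hNR : (0 : ℝ) < N := by exact_mod_cast hN0
  have hc2 : 0 ≤ c2 := (abs_nonneg _).trans (hN.whi 0)
  set m := MM N M with hm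
  have hm1 : 1 ≤ m := le_max_left _ _
  set D := (m ^ (2 * (h * n - 2 - k)))⁻¹ with hD
  have hD0 : 0 ≤ D := by positivity
  have hdiv : ∀ a : ℕ, ((a : ℝ) + 1) / N ≤ 1 + ((a / N : ℕ) : ℝ) := by
    intro a
    rw [div_le_iff₀ hNR]
    have h1 : a + 1 ≤ (1 + a / N) * N := by
      have h2 := Nat.div_add_mod a N
      have h3 := Nat.mod_lt a hN0
      nlinarith
    exact_mod_cast h1
  have hτ1 : ∀ i : ℕ, ((i : ℝ) + M + 1) / N ≤ τ (i + M) := by
    intro i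
    have h1 := hdiv (i + M)
    push_cast at h1
    exact h1.trans (hN.lo (i + M)).le
  have hτ2 : ∀ i : ℕ, m ≤ τ (i + M) := by
    intro i
    refine max_le ?_ ?_
    · have h1 := hN.lo (i + M)
      have h2 : (0 : ℝ) ≤ (((i + M) / N : ℕ) : ℝ) := Nat.cast_nonneg _
      linarith
    · refine le_trans ?_ (hτ1 i)
      apply div_le_div_of_nonneg_right _ hNR.le
      have : (0 : ℝ) ≤ i := Nat.cast_nonneg i
      linarith
  have hterm : ∀ i : ℕ, 0 ≤ |ω (i + M)| * (Rv n h (τ (i + M)) * yv n (τ (i + M)) ^ k) ∧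
      |ω (i + M)| * (Rv n h (τ (i + M)) * yv n (τ (i + M)) ^ k) ≤
      (2 * (N : ℝ) ^ 2 * c2 * D) * (1 / ((i : ℝ) + 1) ^ 2) := by
    intro i
    obtain ⟨r1, r2⟩ := TB.R_bound n h k hn hk (τ (i + M)) m hm1 (hτ2 i)
    refine ⟨mul_nonneg (abs_nonneg _) r1, ?_⟩
    have hi : (0 : ℝ) ≤ i := Nat.cast_nonneg i
    have hM : (0 : ℝ) ≤ M := Nat.cast_nonneg M
    have h1 : ((i : ℝ) + 1) / N ≤ τ (i + M) := by
      refine le_trans ?_ (hτ1 i)
      apply div_le_div_of_nonneg_right _ hNR.le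
      linarith
    have h2 : 0 < ((i : ℝ) + 1) / N := by positivity
    have h3 : 2 / τ (i + M) ^ 2 ≤ 2 * (N : ℝ) ^ 2 * (1 / ((i : ℝ) + 1) ^ 2) := by
      have h4 : (((i : ℝ) + 1) / N) ^ 2 ≤ τ (i + M) ^ 2 := pow_le_pow_left₀ h2.le h1 2
      calc 2 / τ (i + M) ^ 2 ≤ 2 / (((i : ℝ) + 1) / N) ^ 2 :=
            div_le_div_of_nonneg_left (by norm_num) (by positivity) h4
        _ = 2 * (N : ℝ) ^ 2 * (1 / ((i : ℝ) + 1) ^ 2) := by field_simp
    calc |ω (i + M)| * (Rv n h (τ (i + M)) * yv n (τ (i + M)) ^ k)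
        ≤ c2 * ((2 * (N : ℝ) ^ 2 * (1 / ((i : ℝ) + 1) ^ 2)) * D) :=
          mul_le_mul (hN.whi _) (r2.trans (mul_le_mul_of_nonneg_right h3 hD0)) r1 hc2
      _ = _ := by ring
  have hz : HasSum (fun i : ℕ => 1 / ((i : ℝ) + 1) ^ 2) (Real.pi ^ 2 / 6) := by
    have h1 := (hasSum_nat_add_iff' 1).2 hasSum_zeta_two
    simpa using h1
  have hz2 := hz.mul_left (2 * (N : ℝ) ^ 2 * c2 * D)
  have hs : Summable (fun i => |ω (i + M)| * (Rv n h (τ (i + M)) * yv n (τ (i + M)) ^ k)) :=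
    Summable.of_nonneg_of_le (fun i => (hterm i).1) (fun i => (hterm i).2) hz2.summable
  refine ⟨hs, ?_⟩
  have h1 := hs.tsum_le_tsum (fun i => (hterm i).2) hz2.summable
  rw [hz2.tsum_eq] at h1
  refine h1.trans ?_
  have hpi : Real.pi ^ 2 / 6 ≤ 2 := by
    have := Real.pi_lt_d2
    have := Real.pi_pos
    nlinarith
  calc 2 * (N : ℝ) ^ 2 * c2 * D * (Real.pi ^ 2 / 6) ≤ 2 * (N : ℝ) ^ 2 * c2 * D * 2 :=
        mul_le_mul_of_nonneg_left hpi (by positivity)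
    _ = 4 * (N : ℝ) ^ 2 * c2 * D := by ring

end Pool.Agent.W165.OZ
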