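import Pool.Agent.W165.OZ.Stm

/-!
# Many irrational odd zeta values: the weights
-/

set_option autoImplicit false

namespace Pool.Agent.W165.OZ

/-- WE -/
theorem t_we : S_WE := by
  intro B I hI
  obtain ⟨M, hM⟩ : ∃ M : Matrix I (Fin B) ℤ, ∀ i d, M i d = ((d : ℕ) + 1 : ℤ) ^ (i : ℕ) :=
    ⟨Matrix.of fun i d => ((d : ℕ) + 1 : ℤ) ^ (i : ℕ), fun _ _ => rfl⟩
  have hker : ∃ x : Fin B → ℤ, x ≠ 0 ∧ M.mulVec x = 0 := by
    by_contra hno
    push Not at hno
    have hinj : Function.Injective (Matrix.mulVecLin M) := by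
      rw [injective_iff_map_eq_zero]
      intro x hx
      by_contra h0
      exact hno x h0 hx
    have h1 := card_le_of_injective ℤ (Matrix.mulVecLin M) hinj
    rw [Fintype.card_fin, Fintype.card_coe] at h1
    omega
  obtain ⟨x, hx0, hx⟩ := hker
  obtain ⟨w, hw⟩ : ∃ w : ℕ → ℤ, ∀ k : Fin B, w ((k : ℕ) + 1) = x k :=
    ⟨fun d => if h : d - 1 < B then x ⟨d - 1, h⟩ else 0, fun k => by simp⟩
  refine ⟨w, ?_, fun i hi => ?_⟩
  · obtain ⟨k, hk⟩ := Function.ne_iff.1 hx0
    refine ⟨(k : ℕ) + 1, Finset.mem_Icc.2 ⟨by omega, by have := k.2; omega⟩, ?_⟩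
    rw [hw]
    exact hk
  · unfold WW
    have h1 : ∑ d ∈ Finset.Icc 1 B, w d * (d : ℤ) ^ i =
        ∑ k ∈ Finset.range B, w (k + 1) * ((k + 1 : ℕ) : ℤ) ^ i := by
      refine Finset.sum_nbij' (fun d => d - 1) (fun k => k + 1) ?_ ?_ ?_ ?_ ?_
      · intro d hd
        rw [Finset.mem_Icc] at hd
        rw [Finset.mem_range]
        omega
      · intro k hk
        rw [Finset.mem_range] at hk
        rw [Finset.mem_Icc]
        omega
      · intro d hd
        rw [Finset.mem_Icc] at hd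
        omega
      · intro k _
        simp
      · intro d hd
        rw [Finset.mem_Icc] at hd
        have e : d - 1 + 1 = d := by omega
        rw [e]
    rw [h1, Finset.sum_range]
    have h2 := congrFun hx ⟨i, hi⟩
    rw [Matrix.mulVec, dotProduct] at h2
    rw [← Pi.zero_apply (M := fun _ => ℤ) (⟨i, hi⟩ : I), ← h2]
    refine Finset.sum_congr rfl fun k _ => ?_
    rw [hw, hM]
    push_cast
    ring

end Pool.Agent.W165.OZ
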