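import Pool.Agent.W165.OZ.HK
import Pool.Agent.W165.OZ.BAS
import Pool.Agent.W165.OZ.LA
import Pool.Agent.W165.OZ.WE
import Pool.Agent.W940.OZ.NO
import Pool.Agent.W165.OZ.PF
import Pool.Agent.W165.OZ.DS
import Pool.Agent.W165.OZ.EV
import Pool.Agent.W165.OZ.RM
import Pool.Agent.W165.OZ.PI
import Pool.Agent.W165.OZ.TB
import Pool.Agent.W165.OZ.RL
import Pool.Agent.W165.OZ.CO
import Pool.Agent.W165.OZ.NU
import Pool.Agent.W165.OZ.NV
import Pool.Agent.W165.OZ.AR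
import Pool.Agent.W165.OZ.PA
import Pool.Agent.W165.OZ.HB
import Pool.Agent.W165.OZ.SE
import Pool.Agent.W165.OZ.PJ
import Pool.Agent.W165.OZ.HJ
import Pool.Agent.W165.OZ.PO
import Pool.Agent.W165.OZ.SF
import Pool.Agent.W165.OZ.PR
import Pool.Agent.W165.OZ.DL
import Pool.Agent.W165.OZ.PP
import Pool.Agent.W165.OZ.LS
import Pool.Agent.W165.OZ.SI
import Pool.Agent.W165.OZ.AS
import Pool.Agent.W165.OZ.FI
import Pool.Agent.W165.OZ.MA

/-!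
# Many irrational odd zeta values: assembly
-/

open Polynomial Pool.Agent.H337R2 Filter Topology

namespace Pool.Agent.W165.OZ

noncomputable section

theorem z_rm : S_RM := t_rm (t_ds t_pf) t_ev
theorem z_nv : S_NV := t_nv t_hk t_co t_tb t_rl t_pi t_nu
theorem z_ar : S_AR := t_ar t_bas t_tb
theorem z_se : S_SE := t_se t_bas t_pa t_hb
theorem z_sf : S_SF := t_sf t_la t_pj t_hj (t_po t_pf t_pj)
theorem z_pr : S_PR := t_pr z_se z_sf
theorem z_as : S_AS := t_as t_pp t_ls (t_si t_dl)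
theorem z_ma : S_MA := t_ma t_we Pool.Agent.W940.OZ.t_no z_rm z_nv z_ar z_pr z_as

/-- at least `c √(s loglog s / log s)` of the odd zeta values up to `ζ(s)` are irrational -/
theorem z_final : ∃ c : ℝ, 0 < c ∧ ∃ s0 : ℕ, ∀ s ≥ s0,
    c * Real.sqrt (s * Real.log (Real.log s) / Real.log s) ≤
      (Set.ncard {i : ℕ | 3 ≤ i ∧ i ≤ s ∧ Odd i ∧ Irrational (∑' n : ℕ, 1 / ((n : ℝ) + 1) ^ i)} : ℝ) := by
  obtain ⟨C1, hC1, hM⟩ := z_ma
  obtain ⟨c, hc, s0, hs⟩ := t_fi C1 hC1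
  refine ⟨c, hc, s0, fun s hs0 => ?_⟩
  obtain ⟨h, B, h1, h2, h3, h4, h5⟩ := hs s hs0
  obtain ⟨I, hI, hI2⟩ := hM h B h2 h3 h5
  refine h4.trans ?_
  have hfin : {i : ℕ | 3 ≤ i ∧ i ≤ s ∧ Odd i ∧ Irrational (∑' n : ℕ, 1 / ((n : ℝ) + 1) ^ i)}.Finite :=
    (Set.finite_Iic s).subset fun i hi => hi.2.1
  have hsub : (I : Set ℕ) ⊆ {i : ℕ | 3 ≤ i ∧ i ≤ s ∧ Odd i ∧ Irrational (∑' n : ℕ, 1 / ((n : ℝ) + 1) ^ i)} := by
    intro i hi
    obtain ⟨a1, a2, a3, a4⟩ := hI2 i hi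
    exact ⟨a1, a2.trans h1, a3, a4⟩
  have h6 := Set.ncard_le_ncard hsub hfin
  rw [Set.ncard_coe_finset] at h6
  exact_mod_cast hI.trans h6

end

end Pool.Agent.W165.OZ
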