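import Pool.Agent.W165.OZ.Stm2

/-!
# Odd zeta values outside number fields: the main inequality (part MB)
-/

open Polynomial Pool.Agent.H337R2 Filter Topology

namespace Pool.Agent.W165.OZ

theorem mb_DH_map {A A' : Type*} [CommRing A] [CommRing A'] (f : A →+* A') (μ : ℕ → A) (r : ℕ) :
    f (DH μ r) = DH (fun k => f (μ k)) r := by
  unfold DH
  rw [RingHom.map_det]
  rfl

theorem mb_mo_map {A A' : Type*} [CommRing A] [Algebra ℚ A] [CommRing A'] [Algebra ℚ A']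
    (f : A →ₐ[ℚ] A') (n h B : ℕ) (w : ℕ → ℤ) (z : ℕ → A) (k : ℕ) :
    f (mo n h B w z k) = mo n h B w (fun i => f (z i)) k := by
  unfold mo La
  rw [map_sum]
  refine Finset.sum_congr rfl fun i _ => ?_
  rw [map_sub, map_mul, AlgHom.commutes, AlgHom.commutes]

theorem mb_DHmo_map {A A' : Type*} [CommRing A] [Algebra ℚ A] [CommRing A'] [Algebra ℚ A']
    (f : A →ₐ[ℚ] A') (n h B : ℕ) (w : ℕ → ℤ) (z : ℕ → A) (r : ℕ) :
    f (DH (mo n h B w z) r) = DH (mo n h B w (fun i => f (z i))) r := by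
  have := mb_DH_map (f : A →+* A') (mo n h B w z) r
  rw [AlgHom.coe_toRingHom] at this
  rw [this]
  congr 1
  funext k
  exact mb_mo_map f n h B w z k

theorem mb_mo_eq (n h B : ℕ) (w : ℕ → ℤ) (I : Finset ℕ) (z : ℕ → ℝ)
    (hI : ∀ i ∈ I, WW B w i = 0)
    (hz1 : ∀ i, Odd i → 3 ≤ i → i ≤ 2 * h → i ∉ I → z i = zr i)
    (hz0 : ∀ i, ¬ (Odd i ∧ 3 ≤ i) → z i = 0) (k : ℕ) :
    mo (A := ℝ) n h B w zz k = mo (A := ℝ) n h B w z k := by
  unfold mo La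
  refine Finset.sum_congr rfl fun i hi => ?_
  rw [Finset.mem_Icc] at hi
  congr 1
  by_cases h1 : i ∈ I
  · rw [hI i h1]; simp
  · by_cases h2 : Odd i ∧ 3 ≤ i
    · rw [hz1 i h2.1 h2.2 hi.2 h1]
      unfold zz
      rw [if_pos h2]
    · rw [hz0 i h2]
      unfold zz
      rw [if_neg h2]

theorem mb_int {K : Type*} [Field K] [Algebra ℚ K] [FiniteDimensional ℚ K] (z : K) :
    ∃ a : ℕ, 1 ≤ a ∧ IsIntegral ℤ ((a : K) * z) := by
  have hcz : CharZero K := algebraRat.charZero K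
  have h1 : IsAlgebraic ℚ z := Algebra.IsAlgebraic.isAlgebraic z
  have h2 : IsAlgebraic ℤ z := (IsFractionRing.isAlgebraic_iff ℤ ℚ K).2 h1
  obtain ⟨y, hy, hyz⟩ := h2.exists_integral_multiple
  refine ⟨y.natAbs, Nat.one_le_iff_ne_zero.2 (Int.natAbs_ne_zero.2 hy), ?_⟩
  have h3 : ((y : K)) * z = y • z := by
    rw [zsmul_eq_mul]
  rcases Int.natAbs_eq y with h | h
  · have e : ((y.natAbs : ℕ) : K) = (y : K) := by
      conv_rhs => rw [h]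
      simp
    rw [e, h3]; exact hyz
  · have e : ((y.natAbs : ℕ) : K) = -(y : K) := by
      conv_rhs => rw [h]
      simp
    rw [e, neg_mul, h3]; exact hyz.neg

theorem mb_PPn_pos (n h B : ℕ) : 0 < PPn n h B := by
  unfold PPn
  refine Finset.prod_pos fun p hp => ?_
  rw [Finset.mem_filter] at hp
  exact pow_pos hp.2.1.pos _

theorem mb_num (C1 C2 X D : ℝ) (hC1 : 0 < C1) (hC2 : 0 < C2) (hX0 : 0 ≤ X) (hD1 : 1 ≤ D) :
    C1 * (1 + X) + D * (1 + 2 * X + C2) ≤ (C1 + C2 + 3) * D * (1 + X) := by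
  have k1 : C1 * (1 + X) ≤ C1 * D * (1 + X) := by
    apply mul_le_mul_of_nonneg_right _ (by positivity)
    nlinarith
  have k2 : D * (1 + 2 * X + C2) ≤ D * ((C2 + 3) * (1 + X)) := by
    apply mul_le_mul_of_nonneg_left _ (by linarith)
    nlinarith [mul_nonneg hC2.le hX0]
  nlinarith

/-- the size of the second factor -/
theorem mb_pp (h n B l X : ℝ) (hh : 0 < h) (hB : 0 ≤ B) (hl : 0 ≤ l)
    (hX : X = (B * (B + 1) / h) * (1 + l)) :
    h * Real.log 4 * (B * (B + 1)) * n ^ 2 * (1 + l) ≤ 2 * X * (h * n) ^ 2 := by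
  have g1 : Real.log 4 ≤ 2 := by
    have g2 : Real.log 4 = 2 * Real.log 2 := by
      rw [show (4 : ℝ) = 2 ^ 2 by norm_num, Real.log_pow]
      norm_num
    have g3 := Real.log_two_lt_d9
    rw [g2]; linarith
  have g4 : 2 * X * (h * n) ^ 2 = h * 2 * (B * (B + 1)) * n ^ 2 * (1 + l) := by
    rw [hX]
    field_simp
  rw [g4]
  have g5 : h * Real.log 4 ≤ h * 2 := mul_le_mul_of_nonneg_left g1 hh.le
  have g6 : h * Real.log 4 * (B * (B + 1)) ≤ h * 2 * (B * (B + 1)) :=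
    mul_le_mul_of_nonneg_right g5 (by positivity)
  have g7 : h * Real.log 4 * (B * (B + 1)) * n ^ 2 ≤ h * 2 * (B * (B + 1)) * n ^ 2 :=
    mul_le_mul_of_nonneg_right g6 (by positivity)
  exact mul_le_mul_of_nonneg_right g7 (by linarith)

theorem mb_core (h1 : S_WE) (h2 : S_NO) (h3 : S_RM) (h4 : S_NV) (h5 : S_AR) (h6 : S_PK)
    (C1 : ℝ) (hC1 : 0 < C1)
    (hAS : ∀ (N h B q : ℕ) (C : ℝ), 1 ≤ N → 1 ≤ h → 1 ≤ B → 1 ≤ q → 0 < C → 2 * N ≤ h →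
      ∃ n0 : ℕ, ∀ n ≥ n0, Even n → ∀ r : ℕ, h * n ≤ 16 * r → 2 * r ≤ h * n →
        Real.log (Arc N n h C r * ((q : ℝ) ^ r * (∏ i ∈ Finset.range r, (sc n h B i : ℝ) ^ 2) *
          (PPn n h B : ℝ))) ≤
        (C1 * (1 + ((B : ℝ) * (B + 1) / h) * (1 + Real.log B)) -
          (1 / 16) * Real.log ((h : ℝ) / (2 * N))) * ((h : ℝ) * n) ^ 2)
    (C2 : ℝ) (hC2 : 0 < C2)
    (hCD : ∀ (h B : ℕ) (w : ℕ → ℤ) (Z : ℝ), 1 ≤ h → 1 ≤ B →
      ∃ n0 : ℕ, ∀ n ≥ n0, Even n → ∀ z : ℕ → ℂ, (∀ i, ‖z i‖ ≤ Z) → ∀ r : ℕ, 2 * r ≤ h * n →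
        ‖algebraMap ℚ ℂ (∏ i ∈ Finset.range r, sc n h B i ^ 2) * DH (mo n h B w z) r‖ ≤
          Real.exp (C2 * ((h : ℝ) * n) ^ 2))
    (h9 : S_PP) (D h B : ℕ) (hD : 1 ≤ D) (hB : 1 ≤ B) (hBh : 16 * (B * (B + 1)) ≤ h)
    (hineq : (C1 + C2 + 3) * D * (1 + ((B : ℝ) * (B + 1) / h) * (1 + Real.log B)) <
      (1 / 16) * Real.log ((h : ℝ) / ((B : ℝ) * (B + 1))))
    (K : Type) [Field K] [Algebra ℚ K] [FiniteDimensional ℚ K] (φ : K →ₐ[ℚ] ℝ)
    (hfin : Module.finrank ℚ K ≤ D) :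
    ∃ I : Finset ℕ, B ≤ I.card ∧ ∀ i ∈ I, 3 ≤ i ∧ i ≤ 2 * h ∧ Odd i ∧ ∀ y : K, φ y ≠ zr i := by
  classical
  by_contra hcon
  obtain ⟨I, hIdef⟩ : ∃ I : Finset ℕ, I =
      (Finset.Icc 3 (2 * h)).filter (fun i => Odd i ∧ ∀ y : K, φ y ≠ zr i) := ⟨_, rfl⟩
  have hImem : ∀ i, i ∈ I ↔ (3 ≤ i ∧ i ≤ 2 * h) ∧ Odd i ∧ ∀ y : K, φ y ≠ zr i := by
    intro i
    rw [hIdef, Finset.mem_filter, Finset.mem_Icc]
  have hIcard : I.card < B := by
    by_contra hlt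
    rw [not_lt] at hlt
    refine hcon ⟨I, hlt, fun i hi => ?_⟩
    have := (hImem i).1 hi
    exact ⟨this.1.1, this.1.2, this.2.1, this.2.2⟩
  obtain ⟨w, hw, hWI⟩ := h1 B I hIcard
  obtain ⟨N, δ, c1, c2, τ, ω, hNod, h2N, hNO⟩ := h2 B w hw
  have hN := hNod.hN
  have hh : 1 ≤ h := by
    have : 1 * 2 ≤ B * (B + 1) := Nat.mul_le_mul hB (by omega)
    omega
  have h32 : 32 * N ≤ h := by omega
  have h2N' : 2 * N ≤ h := by omega
  have hc2 : 0 < c2 := lt_of_lt_of_le (lt_of_lt_of_le hNod.hc1 (hNod.wlo 0)) (hNod.whi 0)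
  -- values in the field
  have hval : ∀ i, ∃ y : K, (Odd i → 3 ≤ i → i ≤ 2 * h → i ∉ I → φ y = zr i) ∧
      (¬ (Odd i ∧ 3 ≤ i) → y = 0) ∧ (2 * h < i → y = 0) := by
    intro i
    by_cases hc : Odd i ∧ 3 ≤ i ∧ i ≤ 2 * h ∧ i ∉ I
    · have h8 : ¬ ∀ y : K, φ y ≠ zr i := by
        intro hirr
        exact hc.2.2.2 ((hImem i).2 ⟨⟨hc.2.1, hc.2.2.1⟩, hc.1, hirr⟩)
      push Not at h8
      obtain ⟨y, hy⟩ := h8
      exact ⟨y, fun _ _ _ _ => hy, fun hx => absurd ⟨hc.1, hc.2.1⟩ hx, fun hx => by omega⟩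
    · exact ⟨0, fun a b c d => absurd ⟨a, b, c, d⟩ hc, fun _ => rfl, fun _ => rfl⟩
  choose z hz1 hz0 hz2 using hval
  choose a ha1 ha2 using fun i => mb_int (z i)
  obtain ⟨q, hqdef⟩ : ∃ q : ℕ, q = ∏ i ∈ Finset.range (2 * h + 1), a i := ⟨_, rfl⟩
  have hq : 1 ≤ q := by
    rw [hqdef]
    refine Nat.one_le_iff_ne_zero.2 (Finset.prod_ne_zero_iff.2 fun i _ => ?_)
    have := ha1 i
    omega
  have hqz : ∀ i, IsIntegral ℤ ((q : K) * z i) := by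
    intro i
    by_cases hi : i ≤ 2 * h
    · have hd : a i ∣ q := by
        rw [hqdef]
        exact Finset.dvd_prod_of_mem _ (Finset.mem_range.2 (by omega))
      obtain ⟨e, he⟩ := hd
      have e1 : (q : K) * z i = ((e : ℕ) : K) * ((a i : K) * z i) := by
        rw [he]; push_cast; ring
      rw [e1]
      refine IsIntegral.mul ?_ (ha2 i)
      have : ((e : ℕ) : K) = algebraMap ℤ K (e : ℤ) := by simp
      rw [this]
      exact isIntegral_algebraMap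
    · rw [hz2 i (by omega), mul_zero]
      exact isIntegral_zero
  have hcast : ∀ n k, mo (A := ℝ) n h B w zz k = mo (A := ℝ) n h B w (fun i => φ (z i)) k :=
    fun n k => mb_mo_eq n h B w I (fun i => φ (z i)) hWI hz1
      (fun i hi => by rw [hz0 i hi, map_zero]) k
  have hMom : ∀ n, 2 ≤ n → Even n → Mom n h τ ω (mo (A := ℝ) n h B w zz) := by
    intro n hn2 hne k hk
    obtain ⟨hs, hv⟩ := h3 n h B w hn2 hne hh k hk
    have h8 := hNO (fun t => Rv n h t * yv n t ^ k) hs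
    rw [← hv] at h8
    exact h8
  obtain ⟨n0, hn0⟩ := h4 N δ c1 c2 τ ω hNod h h32
  have hC : 0 < 4 * (N : ℝ) ^ 2 * c2 := by
    have : (0 : ℝ) < N := by exact_mod_cast hN
    positivity
  obtain ⟨n1, hn1⟩ := hAS N h B q (4 * (N : ℝ) ^ 2 * c2) hN hh hB hq hC h2N'
  -- the bound for the conjugates of the values
  obtain ⟨Z, hZ⟩ : ∃ Z : ℝ, ∀ (σ : K →ₐ[ℚ] ℂ) (i : ℕ), ‖σ (z i)‖ ≤ Z := by
    refine ⟨∑ σ : K →ₐ[ℚ] ℂ, ∑ i ∈ Finset.range (2 * h + 1), ‖σ (z i)‖, fun σ i => ?_⟩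
    have hnn : 0 ≤ ∑ i ∈ Finset.range (2 * h + 1), ‖σ (z i)‖ :=
      Finset.sum_nonneg fun _ _ => norm_nonneg _
    have e1 : ∑ i ∈ Finset.range (2 * h + 1), ‖σ (z i)‖ ≤
        ∑ σ : K →ₐ[ℚ] ℂ, ∑ i ∈ Finset.range (2 * h + 1), ‖σ (z i)‖ :=
      Finset.single_le_sum (f := fun σ : K →ₐ[ℚ] ℂ => ∑ i ∈ Finset.range (2 * h + 1), ‖σ (z i)‖)
        (fun σ _ => Finset.sum_nonneg fun _ _ => norm_nonneg _) (Finset.mem_univ σ)
    refine le_trans ?_ e1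
    by_cases hi : i ≤ 2 * h
    · exact Finset.single_le_sum (f := fun i => ‖σ (z i)‖) (fun _ _ => norm_nonneg _)
        (Finset.mem_range.2 (by omega))
    · rw [hz2 i (by omega), map_zero, norm_zero]
      exact hnn
  obtain ⟨n2, hn2⟩ := hCD h B w Z hh hB
  obtain ⟨n3, hn3⟩ : ∃ n3 : ℕ, Real.log q ≤ n3 := exists_nat_ge _
  obtain ⟨n, hndef⟩ : ∃ n, n = 2 * (n0 + n1 + n2 + n3 + B + 1) := ⟨_, rfl⟩
  have hne : Even n := ⟨n0 + n1 + n2 + n3 + B + 1, by omega⟩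
  have hn2' : 2 ≤ n := by omega
  obtain ⟨r, hr1, hr2, hr3⟩ := hn0 n (by omega) hne _ (hMom n hn2' hne)
  have hDH : DH (mo (A := ℝ) n h B w zz) r = φ (DH (mo (A := K) n h B w z) r) := by
    rw [mb_DHmo_map]
    congr 1
    funext k
    exact hcast n k
  have hr3' : DH (mo (A := K) n h B w z) r ≠ 0 := by
    intro h8
    apply hr3
    rw [hDH, h8, map_zero]
  have e1 := h6 K n h B w z q hq hqz hn2' hne hh hB (by omega) r hr2 hr3'
  have e2 := h5 N δ c1 c2 τ ω hNod n h (by omega) hh hne _ (hMom n hn2' hne) r hr2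
  have e3 := hn1 n (by omega) hne r hr1 hr2
  -- notation
  obtain ⟨s, hs⟩ : ∃ s : ℚ, s = ∏ i ∈ Finset.range r, sc n h B i ^ 2 := ⟨_, rfl⟩
  have hs0 : 0 ≤ s := by
    rw [hs]; exact Finset.prod_nonneg fun i _ => sq_nonneg _
  have hsr : (∏ i ∈ Finset.range r, (sc n h B i : ℝ) ^ 2) = (s : ℝ) := by
    rw [hs]; push_cast; rfl
  rw [← hs] at e1
  rw [hsr] at e3
  have hPp : (0 : ℝ) < (PPn n h B : ℝ) := by exact_mod_cast mb_PPn_pos n h B
  have hq0 : (0 : ℝ) < (q : ℝ) := by exact_mod_cast hq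
  obtain ⟨x, hx⟩ : ∃ x : K, x = algebraMap ℚ K ((q : ℚ) ^ r * s * (PPn n h B : ℚ)) *
    DH (mo n h B w z) r := ⟨_, rfl⟩
  rw [← hx] at e1
  have hx0 : x ≠ 0 := by
    intro h0
    rw [h0, Algebra.norm_zero, abs_zero] at e1
    exact absurd e1 (by norm_num)
  -- the norm as a product
  have hnorm : (1 : ℝ) ≤ ∏ σ : K →ₐ[ℚ] ℂ, ‖σ x‖ := by
    have h8 := Algebra.norm_eq_prod_embeddings ℚ ℂ x
    have h10 := congrArg norm h8
    rw [norm_prod] at h10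
    rw [← h10]
    have h11 : ‖algebraMap ℚ ℂ (Algebra.norm ℚ x)‖ = ((|Algebra.norm ℚ x| : ℚ) : ℝ) := by
      rw [eq_ratCast, Rat.cast_abs]
      rw [← Complex.ofReal_ratCast, Complex.norm_real, Real.norm_eq_abs]
    rw [h11]
    exact_mod_cast e1
  have hσ0 : ∀ σ : K →ₐ[ℚ] ℂ, 0 < ‖σ x‖ := by
    intro σ
    rw [norm_pos_iff]
    intro h0
    exact hx0 ((map_eq_zero σ).1 h0)
  have hlog : 0 ≤ ∑ σ : K →ₐ[ℚ] ℂ, Real.log ‖σ x‖ := by
    rw [← Real.log_prod (fun σ _ => (hσ0 σ).ne')]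
    exact Real.log_nonneg hnorm
  -- the real embedding
  obtain ⟨σ0, hσ00⟩ : ∃ σ0 : K →ₐ[ℚ] ℂ, ∀ y, σ0 y = ((φ y : ℝ) : ℂ) :=
    ⟨(Algebra.algHom ℚ ℝ ℂ).comp φ, fun y => rfl⟩
  have hreal : Real.log ‖σ0 x‖ ≤ (C1 * (1 + ((B : ℝ) * (B + 1) / h) * (1 + Real.log B)) -
          (1 / 16) * Real.log ((h : ℝ) / (2 * N))) * ((h : ℝ) * n) ^ 2 := by
    refine le_trans (Real.log_le_log (hσ0 σ0) ?_) e3
    rw [hσ00, Complex.norm_real, Real.norm_eq_abs, hx, map_mul, AlgHom.commutes, abs_mul, ← hDH,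
      mul_comm]
    have e5 : |algebraMap ℚ ℝ ((q : ℚ) ^ r * s * (PPn n h B : ℚ))| =
        (q : ℝ) ^ r * (s : ℝ) * (PPn n h B : ℝ) := by
      rw [eq_ratCast]
      push_cast
      rw [abs_of_nonneg]
      have : (0 : ℝ) ≤ (s : ℝ) := by exact_mod_cast hs0
      positivity
    rw [e5]
    apply mul_le_mul_of_nonneg_right e2
    have : (0 : ℝ) ≤ (s : ℝ) := by exact_mod_cast hs0
    positivity
  -- the other embeddings
  obtain ⟨X, hX⟩ : ∃ X : ℝ, X = ((B : ℝ) * (B + 1) / h) * (1 + Real.log B) := ⟨_, rfl⟩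
  have hhr : (0 : ℝ) < h := by exact_mod_cast hh
  have hh1 : (1 : ℝ) ≤ h := by exact_mod_cast hh
  have hB1 : (1 : ℝ) ≤ B := by exact_mod_cast hB
  have hlB : 0 ≤ Real.log B := Real.log_nonneg hB1
  have hX0 : 0 ≤ X := by
    rw [hX]; positivity
  have hnr : (0 : ℝ) < n := by
    have : 0 < n := by omega
    exact_mod_cast this
  have hn3' : Real.log q ≤ n := by
    refine hn3.trans ?_
    have : n3 ≤ n := by omega
    exact_mod_cast this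
  have hlq : 0 ≤ Real.log q := Real.log_nonneg (by exact_mod_cast hq)
  have hother : ∀ σ : K →ₐ[ℚ] ℂ, Real.log ‖σ x‖ ≤ (1 + 2 * X + C2) * ((h : ℝ) * n) ^ 2 := by
    intro σ
    have f1 := hn2 n (by omega) hne (fun i => σ (z i)) (hZ σ) r hr2
    rw [← hs] at f1
    have f2 : σ x = algebraMap ℚ ℂ ((q : ℚ) ^ r * (PPn n h B : ℚ)) *
        (algebraMap ℚ ℂ s * DH (mo n h B w (fun i => σ (z i))) r) := by
      rw [hx, map_mul, AlgHom.commutes, mb_DHmo_map, ← mul_assoc, ← map_mul]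
      congr 2
      ring
    have f3 : ‖algebraMap ℚ ℂ ((q : ℚ) ^ r * (PPn n h B : ℚ))‖ = (q : ℝ) ^ r * (PPn n h B : ℝ) := by
      rw [eq_ratCast, ← Complex.ofReal_ratCast, Complex.norm_real, Real.norm_eq_abs]
      push_cast
      rw [abs_of_nonneg]
      positivity
    have f4 : ‖σ x‖ ≤ (q : ℝ) ^ r * (PPn n h B : ℝ) * Real.exp (C2 * ((h : ℝ) * n) ^ 2) := by
      rw [f2, norm_mul, f3]
      exact mul_le_mul_of_nonneg_left f1 (by positivity)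
    have f5 := Real.log_le_log (hσ0 σ) f4
    rw [Real.log_mul (by positivity) (Real.exp_pos _).ne', Real.log_exp,
      Real.log_mul (by positivity) hPp.ne', Real.log_pow] at f5
    have f6 := h9 n h B (by omega) hB
    have f7 : (r : ℝ) * Real.log q ≤ ((h : ℝ) * n) ^ 2 := by
      have g1 : (r : ℝ) ≤ (h : ℝ) * n := by
        have : r ≤ h * n := by omega
        exact_mod_cast this
      have g2 : Real.log q ≤ (h : ℝ) * n := by
        have : (1 : ℝ) * n ≤ (h : ℝ) * n := mul_le_mul_of_nonneg_right hh1 hnr.le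
        linarith
      calc (r : ℝ) * Real.log q ≤ ((h : ℝ) * n) * ((h : ℝ) * n) :=
            mul_le_mul g1 g2 hlq (by positivity)
        _ = _ := by ring
    have f8 : (h : ℝ) * Real.log 4 * ((B : ℝ) * (B + 1)) * (n : ℝ) ^ 2 * (1 + Real.log B) ≤
        2 * X * ((h : ℝ) * n) ^ 2 := mb_pp h n B (Real.log B) X hhr (by linarith) hlB hX
    have f9 : (1 + 2 * X + C2) * ((h : ℝ) * n) ^ 2 = ((h : ℝ) * n) ^ 2 +
        2 * X * ((h : ℝ) * n) ^ 2 + C2 * ((h : ℝ) * n) ^ 2 := by ring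
    rw [f9]
    linarith
  -- the sum
  have hcard : ((Finset.univ.erase σ0).card : ℝ) ≤ D := by
    have g1 : (Finset.univ.erase σ0).card ≤ Fintype.card (K →ₐ[ℚ] ℂ) :=
      Finset.card_le_univ _
    have g2 : Fintype.card (K →ₐ[ℚ] ℂ) = Module.finrank ℚ K := AlgHom.card ℚ K ℂ
    have g3 : (Finset.univ.erase σ0).card ≤ D := by omega
    exact_mod_cast g3
  have hM0 : 0 ≤ (1 + 2 * X + C2) * ((h : ℝ) * n) ^ 2 := by positivity
  have hsum : ∑ σ : K →ₐ[ℚ] ℂ, Real.log ‖σ x‖ ≤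
      (C1 * (1 + X) - (1 / 16) * Real.log ((h : ℝ) / (2 * N))) * ((h : ℝ) * n) ^ 2 +
      D * ((1 + 2 * X + C2) * ((h : ℝ) * n) ^ 2) := by
    rw [← Finset.add_sum_erase _ _ (Finset.mem_univ σ0)]
    apply add_le_add
    · rw [hX]; exact hreal
    · calc ∑ σ ∈ Finset.univ.erase σ0, Real.log ‖σ x‖
          ≤ ∑ _σ ∈ Finset.univ.erase σ0, (1 + 2 * X + C2) * ((h : ℝ) * n) ^ 2 :=
            Finset.sum_le_sum fun σ _ => hother σ
        _ = ((Finset.univ.erase σ0).card : ℝ) * ((1 + 2 * X + C2) * ((h : ℝ) * n) ^ 2) := by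
            rw [Finset.sum_const, nsmul_eq_mul]
        _ ≤ _ := mul_le_mul_of_nonneg_right hcard hM0
  have hNr : (0 : ℝ) < N := by exact_mod_cast hN
  have hBr : (0 : ℝ) < (B : ℝ) * (B + 1) := by positivity
  have e6 : Real.log ((h : ℝ) / ((B : ℝ) * (B + 1))) ≤ Real.log ((h : ℝ) / (2 * N)) := by
    apply Real.log_le_log (by positivity)
    apply div_le_div_of_nonneg_left hhr.le (by positivity)
    exact_mod_cast h2N
  have e7 : (0 : ℝ) < ((h : ℝ) * n) ^ 2 := by positivity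
  rw [← hX] at hineq
  have hD1 : (1 : ℝ) ≤ D := by exact_mod_cast hD
  have e8 := mb_num C1 C2 X D hC1 hC2 hX0 hD1
  have e9 : (C1 * (1 + X) - (1 / 16) * Real.log ((h : ℝ) / (2 * N))) * ((h : ℝ) * n) ^ 2 +
      D * ((1 + 2 * X + C2) * ((h : ℝ) * n) ^ 2) < 0 := by
    have k3 : (C1 * (1 + X) - (1 / 16) * Real.log ((h : ℝ) / (2 * N))) * ((h : ℝ) * n) ^ 2 +
      D * ((1 + 2 * X + C2) * ((h : ℝ) * n) ^ 2) =
      (C1 * (1 + X) + D * (1 + 2 * X + C2) - (1 / 16) * Real.log ((h : ℝ) / (2 * N))) *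
        ((h : ℝ) * n) ^ 2 := by ring
    rw [k3]
    apply mul_neg_of_neg_of_pos _ e7
    linarith
  linarith

theorem t_mb (h1 : S_WE) (h2 : S_NO) (h3 : S_RM) (h4 : S_NV) (h5 : S_AR) (h6 : S_PK) (h7 : S_AS)
    (h8 : S_CD) (h9 : S_PP) : S_MB := by
  obtain ⟨C1, hC1, hAS⟩ := h7
  obtain ⟨C2, hC2, hCD⟩ := h8
  refine ⟨C1 + C2 + 3, by positivity, fun D h B hD hB hBh hineq K hK hfin => ?_⟩
  obtain ⟨I, hI1, hI2⟩ := mb_core h1 h2 h3 h4 h5 h6 C1 hC1 hAS C2 hC2 hCD h9 D h B hD hB hBh hineq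
    K K.val hfin
  refine ⟨I, hI1, fun i hi => ?_⟩
  obtain ⟨g1, g2, g3, g4⟩ := hI2 i hi
  refine ⟨g1, g2, g3, fun hmem => ?_⟩
  exact g4 ⟨zr i, hmem⟩ rfl

end Pool.Agent.W165.OZ
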