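import Pool.Agent.W165.OZ.Stm2
import Pool.Agent.W165.OZ.PR

/-!
# Part PK: the norm of the determinant over a number field
-/

open Polynomial Pool.Agent.H337R2 Filter Topology

namespace Pool.Agent.W165.OZ

open PRaux

/-- a rational number which is integral over the `p`-integral rational numbers is `p`-integral -/
lemma pk_integral (p : ℕ) [Fact p.Prime] (x : ℚ) (hx : IsIntegral (Sring p) x) :
    padicNorm p x ≤ 1 := by
  obtain ⟨f, hf, hf0⟩ := hx
  by_contra hlt
  rw [not_le] at hlt
  rw [Polynomial.eval₂_eq_sum_range, Finset.sum_range_succ] at hf0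
  have hc : f.coeff f.natDegree = 1 := hf
  rw [hc, map_one, one_mul] at hf0
  rcases Nat.eq_zero_or_pos f.natDegree with h0 | hpos
  · rw [h0] at hf0
    simp at hf0
  · have h1 : x ^ f.natDegree =
        -∑ i ∈ Finset.range f.natDegree, (algebraMap (Sring p) ℚ) (f.coeff i) * x ^ i := by
      linarith
    have h2 : padicNorm p (x ^ f.natDegree) ≤ padicNorm p x ^ (f.natDegree - 1) := by
      rw [h1, padicNorm.neg]
      apply padicNorm.sum_le' _ (by positivity)
      intro i hi
      have hi' := Finset.mem_range.1 hi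
      rw [padicNorm.mul, IsAbsoluteValue.abv_pow (padicNorm p)]
      have h3 : padicNorm p ((algebraMap (Sring p) ℚ) (f.coeff i)) ≤ 1 := (f.coeff i).2
      calc padicNorm p ((algebraMap (Sring p) ℚ) (f.coeff i)) * padicNorm p x ^ i
          ≤ 1 * padicNorm p x ^ i := by gcongr
        _ = padicNorm p x ^ i := one_mul _
        _ ≤ padicNorm p x ^ (f.natDegree - 1) := pow_le_pow_right₀ hlt.le (by omega)
    rw [IsAbsoluteValue.abv_pow (padicNorm p)] at h2
    have h4 : padicNorm p x ^ (f.natDegree - 1) < padicNorm p x ^ f.natDegree :=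
      pow_lt_pow_right₀ hlt (by omega)
    exact absurd h2 (not_le.2 h4)

theorem t_pk (h1 : S_SE) (h2 : S_SF) : S_PK := by
  intro K _ _ _ n h B w z q hq hz hn hev hh hB hBn r hr hne
  have hx : ∀ p : ℕ, [Fact p.Prime] → IsIntegral (Sring p)
      (algebraMap ℚ K ((q : ℚ) ^ r * (∏ i ∈ Finset.range r, sc n h B i ^ 2) * (PPn n h B : ℚ)) *
        DH (mo n h B w z) r) := by
    intro p hp
    let S : Subring K := (integralClosure (Sring p) K).toSubring
    have hmem : ∀ x : K, x ∈ S ↔ IsIntegral (Sring p) x := fun x => Iff.rfl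
    have hS : ∀ x : ℚ, padicNorm p x ≤ 1 → algebraMap ℚ K x ∈ S := fun x hx => by
      rw [hmem]
      exact isIntegral_algebraMap (x := (⟨x, hx⟩ : Sring p))
    have hqz : ∀ i, (q : K) * z i ∈ S := by
      intro i
      rw [hmem]
      exact (hz i).tower_top
    rw [← hmem]
    by_cases hpn : p ≤ n
    · have h3 := h1 K p S hS n h B w z q hqz hn hev hh hB hpn r hr
      have h4 : algebraMap ℚ K ((PPn n h B : ℕ) : ℚ) ∈ S := hS _ (padicNorm.of_nat _)
      have h5 := S.mul_mem h3 h4
      have h6 : algebraMap ℚ K ((q : ℚ) ^ r * ∏ i ∈ Finset.range r, sc n h B i ^ 2) *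
          DH (mo n h B w z) r * algebraMap ℚ K ((PPn n h B : ℕ) : ℚ) =
          algebraMap ℚ K ((q : ℚ) ^ r * (∏ i ∈ Finset.range r, sc n h B i ^ 2) * (PPn n h B : ℚ)) *
            DH (mo n h B w z) r := by
        rw [map_mul (algebraMap ℚ K) (((q : ℚ) ^ r * ∏ i ∈ Finset.range r, sc n h B i ^ 2)) _]
        ring
      rwa [h6] at h5
    · have hpn' : n < p := by omega
      have h3 := h2 K p S hS n h B w z q hqz hn hh hB hBn hpn' r hr
      obtain ⟨m, hm⟩ := dvd_PPn p n h B hpn'
      have h4 : algebraMap ℚ K (m : ℚ) ∈ S := hS _ (padicNorm.of_nat _)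
      have h5 : algebraMap ℚ K (∏ i ∈ Finset.range r, sc n h B i ^ 2) ∈ S := by
        apply hS
        have h5' : (∏ i ∈ Finset.range r, sc n h B i ^ 2) ∈ Sring p := by
          refine Subring.prod_mem _ fun i _ => Subring.pow_mem _ ?_ _
          rw [mem_Sring]
          exact padicNorm_sc p n h B i hn hpn'
        exact h5'
      have h6 := S.mul_mem (S.mul_mem h3 h5) h4
      have h7 : algebraMap ℚ K ((q : ℚ) ^ r * (p : ℚ) ^ (2 * h * Sp n B p)) *
          DH (mo n h B w z) r * algebraMap ℚ K (∏ i ∈ Finset.range r, sc n h B i ^ 2) *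
          algebraMap ℚ K (m : ℚ) =
          algebraMap ℚ K ((q : ℚ) ^ r * (∏ i ∈ Finset.range r, sc n h B i ^ 2) * (PPn n h B : ℚ)) *
            DH (mo n h B w z) r := by
        have h8 : ((PPn n h B : ℕ) : ℚ) = (p : ℚ) ^ (2 * h * Sp n B p) * (m : ℚ) := by
          rw [hm]; push_cast; ring
        rw [h8]
        simp only [map_mul]
        ring
      rwa [h7] at h6
  have hq0 : 0 < (q : ℚ) := by exact_mod_cast hq
  have hpos : 0 < (q : ℚ) ^ r * (∏ i ∈ Finset.range r, sc n h B i ^ 2) * (PPn n h B : ℚ) := by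
    have a2 : (0 : ℚ) < ∏ i ∈ Finset.range r, sc n h B i ^ 2 :=
      Finset.prod_pos fun i _ => pow_pos (sc_pos n h B i) 2
    have a3 : (0 : ℚ) < (PPn n h B : ℚ) := by exact_mod_cast PPn_pos n h B
    positivity
  apply one_le_abs
  · intro p hp
    exact pk_integral p _ (Algebra.isIntegral_norm ℚ (hx p))
  · rw [Algebra.norm_ne_zero_iff]
    apply mul_ne_zero _ hne
    rw [_root_.map_ne_zero]
    exact hpos.ne'

end Pool.Agent.W165.OZ
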