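import Pool.Agent.W165.OZ.Fin
import Pool.Agent.W165.OZ.PK
import Pool.Agent.W165.OZ.CB
import Pool.Agent.W165.OZ.CD
import Pool.Agent.W165.OZ.FJ
import Pool.Agent.W165.OZ.MB

/-!
# Odd zeta values outside number fields: assembly
-/

open Polynomial Pool.Agent.H337R2 Filter Topology

namespace Pool.Agent.W165.OZ

noncomputable section

theorem z_pk : S_PK := t_pk z_se z_sf
theorem z_cd : S_CD := t_cd t_bas (t_cb t_dl)
theorem z_mb : S_MB := t_mb t_we Pool.Agent.W940.OZ.t_no z_rm z_nv z_ar z_pk z_as z_cd t_pp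

/-- for every real number field `K` of degree `D ≤ c loglog s` at least `c √(s loglog s / (D log s))` of the odd
zeta values up to `ζ(s)` are not in `K` -/
theorem z_final2 : ∃ c : ℝ, 0 < c ∧ ∃ s0 : ℕ, ∀ s ≥ s0, ∀ K : IntermediateField ℚ ℝ, FiniteDimensional ℚ K →
    (Module.finrank ℚ K : ℝ) ≤ c * Real.log (Real.log s) →
    c * Real.sqrt (s * Real.log (Real.log s) / (Module.finrank ℚ K * Real.log s)) ≤
      (Set.ncard {i : ℕ | 3 ≤ i ∧ i ≤ s ∧ Odd i ∧ (∑' n : ℕ, 1 / ((n : ℝ) + 1) ^ i) ∉ K} : ℝ) := by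
  obtain ⟨C1, hC1, hM⟩ := z_mb
  obtain ⟨c, hc, s0, hs⟩ := t_fj C1 hC1
  refine ⟨c, hc, s0, fun s hs0 K hK hD => ?_⟩
  have hD1 : 1 ≤ Module.finrank ℚ K := Module.finrank_pos
  obtain ⟨h, B, h1, h2, h3, h4, h5⟩ := hs s hs0 (Module.finrank ℚ K) hD1 hD
  obtain ⟨I, hI, hI2⟩ := hM (Module.finrank ℚ K) h B hD1 h2 h3 h5 K hK le_rfl
  refine h4.trans ?_
  have hfin : {i : ℕ | 3 ≤ i ∧ i ≤ s ∧ Odd i ∧ (∑' n : ℕ, 1 / ((n : ℝ) + 1) ^ i) ∉ K}.Finite :=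
    (Set.finite_Iic s).subset fun i hi => hi.2.1
  have hsub : (I : Set ℕ) ⊆ {i : ℕ | 3 ≤ i ∧ i ≤ s ∧ Odd i ∧ (∑' n : ℕ, 1 / ((n : ℝ) + 1) ^ i) ∉ K} := by
    intro i hi
    obtain ⟨a1, a2, a3, a4⟩ := hI2 i hi
    exact ⟨a1, a2.trans h1, a3, a4⟩
  have h6 := Set.ncard_le_ncard hsub hfin
  rw [Set.ncard_coe_finset] at h6
  exact_mod_cast hI.trans h6

end

end Pool.Agent.W165.OZ
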