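import Pool.Agent.W165.OZ.Stm3
import Pool.Agent.W165.OZ.HB

/-!
# Periodic Dirichlet series at even integers: the harmonic sums (part HBA)
-/

open Polynomial Pool.Agent.H337R2 Filter Topology

namespace Pool.Agent.W165.OZ

theorem t_hba : S_HBa := by
  intro p _ a n B d k ι hd hdB hkn
  have hnn : (0 : ℚ) ≤ (p : ℚ) ^ (ι * Nat.log p (B * n)) := by positivity
  have h1 : padicNorm p ((d : ℚ) ^ ι) ≤ 1 := by
    rw [hb_pow]
    exact pow_le_one₀ (padicNorm.nonneg _) (padicNorm.of_nat d)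
  have h2 : padicNorm p (hsa a ι (d * (k + 1))) ≤ (p : ℚ) ^ (ι * Nat.log p (B * n)) := by
    unfold hsa
    refine padicNorm.sum_le' (fun l hl => ?_) hnn
    have hl' : l + 1 ≤ B * n := by
      have h3 := Finset.mem_range.1 hl
      have h4 : d * (k + 1) ≤ B * n := Nat.mul_le_mul hdB hkn
      omega
    have h5 : (a (l + 1) : ℚ) / ((l : ℚ) + 1) ^ ι = (a (l + 1) : ℚ) * (1 / ((l + 1 : ℕ) : ℚ)) ^ ι := by
      rw [one_div_pow, mul_one_div]
      push_cast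
      rfl
    rw [h5, padicNorm.mul, hb_pow, mul_comm ι, pow_mul]
    have h6 : padicNorm p (a (l + 1) : ℚ) ≤ 1 := padicNorm.of_int _
    have h7 : padicNorm p (1 / ((l + 1 : ℕ) : ℚ)) ^ ι ≤ ((p : ℚ) ^ Nat.log p (B * n)) ^ ι :=
      pow_le_pow_left₀ (padicNorm.nonneg _) (hb_inv p (l + 1) (B * n) (by omega) hl') ι
    calc padicNorm p (a (l + 1) : ℚ) * padicNorm p (1 / ((l + 1 : ℕ) : ℚ)) ^ ι
        ≤ 1 * ((p : ℚ) ^ Nat.log p (B * n)) ^ ι :=
          mul_le_mul h6 h7 (pow_nonneg (padicNorm.nonneg _) _) zero_le_one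
      _ = _ := one_mul _
  rw [padicNorm.mul]
  calc padicNorm p ((d : ℚ) ^ ι) * padicNorm p (hsa a ι (d * (k + 1)))
      ≤ 1 * (p : ℚ) ^ (ι * Nat.log p (B * n)) :=
        mul_le_mul h1 h2 (padicNorm.nonneg _) zero_le_one
    _ = _ := one_mul _

end Pool.Agent.W165.OZ
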