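import Pool.Agent.W165.OZ.Stm3

/-!
# Values of periodic Dirichlet series at even integers: the main inequality (part MAA)
-/

open Polynomial Pool.Agent.H337R2 Filter Topology

namespace Pool.Agent.W165.OZ.MAA

theorem ma_DH_cast (μ : ℕ → ℚ) (r : ℕ) :
    DH (fun k => ((μ k : ℚ) : ℝ)) r = ((DH μ r : ℚ) : ℝ) := by
  unfold DH
  have h := (Rat.castHom ℝ).map_det (Matrix.of fun i j : Fin r => μ (i.1 + j.1))
  rw [Rat.coe_castHom] at h
  rw [h]
  rfl

theorem ma_mo_cast (a : ℕ → ℤ) (n h B : ℕ) (w : ℕ → ℤ) (I : Finset ℕ) (z : ℕ → ℚ)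
    (hI : ∀ i ∈ I, WW B w i = 0)
    (hz1 : ∀ i, Even i → 2 ≤ i → i ≤ 2 * h → i ∉ I → ((z i : ℚ) : ℝ) = zra a i)
    (hz0 : ∀ i, ¬ (Even i ∧ 2 ≤ i) → z i = 0) (k : ℕ) :
    moA (A := ℝ) a n h B w (zza a) k = ((moA (A := ℚ) a n h B w z k : ℚ) : ℝ) := by
  unfold moA LaA
  rw [Rat.cast_sum]
  refine Finset.sum_congr rfl fun i hi => ?_
  rw [Finset.mem_Icc] at hi
  simp only [eq_ratCast, Rat.cast_sub, Rat.cast_mul, Rat.cast_id, Rat.cast_intCast]
  congr 1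
  by_cases h1 : i ∈ I
  · rw [hI i h1]; simp
  · by_cases h2 : Even i ∧ 2 ≤ i
    · rw [hz1 i h2.1 h2.2 hi.2 h1]
      unfold zza
      rw [if_pos h2]
    · rw [hz0 i h2]
      unfold zza
      rw [if_neg h2]
      simp

/-- spreading the weights to the multiples of `f` -/
theorem maa_weights (h1 : S_WE) (f B : ℕ) (hf : 1 ≤ f) (I : Finset ℕ) (hI : I.card < B / f) :
    ∃ w : ℕ → ℤ, (∀ d, w d ≠ 0 → f ∣ d) ∧ (∃ d ∈ Finset.Icc 1 B, w d ≠ 0) ∧
      ∀ i ∈ I, WW B w i = 0 := by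
  classical
  obtain ⟨w', ⟨d0, hd0, hwd0⟩, hw'⟩ := h1 (B / f) I hI
  rw [Finset.mem_Icc] at hd0
  refine ⟨fun d => if f ∣ d then w' (d / f) else 0, fun d hd => ?_, ⟨f * d0, ?_, ?_⟩, fun i hi => ?_⟩
  · by_contra hc
    exact hd (if_neg hc)
  · rw [Finset.mem_Icc]
    refine ⟨Nat.mul_pos hf hd0.1, ?_⟩
    calc f * d0 ≤ f * (B / f) := Nat.mul_le_mul_left _ hd0.2
      _ ≤ B := Nat.mul_div_le B f
  · simp only [dvd_mul_right, if_true]
    rw [Nat.mul_div_cancel_left _ hf]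
    exact hwd0
  · have h8 := hw' i hi
    unfold WW at h8 ⊢
    have h9 : ∑ d ∈ Finset.Icc 1 B, (if f ∣ d then w' (d / f) else 0) * (d : ℤ) ^ i =
        ∑ d ∈ (Finset.Icc 1 (B / f)).image (fun e => f * e),
          (if f ∣ d then w' (d / f) else 0) * (d : ℤ) ^ i := by
      symm
      apply Finset.sum_subset
      · intro d hd
        rw [Finset.mem_image] at hd
        obtain ⟨e, he, rfl⟩ := hd
        rw [Finset.mem_Icc] at he ⊢
        refine ⟨Nat.mul_pos hf he.1, ?_⟩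
        calc f * e ≤ f * (B / f) := Nat.mul_le_mul_left _ he.2
          _ ≤ B := Nat.mul_div_le B f
      · intro d hd hd'
        rw [Finset.mem_Icc] at hd
        rw [if_neg, zero_mul]
        rintro ⟨e, rfl⟩
        apply hd'
        rw [Finset.mem_image]
        refine ⟨e, ?_, rfl⟩
        rw [Finset.mem_Icc]
        refine ⟨?_, ?_⟩
        · rcases Nat.eq_zero_or_pos e with h | h
          · rw [h] at hd; omega
          · exact h
        · rw [Nat.le_div_iff_mul_le hf, mul_comm]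
          exact hd.2
    rw [h9, Finset.sum_image (fun x _ y _ hxy => Nat.eq_of_mul_eq_mul_left hf hxy)]
    have h10 : ∀ e ∈ Finset.Icc 1 (B / f),
        (if f ∣ f * e then w' (f * e / f) else 0) * ((f * e : ℕ) : ℤ) ^ i =
        (f : ℤ) ^ i * (w' e * (e : ℤ) ^ i) := by
      intro e _
      rw [if_pos (dvd_mul_right _ _), Nat.mul_div_cancel_left _ hf]
      push_cast
      ring
    rw [Finset.sum_congr rfl h10, ← Finset.mul_sum, h8, mul_zero]

theorem t_maa (h1 : S_WE) (h2 : S_NOa) (h3 : S_RMa) (h4 : S_NVa) (h5 : S_ARa) (h6 : S_PRa)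
    (h7 : S_AS) : S_MAa := by
  classical
  obtain ⟨C1, hC1, hAS⟩ := h7
  refine ⟨C1, hC1, fun f a hf hper hau h B hfB hBh hineq => ?_⟩
  have hB : 1 ≤ B := hf.trans hfB
  by_contra hcon
  obtain ⟨I, hIdef⟩ : ∃ I : Finset ℕ, I =
      (Finset.Icc 2 (2 * h)).filter (fun i => Even i ∧ Irrational (zra a i)) := ⟨_, rfl⟩
  have hImem : ∀ i, i ∈ I ↔ (2 ≤ i ∧ i ≤ 2 * h) ∧ Even i ∧ Irrational (zra a i) := by
    intro i
    rw [hIdef, Finset.mem_filter, Finset.mem_Icc]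
  have hIcard : I.card < B / f := by
    by_contra hlt
    rw [not_lt] at hlt
    refine hcon ⟨I, hlt, fun i hi => ?_⟩
    have := (hImem i).1 hi
    exact ⟨this.1.1, this.1.2, this.2.1, this.2.2⟩
  obtain ⟨w, hwf, hw, hWI⟩ := maa_weights h1 f B hf I hIcard
  obtain ⟨N, δ, c1, c2, τ, ω, hNod, h2N, hNO⟩ := h2 B f a w hf hper hau hwf hw
  have hN := hNod.hN
  have hh : 1 ≤ h := by
    have : 1 * 2 ≤ B * (B + 1) := Nat.mul_le_mul hB (by omega)
    omega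
  have h32 : 32 * N ≤ h := by omega
  have h2N' : 2 * N ≤ h := by omega
  have hc2 : 0 < c2 := lt_of_lt_of_le (lt_of_lt_of_le hNod.hc1 (hNod.wlo 0)) (hNod.whi 0)
  -- rational values
  have hrat : ∀ i, ∃ q : ℚ, (Even i → 2 ≤ i → i ≤ 2 * h → i ∉ I → ((q : ℚ) : ℝ) = zra a i) ∧
      (¬ (Even i ∧ 2 ≤ i) → q = 0) ∧ (2 * h < i → q = 0) := by
    intro i
    by_cases hc : Even i ∧ 2 ≤ i ∧ i ≤ 2 * h ∧ i ∉ I
    · have h8 : ¬ Irrational (zra a i) := by
        intro hirr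
        exact hc.2.2.2 ((hImem i).2 ⟨⟨hc.2.1, hc.2.2.1⟩, hc.1, hirr⟩)
      unfold Irrational at h8
      rw [not_not] at h8
      obtain ⟨q, hq⟩ := h8
      exact ⟨q, fun _ _ _ _ => hq, fun hx => absurd ⟨hc.1, hc.2.1⟩ hx, fun hx => by omega⟩
    · exact ⟨0, fun a1 b1 c1 d1 => absurd ⟨a1, b1, c1, d1⟩ hc, fun _ => rfl, fun _ => rfl⟩
  choose z hz1 hz0 hz2 using hrat
  obtain ⟨q, hqdef⟩ : ∃ q : ℕ, q = ∏ i ∈ Finset.range (2 * h + 1), (z i).den := ⟨_, rfl⟩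
  have hq : 1 ≤ q := by
    rw [hqdef]
    exact Nat.one_le_iff_ne_zero.2 (Finset.prod_ne_zero_iff.2 fun i _ => (z i).den_nz)
  have hqz : ∀ i, ∃ b : ℤ, (q : ℚ) * z i = b := by
    intro i
    by_cases hi : i ≤ 2 * h
    · have hd : (z i).den ∣ q := by
        rw [hqdef]
        exact Finset.dvd_prod_of_mem _ (Finset.mem_range.2 (by omega))
      obtain ⟨e, he⟩ := hd
      refine ⟨e * (z i).num, ?_⟩
      have h8 : (((z i).den : ℕ) : ℚ) * z i = (z i).num := Rat.den_mul_eq_num (z i)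
      rw [he]
      push_cast
      rw [← h8]
      ring
    · refine ⟨0, ?_⟩
      rw [hz2 i (by omega)]
      simp
  have hcast : ∀ n k, moA (A := ℝ) a n h B w (zza a) k = ((moA (A := ℚ) a n h B w z k : ℚ) : ℝ) :=
    fun n k => ma_mo_cast a n h B w I z hWI hz1 hz0 k
  have hMom : ∀ n, 2 ≤ n → Even n → MomE n h τ ω (moA (A := ℝ) a n h B w (zza a)) := by
    intro n hn2 hne k hk
    obtain ⟨hs, hv⟩ := h3 n h B f a w hn2 hne hh hf hper hwf k hk
    have h8 := hNO (fun t => RvE n h t * yv n t ^ k) hs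
    rw [← hv] at h8
    exact h8
  obtain ⟨n0, hn0⟩ := h4 N δ c1 c2 τ ω hNod h h32
  have hC : 0 < 4 * (N : ℝ) ^ 2 * c2 := by
    have : (0 : ℝ) < N := by exact_mod_cast hN
    positivity
  obtain ⟨n1, hn1⟩ := hAS N h B q (4 * (N : ℝ) ^ 2 * c2) hN hh hB hq hC h2N'
  obtain ⟨n, hndef⟩ : ∃ n, n = 2 * (n0 + n1 + B + 1) := ⟨_, rfl⟩
  have hne : Even n := ⟨n0 + n1 + B + 1, by omega⟩
  have hn2 : 2 ≤ n := by omega
  obtain ⟨r, hr1, hr2, hr3⟩ := hn0 n (by omega) hne _ (hMom n hn2 hne)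
  have hDH : DH (moA (A := ℝ) a n h B w (zza a)) r = ((DH (moA (A := ℚ) a n h B w z) r : ℚ) : ℝ) := by
    rw [← ma_DH_cast]
    congr 1
    funext k
    exact hcast n k
  have hr3' : DH (moA (A := ℚ) a n h B w z) r ≠ 0 := by
    intro h8
    apply hr3
    rw [hDH, h8]
    simp
  have e1 := h6 a n h B w z q hq hqz hn2 hne hh hB (by omega) r hr2 hr3'
  have e2 := h5 N δ c1 c2 τ ω hNod n h (by omega) hh hne _ (hMom n hn2 hne) r hr2
  have e3 := hn1 n (by omega) hne r hr1 hr2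
  have e1' : (1 : ℝ) ≤ |DH (moA (A := ℝ) a n h B w (zza a)) r| *
      ((q : ℝ) ^ r * (∏ i ∈ Finset.range r, (sc n h B i : ℝ) ^ 2) * (PPn n h B : ℝ)) := by
    rw [hDH]
    have h8 : ((1 : ℚ) : ℝ) ≤ ((|DH (moA (A := ℚ) a n h B w z) r| *
      ((q : ℚ) ^ r * (∏ i ∈ Finset.range r, sc n h B i ^ 2) * (PPn n h B : ℚ)) : ℚ) : ℝ) := by
      exact_mod_cast e1
    push_cast at h8
    exact h8
  have hnn : (0 : ℝ) ≤ (q : ℝ) ^ r * (∏ i ∈ Finset.range r, (sc n h B i : ℝ) ^ 2) *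
      (PPn n h B : ℝ) := by
    have : (0 : ℝ) ≤ ∏ i ∈ Finset.range r, (sc n h B i : ℝ) ^ 2 :=
      Finset.prod_nonneg fun i _ => sq_nonneg _
    positivity
  have e4 : (1 : ℝ) ≤ Arc N n h (4 * (N : ℝ) ^ 2 * c2) r *
      ((q : ℝ) ^ r * (∏ i ∈ Finset.range r, (sc n h B i : ℝ) ^ 2) * (PPn n h B : ℝ)) :=
    e1'.trans (mul_le_mul_of_nonneg_right e2 hnn)
  have e5 := Real.log_nonneg e4
  have hNr : (0 : ℝ) < N := by exact_mod_cast hN
  have hhr : (0 : ℝ) < h := by exact_mod_cast hh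
  have hBr : (0 : ℝ) < (B : ℝ) * (B + 1) := by
    have : (0 : ℝ) < B := by exact_mod_cast hB
    positivity
  have e6 : Real.log ((h : ℝ) / ((B : ℝ) * (B + 1))) ≤ Real.log ((h : ℝ) / (2 * N)) := by
    apply Real.log_le_log (by positivity)
    apply div_le_div_of_nonneg_left hhr.le (by positivity)
    exact_mod_cast h2N
  have hnr : (0 : ℝ) < n := by
    have : 0 < n := by omega
    exact_mod_cast this
  have e7 : (0 : ℝ) < ((h : ℝ) * n) ^ 2 := by positivity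
  have e8 : (C1 * (1 + ((B : ℝ) * (B + 1) / h) * (1 + Real.log B)) -
        (1 / 16) * Real.log ((h : ℝ) / (2 * N))) * ((h : ℝ) * n) ^ 2 < 0 := by
    apply mul_neg_of_neg_of_pos _ e7
    linarith
  linarith

end Pool.Agent.W165.OZ.MAA
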