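import Pool.Agent.W165.OZ.Stm3
import Pool.Agent.W940.OZ.NO

/-!
Project OZL (helper347 for helper165): the nodes with periodic coefficients (S_NOa), adapted from
`Pool.Agent.W940.OZ.NO`.
-/

set_option autoImplicit false

open Polynomial Pool.Agent.H337R2 Filter Topology

namespace Pool.Agent.W165.OZ.NOA

open Pool.Agent.W165.OZ Pool.Agent.W940.OZ

/-- the numerator over `d` -/
def jd (x : ℚ) (d : ℕ) : ℕ := (x * d).num.toNat

lemma jd_eq {j d : ℕ} (hd : 1 ≤ d) : jd ((j : ℚ) / d) d = j := by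
  have hd' : (d : ℚ) ≠ 0 := by exact_mod_cast (by omega : d ≠ 0)
  unfold jd
  rw [div_mul_cancel₀ _ hd']
  simp

/-- the weights of the fractions -/
def omA (B : ℕ) (a : ℕ → ℤ) (w : ℕ → ℤ) (x : ℚ) : ℤ :=
  ∑ d ∈ (Finset.Icc 1 B).filter (fun d => x ∈ Sd d), w d * a (jd x d)

/-- the fractions with weight not zero -/
def XsA (B : ℕ) (a : ℕ → ℤ) (w : ℕ → ℤ) : Finset ℚ := (Pt B).filter (fun x => omA B a w x ≠ 0)

lemma per_eq {f : ℕ} {a : ℕ → ℤ} (ha : ∀ u, a (u + f) = a u) {u v : ℕ} (h : u ≡ v [MOD f]) :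
    a u = a v := by
  have hp : Function.Periodic a f := ha
  rw [← hp.map_mod_nat u, ← hp.map_mod_nat v, h]

/-- a numerator coprime to `D` -/
lemma ex_j {f D : ℕ} {a : ℕ → ℤ} (hf : 1 ≤ f) (hD : 1 ≤ D) (hfD : f ∣ D)
    (ha : ∀ u, a (u + f) = a u) (hu : ∃ u, Nat.Coprime u f ∧ a u ≠ 0) :
    ∃ j, 1 ≤ j ∧ j ≤ D ∧ Nat.Coprime j D ∧ a j ≠ 0 := by
  obtain ⟨u, hu1, hu2⟩ := hu
  have : NeZero D := ⟨by omega⟩
  have : NeZero f := ⟨by omega⟩
  obtain ⟨v, hv⟩ := ZMod.unitsMap_surjective hfD (ZMod.unitOfCoprime u hu1)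
  have h1 : ((v : ZMod D).cast : ZMod f) = (u : ZMod f) := by
    have := congrArg (fun z : (ZMod f)ˣ => (z : ZMod f)) hv
    simpa [ZMod.unitsMap_def] using this
  have h2 : (((v : ZMod D).val : ℕ) : ZMod f) = (u : ZMod f) := by
    rw [← h1, ZMod.cast_eq_val]
  have h3 : (v : ZMod D).val ≡ u [MOD f] := (ZMod.natCast_eq_natCast_iff _ _ _).1 h2
  have h4 : Nat.Coprime (v : ZMod D).val D := ZMod.val_coe_unit_coprime v
  have h5 := ZMod.val_lt (v : ZMod D)
  set j0 := (v : ZMod D).val with hj0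
  by_cases h0 : j0 = 0
  · refine ⟨D, hD, le_rfl, ?_, ?_⟩
    · rw [h0, Nat.coprime_zero_left] at h4
      rw [h4]
      exact Nat.coprime_one_left 1
    · have h6 : D ≡ u [MOD f] := by
        refine Nat.ModEq.trans ?_ h3
        rw [h0]
        exact (Nat.modEq_zero_iff_dvd.2 hfD)
      rw [per_eq ha h6]
      exact hu2
  · exact ⟨j0, by omega, h5.le, h4, by rw [per_eq ha h3]; exact hu2⟩

lemma Xs_nonempty {B f : ℕ} {a w : ℕ → ℤ} (hf : 1 ≤ f) (ha : ∀ u, a (u + f) = a u)
    (hu : ∃ u, Nat.Coprime u f ∧ a u ≠ 0) (hwf : ∀ d, w d ≠ 0 → f ∣ d)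
    (h : ∃ d ∈ Finset.Icc 1 B, w d ≠ 0) : (XsA B a w).Nonempty := by
  classical
  set T := (Finset.Icc 1 B).filter (fun d => w d ≠ 0) with hT
  have hTn : T.Nonempty := by
    obtain ⟨d, hd, hw⟩ := h
    exact ⟨d, Finset.mem_filter.2 ⟨hd, hw⟩⟩
  set D := T.max' hTn with hD
  have hDT : D ∈ T := T.max'_mem hTn
  obtain ⟨hD1, hD2⟩ := Finset.mem_filter.1 hDT
  obtain ⟨hD3, hD4⟩ := Finset.mem_Icc.1 hD1
  have hD5 : (0 : ℚ) < D := by exact_mod_cast hD3
  obtain ⟨j, j1, j2, j3, j4⟩ := ex_j hf hD3 (hwf D hD2) ha hu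
  have hom : omA B a w ((j : ℚ) / (D : ℚ)) = w D * a j := by
    unfold omA
    rw [Finset.sum_eq_single_of_mem D]
    · rw [jd_eq hD3]
    · refine Finset.mem_filter.2 ⟨hD1, mem_Sd.2 ⟨j, j1, j2, rfl⟩⟩
    · intro d hd hne
      by_contra hw
      obtain ⟨h1, h2⟩ := Finset.mem_filter.1 hd
      obtain ⟨i, h3, h4, h5⟩ := mem_Sd.1 h2
      have h6 : (0 : ℚ) < d := by exact_mod_cast (Finset.mem_Icc.1 h1).1
      rw [div_eq_div_iff h6.ne' hD5.ne'] at h5
      have h7 : i * D = j * d := by exact_mod_cast h5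
      have hw' : w d ≠ 0 := fun h => hw (by rw [h, zero_mul])
      have h8 : d ≤ D := T.le_max' d (Finset.mem_filter.2 ⟨h1, hw'⟩)
      have h9 : D ∣ d := j3.symm.dvd_of_dvd_mul_left (Dvd.intro_left i h7)
      apply hne
      exact le_antisymm h8 (Nat.le_of_dvd (Finset.mem_Icc.1 h1).1 h9)
  refine ⟨(j : ℚ) / (D : ℚ), Finset.mem_filter.2 ⟨Finset.mem_biUnion.2 ⟨D, hD1, mem_Sd.2
    ⟨j, j1, j2, rfl⟩⟩, ?_⟩⟩
  rw [hom]
  exact mul_ne_zero hD2 j4

/-- the sum over `u` as a sum over the fractions with denominator `d` -/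
lemma tsum_dA {d f : ℕ} {a : ℕ → ℤ} (hd : 1 ≤ d) (hfd : f ∣ d) (ha : ∀ u, a (u + f) = a u)
    (F : ℝ → ℝ) (hF : Summable (fun u : ℕ => F (((u : ℝ) + d + 1) / d))) :
    ∑' u : ℕ, (a (u + d + 1) : ℝ) * F (((u : ℝ) + d + 1) / d) =
      ∑ x ∈ Sd d, (a (jd x d) : ℝ) * ∑' v : ℕ, F (1 + (v : ℝ) + ((x : ℚ) : ℝ)) := by
  have hd0 : (0 : ℝ) < d := by exact_mod_cast hd
  have hpt : ∀ e v : ℕ, (((v * d + e : ℕ) : ℝ) + d + 1) / d =
      1 + (v : ℝ) + (((((e + 1 : ℕ) : ℚ) / d : ℚ)) : ℝ) := by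
    intro e v
    push_cast
    field_simp
    ring
  have hsub : ∀ e : ℕ, Summable (fun v : ℕ => F (1 + (v : ℝ) + (((((e + 1 : ℕ) : ℚ) / d : ℚ)) : ℝ))) := by
    intro e
    have hinj : Function.Injective (fun v : ℕ => v * d + e) := by
      intro a b hab
      have : a * d = b * d := by
        simpa using hab
      exact Nat.eq_of_mul_eq_mul_right (by omega) this
    have := hF.comp_injective hinj
    refine this.congr fun v => ?_
    rw [Function.comp_apply, ← hpt]
  have hav : ∀ e v : ℕ, a (v * d + e + d + 1) = a (e + 1) := by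
    intro e v
    apply per_eq ha
    have h1 : v * d + e + d + 1 = (v + 1) * d + (e + 1) := by ring
    rw [h1]
    have h2 : (v + 1) * d ≡ 0 [MOD f] := Nat.modEq_zero_iff_dvd.2 (Dvd.dvd.mul_left hfd _)
    simpa using Nat.ModEq.add_right (e + 1) h2
  have h1 := hasSum_of_mod d hd (fun u : ℕ => (a (u + d + 1) : ℝ) * F (((u : ℝ) + d + 1) / d))
    (fun e => (a (e + 1) : ℝ) * ∑' v : ℕ, F (1 + (v : ℝ) + (((((e + 1 : ℕ) : ℚ) / d : ℚ)) : ℝ)))
    (fun e _ => by
      have := ((hsub e).hasSum).mul_left (a (e + 1) : ℝ)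
      show HasSum (fun v : ℕ => (a (v * d + e + d + 1) : ℝ) *
        F ((((v * d + e : ℕ) : ℝ) + d + 1) / d)) _
      simp only [hpt, hav]
      exact this)
  rw [h1.tsum_eq]
  unfold Sd
  rw [Finset.sum_image]
  · refine Finset.sum_nbij' (fun e => e + 1) (fun j => j - 1) ?_ ?_ ?_ ?_ ?_
    · intro e he; rw [Finset.mem_range] at he; rw [Finset.mem_Icc]; omega
    · intro j hj; rw [Finset.mem_Icc] at hj; rw [Finset.mem_range]; omega
    · intro e _; omega
    · intro j hj; rw [Finset.mem_Icc] at hj; omega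
    · intro e _
      rw [jd_eq hd]
  · intro a _ b _ hab
    have hd' : (d : ℚ) ≠ 0 := by exact_mod_cast (by omega : d ≠ 0)
    simp only at hab
    rw [div_left_inj' hd'] at hab
    exact_mod_cast hab

theorem t_noa : S_NOa := by
  classical
  intro B f a w hf ha hu hwf hw
  have hX := Xs_nonempty hf ha hu hwf hw
  set X := XsA B a w with hXdef
  set N := X.card with hNdef
  have hN : 1 ≤ N := Finset.card_pos.2 hX
  have hNpos : 0 < N := hN
  have hXP : ∀ x ∈ X, x ∈ Pt B := fun x hx => (Finset.mem_filter.1 hx).1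
  have hXom : ∀ x ∈ X, omA B a w x ≠ 0 := fun x hx => (Finset.mem_filter.1 hx).2
  let xf : ℕ → ℚ := fun i => X.orderEmbOfFin rfl ⟨i % N, Nat.mod_lt _ hNpos⟩
  have hxf : ∀ i, xf i ∈ X := fun i => Finset.orderEmbOfFin_mem _ _ _
  have hB : 1 ≤ B := by
    obtain ⟨d, hd, -⟩ := hw
    have := Finset.mem_Icc.1 hd
    omega
  have hBr : (1 : ℝ) ≤ B := by exact_mod_cast hB
  set c3 : ℝ := ∑ u ∈ Finset.range f, |(a u : ℝ)| with hc3
  have hc3' : ∀ m : ℕ, |(a m : ℝ)| ≤ c3 := by
    intro m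
    have h1 : a m = a (m % f) := per_eq ha (Nat.mod_modEq m f).symm
    rw [h1, hc3]
    exact Finset.single_le_sum (f := fun u => |(a u : ℝ)|) (fun _ _ => abs_nonneg _)
      (Finset.mem_range.2 (Nat.mod_lt _ hf))
  set c2 : ℝ := ∑ d ∈ Finset.Icc 1 B, |(w d : ℝ)| * c3 with hc2
  refine ⟨N, 1 / (B : ℝ) ^ 2, 1, c2, fun i => 1 + ((i / N : ℕ) : ℝ) + ((xf i : ℚ) : ℝ),
    fun i => ((omA B a w (xf i) : ℤ) : ℝ), ?_, ?_, ?_⟩
  · refine ⟨hN, by positivity, ?_, one_pos, ?_, ?_, ?_, ?_, ?_⟩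
    · rw [div_le_one (by positivity)]
      nlinarith
    · intro i
      have : (0 : ℝ) < ((xf i : ℚ) : ℝ) := by exact_mod_cast (Pt_pos (hXP _ (hxf i))).1
      linarith
    · intro i
      have : ((xf i : ℚ) : ℝ) ≤ 1 := by exact_mod_cast (Pt_pos (hXP _ (hxf i))).2
      linarith
    · intro i
      by_cases hi : i % N + 1 < N
      · have e1 : (i + 1) / N = i / N := by
          rw [Nat.div_eq_iff hNpos]
          have := Nat.div_add_mod i N
          have h3 : N * (i / N) = i / N * N := mul_comm _ _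
          constructor
          · omega
          · omega
        have e2 : (i + 1) % N = i % N + 1 := by
          rw [Nat.add_mod_eq_ite]
          have h1N : 1 % N = 1 := Nat.mod_eq_of_lt (by omega)
          rw [h1N, if_neg (by omega)]
        have h3 : xf i < xf (i + 1) := by
          apply (X.orderEmbOfFin rfl).strictMono
          rw [Fin.lt_def]
          simp only
          omega
        have h4 := Pt_gap (hXP _ (hxf i)) (hXP _ (hxf (i + 1))) h3
        have h5 : (((1 / (B : ℚ) ^ 2 : ℚ)) : ℝ) ≤ (((xf (i + 1) - xf i : ℚ)) : ℝ) := by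
          exact_mod_cast h4
        push_cast at h5
        rw [e1]
        linarith
      · have hlt := Nat.mod_lt i hNpos
        have e1 : (i + 1) / N = i / N + 1 := by
          rw [Nat.div_eq_iff hNpos]
          have := Nat.div_add_mod i N
          have h3 : N * (i / N) = i / N * N := mul_comm _ _
          have h4 : (i / N + 1) * N = i / N * N + N := by ring
          constructor
          · omega
          · omega
        have h4 := Pt_lo (hXP _ (hxf (i + 1)))
        have h5 : (((1 / (B : ℚ) ^ 2 : ℚ)) : ℝ) ≤ (((xf (i + 1) : ℚ)) : ℝ) := by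
          exact_mod_cast h4
        push_cast at h5
        have h6 : ((xf i : ℚ) : ℝ) ≤ 1 := by exact_mod_cast (Pt_pos (hXP _ (hxf i))).2
        rw [e1]
        push_cast
        linarith
    · intro i
      have := Int.one_le_abs (hXom _ (hxf i))
      exact_mod_cast this
    · intro i
      unfold omA
      push_cast
      refine (Finset.abs_sum_le_sum_abs _ _).trans ?_
      have hc30 : 0 ≤ c3 := Finset.sum_nonneg fun _ _ => abs_nonneg _
      refine (Finset.sum_le_sum (fun d _ => ?_)).trans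
        (Finset.sum_le_sum_of_subset_of_nonneg (f := fun d => |(w d : ℝ)| * c3)
          (Finset.filter_subset _ _) fun _ _ _ => mul_nonneg (abs_nonneg _) hc30)
      rw [abs_mul]
      exact mul_le_mul_of_nonneg_left (hc3' _) (abs_nonneg _)
  · refine le_trans (Nat.mul_le_mul_left 2 ?_) (card_Pt B)
    exact Finset.card_le_card (Finset.filter_subset _ _)
  · intro F hF
    -- the series at a fraction
    let G : ℚ → ℝ := fun x => ∑' v : ℕ, F (1 + (v : ℝ) + ((x : ℚ) : ℝ))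
    have hG : ∀ x ∈ Pt B, HasSum (fun v : ℕ => F (1 + (v : ℝ) + ((x : ℚ) : ℝ))) (G x) := by
      intro x hx
      obtain ⟨d, hd, hx⟩ := Finset.mem_biUnion.1 hx
      exact ((tsum_d (Finset.mem_Icc.1 hd).1 F (hF d hd)).1 x hx).hasSum
    have hsum : ∑ d ∈ Finset.Icc 1 B, (w d : ℝ) *
          ∑' u : ℕ, (a (u + d + 1) : ℝ) * F (((u : ℝ) + d + 1) / d) =
        ∑ e ∈ Finset.range N, ((omA B a w (xf e) : ℤ) : ℝ) * G (xf e) := by
      have e1 : ∑ d ∈ Finset.Icc 1 B, (w d : ℝ) *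
            ∑' u : ℕ, (a (u + d + 1) : ℝ) * F (((u : ℝ) + d + 1) / d) =
          ∑ d ∈ Finset.Icc 1 B, ∑ x ∈ Sd d, (w d : ℝ) * a (jd x d) * G x := by
        refine Finset.sum_congr rfl fun d hd => ?_
        by_cases hwd : w d = 0
        · rw [hwd]
          simp
        · rw [tsum_dA (Finset.mem_Icc.1 hd).1 (hwf d hwd) ha F (hF d hd), Finset.mul_sum]
          refine Finset.sum_congr rfl fun x _ => ?_
          rw [mul_assoc]
      have e2 : ∑ d ∈ Finset.Icc 1 B, ∑ x ∈ Sd d, (w d : ℝ) * a (jd x d) * G x =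
          ∑ x ∈ Pt B, ∑ d ∈ (Finset.Icc 1 B).filter (fun d => x ∈ Sd d),
            (w d : ℝ) * a (jd x d) * G x := by
        refine Finset.sum_comm' fun d x => ?_
        rw [Finset.mem_filter]
        constructor
        · rintro ⟨h1, h2⟩
          exact ⟨⟨h1, h2⟩, Finset.mem_biUnion.2 ⟨d, h1, h2⟩⟩
        · rintro ⟨h1, -⟩
          exact h1
      have e3 : ∑ x ∈ Pt B, ∑ d ∈ (Finset.Icc 1 B).filter (fun d => x ∈ Sd d),
            (w d : ℝ) * a (jd x d) * G x =
          ∑ x ∈ Pt B, ((omA B a w x : ℤ) : ℝ) * G x := by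
        refine Finset.sum_congr rfl fun x _ => ?_
        unfold omA
        push_cast
        rw [Finset.sum_mul]
      have e4 : ∑ x ∈ Pt B, ((omA B a w x : ℤ) : ℝ) * G x = ∑ x ∈ X, ((omA B a w x : ℤ) : ℝ) * G x := by
        rw [hXdef]
        unfold XsA
        rw [Finset.sum_filter]
        refine Finset.sum_congr rfl fun x _ => ?_
        split_ifs with h
        · rfl
        · push Not at h
          rw [h]
          simp
      have e5 : ∑ x ∈ X, ((omA B a w x : ℤ) : ℝ) * G x =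
          ∑ e ∈ Finset.range N, ((omA B a w (xf e) : ℤ) : ℝ) * G (xf e) := by
        symm
        refine Finset.sum_bij (fun e _ => xf e) (fun e _ => hxf e) ?_ ?_ (fun _ _ => rfl)
        · intro a ha b hb hab
          have h1 := (X.orderEmbOfFin rfl).injective hab
          rw [Fin.mk.injEq, Nat.mod_eq_of_lt (Finset.mem_range.1 ha),
            Nat.mod_eq_of_lt (Finset.mem_range.1 hb)] at h1
          exact h1
        · intro x hx
          have h1 : x ∈ Set.range (X.orderEmbOfFin rfl) := by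
            rw [Finset.range_orderEmbOfFin]
            exact hx
          obtain ⟨i, hi⟩ := h1
          refine ⟨i.1, Finset.mem_range.2 i.2, ?_⟩
          rw [← hi]
          show X.orderEmbOfFin rfl _ = _
          congr 1
          apply Fin.ext
          exact Nat.mod_eq_of_lt i.2
      rw [e1, e2, e3, e4, e5]
    rw [hsum]
    refine hasSum_of_mod N hN _ _ fun e he => ?_
    have hx : ∀ v : ℕ, xf (v * N + e) = xf e := by
      intro v
      show X.orderEmbOfFin rfl _ = X.orderEmbOfFin rfl _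
      congr 1
      apply Fin.ext
      show (v * N + e) % N = e % N
      rw [Nat.add_comm, Nat.add_mul_mod_self_right]
    have hdiv : ∀ v : ℕ, (v * N + e) / N = v := by
      intro v
      rw [Nat.add_comm, Nat.add_mul_div_right _ _ hNpos, Nat.div_eq_of_lt he, zero_add]
    have h1 := (hG (xf e) (hXP _ (hxf e))).mul_left (((omA B a w (xf e) : ℤ) : ℝ))
    have h2 : (fun v : ℕ => ((omA B a w (xf (v * N + e)) : ℤ) : ℝ) *
        F (1 + (((v * N + e) / N : ℕ) : ℝ) + ((xf (v * N + e) : ℚ) : ℝ))) =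
        fun v : ℕ => ((omA B a w (xf e) : ℤ) : ℝ) * F (1 + (v : ℝ) + ((xf e : ℚ) : ℝ)) := by
      funext v
      rw [hx, hdiv]
    show HasSum (fun v : ℕ => ((omA B a w (xf (v * N + e)) : ℤ) : ℝ) *
        F (1 + (((v * N + e) / N : ℕ) : ℝ) + ((xf (v * N + e) : ℚ) : ℝ))) _
    rw [h2]
    exact h1

end Pool.Agent.W165.OZ.NOA
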