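import Pool.Agent.W165.OZ.Stm3

/-!
# Values of periodic Dirichlet series: the real moments (part RMA)
-/

open Polynomial Pool.Agent.H337R2 Filter Topology

namespace Pool.Agent.W165.OZ

noncomputable section

lemma rma_natDegree (n k : ℕ) : (numE n (X ^ k)).natDegree ≤ 2 * k := by
  unfold numE
  rw [Polynomial.X_pow_comp]
  refine natDegree_pow_le.trans ?_
  have h3 : (yp n).natDegree ≤ 2 := by
    unfold yp
    refine natDegree_mul_le.trans ?_
    have h4 : (X : ℚ[X]).natDegree ≤ 1 := natDegree_X_le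
    have h5 : ((X : ℚ[X]) + C ((n : ℚ) - 1)).natDegree ≤ 1 := (natDegree_X_add_C _).le
    omega
  calc k * (yp n).natDegree ≤ k * 2 := Nat.mul_le_mul_left _ h3
    _ = 2 * k := by ring

lemma rma_term (n h k : ℕ) (c : ℤ) (d u : ℕ) :
    (((c : ℚ) * ((numE n (X ^ k)).eval (((u : ℚ) + d + 1) / d) /
      (∏ j ∈ Finset.range n, (((u : ℚ) + d + 1) / d + (j : ℚ))) ^ (2 * h)) : ℚ) : ℝ) =
    (c : ℝ) * (RvE n h (((u : ℝ) + d + 1) / d) * yv n (((u : ℝ) + d + 1) / d) ^ k) := by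
  unfold numE RvE yv yp
  simp only [eval_mul, eval_add, eval_C, eval_X, eval_comp, eval_pow]
  push_cast
  ring

theorem t_rma (h1 : S_DSa) (h2 : S_EVa) : S_RMa := by
  intro n h B f a w hn _ hh hf ha hw k hk
  have hdeg : (numE n (X ^ k)).natDegree + 2 ≤ 2 * h * n := by
    have := rma_natDegree n k
    have h3 : 2 * h * n = 2 * (h * n) := by ring
    omega
  set P := numE n (X ^ k) with hP
  have hS : ∀ d ∈ Finset.Icc 1 B, w d ≠ 0 → HasSum (fun u : ℕ => (a (u + d + 1) : ℝ) *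
      (RvE n h (((u : ℝ) + d + 1) / d) * yv n (((u : ℝ) + d + 1) / d) ^ k))
      (∑ i ∈ Finset.Icc 1 (2 * h), (((rhoP n h P i * (d : ℚ) ^ i : ℚ) : ℝ) *
        (if 2 ≤ i then zra a i else 0) -
      (((d : ℚ) ^ i * ∑ k ∈ sP n, pa (sP n) (mP h) P k i * hsa a i (d * (k + 1)) : ℚ) : ℝ))) := by
    intro d hd hwd
    have h3 := h1 n h d f a P (by omega) hh (Finset.mem_Icc.1 hd).1 hf (hw d hwd) ha hdeg
    have h4 : (fun u : ℕ => (a (u + d + 1) : ℝ) *
        (RvE n h (((u : ℝ) + d + 1) / d) * yv n (((u : ℝ) + d + 1) / d) ^ k)) =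
        fun u : ℕ => (((a (u + d + 1) : ℚ) * (P.eval (((u : ℚ) + d + 1) / d) /
      (∏ k ∈ Finset.range n, (((u : ℚ) + d + 1) / d + (k : ℚ))) ^ (2 * h)) : ℚ) : ℝ) := by
      funext u
      exact (rma_term n h k _ d u).symm
    rw [h4]
    exact h3
  refine ⟨fun d hd => ?_, ?_⟩
  · have h3 := h1 n h d 1 (fun _ => 1) P (by omega) hh (Finset.mem_Icc.1 hd).1 le_rfl
      (one_dvd d) (fun _ => rfl) hdeg
    have h4 : (fun u : ℕ => RvE n h (((u : ℝ) + d + 1) / d) * yv n (((u : ℝ) + d + 1) / d) ^ k) =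
        fun u : ℕ => (((((fun _ => 1 : ℕ → ℤ) (u + d + 1) : ℤ) : ℚ) *
        (P.eval (((u : ℚ) + d + 1) / d) /
      (∏ k ∈ Finset.range n, (((u : ℚ) + d + 1) / d + (k : ℚ))) ^ (2 * h)) : ℚ) : ℝ) := by
      funext u
      have h5 := rma_term n h k 1 d u
      have h6 : (((1 : ℤ) : ℝ)) * (RvE n h (((u : ℝ) + d + 1) / d) *
          yv n (((u : ℝ) + d + 1) / d) ^ k) =
          RvE n h (((u : ℝ) + d + 1) / d) * yv n (((u : ℝ) + d + 1) / d) ^ k := by
        rw [Int.cast_one, one_mul]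
      exact h6.symm.trans h5.symm
    rw [h4]
    exact h3.summable
  have h4 : ∑ d ∈ Finset.Icc 1 B, (w d : ℝ) * ∑' u : ℕ, (a (u + d + 1) : ℝ) *
      (RvE n h (((u : ℝ) + d + 1) / d) * yv n (((u : ℝ) + d + 1) / d) ^ k) =
      ∑ d ∈ Finset.Icc 1 B, (w d : ℝ) * ∑ i ∈ Finset.Icc 1 (2 * h),
        (((rhoP n h P i * (d : ℚ) ^ i : ℚ) : ℝ) * (if 2 ≤ i then zra a i else 0) -
      (((d : ℚ) ^ i * ∑ k ∈ sP n, pa (sP n) (mP h) P k i * hsa a i (d * (k + 1)) : ℚ) : ℝ)) := by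
    apply Finset.sum_congr rfl
    intro d hd
    by_cases hwd : w d = 0
    · rw [hwd, Int.cast_zero, zero_mul, zero_mul]
    · rw [(hS d hd hwd).tsum_eq]
  rw [h4]
  unfold moA LaA
  rw [← hP]
  simp_rw [Finset.mul_sum]
  rw [Finset.sum_comm]
  apply Finset.sum_congr rfl
  intro i hi
  obtain ⟨hi1, hi2⟩ := Finset.mem_Icc.1 hi
  have h5 : ((rhoP n h P i : ℚ) : ℝ) * zza a i =
      ((rhoP n h P i : ℚ) : ℝ) * (if 2 ≤ i then zra a i else 0) := by
    rcases Nat.even_or_odd i with he | ho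
    · unfold zza
      have h6 : 2 ≤ i := by
        obtain ⟨j, hj⟩ := he
        omega
      rw [if_pos ⟨he, h6⟩, if_pos h6]
    · rw [hP, h2 n h (X ^ k) i (by omega) ho]
      simp
  simp only [eq_ratCast]
  have h6 : ((rhoP n h P i * (WW B w i : ℚ) : ℚ) : ℝ) * zza a i =
      ∑ d ∈ Finset.Icc 1 B, (w d : ℝ) * (((rhoP n h P i * (d : ℚ) ^ i : ℚ) : ℝ) *
        (if 2 ≤ i then zra a i else 0)) := by
    unfold WW
    push_cast
    rw [mul_assoc, mul_comm (∑ d ∈ Finset.Icc 1 B, (w d : ℝ) * (d : ℝ) ^ i) (zza a i), ← mul_assoc,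
      h5, Finset.mul_sum]
    apply Finset.sum_congr rfl
    intro d _
    ring
  have h7 : ((betA a n h B w P i : ℚ) : ℝ) = ∑ d ∈ Finset.Icc 1 B, (w d : ℝ) *
      (((d : ℚ) ^ i * ∑ k ∈ sP n, pa (sP n) (mP h) P k i * hsa a i (d * (k + 1)) : ℚ) : ℝ) := by
    unfold betA
    push_cast
    apply Finset.sum_congr rfl
    intro d _
    ring
  rw [h6, h7, ← Finset.sum_sub_distrib]
  apply Finset.sum_congr rfl
  intro d _
  rw [← Finset.mul_sum, mul_sub]

end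

end Pool.Agent.W165.OZ
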