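import Pool.Agent.W165.OZ.Stm3

/-!
# Integrality at the primes `p ≤ n`
-/

open Polynomial Pool.Agent.H337R2 Filter Topology

namespace Pool.Agent.W165.OZ

noncomputable section

namespace SEA

lemma numE_add (n : ℕ) (P Q : ℚ[X]) : numE n (P + Q) = numE n P + numE n Q := by
  unfold numE
  rw [Polynomial.add_comp]

lemma numE_C_mul (n : ℕ) (c : ℚ) (Q : ℚ[X]) : numE n (C c * Q) = C c * numE n Q := by
  unfold numE
  rw [Polynomial.mul_comp, Polynomial.C_comp]

lemma betA_add (a : ℕ → ℤ) (n h B : ℕ) (w : ℕ → ℤ) (P Q : ℚ[X]) (i : ℕ) :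
    betA a n h B w (P + Q) i = betA a n h B w P i + betA a n h B w Q i := by
  unfold betA
  rw [← Finset.sum_add_distrib]
  apply Finset.sum_congr rfl
  intro d _
  rw [← mul_add, ← Finset.sum_add_distrib]
  congr 1
  apply Finset.sum_congr rfl
  intro k _
  rw [pa_add]; ring

lemma betA_C_mul (a : ℕ → ℤ) (n h B : ℕ) (w : ℕ → ℤ) (c : ℚ) (P : ℚ[X]) (i : ℕ) :
    betA a n h B w (C c * P) i = c * betA a n h B w P i := by
  unfold betA
  rw [Finset.mul_sum]
  apply Finset.sum_congr rfl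
  intro d _
  have : ∑ k ∈ sP n, pa (sP n) (mP h) (C c * P) k i * hsa a i (d * (k + 1))
      = c * ∑ k ∈ sP n, pa (sP n) (mP h) P k i * hsa a i (d * (k + 1)) := by
    rw [Finset.mul_sum]
    apply Finset.sum_congr rfl
    intro k _
    rw [pa_C_mul]; ring
  rw [this]; ring

/-- the linear form as a linear map of the polynomial `Q(y)` -/
def LaAL {A : Type*} [CommRing A] [Algebra ℚ A] (a : ℕ → ℤ) (n h B : ℕ) (w : ℕ → ℤ) (z : ℕ → A) :
    ℚ[X] →ₗ[ℚ] A where
  toFun Q := LaA a n h B w z (numE n Q)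
  map_add' P Q := by
    unfold LaA
    rw [numE_add, ← Finset.sum_add_distrib]
    apply Finset.sum_congr rfl
    intro i _
    rw [rhoP_add, betA_add, add_mul, map_add, map_add]
    ring
  map_smul' c P := by
    rw [Polynomial.smul_eq_C_mul, numE_C_mul, RingHom.id_apply]
    unfold LaA
    rw [Finset.smul_sum]
    apply Finset.sum_congr rfl
    intro i _
    rw [rhoP_C_mul, betA_C_mul, Algebra.smul_def, mul_assoc c, map_mul, map_mul (algebraMap ℚ A) c]
    ring

lemma moA_eq {A : Type*} [CommRing A] [Algebra ℚ A] (a : ℕ → ℤ) (n h B : ℕ) (w : ℕ → ℤ) (z : ℕ → A) (k : ℕ) :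
    moA a n h B w z k = LaAL a n h B w z (X ^ k) := rfl

lemma det_mem {A : Type*} [CommRing A] (S : Subring A) {r : ℕ} (M : Matrix (Fin r) (Fin r) A)
    (h : ∀ i j, M i j ∈ S) : M.det ∈ S := by
  rw [Matrix.det_apply']
  refine Subring.sum_mem _ fun σ _ => ?_
  exact S.mul_mem (intCast_mem S _) (Subring.prod_mem _ fun i _ => h _ _)

lemma norm_mul_le {p : ℕ} [Fact p.Prime] {x y : ℚ} (hx : padicNorm p x ≤ 1) (hy : padicNorm p y ≤ 1) :
    padicNorm p (x * y) ≤ 1 := by
  rw [padicNorm.mul]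
  exact mul_le_one₀ hx (padicNorm.nonneg _) hy

/-- one entry -/
lemma entry (h2 : S_PAa) (h3 : S_HBa) (A : Type) [CommRing A] [Algebra ℚ A] (p : ℕ) [hp : Fact p.Prime]
    (S : Subring A) (hS : ∀ x : ℚ, padicNorm p x ≤ 1 → algebraMap ℚ A x ∈ S)
    (a : ℕ → ℤ) (n h B : ℕ) (w : ℕ → ℤ) (z : ℕ → A) (q : ℕ) (hz : ∀ i, (q : A) * z i ∈ S)
    (hn : 2 ≤ n) (he : Even n) (hh : 1 ≤ h) (hB : 1 ≤ B) (hpn : p ≤ n) (i i' : ℕ)
    (hi : 2 * i < h * n) (hi' : 2 * i' < h * n) :
    algebraMap ℚ A ((q : ℚ) * sc n h B i * sc n h B i') * SEA.LaAL a n h B w z (Qb n i * Qb n i') ∈ S := by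
  set c : ℚ := sc n h B i * sc n h B i' with hc
  set P := numE n (Qb n i * Qb n i') with hP
  have hpa : ∀ k < n, ∀ ι, 1 ≤ ι → ι ≤ 2 * h →
      padicNorm p (c * pa (sP n) (mP h) P k ι) * (p : ℚ) ^ (ι * Nat.log p (B * n)) ≤ 1 :=
    fun k hk ι h1 h2' => h2 p n h B hn he hh hB hpn i i' k ι hi hi' hk h1 h2'
  have hp1 : (1 : ℚ) ≤ p := by exact_mod_cast hp.out.one_lt.le
  have hpa1 : ∀ k < n, ∀ ι, 1 ≤ ι → ι ≤ 2 * h → padicNorm p (c * pa (sP n) (mP h) P k ι) ≤ 1 := by
    intro k hk ι h1 h2'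
    refine le_trans ?_ (hpa k hk ι h1 h2')
    exact le_mul_of_one_le_right (padicNorm.nonneg _) (one_le_pow₀ hp1)
  change algebraMap ℚ A ((q : ℚ) * sc n h B i * sc n h B i') * LaA a n h B w z P ∈ S
  unfold LaA
  rw [Finset.mul_sum]
  refine Subring.sum_mem _ fun ι hι => ?_
  rw [Finset.mem_Icc] at hι
  have e1 : algebraMap ℚ A ((q : ℚ) * sc n h B i * sc n h B i') *
      (algebraMap ℚ A (rhoP n h P ι * WW B w ι) * z ι - algebraMap ℚ A (betA a n h B w P ι)) =
      algebraMap ℚ A (c * rhoP n h P ι * WW B w ι) * ((q : A) * z ι) -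
        algebraMap ℚ A ((q : ℚ) * (c * betA a n h B w P ι)) := by
    rw [hc]
    simp only [map_mul, map_natCast]
    ring
  rw [e1]
  apply S.sub_mem
  · apply S.mul_mem _ (hz ι)
    apply hS
    apply norm_mul_le
    · unfold rhoP
      rw [Finset.mul_sum]
      apply padicNorm.sum_le' _ zero_le_one
      intro k hk
      exact hpa1 k (Finset.mem_range.1 hk) ι hι.1 hι.2
    · exact padicNorm.of_int _
  · apply hS
    apply norm_mul_le (padicNorm.of_nat _)
    unfold betA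
    rw [Finset.mul_sum]
    apply padicNorm.sum_le' _ zero_le_one
    intro d hd
    rw [Finset.mem_Icc] at hd
    have e2 : c * ((w d : ℚ) * (d : ℚ) ^ ι * ∑ k ∈ sP n, pa (sP n) (mP h) P k ι * hsa a ι (d * (k + 1))) =
        (w d : ℚ) * ∑ k ∈ sP n, (c * pa (sP n) (mP h) P k ι) * ((d : ℚ) ^ ι * hsa a ι (d * (k + 1))) := by
      rw [Finset.mul_sum, Finset.mul_sum, Finset.mul_sum]
      refine Finset.sum_congr rfl fun k _ => ?_
      ring
    rw [e2]
    apply norm_mul_le (padicNorm.of_int _)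
    apply padicNorm.sum_le' _ zero_le_one
    intro k hk
    have hk' := Finset.mem_range.1 hk
    rw [padicNorm.mul]
    refine le_trans ?_ (hpa k hk' ι hι.1 hι.2)
    exact mul_le_mul_of_nonneg_left (h3 p a n B d k ι hd.1 hd.2 hk') (padicNorm.nonneg _)

end SEA

theorem t_sea (h1 : S_BAS) (h2 : S_PAa) (h3 : S_HBa) : S_SEa := by
  intro A _ _ p _ S hS a n h B w z q hz hn he hh hB hpn r hr
  have hdet : DH (moA a n h B w z) r =
      Matrix.det (Matrix.of fun i j : Fin r => SEA.LaAL a n h B w z (Qb n i.1 * Qb n j.1)) := by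
    rw [h1 ℚ A (SEA.LaAL a n h B w z) (Qb n) (Qb_monic n) (fun i => Qb_natDegree n i hn) r]
    rfl
  set M : Matrix (Fin r) (Fin r) A :=
    Matrix.of fun i j : Fin r => SEA.LaAL a n h B w z (Qb n i.1 * Qb n j.1) with hM
  have hN : Matrix.det (Matrix.of fun i j : Fin r => algebraMap ℚ A ((q : ℚ) * sc n h B i.1) *
      (Matrix.of fun i j : Fin r => algebraMap ℚ A (sc n h B j.1) * M i j) i j) =
      algebraMap ℚ A ((q : ℚ) ^ r * ∏ i ∈ Finset.range r, sc n h B i ^ 2) * M.det := by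
    rw [Matrix.det_mul_column (fun i : Fin r => algebraMap ℚ A ((q : ℚ) * sc n h B i.1)),
      Matrix.det_mul_row (fun j : Fin r => algebraMap ℚ A (sc n h B j.1)), ← mul_assoc]
    congr 1
    rw [← map_prod, ← map_prod, ← map_mul]
    congr 1
    rw [Finset.prod_mul_distrib, Finset.prod_const, Finset.card_univ, Fintype.card_fin, mul_assoc,
      ← Finset.prod_mul_distrib]
    congr 1
    rw [Finset.prod_range]
    refine Finset.prod_congr rfl fun i _ => ?_
    ring
  rw [hdet, ← hN]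
  apply SEA.det_mem
  intro i j
  have hi := i.2
  have hj := j.2
  have key := SEA.entry h2 h3 A p S hS a n h B w z q hz hn he hh hB hpn i.1 j.1 (by omega) (by omega)
  have e : (Matrix.of fun i j : Fin r => algebraMap ℚ A ((q : ℚ) * sc n h B i.1) *
      (Matrix.of fun i j : Fin r => algebraMap ℚ A (sc n h B j.1) * M i j) i j) i j =
      algebraMap ℚ A ((q : ℚ) * sc n h B i.1 * sc n h B j.1) *
        SEA.LaAL a n h B w z (Qb n i.1 * Qb n j.1) := by
    simp only [Matrix.of_apply, hM, map_mul]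
    ring
  rw [e]
  exact key

end

end Pool.Agent.W165.OZ
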