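import Pool.Agent.W165.OZ.Stm3

/-!
# OZL-TBA: the tail bound by comparison
-/

set_option autoImplicit false

open Polynomial Pool.Agent.H337R2 Filter Topology

namespace Pool.Agent.W165.OZ

theorem t_tbax (h1 : S_TB) : S_TBa := by
  intro N δ c1 c2 τ ω hN n h M k hn hh hk
  obtain ⟨h2, h3⟩ := h1 N δ c1 c2 τ ω hN n h M k hn hh hk
  have hn1 : (1 : ℝ) ≤ n := by exact_mod_cast hn
  have hτ : ∀ i, (1 : ℝ) < τ i := by
    intro i
    have := hN.lo i
    have h0 : (0 : ℝ) ≤ ((i / N : ℕ) : ℝ) := Nat.cast_nonneg _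
    linarith
  have key : ∀ i, 0 ≤ |ω (i + M)| * (RvE n h (τ (i + M)) * yv n (τ (i + M)) ^ k) ∧
      |ω (i + M)| * (RvE n h (τ (i + M)) * yv n (τ (i + M)) ^ k) ≤
        |ω (i + M)| * (Rv n h (τ (i + M)) * yv n (τ (i + M)) ^ k) := by
    intro i
    have ht := hτ (i + M)
    have hP : 0 < (∏ k ∈ Finset.range n, (τ (i + M) + (k : ℝ))) ^ (2 * h) := by
      apply pow_pos
      apply Finset.prod_pos
      intro k _
      have : (0 : ℝ) ≤ (k : ℝ) := Nat.cast_nonneg _
      linarith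
    have hy : 0 ≤ yv n (τ (i + M)) ^ k := by
      apply pow_nonneg
      unfold yv
      apply mul_nonneg (by linarith)
      linarith
    have hE0 : 0 ≤ RvE n h (τ (i + M)) := by
      unfold RvE
      positivity
    have hE : RvE n h (τ (i + M)) ≤ Rv n h (τ (i + M)) := by
      unfold RvE Rv
      apply div_le_div_of_nonneg_right _ hP.le
      linarith
    refine ⟨mul_nonneg (abs_nonneg _) (mul_nonneg hE0 hy), ?_⟩
    exact mul_le_mul_of_nonneg_left (mul_le_mul_of_nonneg_right hE hy) (abs_nonneg _)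
  have hS : Summable (fun i => |ω (i + M)| * (RvE n h (τ (i + M)) * yv n (τ (i + M)) ^ k)) :=
    Summable.of_nonneg_of_le (fun i => (key i).1) (fun i => (key i).2) h2
  exact ⟨hS, (hS.tsum_le_tsum (fun i => (key i).2) h2).trans h3⟩

end Pool.Agent.W165.OZ
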