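import Pool.Agent.W165.OZ.Fin
import Pool.Agent.W165.OZ.NOA
import Pool.Agent.W165.OZ.DSA
import Pool.Agent.W165.OZ.EVA
import Pool.Agent.W165.OZ.RMA
import Pool.Agent.W165.OZ.TBAx
import Pool.Agent.W165.OZ.RLA
import Pool.Agent.W165.OZ.COA
import Pool.Agent.W165.OZ.NVA
import Pool.Agent.W165.OZ.ARA
import Pool.Agent.W165.OZ.PAA
import Pool.Agent.W165.OZ.HBA
import Pool.Agent.W165.OZ.SEA
import Pool.Agent.W165.OZ.HJA
import Pool.Agent.W165.OZ.SFA
import Pool.Agent.W165.OZ.PRA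
import Pool.Agent.W165.OZ.MAA

/-!
# Periodic Dirichlet series at even integers: assembly
-/

open Polynomial Pool.Agent.H337R2 Filter Topology

namespace Pool.Agent.W165.OZ

noncomputable section

theorem za_rm : S_RMa := t_rma (t_dsa t_pf) t_eva
theorem za_tb : S_TBa := t_tbax t_tb
theorem za_nv : S_NVa := t_nva t_hk t_coa za_tb t_rla t_pi t_nu
theorem za_ar : S_ARa := t_ara t_bas za_tb
theorem za_se : S_SEa := t_sea t_bas t_paa t_hba
theorem za_sf : S_SFa := t_sfa t_la t_pj t_hja (t_po t_pf t_pj)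
theorem za_pr : S_PRa := t_pra za_se za_sf
theorem za_ma : S_MAa := MAA.t_maa t_we NOA.t_noa za_rm za_nv za_ar za_pr z_as

lemma za_large (M : ℝ) : ∃ s1 : ℕ, ∀ s : ℕ, s1 ≤ s → M ≤ Real.sqrt (s * Real.log (Real.log s) / Real.log s) := by
  have h1 : Tendsto (fun s : ℕ => Real.log (Real.log (s : ℝ))) atTop atTop :=
    Real.tendsto_log_atTop.comp (Real.tendsto_log_atTop.comp tendsto_natCast_atTop_atTop)
  have h2 : Tendsto (fun s : ℕ => Real.log (s : ℝ)) atTop atTop :=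
    Real.tendsto_log_atTop.comp tendsto_natCast_atTop_atTop
  have h3 : ∀ᶠ s : ℕ in atTop, M ^ 4 ≤ (s : ℝ) := tendsto_natCast_atTop_atTop.eventually_ge_atTop _
  have h4 : ∀ᶠ s : ℕ in atTop, 2 ≤ Real.log (Real.log (s : ℝ)) := h1.eventually_ge_atTop 2
  have h5 : ∀ᶠ s : ℕ in atTop, 1 ≤ Real.log (s : ℝ) := h2.eventually_ge_atTop 1
  obtain ⟨s1, hs1⟩ := eventually_atTop.1 ((h3.and h4).and h5)
  refine ⟨s1, fun s hs => ?_⟩
  obtain ⟨⟨a1, a2⟩, a3⟩ := hs1 s hs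
  have hs0 : (0 : ℝ) < s := by
    by_contra hneg
    have : (s : ℝ) = 0 := le_antisymm (not_lt.1 hneg) (Nat.cast_nonneg _)
    rw [this, Real.log_zero] at a3
    linarith
  apply Real.le_sqrt_of_sq_le
  rw [le_div_iff₀ (by linarith)]
  -- log s ≤ 2 √s, M^2 ≤ √s
  set q := Real.sqrt s with hq
  have hq0 : 0 < q := Real.sqrt_pos.2 hs0
  have hqq : q * q = s := Real.mul_self_sqrt hs0.le
  have h6 : Real.log (s : ℝ) ≤ 2 * q := by
    rw [← hqq, Real.log_mul hq0.ne' hq0.ne']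
    have := Real.log_le_sub_one_of_pos hq0
    linarith
  have h7 : M ^ 2 ≤ q := by
    apply Real.le_sqrt_of_sq_le
    have e4 : (M ^ 2) ^ 2 = M ^ 4 := by ring
    rw [e4]
    exact a1
  calc M ^ 2 * Real.log s ≤ q * (2 * q) := by
        apply mul_le_mul h7 h6 (by linarith) hq0.le
    _ = s * 2 := by rw [← hqq]; ring
    _ ≤ s * Real.log (Real.log s) := by
        apply mul_le_mul_of_nonneg_left a2 hs0.le

/-- for an `f`-periodic integer valued `a` at least `(c/f) √(s loglog s / log s)` of the values `∑ a(n)/n^i`,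
`i ≤ s` even, are irrational -/
theorem za_final : ∃ c : ℝ, 0 < c ∧ ∀ f : ℕ, 1 ≤ f → ∃ s0 : ℕ, ∀ s ≥ s0, ∀ a : ℕ → ℤ,
    (∀ u, a (u + f) = a u) → (∃ u, Nat.Coprime u f ∧ a u ≠ 0) →
    c / f * Real.sqrt (s * Real.log (Real.log s) / Real.log s) ≤
      (Set.ncard {i : ℕ | 2 ≤ i ∧ i ≤ s ∧ Even i ∧
        Irrational (∑' n : ℕ, (a (n + 1) : ℝ) / ((n : ℝ) + 1) ^ i)} : ℝ) := by
  obtain ⟨C1, hC1, hM⟩ := za_ma
  obtain ⟨c, hc, s0, hs⟩ := t_fi C1 hC1
  refine ⟨c / 2, by positivity, fun f hf => ?_⟩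
  obtain ⟨s1, hs1⟩ := za_large (2 * f / c)
  refine ⟨max s0 s1, fun s hs0 a ha hu => ?_⟩
  obtain ⟨h, B, h1, h2, h3, h4, h5⟩ := hs s (le_trans (le_max_left _ _) hs0)
  have h6 := hs1 s (le_trans (le_max_right _ _) hs0)
  have hf0 : (0 : ℝ) < f := by exact_mod_cast hf
  have h7 : (2 * f : ℝ) ≤ B := by
    calc (2 * f : ℝ) = c * (2 * f / c) := by field_simp
      _ ≤ c * Real.sqrt (s * Real.log (Real.log s) / Real.log s) := by
          apply mul_le_mul_of_nonneg_left h6 hc.le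
      _ ≤ B := h4
  have h8 : f ≤ B := by
    have : (f : ℝ) ≤ B := by linarith
    exact_mod_cast this
  obtain ⟨I, hI, hI2⟩ := hM f a hf ha hu h B h8 h3 h5
  have h9 : (B : ℝ) / f ≤ (B / f : ℕ) + 1 := by
    rw [div_le_iff₀ hf0]
    have := Nat.lt_div_mul_add (a := B) (b := f) (by omega)
    have h10 : B ≤ (B / f + 1) * f := by
      have e : (B / f + 1) * f = B / f * f + f := by ring
      omega
    exact_mod_cast h10
  have h11 : c / 2 / f * Real.sqrt (s * Real.log (Real.log s) / Real.log s) ≤ (B / f : ℕ) := by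
    have e1 : c / 2 / f * Real.sqrt (s * Real.log (Real.log s) / Real.log s) ≤ (B : ℝ) / f / 2 := by
      calc c / 2 / f * Real.sqrt (s * Real.log (Real.log s) / Real.log s)
          = (c * Real.sqrt (s * Real.log (Real.log s) / Real.log s)) / f / 2 := by ring
        _ ≤ (B : ℝ) / f / 2 := by gcongr
    have e2 : 2 ≤ (B : ℝ) / f := by
      rw [le_div_iff₀ hf0]; exact h7
    linarith
  refine h11.trans ?_
  have hfin : {i : ℕ | 2 ≤ i ∧ i ≤ s ∧ Even i ∧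
        Irrational (∑' n : ℕ, (a (n + 1) : ℝ) / ((n : ℝ) + 1) ^ i)}.Finite :=
    (Set.finite_Iic s).subset fun i hi => hi.2.1
  have hsub : (I : Set ℕ) ⊆ {i : ℕ | 2 ≤ i ∧ i ≤ s ∧ Even i ∧
        Irrational (∑' n : ℕ, (a (n + 1) : ℝ) / ((n : ℝ) + 1) ^ i)} := by
    intro i hi
    obtain ⟨b1, b2, b3, b4⟩ := hI2 i hi
    exact ⟨b1, b2.trans h1, b3, b4⟩
  have h12 := Set.ncard_le_ncard hsub hfin
  rw [Set.ncard_coe_finset] at h12
  exact_mod_cast hI.trans h12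

end

end Pool.Agent.W165.OZ
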