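import Pool.Agent.W165.OZ.Stm

/-!
# Vanishing Hankel determinants give an orthogonal polynomial of small degree
-/

open Polynomial Filter Topology

namespace Pool.Agent.W165.OZ

noncomputable section

/-- orthogonality to monomials gives orthogonality to polynomials -/
lemma hk_ortho (μ : ℕ → ℝ) (Q : ℝ[X]) (r : ℕ) (h : ∀ j < r, Lf μ (Q * X ^ j) = 0) (P : ℝ[X])
    (hP : P.natDegree < r) : Lf μ (Q * P) = 0 := by
  rw [Polynomial.as_sum_range' P r hP, Finset.mul_sum, map_sum]
  apply Finset.sum_eq_zero
  intro i hi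
  rw [← Polynomial.C_mul_X_pow_eq_monomial, mul_left_comm, ← Polynomial.smul_eq_C_mul, map_smul,
    h i (Finset.mem_range.1 hi), smul_zero]

/-- kernel vector of a singular Hankel matrix -/
lemma hk_kernel (μ : ℕ → ℝ) (r : ℕ) (h : DH μ r = 0) :
    ∃ Q : ℝ[X], Q ≠ 0 ∧ Q.natDegree < r ∧ ∀ j < r, Lf μ (Q * X ^ j) = 0 := by
  unfold DH at h
  obtain ⟨v, hv, hv2⟩ := Matrix.exists_mulVec_eq_zero_iff.2 h
  have hr : 0 < r := by
    by_contra h0
    have : r = 0 := by omega
    subst this
    apply hv
    ext i
    exact i.elim0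
  have hcoeff : ∀ k : Fin r, (∑ j : Fin r, C (v j) * (X : ℝ[X]) ^ (j : ℕ)).coeff (k : ℕ) = v k := by
    intro k
    rw [Polynomial.finsetSum_coeff]
    rw [Finset.sum_eq_single k]
    · rw [Polynomial.coeff_C_mul_X_pow, if_pos rfl]
    · intro j _ hj
      rw [Polynomial.coeff_C_mul_X_pow, if_neg]
      intro h'
      exact hj (Fin.ext h'.symm)
    · intro hk
      exact absurd (Finset.mem_univ k) hk
  refine ⟨∑ j : Fin r, C (v j) * (X : ℝ[X]) ^ (j : ℕ), ?_, ?_, ?_⟩
  · intro h0
    apply hv
    ext k
    rw [← hcoeff k, h0, Polynomial.coeff_zero, Pi.zero_apply]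
  · have h1 : (∑ j : Fin r, C (v j) * (X : ℝ[X]) ^ (j : ℕ)).natDegree ≤ r - 1 := by
      apply Polynomial.natDegree_sum_le_of_forall_le
      intro j _
      refine (Polynomial.natDegree_C_mul_X_pow_le _ _).trans ?_
      have := j.2
      omega
    omega
  · intro i hi
    have h2 := congrFun hv2 ⟨i, hi⟩
    rw [Matrix.mulVec, Pi.zero_apply] at h2
    unfold dotProduct at h2
    rw [Finset.sum_mul, map_sum, ← h2]
    apply Finset.sum_congr rfl
    intro j _
    rw [mul_assoc, ← pow_add, ← Polynomial.smul_eq_C_mul, map_smul, Lf_X_pow, smul_eq_mul, mul_comm,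
      Nat.add_comm]
    rfl

theorem t_hk : S_HK := by
  intro μ r0 m h1 h2 hD
  have key : ∀ r, r0 ≤ r → r ≤ m →
      ∃ Q : ℝ[X], Q ≠ 0 ∧ Q.natDegree < r0 ∧ ∀ j < r, Lf μ (Q * X ^ j) = 0 := by
    intro r hr
    induction r, hr using Nat.le_induction with
    | base =>
      intro hm
      exact hk_kernel μ r0 (hD r0 le_rfl hm)
    | succ r hr ih =>
      intro hm
      obtain ⟨Q, hQ0, hQd, hQ⟩ := ih (by omega)
      by_cases he : Lf μ (Q * X ^ r) = 0
      · refine ⟨Q, hQ0, hQd, fun j hj => ?_⟩
        rcases Nat.lt_succ_iff_lt_or_eq.1 hj with h3 | h3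
        · exact hQ j h3
        · rw [h3]; exact he
      · obtain ⟨Q', hQ'0, hQ'd, hQ'⟩ := hk_kernel μ (r + 1) (hD (r + 1) (by omega) hm)
        rcases Nat.lt_or_ge Q'.natDegree Q.natDegree with hlt | hge
        · exact ⟨Q', hQ'0, by omega, hQ'⟩
        · exfalso
          have hXne : (X : ℝ[X]) ^ (r - Q'.natDegree) ≠ 0 := pow_ne_zero _ Polynomial.X_ne_zero
          have hdP : (Q * X ^ (r - Q'.natDegree)).natDegree < r + 1 := by
            rw [Polynomial.natDegree_mul hQ0 hXne, Polynomial.natDegree_X_pow]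
            omega
          have hz := hk_ortho μ Q' (r + 1) hQ' _ hdP
          set S := Q' * X ^ (r - Q'.natDegree) with hS
          have hSd : S.natDegree = r := by
            rw [hS, Polynomial.natDegree_mul hQ'0 hXne, Polynomial.natDegree_X_pow]
            omega
          have hSne : S ≠ 0 := mul_ne_zero hQ'0 hXne
          have hSe : S.eraseLead.natDegree < r := by
            have := Polynomial.eraseLead_natDegree_le S
            omega
          have h3 : Lf μ (Q * S) = 0 := by
            have h6 : Q * S = Q' * (Q * X ^ (r - Q'.natDegree)) := by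
              rw [hS]
              ring
            rw [h6]
            exact hz
          have h4 : Q * S = Q * S.eraseLead + C S.leadingCoeff * (Q * X ^ r) := by
            conv_lhs => rw [← Polynomial.eraseLead_add_C_mul_X_pow S]
            rw [hSd]
            ring
          rw [h4, map_add, hk_ortho μ Q r hQ _ hSe, zero_add, ← Polynomial.smul_eq_C_mul, map_smul,
            smul_eq_mul] at h3
          rcases mul_eq_zero.1 h3 with h5 | h5
          · exact hSne (Polynomial.leadingCoeff_eq_zero.1 h5)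
          · exact he h5
  exact key m h2 le_rfl

end

end Pool.Agent.W165.OZ
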