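import Pool.Agent.W165.OZ.Stm3
import Pool.Agent.W165.OZ.PR

/-!
# Project OZL, part PRA: the lower bound for a non-vanishing determinant (periodic coefficients)
-/

open Polynomial Pool.Agent.H337R2 Filter Topology

namespace Pool.Agent.W165.OZ

open PRaux

theorem t_pra (h1 : S_SEa) (h2 : S_SFa) : S_PRa := by
  intro a n h B w z q hq hz hn hev hh hB hBn r hr hne
  have hx : ∀ p : ℕ, [Fact p.Prime] → padicNorm p (DH (moA a n h B w z) r *
      ((q : ℚ) ^ r * (∏ i ∈ Finset.range r, sc n h B i ^ 2) * (PPn n h B : ℚ))) ≤ 1 := by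
    intro p hp
    have hS : ∀ x : ℚ, padicNorm p x ≤ 1 → algebraMap ℚ ℚ x ∈ Sring p := fun x hx => hx
    have hqz : ∀ i, (q : ℚ) * z i ∈ Sring p := by
      intro i
      obtain ⟨b, hb⟩ := hz i
      rw [hb, mem_Sring]
      exact padicNorm.of_int b
    rw [← mem_Sring]
    by_cases hpn : p ≤ n
    · have h3 := h1 ℚ p (Sring p) hS a n h B w z q hqz hn hev hh hB hpn r hr
      have h4 : ((PPn n h B : ℕ) : ℚ) ∈ Sring p := by
        rw [mem_Sring]
        exact padicNorm.of_nat _
      have h5 := (Sring p).mul_mem h3 h4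
      have h6 : algebraMap ℚ ℚ ((q : ℚ) ^ r * ∏ i ∈ Finset.range r, sc n h B i ^ 2) *
          DH (moA a n h B w z) r * ((PPn n h B : ℕ) : ℚ) =
          DH (moA a n h B w z) r *
            ((q : ℚ) ^ r * (∏ i ∈ Finset.range r, sc n h B i ^ 2) * (PPn n h B : ℚ)) := by
        rw [Algebra.algebraMap_self, RingHom.id_apply]
        ring
      rwa [h6] at h5
    · have hpn' : n < p := by omega
      have h3 := h2 ℚ p (Sring p) hS a n h B w z q hqz hn hh hB hBn hpn' r hr
      obtain ⟨m, hm⟩ := dvd_PPn p n h B hpn'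
      have h4 : (m : ℚ) ∈ Sring p := by
        rw [mem_Sring]
        exact padicNorm.of_nat _
      have h5 : (∏ i ∈ Finset.range r, sc n h B i ^ 2) ∈ Sring p := by
        refine Subring.prod_mem _ fun i _ => Subring.pow_mem _ ?_ _
        rw [mem_Sring]
        exact padicNorm_sc p n h B i hn hpn'
      have h6 := (Sring p).mul_mem ((Sring p).mul_mem h3 h5) h4
      have h7 : algebraMap ℚ ℚ ((q : ℚ) ^ r * (p : ℚ) ^ (2 * h * Sp n B p)) *
          DH (moA a n h B w z) r * (∏ i ∈ Finset.range r, sc n h B i ^ 2) * (m : ℚ) =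
          DH (moA a n h B w z) r *
            ((q : ℚ) ^ r * (∏ i ∈ Finset.range r, sc n h B i ^ 2) * (PPn n h B : ℚ)) := by
        rw [Algebra.algebraMap_self, RingHom.id_apply, hm]
        push_cast
        ring
      rwa [h7] at h6
  have hpos : 0 < (q : ℚ) ^ r * (∏ i ∈ Finset.range r, sc n h B i ^ 2) * (PPn n h B : ℚ) := by
    have a1 : (0 : ℚ) < (q : ℚ) := by exact_mod_cast hq
    have a2 : (0 : ℚ) < ∏ i ∈ Finset.range r, sc n h B i ^ 2 :=
      Finset.prod_pos fun i _ => pow_pos (sc_pos n h B i) 2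
    have a3 : (0 : ℚ) < (PPn n h B : ℚ) := by exact_mod_cast PPn_pos n h B
    positivity
  have h8 := one_le_abs hx (mul_ne_zero hne hpos.ne')
  rwa [abs_mul, abs_of_pos hpos] at h8

end Pool.Agent.W165.OZ
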