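import Pool.Agent.W165.OZ.Stm

/-!
# Odd zeta values outside number fields: the statements of the additional parts
-/

open Polynomial Pool.Agent.H337R2 Filter Topology

namespace Pool.Agent.W165.OZ

noncomputable section

/-- PK: the norm of the determinant over a number field -/
def S_PK : Prop := ∀ (K : Type) [Field K] [Algebra ℚ K] [FiniteDimensional ℚ K] (n h B : ℕ) (w : ℕ → ℤ)
  (z : ℕ → K) (q : ℕ), 1 ≤ q → (∀ i, IsIntegral ℤ ((q : K) * z i)) →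
  2 ≤ n → Even n → 1 ≤ h → 1 ≤ B → B ≤ n → ∀ r : ℕ, 2 * r ≤ h * n → DH (mo n h B w z) r ≠ 0 →
  1 ≤ |Algebra.norm ℚ (algebraMap ℚ K ((q : ℚ) ^ r * (∏ i ∈ Finset.range r, sc n h B i ^ 2) * (PPn n h B : ℚ)) *
    DH (mo n h B w z) r)|

/-- CB: the absolute value of the normalised partial fraction coefficients -/
def S_CB : Prop := ∃ C : ℝ, 0 < C ∧ ∀ n h B i i' k ι : ℕ, 2 ≤ n → Even n → 1 ≤ h → 1 ≤ B →
  2 * i < h * n → 2 * i' < h * n → k < n → 1 ≤ ι → ι ≤ 2 * h →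
  |((sc n h B i * sc n h B i' * pa (sP n) (mP h) (num n (Qb n i * Qb n i')) k ι : ℚ) : ℝ)| ≤
    Real.exp (C * h * (n + Real.sqrt ((B : ℝ) * n) * Real.log ((B : ℝ) * n)))

/-- CD: the conjugates of the determinant -/
def S_CD : Prop := ∃ C2 : ℝ, 0 < C2 ∧ ∀ (h B : ℕ) (w : ℕ → ℤ) (Z : ℝ), 1 ≤ h → 1 ≤ B →
  ∃ n0 : ℕ, ∀ n ≥ n0, Even n → ∀ z : ℕ → ℂ, (∀ i, ‖z i‖ ≤ Z) → ∀ r : ℕ, 2 * r ≤ h * n →
    ‖algebraMap ℚ ℂ (∏ i ∈ Finset.range r, sc n h B i ^ 2) * DH (mo n h B w z) r‖ ≤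
      Real.exp (C2 * ((h : ℝ) * n) ^ 2)

/-- FJ: the choice of the parameters -/
def S_FJ : Prop := ∀ C1 : ℝ, 0 < C1 → ∃ c : ℝ, 0 < c ∧ ∃ s0 : ℕ, ∀ s ≥ s0, ∀ D : ℕ, 1 ≤ D →
  (D : ℝ) ≤ c * Real.log (Real.log s) → ∃ h B : ℕ,
  2 * h ≤ s ∧ 1 ≤ B ∧ 16 * (B * (B + 1)) ≤ h ∧
  c * Real.sqrt (s * Real.log (Real.log s) / (D * Real.log s)) ≤ B ∧
  C1 * D * (1 + ((B : ℝ) * (B + 1) / h) * (1 + Real.log B)) < (1 / 16) * Real.log ((h : ℝ) / ((B : ℝ) * (B + 1)))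

/-- MB: the main inequality for number fields -/
def S_MB : Prop := ∃ C1 : ℝ, 0 < C1 ∧ ∀ D h B : ℕ, 1 ≤ D → 1 ≤ B → 16 * (B * (B + 1)) ≤ h →
  C1 * D * (1 + ((B : ℝ) * (B + 1) / h) * (1 + Real.log B)) < (1 / 16) * Real.log ((h : ℝ) / ((B : ℝ) * (B + 1))) →
  ∀ K : IntermediateField ℚ ℝ, FiniteDimensional ℚ K → Module.finrank ℚ K ≤ D →
  ∃ I : Finset ℕ, B ≤ I.card ∧ ∀ i ∈ I, 3 ≤ i ∧ i ≤ 2 * h ∧ Odd i ∧ zr i ∉ K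

end

end Pool.Agent.W165.OZ
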