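import Pool.Agent.W165.OZ.Stm

/-!
# Values of periodic Dirichlet series at even integers (Catalan's constant and its companions)

The same functional without the factor `2t+n-1` and with periodic coefficients `a u`:
`Q ↦ ∑_{d ≤ B} w_d ∑_{u > d} a(u) Q(y(u/d)) / (∏_{k<n} (u/d+k))^(2h)`, `w_d ≠ 0` only if the period divides `d`.
-/

open Polynomial Pool.Agent.H337R2 Filter Topology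

namespace Pool.Agent.W165.OZ

noncomputable section

/-- the numerator `Q(y(t))` -/
def numE (n : ℕ) (Q : ℚ[X]) : ℚ[X] := Q.comp (yp n)

/-- partial sums of `∑ a(u)/u^i` -/
def hsa (a : ℕ → ℤ) (i m : ℕ) : ℚ := ∑ l ∈ Finset.range m, (a (l + 1) : ℚ) / ((l : ℚ) + 1) ^ i

/-- the value `∑ a(u)/u^i` -/
def zra (a : ℕ → ℤ) (i : ℕ) : ℝ := ∑' t : ℕ, (a (t + 1) : ℝ) / ((t : ℝ) + 1) ^ i

/-- the rational part belonging to the poles of order `i` -/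
def betA (a : ℕ → ℤ) (n h B : ℕ) (w : ℕ → ℤ) (P : ℚ[X]) (i : ℕ) : ℚ :=
  ∑ d ∈ Finset.Icc 1 B, (w d : ℚ) * (d : ℚ) ^ i *
    ∑ k ∈ sP n, pa (sP n) (mP h) P k i * hsa a i (d * (k + 1))

/-- the linear form, with `z i` in the place of `∑ a(u)/u^i` -/
def LaA {A : Type*} [CommRing A] [Algebra ℚ A] (a : ℕ → ℤ) (n h B : ℕ) (w : ℕ → ℤ) (z : ℕ → A) (P : ℚ[X]) : A :=
  ∑ i ∈ Finset.Icc 1 (2 * h),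
    (algebraMap ℚ A (rhoP n h P i * WW B w i) * z i - algebraMap ℚ A (betA a n h B w P i))

/-- the moments -/
def moA {A : Type*} [CommRing A] [Algebra ℚ A] (a : ℕ → ℤ) (n h B : ℕ) (w : ℕ → ℤ) (z : ℕ → A) (k : ℕ) : A :=
  LaA a n h B w z (numE n (X ^ k))

/-- `1/(∏_{k<n}(t+k))^(2h)` for real `t` -/
def RvE (n h : ℕ) (t : ℝ) : ℝ := 1 / (∏ k ∈ Finset.range n, (t + (k : ℝ))) ^ (2 * h)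

/-- the values, `0` where they are not needed -/
def zza (a : ℕ → ℤ) (i : ℕ) : ℝ := if Even i ∧ 2 ≤ i then zra a i else 0

/-- `μ k = ∑_i ω_i R(τ_i) y(τ_i)^k` for all `k ≤ h n - 2` -/
def MomE (n h : ℕ) (τ ω : ℕ → ℝ) (μ : ℕ → ℝ) : Prop :=
  ∀ k, k + 2 ≤ h * n → HasSum (fun i => ω i * (RvE n h (τ i) * yv n (τ i) ^ k)) (μ k)

/-! ### The real side -/

def S_NOa : Prop := ∀ (B f : ℕ) (a : ℕ → ℤ) (w : ℕ → ℤ), 1 ≤ f → (∀ u, a (u + f) = a u) →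
  (∃ u, Nat.Coprime u f ∧ a u ≠ 0) →
  (∀ d, w d ≠ 0 → f ∣ d) → (∃ d ∈ Finset.Icc 1 B, w d ≠ 0) →
  ∃ (N : ℕ) (δ c1 c2 : ℝ) (τ ω : ℕ → ℝ), Nodes N δ c1 c2 τ ω ∧ 2 * N ≤ B * (B + 1) ∧
    ∀ F : ℝ → ℝ, (∀ d ∈ Finset.Icc 1 B, Summable (fun u : ℕ => F (((u : ℝ) + d + 1) / d))) →
      HasSum (fun i => ω i * F (τ i))
        (∑ d ∈ Finset.Icc 1 B, (w d : ℝ) * ∑' u : ℕ, (a (u + d + 1) : ℝ) * F (((u : ℝ) + d + 1) / d))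

def S_DSa : Prop := ∀ (n h d f : ℕ) (a : ℕ → ℤ) (P : ℚ[X]), 1 ≤ n → 1 ≤ h → 1 ≤ d → 1 ≤ f → f ∣ d →
  (∀ u, a (u + f) = a u) → P.natDegree + 2 ≤ 2 * h * n →
  HasSum (fun u : ℕ => (((a (u + d + 1) : ℚ) * (P.eval (((u : ℚ) + d + 1) / d) /
      (∏ k ∈ Finset.range n, (((u : ℚ) + d + 1) / d + (k : ℚ))) ^ (2 * h)) : ℚ) : ℝ))
    (∑ i ∈ Finset.Icc 1 (2 * h), (((rhoP n h P i * (d : ℚ) ^ i : ℚ) : ℝ) * (if 2 ≤ i then zra a i else 0) -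
      (((d : ℚ) ^ i * ∑ k ∈ sP n, pa (sP n) (mP h) P k i * hsa a i (d * (k + 1)) : ℚ) : ℝ)))

def S_EVa : Prop := ∀ (n h : ℕ) (Q : ℚ[X]) (i : ℕ), 1 ≤ n → Odd i → rhoP n h (numE n Q) i = 0

def S_RMa : Prop := ∀ (n h B f : ℕ) (a : ℕ → ℤ) (w : ℕ → ℤ), 2 ≤ n → Even n → 1 ≤ h → 1 ≤ f →
  (∀ u, a (u + f) = a u) → (∀ d, w d ≠ 0 → f ∣ d) → ∀ k, k + 2 ≤ h * n →
  (∀ d ∈ Finset.Icc 1 B, Summable (fun u : ℕ =>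
    RvE n h (((u : ℝ) + d + 1) / d) * yv n (((u : ℝ) + d + 1) / d) ^ k)) ∧
  moA a n h B w (zza a) k = ∑ d ∈ Finset.Icc 1 B, (w d : ℝ) * ∑' u : ℕ, (a (u + d + 1) : ℝ) *
    (RvE n h (((u : ℝ) + d + 1) / d) * yv n (((u : ℝ) + d + 1) / d) ^ k)

def S_TBa : Prop := ∀ (N : ℕ) (δ c1 c2 : ℝ) (τ ω : ℕ → ℝ), Nodes N δ c1 c2 τ ω → ∀ n h M k : ℕ, 1 ≤ n → 1 ≤ h →
  k + 2 ≤ h * n →
  Summable (fun i => |ω (i + M)| * (RvE n h (τ (i + M)) * yv n (τ (i + M)) ^ k)) ∧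
  ∑' i, |ω (i + M)| * (RvE n h (τ (i + M)) * yv n (τ (i + M)) ^ k) ≤
    4 * (N : ℝ) ^ 2 * c2 * (MM N M ^ (2 * (h * n - 2 - k)))⁻¹

def S_RLa : Prop := ∀ (N : ℕ) (δ c1 c2 : ℝ) (τ ω : ℕ → ℝ), Nodes N δ c1 c2 τ ω → ∀ n h j : ℕ, 1 ≤ n →
  ((2 + (j : ℝ) / N + n) ^ (2 * h * n))⁻¹ ≤ RvE n h (τ j)

def S_COa : Prop := ∀ (N : ℕ) (δ c1 c2 : ℝ) (τ ω : ℕ → ℝ), Nodes N δ c1 c2 τ ω → ∀ n h : ℕ, 1 ≤ n → 1 ≤ h →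
  ∀ μ : ℕ → ℝ, MomE n h τ ω μ → ∀ m r0 : ℕ, 1 ≤ r0 → r0 ≤ m → 2 * m ≤ h * n →
  ∀ Q : ℝ[X], Q ≠ 0 → Q.natDegree < r0 → (∀ j < m, Lf μ (Q * X ^ j) = 0) →
  1 ≤ ∑ j ∈ Finset.range r0,
    (∑' i, |ω (i + m)| * (RvE n h (τ (i + m)) * yv n (τ (i + m)) ^ ((m - 1) + (r0 - 1)))) /
      (c1 * RvE n h (τ j) * (∏ l ∈ (Finset.range m).erase j, |yv n (τ j) - yv n (τ l)|) *
        (∏ l ∈ (Finset.range r0).erase j, |yv n (τ j) - yv n (τ l)|))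

def S_NVa : Prop := ∀ (N : ℕ) (δ c1 c2 : ℝ) (τ ω : ℕ → ℝ), Nodes N δ c1 c2 τ ω → ∀ h : ℕ, 32 * N ≤ h →
  ∃ n0 : ℕ, ∀ n ≥ n0, Even n → ∀ μ : ℕ → ℝ, MomE n h τ ω μ →
    ∃ r : ℕ, h * n ≤ 16 * r ∧ 2 * r ≤ h * n ∧ DH μ r ≠ 0

def S_ARa : Prop := ∀ (N : ℕ) (δ c1 c2 : ℝ) (τ ω : ℕ → ℝ), Nodes N δ c1 c2 τ ω → ∀ n h : ℕ, 1 ≤ n → 1 ≤ h → Even n →
  ∀ μ : ℕ → ℝ, MomE n h τ ω μ → ∀ r : ℕ, 2 * r ≤ h * n → |DH μ r| ≤ Arc N n h (4 * (N : ℝ) ^ 2 * c2) r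

/-! ### The `p`-adic side -/

def S_PAa : Prop := ∀ (p : ℕ) [Fact p.Prime] (n h B : ℕ), 2 ≤ n → Even n → 1 ≤ h → 1 ≤ B → p ≤ n →
  ∀ i i' k ι : ℕ, 2 * i < h * n → 2 * i' < h * n → k < n → 1 ≤ ι → ι ≤ 2 * h →
    padicNorm p (sc n h B i * sc n h B i' * pa (sP n) (mP h) (numE n (Qb n i * Qb n i')) k ι) *
      (p : ℚ) ^ (ι * Nat.log p (B * n)) ≤ 1

def S_HBa : Prop := ∀ (p : ℕ) [Fact p.Prime] (a : ℕ → ℤ) (n B d k ι : ℕ), 1 ≤ d → d ≤ B → k < n →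
  padicNorm p ((d : ℚ) ^ ι * hsa a ι (d * (k + 1))) ≤ (p : ℚ) ^ (ι * Nat.log p (B * n))

def S_SEa : Prop := ∀ (A : Type) [CommRing A] [Algebra ℚ A] (p : ℕ) [Fact p.Prime] (S : Subring A),
  (∀ x : ℚ, padicNorm p x ≤ 1 → algebraMap ℚ A x ∈ S) →
  ∀ (a : ℕ → ℤ) (n h B : ℕ) (w : ℕ → ℤ) (z : ℕ → A) (q : ℕ), (∀ i, (q : A) * z i ∈ S) →
  2 ≤ n → Even n → 1 ≤ h → 1 ≤ B → p ≤ n → ∀ r : ℕ, 2 * r ≤ h * n →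
  algebraMap ℚ A ((q : ℚ) ^ r * ∏ i ∈ Finset.range r, sc n h B i ^ 2) * DH (moA a n h B w z) r ∈ S

def S_HJa : Prop := ∀ (p : ℕ) [Fact p.Prime] (a : ℕ → ℤ) (n B d k ι : ℕ), n < p → B ≤ n → 1 ≤ d → d ≤ B → k < n →
  padicNorm p (hsa a ι (d * (k + 1)) -
    ∑ v ∈ Finset.Icc 1 (d * (k + 1) / p), (a (p * v) : ℚ) / ((p * v : ℕ) : ℚ) ^ ι) ≤ 1

def S_SFa : Prop := ∀ (A : Type) [CommRing A] [Algebra ℚ A] (p : ℕ) [Fact p.Prime] (S : Subring A),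
  (∀ x : ℚ, padicNorm p x ≤ 1 → algebraMap ℚ A x ∈ S) →
  ∀ (a : ℕ → ℤ) (n h B : ℕ) (w : ℕ → ℤ) (z : ℕ → A) (q : ℕ), (∀ i, (q : A) * z i ∈ S) →
  2 ≤ n → 1 ≤ h → 1 ≤ B → B ≤ n → n < p → ∀ r : ℕ, 2 * r ≤ h * n →
  algebraMap ℚ A ((q : ℚ) ^ r * (p : ℚ) ^ (2 * h * Sp n B p)) * DH (moA a n h B w z) r ∈ S

def S_PRa : Prop := ∀ (a : ℕ → ℤ) (n h B : ℕ) (w : ℕ → ℤ) (z : ℕ → ℚ) (q : ℕ), 1 ≤ q →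
  (∀ i, ∃ b : ℤ, (q : ℚ) * z i = b) →
  2 ≤ n → Even n → 1 ≤ h → 1 ≤ B → B ≤ n → ∀ r : ℕ, 2 * r ≤ h * n → DH (moA a n h B w z) r ≠ 0 →
  1 ≤ |DH (moA a n h B w z) r| * ((q : ℚ) ^ r * (∏ i ∈ Finset.range r, sc n h B i ^ 2) * (PPn n h B : ℚ))

/-- the main inequality -/
def S_MAa : Prop := ∃ C1 : ℝ, 0 < C1 ∧ ∀ (f : ℕ) (a : ℕ → ℤ), 1 ≤ f → (∀ u, a (u + f) = a u) →
  (∃ u, Nat.Coprime u f ∧ a u ≠ 0) →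
  ∀ h B : ℕ, f ≤ B → 16 * (B * (B + 1)) ≤ h →
  C1 * (1 + ((B : ℝ) * (B + 1) / h) * (1 + Real.log B)) < (1 / 16) * Real.log ((h : ℝ) / ((B : ℝ) * (B + 1))) →
  ∃ I : Finset ℕ, B / f ≤ I.card ∧ ∀ i ∈ I, 2 ≤ i ∧ i ≤ 2 * h ∧ Even i ∧ Irrational (zra a i)

end

end Pool.Agent.W165.OZ
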